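import Mathlib

/-!
# Quasi-identities of lattice-ordered groups and the `ℓ`-group of automorphisms of a chain
-/

set_option autoImplicit false

namespace Pool.Agent.H978.QV

/-- Terms in the language `(·, ⁻¹, 1, ∧, ∨)` of `ℓ`-groups, with variables indexed by `ℕ`. -/
inductive Tm : Type
  | one : Tm
  | var : ℕ → Tm
  | mul : Tm → Tm → Tm
  | inv : Tm → Tm
  | sup : Tm → Tm → Tm
  | inf : Tm → Tm → Tm

/-- A quasi-identity: finitely many equations (the premises) and one equation (the conclusion). -/
structure QId : Type where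
  prem : List (Tm × Tm)
  concl : Tm × Tm

section chain
variable {Ω : Type} [LinearOrder Ω]

/-- The pointwise maximum of two automorphisms of a chain. -/
def supIso (f g : Ω ≃o Ω) : Ω ≃o Ω where
  toFun x := max (f x) (g x)
  invFun y := min (f.symm y) (g.symm y)
  left_inv x := by
    rcases le_total (f x) (g x) with h | h
    · have h1 : x ≤ f.symm (g x) := by rw [OrderIso.le_symm_apply]; exact h
      simp [h, h1]
    · have h1 : x ≤ g.symm (f x) := by rw [OrderIso.le_symm_apply]; exact h
      simp [h, h1]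
  right_inv y := by
    rcases le_total (f.symm y) (g.symm y) with h | h
    · have h1 : g (f.symm y) ≤ y := by rw [← OrderIso.le_symm_apply]; exact h
      simp [h, h1]
    · have h1 : f (g.symm y) ≤ y := by rw [← OrderIso.le_symm_apply]; exact h
      simp [h, h1]
  map_rel_iff' {a b} := by
    constructor
    · intro h
      by_contra hab
      have hab' := lt_of_not_ge hab
      have h1 := f.lt_iff_lt.2 hab'
      have h2 := g.lt_iff_lt.2 hab'
      have h3 : max (f b) (g b) < max (f a) (g a) := max_lt_max h1 h2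
      exact absurd h (not_le_of_gt h3)
    · intro h
      exact max_le_max (f.monotone h) (g.monotone h)

/-- The pointwise minimum of two automorphisms of a chain. -/
def infIso (f g : Ω ≃o Ω) : Ω ≃o Ω where
  toFun x := min (f x) (g x)
  invFun y := max (f.symm y) (g.symm y)
  left_inv x := by
    rcases le_total (f x) (g x) with h | h
    · have h1 : g.symm (f x) ≤ x := by rw [OrderIso.symm_apply_le]; exact h
      simp [h, h1]
    · have h1 : f.symm (g x) ≤ x := by rw [OrderIso.symm_apply_le]; exact h
      simp [h, h1]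
  right_inv y := by
    rcases le_total (f.symm y) (g.symm y) with h | h
    · have h1 : y ≤ f (g.symm y) := by rw [← OrderIso.symm_apply_le]; exact h
      simp [h, h1]
    · have h1 : y ≤ g (f.symm y) := by rw [← OrderIso.symm_apply_le]; exact h
      simp [h, h1]
  map_rel_iff' {a b} := by
    constructor
    · intro h
      by_contra hab
      have hab' := lt_of_not_ge hab
      have h1 := f.lt_iff_lt.2 hab'
      have h2 := g.lt_iff_lt.2 hab'
      have h3 : min (f b) (g b) < min (f a) (g a) := min_lt_min h1 h2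
      exact absurd h (not_le_of_gt h3)
    · intro h
      exact min_le_min (f.monotone h) (g.monotone h)

/-- The value of a term in the `ℓ`-group `Aut(Ω, ≤)` (composition of automorphisms, pointwise
order) under an assignment `ρ` of automorphisms to the variables. -/
def Tm.eval (ρ : ℕ → (Ω ≃o Ω)) : Tm → (Ω ≃o Ω)
  | .one => OrderIso.refl Ω
  | .var i => ρ i
  | .mul s t => (t.eval ρ).trans (s.eval ρ)
  | .inv t => (t.eval ρ).symm
  | .sup s t => supIso (s.eval ρ) (t.eval ρ)
  | .inf s t => infIso (s.eval ρ) (t.eval ρ)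

end chain

/-- A quasi-identity is valid in `Aut(Ω, ≤)` when every assignment that satisfies all premises
satisfies the conclusion. -/
def QId.Valid (q : QId) (Ω : Type) [LinearOrder Ω] : Prop :=
  ∀ ρ : ℕ → (Ω ≃o Ω), (∀ p ∈ q.prem, p.1.eval ρ = p.2.eval ρ) →
    q.concl.1.eval ρ = q.concl.2.eval ρ

/-- A code of a term: its reverse Polish notation. -/
def Tm.code : Tm → List ℕ
  | .one => [0]
  | .var i => [i + 5]
  | .mul s t => s.code ++ t.code ++ [1]
  | .inv t => t.code ++ [2]
  | .sup s t => s.code ++ t.code ++ [3]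
  | .inf s t => s.code ++ t.code ++ [4]

/-- The code of a quasi-identity. -/
def QId.code (q : QId) : List (List ℕ × List ℕ) × (List ℕ × List ℕ) :=
  (q.prem.map fun p => (p.1.code, p.2.code), (q.concl.1.code, q.concl.2.code))

/-- The product of a list of variables. -/
def prodV (l : List ℕ) : Tm := l.foldl (fun t v => .mul t (.var v)) .one

/-- The quasi-identities used: premises `x ∧ 1 = 1` (`x ∈ A`), `x ∧ y = 1` (`(x,y) ∈ B`) and
`(∏ l) b = b (∏ l')` (`(l, l') ∈ C`, `b` the variable `0`), conclusion `c₁ ∧ c₂ = 1`. -/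
def mkQ (A : List ℕ) (B : List (ℕ × ℕ)) (C : List (List ℕ × List ℕ)) (c : ℕ × ℕ) : QId where
  prem := (A.map fun x => (Tm.inf (.var x) .one, Tm.one)) ++
    (B.map fun p => (Tm.inf (.var p.1) (.var p.2), Tm.one)) ++
    (C.map fun p => (Tm.mul (prodV p.1) (.var 0), Tm.mul (.var 0) (prodV p.2)))
  concl := (Tm.inf (.var c.1) (.var c.2), .one)

/-! ### The quasi-identity of a Post correspondence instance -/

/-- The number written by a word in base `K`, letters shifted by one. -/
def num (K : ℕ) (w : List ℕ) : ℕ := w.foldl (fun a l => a * K + (l + 1)) 0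

/-- The base used for an instance. -/
def base (H G : List (List ℕ)) : ℕ := 2 + H.flatten.sum + G.flatten.sum

/-- positive variables: `s_∞ = 1`, `e = 2`, `s_i = 3 + 3 i`, `U_i = 4 + 3 i`, `V_i = 5 + 3 i`. -/
def Alist (N : ℕ) : List ℕ := [1, 2] ++ (List.range N).flatMap fun i => [3 + 3 * i, 4 + 3 * i, 5 + 3 * i]

def Blist (N : ℕ) : List (ℕ × ℕ) :=
  ((List.range N).flatMap fun i =>
    [(3 + 3 * i, 1), (2, 3 + 3 * i), (4 + 3 * i, 1), (5 + 3 * i, 1)]) ++
  (List.range N).flatMap fun i => (List.range i).flatMap fun j =>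
    [(3 + 3 * i, 3 + 3 * j), (4 + 3 * i, 3 + 3 * j), (5 + 3 * i, 3 + 3 * j),
      (4 + 3 * j, 3 + 3 * i), (5 + 3 * j, 3 + 3 * i)]

/-- `s_∞ ∏ s_i` -/
def Slist (N : ℕ) : List ℕ := [1] ++ (List.range N).map fun i => 3 + 3 * i
/-- `e ∏ U_i` (`o = 4`), `e ∏ V_i` (`o = 5`) -/
def Ulist (o N : ℕ) : List ℕ := [2] ++ (List.range N).map fun i => o + 3 * i
/-- `∏ U_i ^ (K ^ |h_i|) s_i ^ (num h_i)` -/
def Rlist (K o : ℕ) (H : List (List ℕ)) (N : ℕ) : List ℕ :=
  (List.range N).flatMap fun i => List.replicate (K ^ (H.getD i []).length) (o + 3 * i) ++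
    List.replicate (num K (H.getD i [])) (3 + 3 * i)

/-- The quasi-identity of the instance `(H, G)`. -/
def qPCP (H G : List (List ℕ)) : QId :=
  mkQ (Alist H.length) (Blist H.length)
    [(Slist H.length, Slist H.length),
      (Ulist 4 H.length, Rlist (base H G) 4 H H.length),
      (Ulist 5 H.length, Rlist (base H G) 5 G H.length)] (2, 1)

/-- solvability of the instance `(H, G)` (as in the library). -/
def Solv (H G : List (List ℕ)) : Prop :=
  ∃ x : List ℕ, x ≠ [] ∧ (∀ i ∈ x, i < H.length) ∧
    (x.flatMap fun i => H.getD i []) = x.flatMap fun i => G.getD i []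

end Pool.Agent.H978.QV
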