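import Mathlib
import Pool.Agent.H978.QV.Defs

set_option autoImplicit false

namespace Pool.Agent.H978.QV

namespace Num

theorem foldl_eq (K : ℕ) (w : List ℕ) : ∀ a : ℕ,
    w.foldl (fun a l => a * K + (l + 1)) a = a * K ^ w.length + num K w := by
  induction w with
  | nil => intro a; simp [num]
  | cons x w ih =>
    intro a
    have h1 : num K (x :: w) = (0 * K + (x + 1)) * K ^ w.length + num K w := by
      have h2 : num K (x :: w) = w.foldl (fun a l => a * K + (l + 1)) (0 * K + (x + 1)) := rfl
      rw [h2, ih]
    rw [List.foldl_cons, ih, h1, List.length_cons, pow_succ]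
    ring

theorem snoc (K : ℕ) (w : List ℕ) (x : ℕ) : num K (w ++ [x]) = num K w * K + (x + 1) := by
  have h2 : num K (w ++ [x]) =
      [x].foldl (fun a l => a * K + (l + 1)) (w.foldl (fun a l => a * K + (l + 1)) 0) := by
    unfold num
    rw [List.foldl_append]
  rw [h2]
  rfl

end Num

theorem num_append (K : ℕ) (w w' : List ℕ) :
    num K (w ++ w') = num K w * K ^ w'.length + num K w' := by
  have h2 : num K (w ++ w') = w'.foldl (fun a l => a * K + (l + 1)) (num K w) := by
    unfold num
    rw [List.foldl_append]
  rw [h2, Num.foldl_eq]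

theorem num_injective (K : ℕ) (w w' : List ℕ) (h : ∀ l ∈ w, l + 1 < K) (h' : ∀ l ∈ w', l + 1 < K)
    (e : num K w = num K w') : w = w' := by
  induction w using List.reverseRecOn generalizing w' with
  | nil =>
    rcases List.eq_nil_or_concat w' with rfl | ⟨v, y, rfl⟩
    · rfl
    · rw [List.concat_eq_append] at e
      rw [Num.snoc] at e
      have h0 : num K [] = 0 := rfl
      omega
  | append_singleton w x ih =>
    rcases List.eq_nil_or_concat w' with rfl | ⟨v, y, rfl⟩
    · rw [Num.snoc] at e
      have h0 : num K [] = 0 := rfl
      omega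
    · rw [List.concat_eq_append] at e h' ⊢
      rw [Num.snoc, Num.snoc] at e
      have hx : x + 1 < K := h x (by simp)
      have hy : y + 1 < K := h' y (by simp)
      have hK : 0 < K := by omega
      have e1 : num K w = num K v := by
        have := congrArg (fun n => n / K) e

        rwa [Nat.mul_comm (num K w), Nat.mul_comm (num K v), Nat.mul_add_div hK,
          Nat.mul_add_div hK, Nat.div_eq_of_lt hx, Nat.div_eq_of_lt hy, add_zero, add_zero] at this
      rw [e1] at e
      have e2 : x = y := by omega
      rw [ih v (fun l hl => h l (by simp [hl])) (fun l hl => h' l (by simp [hl])) e1, e2]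

end Pool.Agent.H978.QV
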