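import Pool.Agent.H978.QV.Aut
import Pool.Agent.H978.QV.Num

set_option autoImplicit false

namespace Pool.Agent.H978.QV

abbrev W : Type := (ℤ ×ₗ ℤ) ≃o (ℤ ×ₗ ℤ)

def kk (φ : W) : ℤ := (ofLex (φ (toLex (0, 0)))).1
def ff (φ : W) (β : ℤ) : ℤ := (ofLex (φ (toLex (β, 0)))).2

theorem form (φ : W) (β q : ℤ) : φ (toLex (β, q)) = toLex (β + kk φ, q + ff φ β) := by
  obtain ⟨k, f, h⟩ := aut_form φ
  have h1 : kk φ = k := by simp [kk, h]
  have h2 : ff φ β = f β := by simp [ff, h]
  rw [h, h1, h2]

theorem W_ext {φ ψ : W} (h1 : kk φ = kk ψ) (h2 : ∀ β, ff φ β = ff ψ β) : φ = ψ := by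
  apply DFunLike.ext
  intro x
  have hx : x = toLex ((ofLex x).1, (ofLex x).2) := rfl
  rw [hx, form, form, h1, h2]

theorem kk_of {φ : W} {k : ℤ} {f : ℤ → ℤ} (h : ∀ β q : ℤ, φ (toLex (β, q)) = toLex (β + k, q + f β)) :
    kk φ = k := by simp [kk, h]

theorem ff_of {φ : W} {k : ℤ} {f : ℤ → ℤ} (h : ∀ β q : ℤ, φ (toLex (β, q)) = toLex (β + k, q + f β))
    (β : ℤ) : ff φ β = f β := by simp [ff, h]

@[simp] theorem kk_refl : kk (OrderIso.refl _) = 0 := by simp [kk]
@[simp] theorem ff_refl (β : ℤ) : ff (OrderIso.refl _) β = 0 := by simp [ff]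

theorem trans_form (t s : W) (β q : ℤ) :
    (t.trans s) (toLex (β, q)) = toLex (β + (kk t + kk s), q + (ff t β + ff s (β + kk t))) := by
  rw [OrderIso.trans_apply, form, form]
  congr 2 <;> ring

@[simp] theorem kk_trans (t s : W) : kk (t.trans s) = kk t + kk s :=
  kk_of (f := fun β => ff t β + ff s (β + kk t)) (trans_form t s)

@[simp] theorem ff_trans (t s : W) (β : ℤ) : ff (t.trans s) β = ff t β + ff s (β + kk t) :=
  ff_of (k := kk t + kk s) (f := fun β => ff t β + ff s (β + kk t)) (trans_form t s) β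

theorem infIso_apply {Ω : Type} [LinearOrder Ω] (f g : Ω ≃o Ω) (x : Ω) :
    infIso f g x = min (f x) (g x) := rfl

theorem inf_lt {f g : W} (h : kk f < kk g) : infIso f g = f := by
  apply DFunLike.ext
  intro x
  have hx : x = toLex ((ofLex x).1, (ofLex x).2) := rfl
  rw [infIso_apply, hx, form, form]
  apply min_eq_left
  rw [Prod.Lex.toLex_le_toLex]
  left
  simpa using h

theorem inf_gt {f g : W} (h : kk g < kk f) : infIso f g = g := by
  apply DFunLike.ext
  intro x
  have hx : x = toLex ((ofLex x).1, (ofLex x).2) := rfl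
  rw [infIso_apply, hx, form, form]
  apply min_eq_right
  rw [Prod.Lex.toLex_le_toLex]
  left
  simpa using h

theorem inf_eq_form {f g : W} (h : kk f = kk g) (β q : ℤ) :
    infIso f g (toLex (β, q)) = toLex (β + kk f, q + min (ff f β) (ff g β)) := by
  rw [infIso_apply, form, form, ← h]
  rcases le_total (ff f β) (ff g β) with h1 | h1
  · rw [min_eq_left h1]
    apply min_eq_left
    rw [Prod.Lex.toLex_le_toLex]
    right
    exact ⟨rfl, by simpa using h1⟩
  · rw [min_eq_right h1]
    apply min_eq_right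
    rw [Prod.Lex.toLex_le_toLex]
    right
    exact ⟨rfl, by simpa using h1⟩

theorem kk_inf_eq {f g : W} (h : kk f = kk g) : kk (infIso f g) = kk f :=
  kk_of (f := fun β => min (ff f β) (ff g β)) (inf_eq_form h)

theorem ff_inf_eq {f g : W} (h : kk f = kk g) (β : ℤ) :
    ff (infIso f g) β = min (ff f β) (ff g β) :=
  ff_of (k := kk f) (f := fun β => min (ff f β) (ff g β)) (inf_eq_form h) β

/-- `x ∧ 1 = 1` -/
theorem pos_iff {x : W} : infIso x (OrderIso.refl _) = OrderIso.refl _ ↔
    0 < kk x ∨ (kk x = 0 ∧ ∀ β, 0 ≤ ff x β) := by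
  constructor
  · intro h
    rcases lt_trichotomy (kk x) 0 with h1 | h1 | h1
    · exfalso
      rw [inf_lt (by simpa using h1)] at h
      rw [h] at h1
      simp at h1
    · right
      refine ⟨h1, fun β => ?_⟩
      have h2 := ff_inf_eq (f := x) (g := OrderIso.refl _) (by simpa using h1) β
      rw [h] at h2
      simp only [ff_refl] at h2
      have := min_le_left (ff x β) 0
      omega
    · exact Or.inl h1
  · rintro (h | ⟨h1, h2⟩)
    · exact inf_gt (by simpa using h)
    · refine W_ext ?_ fun β => ?_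
      · rw [kk_inf_eq (by simpa using h1), h1]; simp
      · rw [ff_inf_eq (by simpa using h1)]
        simp [h2 β]

/-- `x ∧ y = 1` -/
theorem orth {x y : W} (h : infIso x y = OrderIso.refl _) :
    (kk x = 0 ∧ kk y = 0 ∧ ∀ β, min (ff x β) (ff y β) = 0) ∨ x = OrderIso.refl _ ∨
      y = OrderIso.refl _ := by
  rcases lt_trichotomy (kk x) (kk y) with h1 | h1 | h1
  · right; left
    rw [inf_lt h1] at h
    exact h
  · left
    have h2 := kk_inf_eq h1
    rw [h] at h2
    simp only [kk_refl] at h2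
    refine ⟨h2.symm, by rw [← h1]; exact h2.symm, fun β => ?_⟩
    have h3 := ff_inf_eq h1 β
    rw [h] at h3
    simpa using h3.symm
  · right; right
    rw [inf_gt h1] at h
    exact h

theorem orth_of {x y : W} (h1 : kk x = 0) (h2 : kk y = 0) (h : ∀ β, min (ff x β) (ff y β) = 0) :
    infIso x y = OrderIso.refl _ := by
  refine W_ext ?_ fun β => ?_
  · rw [kk_inf_eq (by rw [h1, h2]), h1]; simp
  · rw [ff_inf_eq (by rw [h1, h2]), h β]; simp

/-- value of `prodV` -/
theorem prodV_append (l : List ℕ) (v : ℕ) : prodV (l ++ [v]) = .mul (prodV l) (.var v) := by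
  simp [prodV]

theorem kk_prodV (ρ : ℕ → W) (l : List ℕ) :
    kk ((prodV l).eval ρ) = (l.map fun v => kk (ρ v)).sum := by
  induction l using List.reverseRecOn with
  | nil => simp [prodV, Tm.eval]
  | append_singleton l v ih =>
    rw [prodV_append, Tm.eval, kk_trans, ih]
    simp [Tm.eval]
    ring

theorem ff_prodV (ρ : ℕ → W) (l : List ℕ) (h : ∀ v ∈ l, kk (ρ v) = 0) (β : ℤ) :
    ff ((prodV l).eval ρ) β = (l.map fun v => ff (ρ v) β).sum := by
  induction l using List.reverseRecOn with
  | nil => simp [prodV, Tm.eval]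
  | append_singleton l v ih =>
    rw [prodV_append, Tm.eval, ff_trans]
    have h1 : kk (ρ v) = 0 := h v (by simp)
    have h2 := ih fun w hw => h w (by simp [hw])
    simp only [Tm.eval, h1, add_zero, h2]
    simp
    ring

theorem prodV_refl (ρ : ℕ → W) (l : List ℕ) (h : ∀ v ∈ l, ρ v = OrderIso.refl _) :
    (prodV l).eval ρ = OrderIso.refl _ := by
  induction l using List.reverseRecOn with
  | nil => simp [prodV, Tm.eval]
  | append_singleton l v ih =>
    rw [prodV_append, Tm.eval]
    have h1 : ρ v = OrderIso.refl _ := h v (by simp)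
    have h2 := ih fun w hw => h w (by simp [hw])
    rw [h2]
    simp only [Tm.eval, h1]
    rfl

/-- automorphisms from functions -/
def mkIso (k : ℤ) (f : ℤ → ℤ) : W where
  toFun x := toLex ((ofLex x).1 + k, (ofLex x).2 + f (ofLex x).1)
  invFun x := toLex ((ofLex x).1 - k, (ofLex x).2 - f ((ofLex x).1 - k))
  left_inv x := by
    have hx : x = toLex ((ofLex x).1, (ofLex x).2) := rfl
    rw [hx]; simp
  right_inv x := by
    have hx : x = toLex ((ofLex x).1, (ofLex x).2) := rfl
    rw [hx]; simp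
  map_rel_iff' {a b} := by
    have ha : a = toLex ((ofLex a).1, (ofLex a).2) := rfl
    have hb : b = toLex ((ofLex b).1, (ofLex b).2) := rfl
    rw [ha, hb]
    simp only [Equiv.coe_fn_mk, ofLex_toLex, Prod.Lex.toLex_le_toLex]
    constructor
    · rintro (h | ⟨h1, h2⟩)
      · left; simpa using h
      · right
        have h3 : (ofLex a).1 = (ofLex b).1 := by simpa using h1
        refine ⟨h3, ?_⟩
        rw [h3] at h2
        simpa using h2
    · rintro (h | ⟨h1, h2⟩)
      · left; simpa using h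
      · right
        have h3 : (ofLex a).1 = (ofLex b).1 := by simpa using h1
        refine ⟨by simpa using h1, ?_⟩
        rw [h3]
        simpa using h2

@[simp] theorem kk_mkIso (k : ℤ) (f : ℤ → ℤ) : kk (mkIso k f) = k := by
  simp [kk, mkIso]

@[simp] theorem ff_mkIso (k : ℤ) (f : ℤ → ℤ) (β : ℤ) : ff (mkIso k f) β = f β := by
  simp [ff, mkIso]

end Pool.Agent.H978.QV
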