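import Pool.Agent.H978.QV.Defs

set_option autoImplicit false

namespace Pool.Agent.H978.QV

namespace Aut

lemma lex_lt (a b c d : ℤ) :
    (toLex (a, b) : ℤ ×ₗ ℤ) < toLex (c, d) ↔ a < c ∨ (a = c ∧ b < d) := by
  rw [Prod.Lex.toLex_lt_toLex]

lemma cov (a b : ℤ) : (toLex (a, b) : ℤ ×ₗ ℤ) ⋖ toLex (a, b + 1) := by
  constructor
  · rw [lex_lt]
    right
    exact ⟨rfl, by omega⟩
  · intro c h1 h2
    obtain ⟨⟨x, y⟩, rfl⟩ := toLex.surjective c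
    rw [lex_lt] at h1 h2
    omega

lemma cov_eq {a b c d : ℤ} (h : (toLex (a, b) : ℤ ×ₗ ℤ) ⋖ toLex (c, d)) : c = a ∧ d = b + 1 := by
  have h1 := h.1
  rw [lex_lt] at h1
  rcases h1 with h1 | ⟨h1, h2⟩
  · exfalso
    apply h.2 (c := toLex (a, b + 1))
    · rw [lex_lt]
      omega
    · rw [lex_lt]
      omega
  · refine ⟨h1.symm, ?_⟩
    by_contra hne
    apply h.2 (c := toLex (a, b + 1))
    · rw [lex_lt]
      omega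
    · rw [lex_lt]
      omega

/-- the first component of the value -/
def gg (φ : (ℤ ×ₗ ℤ) ≃o (ℤ ×ₗ ℤ)) (β q : ℤ) : ℤ := (ofLex (φ (toLex (β, q)))).1

/-- the second component of the value -/
def ff (φ : (ℤ ×ₗ ℤ) ≃o (ℤ ×ₗ ℤ)) (β q : ℤ) : ℤ := (ofLex (φ (toLex (β, q)))).2

lemma phi_eq (φ : (ℤ ×ₗ ℤ) ≃o (ℤ ×ₗ ℤ)) (β q : ℤ) :
    φ (toLex (β, q)) = toLex (gg φ β q, ff φ β q) := rfl

lemma step (φ : (ℤ ×ₗ ℤ) ≃o (ℤ ×ₗ ℤ)) (β q : ℤ) :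
    gg φ β (q + 1) = gg φ β q ∧ ff φ β (q + 1) = ff φ β q + 1 := by
  have h : φ (toLex (β, q)) ⋖ φ (toLex (β, q + 1)) := (apply_covBy_apply_iff φ).2 (cov β q)
  rw [phi_eq, phi_eq] at h
  exact cov_eq h

lemma all (φ : (ℤ ×ₗ ℤ) ≃o (ℤ ×ₗ ℤ)) (β q : ℤ) :
    gg φ β q = gg φ β 0 ∧ ff φ β q = q + ff φ β 0 := by
  induction q using Int.induction_on with
  | zero => simp
  | succ i ih =>
    have := step φ β i
    omega
  | pred i ih =>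
    have := step φ β (-(i:ℤ) - 1)
    rw [sub_add_cancel] at this
    omega

lemma phi_eq' (φ : (ℤ ×ₗ ℤ) ≃o (ℤ ×ₗ ℤ)) (β q : ℤ) :
    φ (toLex (β, q)) = toLex (gg φ β 0, q + ff φ β 0) := by
  rw [phi_eq, (all φ β q).1, (all φ β q).2]

lemma mono (φ : (ℤ ×ₗ ℤ) ≃o (ℤ ×ₗ ℤ)) : StrictMono fun β => gg φ β 0 := by
  intro β β' h
  show gg φ β 0 < gg φ β' 0
  have h1 : φ (toLex (β, ff φ β' 0 + 1)) < φ (toLex (β', ff φ β 0)) := by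
    rw [φ.lt_iff_lt, lex_lt]
    exact Or.inl h
  rw [phi_eq', phi_eq', lex_lt] at h1
  omega

lemma surj (φ : (ℤ ×ₗ ℤ) ≃o (ℤ ×ₗ ℤ)) (c : ℤ) : ∃ β, gg φ β 0 = c := by
  obtain ⟨x, hx⟩ := φ.surjective (toLex (c, 0))
  obtain ⟨⟨β, q⟩, rfl⟩ := toLex.surjective x
  rw [phi_eq'] at hx
  have := toLex.injective hx
  exact ⟨β, (Prod.ext_iff.mp this).1⟩

lemma gstep (φ : (ℤ ×ₗ ℤ) ≃o (ℤ ×ₗ ℤ)) (β : ℤ) : gg φ (β + 1) 0 = gg φ β 0 + 1 := by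
  have h1 := mono φ (show β < β + 1 by omega)
  by_contra hne
  obtain ⟨c, hc⟩ := surj φ (gg φ β 0 + 1)
  have h2 : gg φ β 0 < gg φ c 0 := by omega
  have h3 : gg φ c 0 < gg φ (β + 1) 0 := by
    simp only at h1
    omega
  have h4 : β < c := (mono φ).lt_iff_lt.mp h2
  have h5 : c < β + 1 := (mono φ).lt_iff_lt.mp h3
  omega

lemma gall (φ : (ℤ ×ₗ ℤ) ≃o (ℤ ×ₗ ℤ)) (β : ℤ) : gg φ β 0 = β + gg φ 0 0 := by
  induction β using Int.induction_on with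
  | zero => simp
  | succ i ih =>
    have := gstep φ i
    omega
  | pred i ih =>
    have := gstep φ (-(i:ℤ) - 1)
    rw [sub_add_cancel] at this
    omega

end Aut

theorem aut_form (φ : (ℤ ×ₗ ℤ) ≃o (ℤ ×ₗ ℤ)) :
    ∃ (k : ℤ) (f : ℤ → ℤ), ∀ β q : ℤ, φ (toLex (β, q)) = toLex (β + k, q + f β) := by
  refine ⟨Aut.gg φ 0 0, fun β => Aut.ff φ β 0, fun β q => ?_⟩
  rw [Aut.phi_eq', Aut.gall]

end Pool.Agent.H978.QV
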