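import Pool.Agent.H978.QV.Defs4

set_option autoImplicit false

namespace Pool.Agent.H978.QV

namespace AutLG

variable (Ω : Type) [LinearOrder Ω]

/-- the pointwise order -/
@[reducible] def lat : Lattice (Ω ≃o Ω) where
  le f g := ∀ x, f x ≤ g x
  le_refl f x := le_rfl
  le_trans f g h h1 h2 x := (h1 x).trans (h2 x)
  le_antisymm f g h1 h2 := by
    ext x
    exact le_antisymm (h1 x) (h2 x)
  sup := supIso
  inf := infIso
  le_sup_left f g x := le_max_left _ _
  le_sup_right f g x := le_max_right _ _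
  sup_le f g h h1 h2 x := max_le (h1 x) (h2 x)
  inf_le_left f g x := min_le_left _ _
  inf_le_right f g x := min_le_right _ _
  le_inf f g h h1 h2 x := le_min (h1 x) (h2 x)

theorem eval_eq (ρ : ℕ → (Ω ≃o Ω)) (t : Tm) :
    @Tm.evalG (Ω ≃o Ω) _ (lat Ω) ρ t = t.eval ρ := by
  induction t with
  | one => rfl
  | var i => rfl
  | mul s t hs ht =>
    simp only [Tm.evalG, Tm.eval, hs, ht]
    rfl
  | inv t ht =>
    simp only [Tm.evalG, Tm.eval, ht]
    rfl
  | sup s t hs ht =>
    simp only [Tm.evalG, Tm.eval, hs, ht]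
    rfl
  | inf s t hs ht =>
    simp only [Tm.evalG, Tm.eval, hs, ht]
    rfl

end AutLG

/-- AUTLG.  `Aut(Ω)` is an `ℓ`-group and the two notions of validity agree. -/
theorem aut_lgroup (Ω : Type) [LinearOrder Ω] :
    ∃ (G : Type) (_ : Group G) (_ : Lattice G) (_ : MulLeftMono G) (_ : MulRightMono G),
      ∀ q : QId, q.HoldsIn G ↔ q.Valid Ω := by
  let _ : Lattice (Ω ≃o Ω) := AutLG.lat Ω
  have h1 : MulLeftMono (Ω ≃o Ω) := ⟨fun a b c h x => a.monotone (h x)⟩
  have h2 : MulRightMono (Ω ≃o Ω) := ⟨fun a b c h x => h (a x)⟩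
  refine ⟨Ω ≃o Ω, inferInstance, AutLG.lat Ω, h1, h2, fun q => ?_⟩
  constructor
  · intro h ρ hp
    have h3 := h ρ (fun p hpq => by rw [AutLG.eval_eq, AutLG.eval_eq]; exact hp p hpq)
    rw [AutLG.eval_eq, AutLG.eval_eq] at h3
    exact h3
  · intro h ρ hp
    have h3 := h ρ (fun p hpq => by
      have h4 := hp p hpq
      rw [AutLG.eval_eq, AutLG.eval_eq] at h4
      exact h4)
    rw [AutLG.eval_eq, AutLG.eval_eq]
    exact h3

end Pool.Agent.H978.QV
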