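import Pool.Agent.H978.QV.Forward2

set_option autoImplicit false

namespace Pool.Agent.H978.QV

section back
variable (K : ℕ) (H G : List (List ℕ)) (x : List ℕ)

/-- the number of the first `n` letters of the solution -/
def pre (H : List (List ℕ)) (n : ℕ) : ℤ :=
  (num K ((x.take n).flatMap fun i => H.getD i []) : ℕ)

def act (β : ℤ) : Prop := 0 ≤ β ∧ β < x.length

instance (β : ℤ) : Decidable (act x β) := inferInstanceAs (Decidable (_ ∧ _))

def at' (c : ℤ) (i : ℕ) (β : ℤ) : ℤ := if act x β ∧ x.getD β.toNat 0 = i then c else 0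

def fF (n : ℕ) (β : ℤ) : ℤ :=
  if n = 1 then (if act x β then 0 else 1)
  else if n = 2 then (if β = x.length then pre K x H x.length else 0)
  else if n % 3 = 0 then at' x 1 (n / 3 - 1) β
  else if n % 3 = 1 then at' x (pre K x H β.toNat) (n / 3 - 1) β
  else at' x (pre K x G β.toNat) (n / 3 - 1) β

def rr (n : ℕ) : W := if n = 0 then mkIso 1 (fun _ => 0) else mkIso 0 (fF K H G x n)

theorem fF1 (β : ℤ) : fF K H G x 1 β = if act x β then 0 else 1 := by simp [fF]
theorem fF2 (β : ℤ) : fF K H G x 2 β = if β = x.length then pre K x H x.length else 0 := by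
  simp [fF]
theorem fF3 (i : ℕ) (β : ℤ) : fF K H G x (3 + 3 * i) β = at' x 1 i β := by
  have h1 : ¬ (3 + 3 * i = 1) := by omega
  have h2 : ¬ (3 + 3 * i = 2) := by omega
  have h3 : (3 + 3 * i) % 3 = 0 := by omega
  have h4 : (3 + 3 * i) / 3 - 1 = i := by omega
  rw [fF, if_neg h1, if_neg h2, if_pos h3, h4]
theorem fF4 (i : ℕ) (β : ℤ) : fF K H G x (4 + 3 * i) β = at' x (pre K x H β.toNat) i β := by
  have h1 : ¬ (4 + 3 * i = 1) := by omega
  have h2 : ¬ (4 + 3 * i = 2) := by omega
  have h3 : ¬ ((4 + 3 * i) % 3 = 0) := by omega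
  have h3' : (4 + 3 * i) % 3 = 1 := by omega
  have h4 : (4 + 3 * i) / 3 - 1 = i := by omega
  rw [fF, if_neg h1, if_neg h2, if_neg h3, if_pos h3', h4]
theorem fF5 (i : ℕ) (β : ℤ) : fF K H G x (5 + 3 * i) β = at' x (pre K x G β.toNat) i β := by
  have h1 : ¬ (5 + 3 * i = 1) := by omega
  have h2 : ¬ (5 + 3 * i = 2) := by omega
  have h3 : ¬ ((5 + 3 * i) % 3 = 0) := by omega
  have h3' : ¬ ((5 + 3 * i) % 3 = 1) := by omega
  have h4 : (5 + 3 * i) / 3 - 1 = i := by omega
  rw [fF, if_neg h1, if_neg h2, if_neg h3, if_neg h3', h4]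

theorem pre_nonneg (H : List (List ℕ)) (n : ℕ) : 0 ≤ pre K x H n := by
  unfold pre; exact_mod_cast Nat.zero_le _

theorem at_nonneg {c : ℤ} (hc : 0 ≤ c) (i : ℕ) (β : ℤ) : 0 ≤ at' x c i β := by
  unfold at'; split_ifs <;> simp [hc]

theorem fF_nonneg (n : ℕ) (β : ℤ) : 0 ≤ fF K H G x n β := by
  unfold fF
  split_ifs
  · exact le_rfl
  · exact zero_le_one
  · exact pre_nonneg K x H _
  · exact le_rfl
  · exact at_nonneg x zero_le_one _ _
  · exact at_nonneg x (pre_nonneg K x H _) _ _
  · exact at_nonneg x (pre_nonneg K x G _) _ _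

theorem at_min {c c' : ℤ} (hc : 0 ≤ c) (hc' : 0 ≤ c') {i j : ℕ} (hij : i ≠ j) (β : ℤ) :
    min (at' x c i β) (at' x c' j β) = 0 := by
  unfold at'
  split_ifs with h1 h2 h2
  · exact absurd (h1.2.symm.trans h2.2) hij
  · exact min_eq_right hc
  · exact min_eq_left hc'
  · simp

theorem at_min1 {c : ℤ} (hc : 0 ≤ c) (i : ℕ) (β : ℤ) :
    min (at' x c i β) (if act x β then 0 else 1) = 0 := by
  unfold at'
  by_cases h : act x β
  · rw [if_pos h]
    split_ifs
    · exact min_eq_right hc
    · simp
  · rw [if_neg h, if_neg (fun h' => h h'.1)]; simp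

theorem at_min2 {c : ℤ} (hc : 0 ≤ c) (i : ℕ) (β : ℤ) :
    min (if β = x.length then c else 0) (at' x 1 i β) = 0 := by
  unfold at'
  by_cases h : β = x.length
  · have : ¬ act x β := by unfold act; omega
    rw [if_pos h, if_neg (fun h' : act x β ∧ x.getD β.toNat 0 = i => this h'.1)]
    exact min_eq_right hc
  · rw [if_neg h]
    apply min_eq_left
    split_ifs <;> simp

variable {x}

theorem sum_at {N : ℕ} (hx : ∀ i ∈ x, i < N) (c : ℕ → ℤ) (β : ℤ) :
    ∑ i ∈ Finset.range N, at' x (c i) i β = if act x β then c (x.getD β.toNat 0) else 0 := by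
  by_cases h : act x β
  · rw [if_pos h]
    have hlt : β.toNat < x.length := by unfold act at h; omega
    have hmem : x.getD β.toNat 0 ∈ x := by
      rw [List.getD_eq_getElem?_getD, List.getElem?_eq_getElem hlt]
      exact List.getElem_mem hlt
    rw [Finset.sum_eq_single (x.getD β.toNat 0)]
    · unfold at'; rw [if_pos ⟨h, rfl⟩]
    · intro j _ hne
      unfold at'; rw [if_neg (fun h' => hne h'.2.symm)]
    · intro h'
      exact absurd (Finset.mem_range.2 (hx _ hmem)) h'
  · rw [if_neg h]
    apply Finset.sum_eq_zero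
    intro i _
    unfold at'; rw [if_neg (fun h' => h h'.1)]

theorem at_mul (a c : ℤ) (i : ℕ) (β : ℤ) : a * at' x c i β = at' x (a * c) i β := by
  unfold at'; split_ifs <;> simp

theorem at_add (a c : ℤ) (i : ℕ) (β : ℤ) : at' x a i β + at' x c i β = at' x (a + c) i β := by
  unfold at'; split_ifs <;> simp

theorem pre_succ (H : List (List ℕ)) {n : ℕ} (hn : n < x.length) :
    pre K x H (n + 1) = ((K ^ (H.getD (x.getD n 0) []).length : ℕ) : ℤ) * pre K x H n +
      ((num K (H.getD (x.getD n 0) []) : ℕ) : ℤ) := by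
  unfold pre
  rw [List.take_succ_eq_append_getElem hn, List.flatMap_append, List.flatMap_singleton, num_append]
  have : x.getD n 0 = x[n] := by
    rw [List.getD_eq_getElem?_getD, List.getElem?_eq_getElem hn]; rfl
  rw [this]
  push_cast; ring

theorem rule {N : ℕ} (hx : ∀ i ∈ x, i < N) (hne : x ≠ []) (H : List (List ℕ)) (β : ℤ) :
    (if β + 1 = x.length then pre K x H x.length else 0) +
      ∑ i ∈ Finset.range N, at' x (pre K x H (β + 1).toNat) i (β + 1) =
    ∑ i ∈ Finset.range N, (((K ^ (H.getD i []).length : ℕ) : ℤ) * at' x (pre K x H β.toNat) i β +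
        ((num K (H.getD i []) : ℕ) : ℤ) * at' x 1 i β) := by
  have e : ∀ i ∈ Finset.range N,
      (((K ^ (H.getD i []).length : ℕ) : ℤ) * at' x (pre K x H β.toNat) i β +
        ((num K (H.getD i []) : ℕ) : ℤ) * at' x 1 i β) =
      at' x (((K ^ (H.getD i []).length : ℕ) : ℤ) * pre K x H β.toNat +
        ((num K (H.getD i []) : ℕ) : ℤ)) i β := by
    intro i _
    rw [at_mul, at_mul, at_add, mul_one]
  rw [Finset.sum_congr rfl e, sum_at hx, sum_at hx (fun i =>
    ((K ^ (H.getD i []).length : ℕ) : ℤ) * pre K x H β.toNat + ((num K (H.getD i []) : ℕ) : ℤ))]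
  have hpos : 0 < x.length := List.length_pos_iff.2 hne
  by_cases h : act x β
  · rw [if_pos h]
    have h' := h
    unfold act at h'
    have hlt : β.toNat < x.length := by omega
    have ht : (β + 1).toNat = β.toNat + 1 := by omega
    rw [← pre_succ K H hlt, ht]
    by_cases h2 : β + 1 = x.length
    · have h3 : ¬ act x (β + 1) := by unfold act; omega
      rw [if_pos h2, if_neg h3, add_zero]
      congr 1; omega
    · have h3 : act x (β + 1) := by unfold act; omega
      rw [if_neg h2, if_pos h3, zero_add]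
  · rw [if_neg h]
    have h' := h
    unfold act at h'
    have h2 : ¬ (β + 1 = x.length) := by omega
    rw [if_neg h2, zero_add]
    by_cases h3 : act x (β + 1)
    · rw [if_pos h3]
      have : (β + 1).toNat = 0 := by unfold act at h3; omega
      rw [this]
      simp [pre, num]
    · rw [if_neg h3]

end back

theorem not_valid_of_solv {H G : List (List ℕ)} (hH : ∀ w ∈ H, w ≠ [])
    (h : Solv H G) : ¬ (qPCP H G).Valid (ℤ ×ₗ ℤ) := by
  obtain ⟨x, hne, hx, heq⟩ := h
  set N := H.length with hN
  set K := base H G with hK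
  intro hv
  have key := hv (rr K H G x) ?_
  · -- the conclusion fails at position `x.length`
    have k2 : kk (rr K H G x 2) = 0 := by simp [rr]
    have k1 : kk (rr K H G x 1) = 0 := by simp [rr]
    have h1 := ff_inf_eq (f := rr K H G x 2) (g := rr K H G x 1) (by rw [k1, k2]) (x.length : ℤ)
    have h2 : infIso (rr K H G x 2) (rr K H G x 1) = OrderIso.refl _ := key
    rw [h2] at h1
    have e2 : ff (rr K H G x 2) (x.length : ℤ) = pre K x H x.length := by
      simp [rr, fF2]
    have e1 : ff (rr K H G x 1) (x.length : ℤ) = 1 := by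
      simp [rr, fF1, act]
    rw [e1, e2] at h1
    have hp : 1 ≤ pre K x H x.length := by
      unfold pre
      rw [List.take_length]
      have : (x.flatMap fun i => H.getD i []) ≠ [] := by
        obtain ⟨a, t, rfl⟩ := List.exists_cons_of_ne_nil hne
        rw [List.flatMap_cons]
        exact List.append_ne_nil_of_left_ne_nil (getD_ne hH (hx a (by simp))) _
      exact_mod_cast num_pos this
    rw [min_eq_right hp] at h1
    simp at h1
  · intro p hp
    simp only [qPCP, mkQ, List.mem_append, List.mem_map] at hp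
    have kz : ∀ v, v ≠ 0 → kk (rr K H G x v) = 0 := by intro v hv0; simp [rr, hv0]
    have fz : ∀ v, v ≠ 0 → ∀ β, ff (rr K H G x v) β = fF K H G x v β := by
      intro v hv0 β; simp [rr, hv0]
    rcases hp with (⟨v, hv1, rfl⟩ | ⟨⟨v, w⟩, hv1, rfl⟩) | ⟨⟨l, l'⟩, hl, rfl⟩
    · show infIso (rr K H G x v) (OrderIso.refl _) = OrderIso.refl _
      have hv0 : v ≠ 0 := by
        simp only [Alist, List.mem_append, List.mem_flatMap, List.mem_range, List.mem_cons,
          List.not_mem_nil, or_false] at hv1
        rcases hv1 with h | ⟨i, _, h⟩ <;> omega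
      exact pos_iff.2 (Or.inr ⟨kz v hv0, fun β => by rw [fz v hv0]; exact fF_nonneg K H G x v β⟩)
    · show infIso (rr K H G x v) (rr K H G x w) = OrderIso.refl _
      have hvw : v ≠ 0 ∧ w ≠ 0 ∧ ∀ β, min (fF K H G x v β) (fF K H G x w β) = 0 := by
        simp only [Blist, List.mem_append, List.mem_flatMap, List.mem_range, List.mem_cons,
          List.not_mem_nil, or_false, Prod.mk.injEq] at hv1
        have hpH := fun n => pre_nonneg K x H n
        have hpG := fun n => pre_nonneg K x G n
        rcases hv1 with ⟨i, _, h⟩ | ⟨i, _, j, hj, h⟩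
        · rcases h with ⟨rfl, rfl⟩ | ⟨rfl, rfl⟩ | ⟨rfl, rfl⟩ | ⟨rfl, rfl⟩
          · refine ⟨by omega, by omega, fun β => ?_⟩
            rw [fF3, fF1]; exact at_min1 x zero_le_one i β
          · refine ⟨by omega, by omega, fun β => ?_⟩
            rw [fF3, fF2]; exact at_min2 x (hpH _) i β
          · refine ⟨by omega, by omega, fun β => ?_⟩
            rw [fF4, fF1]; exact at_min1 x (hpH _) i β
          · refine ⟨by omega, by omega, fun β => ?_⟩
            rw [fF5, fF1]; exact at_min1 x (hpG _) i β
        · rcases h with ⟨rfl, rfl⟩ | ⟨rfl, rfl⟩ | ⟨rfl, rfl⟩ | ⟨rfl, rfl⟩ | ⟨rfl, rfl⟩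
          · refine ⟨by omega, by omega, fun β => ?_⟩
            rw [fF3, fF3]; exact at_min x zero_le_one zero_le_one (by omega) β
          · refine ⟨by omega, by omega, fun β => ?_⟩
            rw [fF4, fF3]; exact at_min x (hpH _) zero_le_one (by omega) β
          · refine ⟨by omega, by omega, fun β => ?_⟩
            rw [fF5, fF3]; exact at_min x (hpG _) zero_le_one (by omega) β
          · refine ⟨by omega, by omega, fun β => ?_⟩
            rw [fF4, fF3]; exact at_min x (hpH _) zero_le_one (by omega) β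
          · refine ⟨by omega, by omega, fun β => ?_⟩
            rw [fF5, fF3]; exact at_min x (hpG _) zero_le_one (by omega) β
      exact orth_of (kz v hvw.1) (kz w hvw.2.1) fun β => by
        rw [fz v hvw.1, fz w hvw.2.1]; exact hvw.2.2 β
    · show (rr K H G x 0).trans ((prodV l).eval (rr K H G x)) =
        ((prodV l').eval (rr K H G x)).trans (rr K H G x 0)
      have main : (∀ v ∈ l, v ≠ 0) ∧ (∀ v ∈ l', v ≠ 0) ∧
          ∀ β : ℤ, (l.map fun v => fF K H G x v (β + 1)).sum =
            (l'.map fun v => fF K H G x v β).sum := by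
        simp only [List.mem_cons, List.not_mem_nil, or_false, Prod.mk.injEq] at hl
        rcases hl with ⟨rfl, rfl⟩ | ⟨rfl, rfl⟩ | ⟨rfl, rfl⟩
        · have h0 : ∀ v ∈ Slist N, v ≠ 0 := by
            intro v hv; rcases mem_Slist hv with rfl | ⟨i, _, rfl⟩ <;> omega
          have tot : ∀ β : ℤ, ((Slist N).map fun v => fF K H G x v β).sum = 1 := by
            intro β
            rw [sum_Slist (fun v => fF K H G x v β)]
            simp only [fF1, fF3]
            rw [sum_at hx (fun _ => 1)]
            split_ifs <;> simp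
          exact ⟨h0, h0, fun β => by rw [tot, tot]⟩
        · refine ⟨?_, ?_, fun β => ?_⟩
          · intro v hv; rcases mem_Ulist hv with rfl | ⟨i, _, rfl⟩ <;> omega
          · intro v hv; obtain ⟨i, _, (rfl | rfl)⟩ := mem_Rlist hv <;> omega
          · rw [sum_Ulist (fun v => fF K H G x v (β + 1)), sum_Rlist (fun v => fF K H G x v β)]
            simp only [fF2, fF3, fF4]
            exact rule K hx hne H β
        · refine ⟨?_, ?_, fun β => ?_⟩
          · intro v hv; rcases mem_Ulist hv with rfl | ⟨i, _, rfl⟩ <;> omega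
          · intro v hv; obtain ⟨i, _, (rfl | rfl)⟩ := mem_Rlist hv <;> omega
          · rw [sum_Ulist (fun v => fF K H G x v (β + 1)), sum_Rlist (fun v => fF K H G x v β)]
            simp only [fF2, fF3, fF5]
            have hpe : pre K x H x.length = pre K x G x.length := by
              unfold pre; rw [List.take_length, heq]
            rw [hpe]
            exact rule K hx hne G β
      obtain ⟨hl0, hl0', hs⟩ := main
      have kl : ∀ v ∈ l, kk (rr K H G x v) = 0 := fun v hv => kz v (hl0 v hv)
      have kl' : ∀ v ∈ l', kk (rr K H G x v) = 0 := fun v hv => kz v (hl0' v hv)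
      have s0 : ∀ l : List ℕ, (∀ v ∈ l, kk (rr K H G x v) = 0) →
          kk ((prodV l).eval (rr K H G x)) = 0 := by
        intro l hl
        rw [kk_prodV]
        exact List.sum_eq_zero (by
          intro z hz
          rw [List.mem_map] at hz
          obtain ⟨v, hv, rfl⟩ := hz
          exact hl v hv)
      have k0 : kk (rr K H G x 0) = 1 := by simp [rr]
      have f0 : ∀ β, ff (rr K H G x 0) β = 0 := by intro β; simp [rr]
      refine W_ext ?_ fun β => ?_
      · rw [kk_trans, kk_trans, s0 l kl, s0 l' kl', k0]; ring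
      · rw [ff_trans, ff_trans, f0, f0, k0, ff_prodV _ _ kl, ff_prodV _ _ kl', zero_add, add_zero]
        have e1 : (l.map fun v => ff (rr K H G x v) (β + 1)) =
            l.map fun v => fF K H G x v (β + 1) :=
          List.map_congr_left fun v hv => fz v (hl0 v hv) _
        have e2 : (l'.map fun v => ff (rr K H G x v) β) = l'.map fun v => fF K H G x v β :=
          List.map_congr_left fun v hv => fz v (hl0' v hv) _
        rw [e1, e2, hs]

end Pool.Agent.H978.QV
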