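import Pool.Agent.H978.QV.Forward3

set_option autoImplicit false

namespace Pool.Agent.H978.QV

/-- the premises, in pointwise form -/
structure Prem {Ω : Type} [LinearOrder Ω] (ρ : ℕ → (Ω ≃o Ω)) (N K : ℕ) (H G : List (List ℕ)) :
    Prop where
  pos : ∀ v ∈ Alist N, ∀ x, x ≤ ρ v x
  orth : ∀ p ∈ Blist N, ∀ x, min (ρ p.1 x) (ρ p.2 x) = x
  comm : ∀ v ∈ Alist N, ∀ w ∈ Alist N, ∀ x, ρ v (ρ w x) = ρ w (ρ v x)
  ra : ∀ x, PP ρ (Slist N) (ρ 0 x) = ρ 0 (PP ρ (Slist N) x)
  ru : ∀ x, PP ρ (Ulist 4 N) (ρ 0 x) = ρ 0 (PP ρ (Rlist K 4 H N) x)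
  rv : ∀ x, PP ρ (Ulist 5 N) (ρ 0 x) = ρ 0 (PP ρ (Rlist K 5 G N) x)

section
variable {Ω : Type} [LinearOrder Ω] {ρ : ℕ → (Ω ≃o Ω)} {N K : ℕ} {H G : List (List ℕ)}

theorem orth_fix {x a c : Ω} (h : min a c = x) (ha : x < a) : c = x := by
  rcases min_choice a c with h1 | h1
  · rw [h1] at h; exact absurd h (ne_of_gt ha)
  · rw [h1] at h; exact h

theorem orth_fix' {x a c : Ω} (h : min a c = x) (hc : x < c) : a = x := by
  rcases min_choice a c with h1 | h1
  · rw [h1] at h; exact h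
  · rw [h1] at h; exact absurd h (ne_of_gt hc)

theorem memA_S {v : ℕ} (h : v ∈ Slist N) : v ∈ Alist N := by
  rcases mem_Slist h with rfl | ⟨i, hi, rfl⟩
  · exact mem_A1 N
  · exact mem_A3 hi

theorem memA_U {v : ℕ} (h : v ∈ Ulist 4 N) : v ∈ Alist N := by
  rcases mem_Ulist h with rfl | ⟨i, hi, rfl⟩
  · exact mem_A2 N
  · exact mem_A4 hi

theorem memA_V {v : ℕ} (h : v ∈ Ulist 5 N) : v ∈ Alist N := by
  rcases mem_Ulist h with rfl | ⟨i, hi, rfl⟩
  · exact mem_A2 N
  · exact mem_A5 hi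

theorem memA_R {v : ℕ} (h : v ∈ Rlist K 4 H N) : v ∈ Alist N := by
  obtain ⟨i, hi, (rfl | rfl)⟩ := mem_Rlist h
  · exact mem_A4 hi
  · exact mem_A3 hi

theorem memA_R' {v : ℕ} (h : v ∈ Rlist K 5 G N) : v ∈ Alist N := by
  obtain ⟨i, hi, (rfl | rfl)⟩ := mem_Rlist h
  · exact mem_A5 hi
  · exact mem_A3 hi

variable (P : Prem ρ N K H G)
include P

/-- where `S` moves, all `s_i, U_i, V_i` fix -/
theorem fix_of_S {x : Ω} (hS : ρ 1 x ≠ x) {i : ℕ} (hi : i < N) :
    ρ (3 + 3 * i) x = x ∧ ρ (4 + 3 * i) x = x ∧ ρ (5 + 3 * i) x = x := by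
  have h1 : x < ρ 1 x := lt_of_le_of_ne (P.pos 1 (mem_A1 N) x) (Ne.symm hS)
  exact ⟨orth_fix' (P.orth (3 + 3 * i, 1) (mem_B1 hi (by simp)) x) h1,
    orth_fix' (P.orth (4 + 3 * i, 1) (mem_B1 hi (by simp)) x) h1,
    orth_fix' (P.orth (5 + 3 * i, 1) (mem_B1 hi (by simp)) x) h1⟩

/-- where `s_i` moves, `S`, `E` and all `s_j, U_j, V_j` with `j ≠ i` fix -/
theorem fix_of_s {x : Ω} {i : ℕ} (hi : i < N) (hs : ρ (3 + 3 * i) x ≠ x) :
    ρ 1 x = x ∧ ρ 2 x = x ∧ ∀ j < N, j ≠ i →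
      ρ (3 + 3 * j) x = x ∧ ρ (4 + 3 * j) x = x ∧ ρ (5 + 3 * j) x = x := by
  have h1 : x < ρ (3 + 3 * i) x := lt_of_le_of_ne (P.pos _ (mem_A3 hi) x) (Ne.symm hs)
  refine ⟨orth_fix (P.orth (3 + 3 * i, 1) (mem_B1 hi (by simp)) x) h1,
    orth_fix' (P.orth (2, 3 + 3 * i) (mem_B1 hi (by simp)) x) h1, fun j hj hne => ?_⟩
  rcases lt_or_gt_of_ne hne with h | h
  · -- j < i
    exact ⟨orth_fix (P.orth (3 + 3 * i, 3 + 3 * j) (mem_B2 hi h (by simp)) x) h1,
      orth_fix' (P.orth (4 + 3 * j, 3 + 3 * i) (mem_B2 hi h (by simp)) x) h1,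
      orth_fix' (P.orth (5 + 3 * j, 3 + 3 * i) (mem_B2 hi h (by simp)) x) h1⟩
  · exact ⟨orth_fix' (P.orth (3 + 3 * j, 3 + 3 * i) (mem_B2 hj h (by simp)) x) h1,
      orth_fix' (P.orth (4 + 3 * j, 3 + 3 * i) (mem_B2 hj h (by simp)) x) h1,
      orth_fix' (P.orth (5 + 3 * j, 3 + 3 * i) (mem_B2 hj h (by simp)) x) h1⟩

theorem mover {x : Ω} (hM : PP ρ (Slist N) x ≠ x) :
    ρ 1 x ≠ x ∨ ∃ i < N, ρ (3 + 3 * i) x ≠ x := by
  by_contra h
  push Not at h
  apply hM
  refine PP_fix ρ fun v hv => ?_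
  rcases mem_Slist hv with rfl | ⟨i, hi, rfl⟩
  · exact h.1
  · exact h.2 i hi

theorem comm_a {v : ℕ} (hv : v ∈ Alist N) (y : Ω) :
    ρ v (PP ρ (Slist N) y) = PP ρ (Slist N) (ρ v y) := by
  have key : ∀ l : List ℕ, (∀ u ∈ l, u ∈ Alist N) → ∀ y, ρ v (PP ρ l y) = PP ρ l (ρ v y) := by
    intro l
    induction l using List.reverseRecOn with
    | nil => intro _ y; rfl
    | append_singleton l u ih =>
      intro hl y
      rw [PP_snoc, PP_snoc, ih (fun w hw => hl w (by simp [hw])), P.comm v hv u (hl u (by simp))]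
  exact key _ (fun u hu => memA_S hu) y

theorem a_of_s {x : Ω} {i : ℕ} (hi : i < N) (hs : ρ (3 + 3 * i) x ≠ x) :
    PP ρ (Slist N) x = ρ (3 + 3 * i) x := by
  obtain ⟨f1, _, f3⟩ := fix_of_s P hi hs
  have hmem : 3 + 3 * i ∈ Slist N := by
    simp only [Slist, List.mem_append, List.mem_map, List.mem_range]
    exact Or.inr ⟨i, hi, rfl⟩
  refine PP_one ρ (count_Slist hmem) ?_ (fun v hv y => P.comm v (memA_S hv) _ (mem_A3 hi) y)
  intro v hv hne
  rcases mem_Slist hv with rfl | ⟨j, hj, rfl⟩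
  · exact f1
  · exact (f3 j hj (by rintro rfl; exact hne rfl)).1

theorem U_of_s {x : Ω} {i : ℕ} (hi : i < N) (hs : ρ (3 + 3 * i) x ≠ x) :
    PP ρ (Ulist 4 N) x = ρ (4 + 3 * i) x ∧ PP ρ (Ulist 5 N) x = ρ (5 + 3 * i) x := by
  obtain ⟨_, f2, f3⟩ := fix_of_s P hi hs
  constructor
  · have hmem : 4 + 3 * i ∈ Ulist 4 N := by
      simp only [Ulist, List.mem_append, List.mem_map, List.mem_range]
      exact Or.inr ⟨i, hi, rfl⟩
    refine PP_one ρ (count_Ulist (by norm_num) hmem) ?_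
      (fun v hv y => P.comm v (memA_U hv) _ (mem_A4 hi) y)
    intro v hv hne
    rcases mem_Ulist hv with rfl | ⟨j, hj, rfl⟩
    · exact f2
    · exact (f3 j hj (by rintro rfl; exact hne rfl)).2.1
  · have hmem : 5 + 3 * i ∈ Ulist 5 N := by
      simp only [Ulist, List.mem_append, List.mem_map, List.mem_range]
      exact Or.inr ⟨i, hi, rfl⟩
    refine PP_one ρ (count_Ulist (by norm_num) hmem) ?_
      (fun v hv y => P.comm v (memA_V hv) _ (mem_A5 hi) y)
    intro v hv hne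
    rcases mem_Ulist hv with rfl | ⟨j, hj, rfl⟩
    · exact f2
    · exact (f3 j hj (by rintro rfl; exact hne rfl)).2.2

theorem U_of_S {x : Ω} (hS : ρ 1 x ≠ x) :
    PP ρ (Ulist 4 N) x = ρ 2 x ∧ PP ρ (Ulist 5 N) x = ρ 2 x := by
  constructor
  · have hmem : 2 ∈ Ulist 4 N := by simp [Ulist]
    refine PP_one ρ (count_Ulist (by norm_num) hmem) ?_
      (fun v hv y => P.comm v (memA_U hv) _ (mem_A2 N) y)
    intro v hv hne
    rcases mem_Ulist hv with rfl | ⟨j, hj, rfl⟩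
    · exact absurd rfl hne
    · exact (fix_of_S P hS hj).2.1
  · have hmem : 2 ∈ Ulist 5 N := by simp [Ulist]
    refine PP_one ρ (count_Ulist (by norm_num) hmem) ?_
      (fun v hv y => P.comm v (memA_V hv) _ (mem_A2 N) y)
    intro v hv hne
    rcases mem_Ulist hv with rfl | ⟨j, hj, rfl⟩
    · exact absurd rfl hne
    · exact (fix_of_S P hS hj).2.2

theorem R_of_S {x : Ω} (hS : ρ 1 x ≠ x) :
    PP ρ (Rlist K 4 H N) x = x ∧ PP ρ (Rlist K 5 G N) x = x := by
  constructor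
  · refine PP_fix ρ fun v hv => ?_
    obtain ⟨i, hi, (rfl | rfl)⟩ := mem_Rlist hv
    · exact (fix_of_S P hS hi).2.1
    · exact (fix_of_S P hS hi).1
  · refine PP_fix ρ fun v hv => ?_
    obtain ⟨i, hi, (rfl | rfl)⟩ := mem_Rlist hv
    · exact (fix_of_S P hS hi).2.2
    · exact (fix_of_S P hS hi).1

/-- the statement proved by recursion along the orbit of `b` -/
def QQ (ρ : ℕ → (Ω ≃o Ω)) (N K : ℕ) (H G : List (List ℕ)) (x : Ω) : Prop :=
  ∃ w : List ℕ, (∀ i ∈ w, i < N) ∧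
    PP ρ (Ulist 4 N) x = (PP ρ (Slist N))^[num K (w.flatMap fun i => H.getD i [])] x ∧
    PP ρ (Ulist 5 N) x = (PP ρ (Slist N))^[num K (w.flatMap fun i => G.getD i [])] x

omit P in
theorem sum_e (K o : ℕ) (H : List (List ℕ)) {N i : ℕ} (hi : i < N) (n : ℕ) (ho : o = 4 ∨ o = 5) :
    ((Rlist K o H N).map fun v => if v = o + 3 * i then n else if v = 3 + 3 * i then 1 else 0).sum =
      K ^ (H.getD i []).length * n + num K (H.getD i []) := by
  have h := sum_Rlist (fun v => ((if v = o + 3 * i then n else if v = 3 + 3 * i then 1 else 0 : ℕ) : ℤ))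
    K o H N
  rw [Finset.sum_eq_single i] at h
  · have e : ((Rlist K o H N).map fun v =>
        ((if v = o + 3 * i then n else if v = 3 + 3 * i then 1 else 0 : ℕ) : ℤ)).sum =
        (((Rlist K o H N).map fun v =>
          if v = o + 3 * i then n else if v = 3 + 3 * i then 1 else 0).sum : ℤ) := by
      rw [Nat.cast_list_sum, List.map_map]
      rfl
    rw [e] at h
    have e3 : ¬ (3 + 3 * i = o + 3 * i) := by rcases ho with rfl | rfl <;> omega
    rw [if_pos rfl, if_neg e3, if_pos rfl] at h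
    have h' : (((Rlist K o H N).map fun v =>
          if v = o + 3 * i then n else if v = 3 + 3 * i then 1 else 0).sum : ℤ) =
        ((K ^ (H.getD i []).length * n + num K (H.getD i []) : ℕ) : ℤ) := by
      rw [h]; push_cast; ring
    exact_mod_cast h'
  · intro j _ hne
    have e1 : ¬ (o + 3 * j = o + 3 * i) := by omega
    have e2 : ¬ (o + 3 * j = 3 + 3 * i) := by rcases ho with rfl | rfl <;> omega
    have e3 : ¬ (3 + 3 * j = o + 3 * i) := by rcases ho with rfl | rfl <;> omega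
    have e4 : ¬ (3 + 3 * j = 3 + 3 * i) := by omega
    rw [if_neg e1, if_neg e2, if_neg e3, if_neg e4]; simp
  · intro h'
    exact absurd (Finset.mem_range.2 hi) h'

omit P in
theorem iter_comm {a c : Ω → Ω} (h : ∀ x, a (c x) = c (a x)) (n : ℕ) (x : Ω) :
    a^[n] (c x) = c (a^[n] x) := by
  induction n generalizing x with
  | zero => rfl
  | succ n ih => rw [Function.iterate_succ_apply, h, ih, Function.iterate_succ_apply]

/-- step (α) -/
theorem step_S {x : Ω} (hS : ρ 1 x ≠ x) : QQ ρ N K H G (ρ 0 x) := by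
  refine ⟨[], by simp, ?_, ?_⟩
  · rw [P.ru, (R_of_S P hS).1]; simp [num]
  · rw [P.rv, (R_of_S P hS).2]; simp [num]

/-- step (β) -/
theorem step_s {x : Ω} {i : ℕ} (hi : i < N) (hs : ρ (3 + 3 * i) x ≠ x) (hQ : QQ ρ N K H G x) :
    QQ ρ N K H G (ρ 0 x) := by
  obtain ⟨w, hw, h1, h2⟩ := hQ
  obtain ⟨hu, hv⟩ := U_of_s P hi hs
  have ha := a_of_s P hi hs
  obtain ⟨_, _, f3⟩ := fix_of_s P hi hs
  refine ⟨w ++ [i], ?_, ?_, ?_⟩
  · intro j hj
    rw [List.mem_append, List.mem_singleton] at hj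
    rcases hj with hj | hj
    · exact hw j hj
    · rw [hj]; exact hi
  · rw [P.ru, PP_pow ρ (a := PP ρ (Slist N))
      (e := fun v => if v = 4 + 3 * i then num K (w.flatMap fun i => H.getD i [])
        else if v = 3 + 3 * i then 1 else 0), sum_e K 4 H hi _ (Or.inl rfl),
      ← iter_comm P.ra, List.flatMap_append, List.flatMap_singleton, num_append, mul_comm]
    · intro v hv
      obtain ⟨j, hj, (rfl | rfl)⟩ := mem_Rlist hv
      · by_cases hji : j = i
        · subst hji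
          rw [if_pos rfl, ← h1, hu]
        · have e1 : ¬ (4 + 3 * j = 4 + 3 * i) := by omega
          have e2 : ¬ (4 + 3 * j = 3 + 3 * i) := by omega
          rw [if_neg e1, if_neg e2, (f3 j hj hji).2.1]; rfl
      · by_cases hji : j = i
        · subst hji
          have e1 : ¬ (3 + 3 * j = 4 + 3 * j) := by omega
          rw [if_neg e1, if_pos rfl, Function.iterate_one, ha]
        · have e1 : ¬ (3 + 3 * j = 4 + 3 * i) := by omega
          have e2 : ¬ (3 + 3 * j = 3 + 3 * i) := by omega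
          rw [if_neg e1, if_neg e2, (f3 j hj hji).1]; rfl
    · intro v hv y
      exact comm_a P (memA_R hv) y
  · rw [P.rv, PP_pow ρ (a := PP ρ (Slist N))
      (e := fun v => if v = 5 + 3 * i then num K (w.flatMap fun i => G.getD i [])
        else if v = 3 + 3 * i then 1 else 0), sum_e K 5 G hi _ (Or.inr rfl),
      ← iter_comm P.ra, List.flatMap_append, List.flatMap_singleton, num_append, mul_comm]
    · intro v hv'
      obtain ⟨j, hj, (rfl | rfl)⟩ := mem_Rlist hv'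
      · by_cases hji : j = i
        · subst hji
          rw [if_pos rfl, ← h2, hv]
        · have e1 : ¬ (5 + 3 * j = 5 + 3 * i) := by omega
          have e2 : ¬ (5 + 3 * j = 3 + 3 * i) := by omega
          rw [if_neg e1, if_neg e2, (f3 j hj hji).2.2]; rfl
      · by_cases hji : j = i
        · subst hji
          have e1 : ¬ (3 + 3 * j = 5 + 3 * j) := by omega
          rw [if_neg e1, if_pos rfl, Function.iterate_one, ha]
        · have e1 : ¬ (3 + 3 * j = 5 + 3 * i) := by omega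
          have e2 : ¬ (3 + 3 * j = 3 + 3 * i) := by omega
          rw [if_neg e1, if_neg e2, (f3 j hj hji).1]; rfl
    · intro v hv' y
      exact comm_a P (memA_R' hv') y

/-- backward orbit -/
def orb (ρ : ℕ → (Ω ≃o Ω)) (x : Ω) (j : ℕ) : Ω := (⇑(ρ 0).symm)^[j] x

omit P in
theorem orb_succ (x : Ω) (j : ℕ) : ρ 0 (orb ρ x (j + 1)) = orb ρ x j := by
  unfold orb
  rw [Function.iterate_succ_apply', OrderIso.apply_symm_apply]

theorem M_orb {x : Ω} (hM : PP ρ (Slist N) x ≠ x) (j : ℕ) :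
    PP ρ (Slist N) (orb ρ x j) ≠ orb ρ x j := by
  induction j with
  | zero => exact hM
  | succ j ih =>
    intro h
    apply ih
    rw [← orb_succ, P.ra, h]

theorem QQ_of_S {x : Ω} (hM : PP ρ (Slist N) x ≠ x) (j : ℕ) (hj : ρ 1 (orb ρ x (j + 1)) ≠ orb ρ x (j + 1)) :
    QQ ρ N K H G x := by
  have key : ∀ m, m ≤ j → QQ ρ N K H G (orb ρ x (j - m)) := by
    intro m
    induction m with
    | zero =>
      intro _
      have := step_S P hj
      rwa [orb_succ] at this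
    | succ m ih =>
      intro hm
      have hQ := ih (by omega)
      have e : j - m = (j - (m + 1)) + 1 := by omega
      rw [e] at hQ
      rcases mover P (M_orb P hM ((j - (m + 1)) + 1)) with h | ⟨i, hi, h⟩
      · have := step_S P h
        rwa [orb_succ] at this
      · have := step_s P hi h hQ
        rwa [orb_succ] at this
  have := key j le_rfl
  simpa [orb] using this

end

end Pool.Agent.H978.QV
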