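import Pool.Agent.H978.QV.Defs3

set_option autoImplicit false

namespace Pool.Agent.H978.QV

variable {Ω : Type} [LinearOrder Ω]

namespace Patch

lemma mul_app (f g : Ω ≃o Ω) (x : Ω) : (f * g) x = f (g x) := rfl

lemma one_app (x : Ω) : (1 : Ω ≃o Ω) x = x := rfl

lemma zpow_add_app (b : Ω ≃o Ω) (m n : ℤ) (x : Ω) : (b ^ m) ((b ^ n) x) = (b ^ (m + n)) x := by
  rw [← mul_app, ← zpow_add]

lemma zpow_neg_app (b : Ω ≃o Ω) (n : ℤ) (x : Ω) : (b ^ (-n)) ((b ^ n) x) = x := by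
  rw [zpow_add_app, neg_add_cancel, zpow_zero, one_app]

lemma zpow_app_neg (b : Ω ≃o Ω) (n : ℤ) (x : Ω) : (b ^ n) ((b ^ (-n)) x) = x := by
  rw [zpow_add_app, add_neg_cancel, zpow_zero, one_app]

lemma succ_app (b : Ω ≃o Ω) (n : ℤ) (x : Ω) : (b ^ (n + 1)) x = (b ^ n) (b x) := by
  rw [← zpow_add_app, zpow_one]

lemma succ_app' (b : Ω ≃o Ω) (n : ℤ) (x : Ω) : (b ^ (n + 1)) x = b ((b ^ n) x) := by
  rw [add_comm, ← zpow_add_app, zpow_one]

lemma fix_zpow (h : Ω ≃o Ω) (z : Ω) (hz : h z = z) (a : ℤ) : (h ^ a) z = z := by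
  induction a using Int.induction_on with
  | zero => rw [zpow_zero, one_app]
  | succ n ih => rw [succ_app, hz, ih]
  | pred n ih =>
    have h1 : (h ^ (-(n : ℤ) - 1)) z = (h ^ (-(n : ℤ) - 1)) (h z) := by rw [hz]
    rw [h1, ← succ_app, sub_add_cancel, ih]

/-- the powers of a positive automorphism at a point -/
lemma zpow_mono_app (h : Ω ≃o Ω) (hp : ∀ x, x ≤ h x) (z : Ω) {a c : ℤ} (hac : a ≤ c) :
    (h ^ a) z ≤ (h ^ c) z := by
  induction c, hac using Int.leInduction with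
  | base => exact le_rfl
  | succ n _ ih =>
    refine ih.trans ?_
    rw [succ_app']
    exact hp _

lemma zpow_strict_app (h : Ω ≃o Ω) (hp : ∀ x, x ≤ h x) (z : Ω) (hz : h z ≠ z) {a c : ℤ}
    (hac : a < c) : (h ^ a) z < (h ^ c) z := by
  have h1 : (h ^ a) z < (h ^ (a + 1)) z := by
    rw [succ_app]
    exact (h ^ a).lt_iff_lt.2 (lt_of_le_of_ne (hp z) (Ne.symm hz))
  exact h1.trans_le (zpow_mono_app h hp z hac)

/-- `x ∈ b ^ n (supp h)` -/
def InS (b h : Ω ≃o Ω) (n : ℤ) (x : Ω) : Prop := h ((b ^ (-n)) x) ≠ (b ^ (-n)) x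

lemma InS_iff (b h : Ω ≃o Ω) (n : ℤ) (z : Ω) : InS b h n ((b ^ n) z) ↔ h z ≠ z := by
  rw [InS, zpow_neg_app]

lemma InS_exists (b h : Ω ≃o Ω) (n : ℤ) (x : Ω) (hx : InS b h n x) :
    ∃ z, h z ≠ z ∧ x = (b ^ n) z :=
  ⟨(b ^ (-n)) x, hx, (zpow_app_neg b n x).symm⟩

lemma lt_step (b h : Ω ≃o Ω) (hc : ∀ x y, h x ≠ x → h y ≠ y → x < b y) (n : ℤ) (x y : Ω)
    (hx : InS b h n x) (hy : InS b h (n + 1) y) : x < y := by
  obtain ⟨z, hz, rfl⟩ := InS_exists b h n x hx
  obtain ⟨w, hw, rfl⟩ := InS_exists b h (n + 1) y hy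
  rw [succ_app]
  exact (b ^ n).lt_iff_lt.2 (hc z w hz hw)

lemma lt_of (b h : Ω ≃o Ω) (hne : ∃ x, h x ≠ x) (hc : ∀ x y, h x ≠ x → h y ≠ y → x < b y)
    (n m : ℤ) (hnm : n < m) (x : Ω) (hx : InS b h n x) :
    ∀ y, InS b h m y → x < y := by
  have hnm' : n + 1 ≤ m := hnm
  clear hnm
  induction m, hnm' using Int.leInduction with
  | base => exact fun y hy => lt_step b h hc n x y hx hy
  | succ k _ ih =>
    intro y hy
    obtain ⟨z, hz⟩ := hne
    have h1 : InS b h k ((b ^ k) z) := (InS_iff b h k z).2 hz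
    exact (ih _ h1).trans (lt_step b h hc k _ y h1 hy)

lemma InS_unique (b h : Ω ≃o Ω) (hne : ∃ x, h x ≠ x) (hc : ∀ x y, h x ≠ x → h y ≠ y → x < b y)
    (n m : ℤ) (x : Ω) (hn : InS b h n x) (hm : InS b h m x) : n = m := by
  rcases lt_trichotomy n m with h1 | h1 | h1
  · exact absurd (lt_of b h hne hc n m h1 x hn x hm) (lt_irrefl x)
  · exact h1
  · exact absurd (lt_of b h hne hc m n h1 x hm x hn) (lt_irrefl x)

/-- `b ^ n * h ^ a * b ^ (-n)` -/
def K (b h : Ω ≃o Ω) (n a : ℤ) : Ω ≃o Ω := b ^ n * h ^ a * b ^ (-n)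

lemma K_app (b h : Ω ≃o Ω) (n a : ℤ) (x : Ω) :
    K b h n a x = (b ^ n) ((h ^ a) ((b ^ (-n)) x)) := rfl

lemma K_app' (b h : Ω ≃o Ω) (n a : ℤ) (z : Ω) :
    K b h n a ((b ^ n) z) = (b ^ n) ((h ^ a) z) := by
  rw [K_app, zpow_neg_app]

lemma K_fix (b h : Ω ≃o Ω) (n a : ℤ) (x : Ω) (hx : ¬ InS b h n x) : K b h n a x = x := by
  rw [K_app, fix_zpow h _ (not_not.1 hx), zpow_app_neg]

lemma K_mem (b h : Ω ≃o Ω) (n a : ℤ) (x : Ω) (hx : InS b h n x) : InS b h n (K b h n a x) := by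
  obtain ⟨z, hz, rfl⟩ := InS_exists b h n x hx
  rw [K_app', InS_iff]
  intro h1
  have h2 : (h ^ a) (h z) = (h ^ a) z := by
    rw [← succ_app, succ_app']
    exact h1
  exact hz ((h ^ a).injective h2)

open Classical in
/-- the piecewise map -/
noncomputable def G (b h : Ω ≃o Ω) (f : ℤ → ℤ) (x : Ω) : Ω :=
  if hx : ∃ n : ℤ, InS b h n x then K b h hx.choose (f hx.choose) x else x

section
variable {b h : Ω ≃o Ω} (hne : ∃ x, h x ≠ x) (hc : ∀ x y, h x ≠ x → h y ≠ y → x < b y)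
include hne hc

lemma G_mem (f : ℤ → ℤ) (n : ℤ) (x : Ω) (hx : InS b h n x) :
    G b h f x = K b h n (f n) x := by
  have hx' : ∃ n : ℤ, InS b h n x := ⟨n, hx⟩
  rw [G, dif_pos hx', InS_unique b h hne hc _ n x hx'.choose_spec hx]

omit hne hc in
lemma G_not (f : ℤ → ℤ) (x : Ω) (hx : ¬ ∃ n : ℤ, InS b h n x) : G b h f x = x := by
  rw [G, dif_neg hx]

lemma G_add (f g : ℤ → ℤ) (x : Ω) : G b h g (G b h f x) = G b h (fun n => f n + g n) x := by
  by_cases hx : ∃ n : ℤ, InS b h n x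
  · obtain ⟨n, hn⟩ := hx
    rw [G_mem hne hc f n x hn, G_mem hne hc g n _ (K_mem b h n (f n) x hn),
      G_mem hne hc _ n x hn]
    obtain ⟨z, -, rfl⟩ := InS_exists b h n x hn
    rw [K_app', K_app', K_app', zpow_add_app, add_comm]
  · rw [G_not f x hx, G_not g x hx, G_not _ x hx]

lemma G_zero (x : Ω) : G b h (fun _ => 0) x = x := by
  by_cases hx : ∃ n : ℤ, InS b h n x
  · obtain ⟨n, hn⟩ := hx
    rw [G_mem hne hc _ n x hn, K_app, zpow_zero, one_app, zpow_app_neg]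
  · rw [G_not _ x hx]

lemma G_strictMono (f : ℤ → ℤ) : StrictMono (G b h f) := by
  intro x y hxy
  by_cases hx : ∃ n : ℤ, InS b h n x
  · obtain ⟨n, hn⟩ := hx
    rw [G_mem hne hc f n x hn]
    by_cases hyn : InS b h n y
    · rw [G_mem hne hc f n y hyn]
      exact (K b h n (f n)).lt_iff_lt.2 hxy
    · by_cases hy : ∃ m : ℤ, InS b h m y
      · obtain ⟨m, hm⟩ := hy
        rw [G_mem hne hc f m y hm]
        have hnm : n < m := by
          rcases lt_trichotomy n m with h1 | h1 | h1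
          · exact h1
          · exact absurd (h1 ▸ hm) hyn
          · exact absurd (lt_of b h hne hc m n h1 y hm x hn) (not_lt_of_gt hxy)
        exact lt_of b h hne hc n m hnm _ (K_mem b h n (f n) x hn) _ (K_mem b h m (f m) y hm)
      · rw [G_not f y hy]
        have h1 := (K b h n (f n)).lt_iff_lt.2 hxy
        rwa [K_fix b h n (f n) y hyn] at h1
  · rw [G_not f x hx]
    by_cases hy : ∃ m : ℤ, InS b h m y
    · obtain ⟨m, hm⟩ := hy
      rw [G_mem hne hc f m y hm]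
      have h1 := (K b h m (f m)).lt_iff_lt.2 hxy
      rwa [K_fix b h m (f m) x (fun h' => hx ⟨m, h'⟩)] at h1
    · rw [G_not f y hy]
      exact hxy

lemma G_neg (f : ℤ → ℤ) (x : Ω) : G b h (fun n => -f n) (G b h f x) = x := by
  rw [G_add hne hc]
  simp only [add_neg_cancel]
  exact G_zero hne hc x

lemma G_neg' (f : ℤ → ℤ) (x : Ω) : G b h f (G b h (fun n => -f n) x) = x := by
  rw [G_add hne hc]
  simp only [neg_add_cancel]
  exact G_zero hne hc x

lemma G_shift (f : ℤ → ℤ) (x : Ω) : G b h f (b x) = b (G b h (fun n => f (n + 1)) x) := by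
  by_cases hx : ∃ n : ℤ, InS b h n x
  · obtain ⟨n, hn⟩ := hx
    have hn' : InS b h (n + 1) (b x) := by
      obtain ⟨z, hz, rfl⟩ := InS_exists b h n x hn
      rw [← succ_app', InS_iff]
      exact hz
    rw [G_mem hne hc f (n + 1) _ hn', G_mem hne hc _ n x hn]
    obtain ⟨z, hz, rfl⟩ := InS_exists b h n x hn
    rw [← succ_app', K_app', K_app', succ_app']
  · have hx' : ¬ ∃ n : ℤ, InS b h n (b x) := by
      rintro ⟨n, hn⟩
      refine hx ⟨n - 1, ?_⟩
      obtain ⟨z, hz, hz'⟩ := InS_exists b h n (b x) hn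
      have h1 : x = (b ^ (n - 1)) z := by
        apply b.injective
        rw [← succ_app', sub_add_cancel]
        exact hz'
      rw [h1, InS_iff]
      exact hz
    rw [G_not f _ hx', G_not _ x hx]

lemma G_min (hp : ∀ x, x ≤ h x) (f g : ℤ → ℤ) (x : Ω) :
    min (G b h f x) (G b h g x) = G b h (fun n => min (f n) (g n)) x := by
  by_cases hx : ∃ n : ℤ, InS b h n x
  · obtain ⟨n, hn⟩ := hx
    rw [G_mem hne hc f n x hn, G_mem hne hc g n x hn, G_mem hne hc _ n x hn]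
    obtain ⟨z, hz, rfl⟩ := InS_exists b h n x hn
    rw [K_app', K_app', K_app']
    rcases le_total (f n) (g n) with h1 | h1
    · rw [min_eq_left h1]
      exact min_eq_left ((b ^ n).le_iff_le.2 (zpow_mono_app h hp z h1))
    · rw [min_eq_right h1]
      exact min_eq_right ((b ^ n).le_iff_le.2 (zpow_mono_app h hp z h1))
  · rw [G_not f x hx, G_not g x hx, G_not _ x hx, min_self]

lemma G_inj (hp : ∀ x, x ≤ h x) (f : ℤ → ℤ) (hf : ∀ x, G b h f x = x) (n : ℤ) : f n = 0 := by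
  obtain ⟨z, hz⟩ := id hne
  have hn : InS b h n ((b ^ n) z) := (InS_iff b h n z).2 hz
  have h1 := hf ((b ^ n) z)
  rw [G_mem hne hc f n _ hn, K_app'] at h1
  have h2 : (h ^ (f n)) z = z := (b ^ n).injective h1
  rcases lt_trichotomy (f n) 0 with h3 | h3 | h3
  · have h4 := zpow_strict_app h hp z hz h3
    rw [h2, zpow_zero, one_app] at h4
    exact absurd h4 (lt_irrefl z)
  · exact h3
  · have h4 := zpow_strict_app h hp z hz h3
    rw [h2, zpow_zero, one_app] at h4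
    exact absurd h4 (lt_irrefl z)

/-- the automorphism -/
noncomputable def F (f : ℤ → ℤ) : Ω ≃o Ω where
  toFun := G b h f
  invFun := G b h (fun n => -f n)
  left_inv := G_neg hne hc f
  right_inv := G_neg' hne hc f
  map_rel_iff' := (G_strictMono hne hc f).le_iff_le

lemma F_app (f : ℤ → ℤ) (x : Ω) : F hne hc f x = G b h f x := rfl

end

end Patch

/-- PATCH.  A configuration gives a copy of the unrestricted wreath product: `F f` acts on
`b ^ n (supp h)` as `b ^ n * h ^ (f n) * b ^ (-n)` and is the identity elsewhere (the sets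
`b ^ n (supp h)`, `n ∈ ℤ`, lie one above the other). -/
theorem patch (hc : Config Ω) :
    ∃ (b : Ω ≃o Ω) (F : (ℤ → ℤ) → (Ω ≃o Ω)),
      (∀ f g, (F f).trans (F g) = F (fun n => f n + g n)) ∧
      (∀ f g, infIso (F f) (F g) = F (fun n => min (f n) (g n))) ∧
      F (fun _ => 0) = OrderIso.refl Ω ∧
      (∀ f, b.trans (F f) = (F (fun n => f (n + 1))).trans b) ∧
      (∀ f, F f = OrderIso.refl Ω → ∀ n, f n = 0) := by
  obtain ⟨b, h, hp, hne, hc⟩ := hc
  refine ⟨b, Patch.F hne hc, ?_, ?_, ?_, ?_, ?_⟩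
  · intro f g
    ext x
    exact Patch.G_add hne hc f g x
  · intro f g
    ext x
    exact Patch.G_min hne hc hp f g x
  · ext x
    exact Patch.G_zero hne hc x
  · intro f
    ext x
    exact Patch.G_shift hne hc f x
  · intro f hf n
    refine Patch.G_inj hne hc hp f (fun x => ?_) n
    have := congrArg (fun e : Ω ≃o Ω => e x) hf
    exact this

end Pool.Agent.H978.QV
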