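import Pool.Agent.H978.QV.Backward
import Pool.Agent.H978.QV.Forward4
import Pool.Agent.H978.QV.Patch

set_option autoImplicit false

namespace Pool.Agent.H978.QV

/-- If `(H, G)` is solvable, its quasi-identity fails in `Aut(Ω)` for every chain with a
configuration. -/
theorem not_valid_of_solv2 {Ω : Type} [LinearOrder Ω] (hcfg : Config Ω) {H G : List (List ℕ)}
    (hH : ∀ w ∈ H, w ≠ []) (h : Solv H G) : ¬ (qPCP2 H G).Valid Ω := by
  obtain ⟨x, hne, hx, heq⟩ := h
  obtain ⟨b, F, Fmul, Finf, F0, Fb, Finj⟩ := patch hcfg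
  set N := H.length with hN
  set K := base H G with hK
  intro hv
  set ρ : ℕ → (Ω ≃o Ω) := fun n => if n = 0 then b else F (fF K H G x n) with hρ
  have r0 : ρ 0 = b := by simp [hρ]
  have rv : ∀ v, v ≠ 0 → ρ v = F (fF K H G x v) := by intro v hv0; simp [hρ, hv0]
  have prodF : ∀ l : List ℕ, (∀ v ∈ l, v ≠ 0) →
      (prodV l).eval ρ = F (fun n => (l.map fun v => fF K H G x v n).sum) := by
    intro l
    induction l using List.reverseRecOn with
    | nil => intro _; simp only [List.map_nil, List.sum_nil]; rw [F0]; rfl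
    | append_singleton l v ih =>
      intro hl
      rw [prodV_append]
      have e1 : (Tm.mul (prodV l) (Tm.var v)).eval ρ = (ρ v).trans ((prodV l).eval ρ) := rfl
      rw [e1, ih (fun u hu => hl u (by simp [hu])), rv v (hl v (by simp)), Fmul]
      congr 1
      funext n
      simp
      ring
  have key := hv ρ ?_
  · -- the conclusion fails at position `x.length`
    have h2 : infIso (ρ 2) (ρ 1) = OrderIso.refl _ := key
    rw [rv 2 (by norm_num), rv 1 (by norm_num), Finf] at h2
    have h1 := Finj _ h2 (x.length : ℤ)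
    have e2 : fF K H G x 2 (x.length : ℤ) = pre K x H x.length := by simp [fF2]
    have e1 : fF K H G x 1 (x.length : ℤ) = 1 := by simp [fF1, act]
    rw [e1, e2] at h1
    have hp : 1 ≤ pre K x H x.length := by
      unfold pre
      rw [List.take_length]
      have : (x.flatMap fun i => H.getD i []) ≠ [] := by
        obtain ⟨a, t, rfl⟩ := List.exists_cons_of_ne_nil hne
        rw [List.flatMap_cons]
        exact List.append_ne_nil_of_left_ne_nil (getD_ne hH (hx a (by simp))) _
      exact_mod_cast num_pos this
    rw [min_eq_right hp] at h1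
    simp at h1
  · intro p hp
    simp only [qPCP2, mkQ2, List.mem_append, List.mem_map] at hp
    have Anz : ∀ v ∈ Alist N, v ≠ 0 := by
      intro v hv1
      simp only [Alist, List.mem_append, List.mem_flatMap, List.mem_range, List.mem_cons,
        List.not_mem_nil, or_false] at hv1
      rcases hv1 with h | ⟨i, _, h⟩ <;> omega
    rcases hp with ((⟨v, hv1, rfl⟩ | ⟨⟨v, w⟩, hv1, rfl⟩) | ⟨⟨v, w⟩, hv1, rfl⟩) | ⟨⟨l, l'⟩, hl, rfl⟩
    · show infIso (ρ v) (OrderIso.refl _) = OrderIso.refl _
      rw [rv v (Anz v hv1), ← F0, Finf]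
      congr 1
      funext n
      exact min_eq_right (fF_nonneg K H G x v n)
    · show infIso (ρ v) (ρ w) = OrderIso.refl _
      have hvw : v ≠ 0 ∧ w ≠ 0 ∧ ∀ β, min (fF K H G x v β) (fF K H G x w β) = 0 := by
        simp only [Blist, List.mem_append, List.mem_flatMap, List.mem_range, List.mem_cons,
          List.not_mem_nil, or_false, Prod.mk.injEq] at hv1
        have hpH := fun n => pre_nonneg K x H n
        have hpG := fun n => pre_nonneg K x G n
        rcases hv1 with ⟨i, _, h⟩ | ⟨i, _, j, hj, h⟩
        · rcases h with ⟨rfl, rfl⟩ | ⟨rfl, rfl⟩ | ⟨rfl, rfl⟩ | ⟨rfl, rfl⟩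
          · refine ⟨by omega, by omega, fun β => ?_⟩
            rw [fF3, fF1]; exact at_min1 x zero_le_one i β
          · refine ⟨by omega, by omega, fun β => ?_⟩
            rw [fF3, fF2]; exact at_min2 x (hpH _) i β
          · refine ⟨by omega, by omega, fun β => ?_⟩
            rw [fF4, fF1]; exact at_min1 x (hpH _) i β
          · refine ⟨by omega, by omega, fun β => ?_⟩
            rw [fF5, fF1]; exact at_min1 x (hpG _) i β
        · rcases h with ⟨rfl, rfl⟩ | ⟨rfl, rfl⟩ | ⟨rfl, rfl⟩ | ⟨rfl, rfl⟩ | ⟨rfl, rfl⟩
          · refine ⟨by omega, by omega, fun β => ?_⟩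
            rw [fF3, fF3]; exact at_min x zero_le_one zero_le_one (by omega) β
          · refine ⟨by omega, by omega, fun β => ?_⟩
            rw [fF4, fF3]; exact at_min x (hpH _) zero_le_one (by omega) β
          · refine ⟨by omega, by omega, fun β => ?_⟩
            rw [fF5, fF3]; exact at_min x (hpG _) zero_le_one (by omega) β
          · refine ⟨by omega, by omega, fun β => ?_⟩
            rw [fF4, fF3]; exact at_min x (hpH _) zero_le_one (by omega) β
          · refine ⟨by omega, by omega, fun β => ?_⟩
            rw [fF5, fF3]; exact at_min x (hpG _) zero_le_one (by omega) β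
      rw [rv v hvw.1, rv w hvw.2.1, Finf, ← F0]
      congr 1
      funext n
      exact hvw.2.2 n
    · show (ρ w).trans (ρ v) = (ρ v).trans (ρ w)
      simp only [Dlist, List.mem_flatMap, List.mem_map, Prod.mk.injEq] at hv1
      obtain ⟨v', hv', w', hw', rfl, rfl⟩ := hv1
      rw [rv v' (Anz v' hv'), rv w' (Anz w' hw'), Fmul, Fmul]
      congr 1
      funext n
      ring
    · show (ρ 0).trans ((prodV l).eval ρ) = ((prodV l').eval ρ).trans (ρ 0)
      have main : (∀ v ∈ l, v ≠ 0) ∧ (∀ v ∈ l', v ≠ 0) ∧
          ∀ β : ℤ, (l.map fun v => fF K H G x v (β + 1)).sum =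
            (l'.map fun v => fF K H G x v β).sum := by
        simp only [List.mem_cons, List.not_mem_nil, or_false, Prod.mk.injEq] at hl
        rcases hl with ⟨rfl, rfl⟩ | ⟨rfl, rfl⟩ | ⟨rfl, rfl⟩
        · have h0 : ∀ v ∈ Slist N, v ≠ 0 := by
            intro v hv; rcases mem_Slist hv with rfl | ⟨i, _, rfl⟩ <;> omega
          have tot : ∀ β : ℤ, ((Slist N).map fun v => fF K H G x v β).sum = 1 := by
            intro β
            rw [sum_Slist (fun v => fF K H G x v β)]
            simp only [fF1, fF3]
            rw [sum_at hx (fun _ => 1)]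
            split_ifs <;> simp
          exact ⟨h0, h0, fun β => by rw [tot, tot]⟩
        · refine ⟨?_, ?_, fun β => ?_⟩
          · intro v hv; rcases mem_Ulist hv with rfl | ⟨i, _, rfl⟩ <;> omega
          · intro v hv; obtain ⟨i, _, (rfl | rfl)⟩ := mem_Rlist hv <;> omega
          · rw [sum_Ulist (fun v => fF K H G x v (β + 1)), sum_Rlist (fun v => fF K H G x v β)]
            simp only [fF2, fF3, fF4]
            exact rule K hx hne H β
        · refine ⟨?_, ?_, fun β => ?_⟩
          · intro v hv; rcases mem_Ulist hv with rfl | ⟨i, _, rfl⟩ <;> omega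
          · intro v hv; obtain ⟨i, _, (rfl | rfl)⟩ := mem_Rlist hv <;> omega
          · rw [sum_Ulist (fun v => fF K H G x v (β + 1)), sum_Rlist (fun v => fF K H G x v β)]
            simp only [fF2, fF3, fF5]
            have hpe : pre K x H x.length = pre K x G x.length := by
              unfold pre; rw [List.take_length, heq]
            rw [hpe]
            exact rule K hx hne G β
      obtain ⟨hl0, hl0', hs⟩ := main
      rw [r0, prodF l hl0, prodF l' hl0', Fb]
      congr 2
      funext n
      exact hs n

end Pool.Agent.H978.QV
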