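import Pool.Agent.H978.QV.Defs6
import Mathlib

set_option autoImplicit false

namespace Pool.Agent.H978.QV

namespace BlowIso

theorem blow_lt {D C E : Type} [LinearOrder D] [LinearOrder E] {c : D → C} {F : C → Set E}
    {p q : Blow c F} : p < q ↔ (ofLex p.1).1 < (ofLex q.1).1 ∨
      (ofLex p.1).1 = (ofLex q.1).1 ∧ (ofLex p.1).2 < (ofLex q.1).2 := by
  have h : p < q ↔ p.1 < q.1 := Iff.rfl
  rw [h, Prod.Lex.lt_iff]

/-- the map `(d, x) ↦ (t, (d', x))` -/
def fwd {T D C E : Type} [LinearOrder T] [LinearOrder D] [LinearOrder E]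
    (c : D → C) (F : C → Set E) (e : D ≃o T ×ₗ D) (he : ∀ d, c (ofLex (e d)).2 = c d)
    (p : Blow c F) : T ×ₗ Blow c F :=
  toLex ((ofLex (e (ofLex p.1).1)).1,
    ⟨toLex ((ofLex (e (ofLex p.1).1)).2, (ofLex p.1).2), by
      have h := p.2
      simp only [ofLex_toLex]
      rw [he]
      exact h⟩)

theorem fwd_strictMono {T D C E : Type} [LinearOrder T] [LinearOrder D] [LinearOrder E]
    (c : D → C) (F : C → Set E) (e : D ≃o T ×ₗ D) (he : ∀ d, c (ofLex (e d)).2 = c d) :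
    StrictMono (fwd c F e he) := by
  intro p q hpq
  rw [Prod.Lex.lt_iff]
  rcases blow_lt.mp hpq with h | ⟨h1, h2⟩
  · have h3 := e.strictMono h
    rw [Prod.Lex.lt_iff] at h3
    rcases h3 with h3 | ⟨h3, h4⟩
    · exact Or.inl h3
    · exact Or.inr ⟨h3, blow_lt.mpr (Or.inl h4)⟩
  · refine Or.inr ⟨?_, blow_lt.mpr (Or.inr ⟨?_, h2⟩)⟩
    · show (ofLex (e (ofLex p.1).1)).1 = (ofLex (e (ofLex q.1).1)).1
      rw [h1]
    · show (ofLex (e (ofLex p.1).1)).2 = (ofLex (e (ofLex q.1).1)).2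
      rw [h1]

theorem fwd_surjective {T D C E : Type} [LinearOrder T] [LinearOrder D] [LinearOrder E]
    (c : D → C) (F : C → Set E) (e : D ≃o T ×ₗ D) (he : ∀ d, c (ofLex (e d)).2 = c d) :
    Function.Surjective (fwd c F e he) := by
  intro y
  obtain ⟨t, b⟩ := y
  obtain ⟨⟨d', x⟩, hx⟩ := b
  have hx' : x ∈ F (c d') := hx
  have hed : e (e.symm (toLex (t, d'))) = toLex (t, d') := e.apply_symm_apply _
  have hc : c (e.symm (toLex (t, d'))) = c d' := by
    rw [← he (e.symm (toLex (t, d'))), hed]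
    rfl
  refine ⟨⟨toLex (e.symm (toLex (t, d')), x), ?_⟩, ?_⟩
  · show x ∈ F (c (e.symm (toLex (t, d'))))
    rw [hc]
    exact hx'
  · have h1 : (ofLex (e (e.symm (toLex (t, d'))))).1 = t := by rw [hed]; rfl
    have h2 : (ofLex (e (e.symm (toLex (t, d'))))).2 = d' := by rw [hed]; rfl
    refine congrArg toLex (Prod.ext h1 (Subtype.ext ?_))
    exact congrArg toLex (Prod.ext h2 rfl)

end BlowIso

/-- BL2.  `(d, x) ↦ (t, (d', x))` where `e d = (t, d')`. -/
theorem blow_iso {T D C E : Type} [LinearOrder T] [LinearOrder D] [LinearOrder E]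
    (c : D → C) (F : C → Set E) (e : D ≃o T ×ₗ D) (he : ∀ d, c (ofLex (e d)).2 = c d) :
    Nonempty (Blow c F ≃o T ×ₗ Blow c F) :=
  ⟨(BlowIso.fwd_strictMono c F e he).orderIsoOfSurjective _ (BlowIso.fwd_surjective c F e he)⟩

end Pool.Agent.H978.QV
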