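import Pool.Agent.H978.QV.Defs6

/-! Cantor's isomorphism theorem for countable chains with dense colours. -/

set_option autoImplicit false

namespace Pool.Agent.H978.QV

namespace CantorC

/-- an element of a given colour between two finite sets -/
theorem between {A C : Type} [LinearOrder A] {c : A → C} {S : Set C} (h : Dn c S) {s : C}
    (hs : s ∈ S) (lo hi : Finset A) (lh : ∀ x ∈ lo, ∀ y ∈ hi, x < y) :
    ∃ m : A, c m = s ∧ (∀ x ∈ lo, x < m) ∧ ∀ y ∈ hi, m < y := by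
  obtain ⟨⟨a₀⟩, -, h⟩ := h
  obtain ⟨h1, h2, h3⟩ := h s hs
  by_cases nlo : lo.Nonempty
  · by_cases nhi : hi.Nonempty
    · obtain ⟨m, m1, m2, m3⟩ :=
        h1 _ _ (lh _ (Finset.max'_mem _ nlo) _ (Finset.min'_mem _ nhi))
      exact ⟨m, m3, fun x hx => lt_of_le_of_lt (Finset.le_max' lo x hx) m1,
        fun y hy => lt_of_lt_of_le m2 (Finset.min'_le hi y hy)⟩
    · obtain ⟨m, m1, m2⟩ := h3 (Finset.max' lo nlo)
      exact ⟨m, m2, fun x hx => lt_of_le_of_lt (Finset.le_max' lo x hx) m1,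
        fun y hy => (nhi ⟨y, hy⟩).elim⟩
  · by_cases nhi : hi.Nonempty
    · obtain ⟨m, m1, m2⟩ := h2 (Finset.min' hi nhi)
      exact ⟨m, m2, fun x hx => (nlo ⟨x, hx⟩).elim,
        fun y hy => lt_of_lt_of_le m1 (Finset.min'_le hi y hy)⟩
    · obtain ⟨m, m1, m2⟩ := h2 a₀
      exact ⟨m, m2, fun x hx => (nlo ⟨x, hx⟩).elim, fun y hy => (nhi ⟨y, hy⟩).elim⟩

/-- finite partial isomorphisms which preserve the colours -/
def OK {A B C : Type} [LinearOrder A] [LinearOrder B] (cA : A → C) (cB : B → C)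
    (f : Finset (A × B)) : Prop :=
  (∀ p ∈ f, ∀ q ∈ f, cmp (Prod.fst p) (Prod.fst q) = cmp (Prod.snd p) (Prod.snd q)) ∧
    ∀ p ∈ f, cA p.1 = cB p.2

section

variable {A B C : Type} [LinearOrder A] [LinearOrder B] {cA : A → C} {cB : B → C} {S : Set C}

theorem across {f : Finset (A × B)} (hf : OK cA cB f) (hB : Dn cB S) (a : A) (ha : cA a ∈ S) :
    ∃ b : B, cA a = cB b ∧ ∀ p ∈ f, cmp (Prod.fst p) a = cmp (Prod.snd p) b := by
  by_cases h : ∃ b, (a, b) ∈ f
  · obtain ⟨b, hb⟩ := h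
    exact ⟨b, hf.2 _ hb, fun p hp => hf.1 _ hp _ hb⟩
  have hlh : ∀ x ∈ (f.filter fun p => p.1 < a).image Prod.snd,
      ∀ y ∈ (f.filter fun p => a < p.1).image Prod.snd, x < y := by
    intro x hx y hy
    rw [Finset.mem_image] at hx hy
    rcases hx with ⟨p, hp1, rfl⟩
    rcases hy with ⟨q, hq1, rfl⟩
    rw [Finset.mem_filter] at hp1 hq1
    rw [← lt_iff_lt_of_cmp_eq_cmp (hf.1 _ hp1.1 _ hq1.1)]
    exact lt_trans hp1.2 hq1.2
  obtain ⟨b, hc, hb⟩ := between hB ha _ _ hlh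
  refine ⟨b, hc.symm, ?_⟩
  rintro ⟨p1, p2⟩ hp
  have hne : p1 ≠ a := fun he => h ⟨p2, he ▸ hp⟩
  rcases lt_or_gt_of_ne hne with hl | hr
  · have h2 : p1 < a ∧ p2 < b :=
      ⟨hl, hb.1 _ (Finset.mem_image.mpr ⟨(p1, p2), Finset.mem_filter.mpr ⟨hp, hl⟩, rfl⟩)⟩
    rw [← cmp_eq_lt_iff, ← cmp_eq_lt_iff] at h2
    exact h2.1.trans h2.2.symm
  · have h2 : a < p1 ∧ b < p2 :=
      ⟨hr, hb.2 _ (Finset.mem_image.mpr ⟨(p1, p2), Finset.mem_filter.mpr ⟨hp, hr⟩, rfl⟩)⟩
    rw [← cmp_eq_gt_iff, ← cmp_eq_gt_iff] at h2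
    exact h2.1.trans h2.2.symm

theorem ok_insert {f : Finset (A × B)} (hf : OK cA cB f) {a : A} {b : B} (hc : cA a = cB b)
    (h : ∀ p ∈ f, cmp (Prod.fst p) a = cmp (Prod.snd p) b) : OK cA cB (insert (a, b) f) := by
  constructor
  · intro p hp q hq
    rw [Finset.mem_insert] at hp hq
    rcases hp with (rfl | pf) <;> rcases hq with (rfl | qf)
    · simp only [cmp_self_eq_eq]
    · rw [cmp_eq_cmp_symm]
      exact h _ qf
    · exact h _ pf
    · exact hf.1 _ pf _ qf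
  · intro p hp
    rw [Finset.mem_insert] at hp
    rcases hp with (rfl | pf)
    · exact hc
    · exact hf.2 _ pf

theorem ok_swap {f : Finset (A × B)} (hf : OK cA cB f) : OK cB cA (f.image Prod.swap) := by
  constructor
  · intro p hp q hq
    rw [Finset.mem_image] at hp hq
    obtain ⟨p', hp', rfl⟩ := hp
    obtain ⟨q', hq', rfl⟩ := hq
    exact (hf.1 _ hp' _ hq').symm
  · intro p hp
    rw [Finset.mem_image] at hp
    obtain ⟨p', hp', rfl⟩ := hp
    exact (hf.2 _ hp').symm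

theorem across' {f : Finset (A × B)} (hf : OK cA cB f) (hA : Dn cA S) (b : B) (hb : cB b ∈ S) :
    ∃ a : A, cA a = cB b ∧ ∀ p ∈ f, cmp (Prod.fst p) a = cmp (Prod.snd p) b := by
  obtain ⟨a, h1, h2⟩ := across (ok_swap hf) hA b hb
  refine ⟨a, h1.symm, fun p hp => ?_⟩
  exact (h2 p.swap (Finset.mem_image_of_mem _ hp)).symm

variable (cA cB) in
/-- the partial isomorphisms -/
def PI : Type := {f : Finset (A × B) // OK cA cB f}

instance : Preorder (PI cA cB) := inferInstanceAs (Preorder {f : Finset (A × B) // OK cA cB f})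

instance : Inhabited (PI cA cB) :=
  ⟨⟨∅, fun _ h => (Finset.notMem_empty _ h).elim, fun _ h => (Finset.notMem_empty _ h).elim⟩⟩

/-- the partial isomorphisms defined at `a` -/
def dl (hA : ∀ a, cA a ∈ S) (hB : Dn cB S) (a : A) : Order.Cofinal (PI cA cB) where
  carrier := {f | ∃ b : B, (a, b) ∈ f.val}
  isCofinal f := by
    obtain ⟨b, h1, h2⟩ := across f.prop hB a (hA a)
    exact ⟨⟨insert (a, b) f.val, ok_insert f.prop h1 h2⟩, ⟨b, Finset.mem_insert_self _ _⟩,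
      Finset.subset_insert _ _⟩

/-- the partial isomorphisms with `b` in the image -/
def dr (hA : Dn cA S) (hB : ∀ b, cB b ∈ S) (b : B) : Order.Cofinal (PI cA cB) where
  carrier := {f | ∃ a : A, (a, b) ∈ f.val}
  isCofinal f := by
    obtain ⟨a, h1, h2⟩ := across' f.prop hA b (hB b)
    exact ⟨⟨insert (a, b) f.val, ok_insert f.prop h1 h2⟩, ⟨a, Finset.mem_insert_self _ _⟩,
      Finset.subset_insert _ _⟩

end

end CantorC

open CantorC in
/-- CANTOR. -/
theorem cantor_colour {A B C : Type} [LinearOrder A] [LinearOrder B] [Countable A] [Countable B]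
    (cA : A → C) (cB : B → C) (S : Set C) (hA : Dn cA S) (hB : Dn cB S) :
    ∃ e : A ≃o B, ∀ a, cB (e a) = cA a := by
  classical
  cases nonempty_encodable A
  cases nonempty_encodable B
  let toC : A ⊕ B → Order.Cofinal (PI cA cB) := fun p =>
    Sum.recOn p (dl hA.2.1 hB) (dr hA hB.2.1)
  let J : Order.Ideal (PI cA cB) := Order.idealOfCofinals default toC
  have hF : ∀ a : A, ∃ b : B, ∃ f ∈ J, (a, b) ∈ Subtype.val f := by
    intro a
    obtain ⟨f, ⟨b, hb⟩, hf⟩ := Order.cofinal_meets_idealOfCofinals default toC (Sum.inl a)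
    exact ⟨b, f, hf, hb⟩
  have hG : ∀ b : B, ∃ a : A, ∃ f ∈ J, (a, b) ∈ Subtype.val f := by
    intro b
    obtain ⟨f, ⟨a, ha⟩, hf⟩ := Order.cofinal_meets_idealOfCofinals default toC (Sum.inr b)
    exact ⟨a, f, hf, ha⟩
  choose F hF using hF
  choose G hG using hG
  refine ⟨OrderIso.ofCmpEqCmp F G fun a b => ?_, fun a => ?_⟩
  · obtain ⟨f, hf, ha⟩ := hF a
    obtain ⟨g, hg, hb⟩ := hG b
    obtain ⟨m, _, fm, gm⟩ := J.directed _ hf _ hg
    exact m.prop.1 (a, _) (fm ha) (_, b) (gm hb)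
  · obtain ⟨f, hf, ha⟩ := hF a
    exact (f.prop.2 _ ha).symm

end Pool.Agent.H978.QV
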