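import Pool.Agent.H978.QV.Defs5

set_option autoImplicit false

namespace Pool.Agent.H978.QV

variable {Ω : Type} [LinearOrder Ω]

namespace NoDescent

/-- The map of a binary word, the first letter belongs to `h i`. -/
def W (h : ℕ → (Ω ≃o Ω)) : ℕ → List Bool → Ω → Ω
  | _, [], x => x
  | i, true :: l, x => h i (W h (i + 1) l x)
  | i, false :: l, x => W h (i + 1) l x

theorem W_strictMono (h : ℕ → (Ω ≃o Ω)) (l : List Bool) : ∀ i, StrictMono (W h i l) := by
  induction l with
  | nil => intro i x y hxy; exact hxy
  | cons b l ih =>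
    intro i x y hxy
    cases b with
    | false => exact ih (i + 1) hxy
    | true => exact (h i).strictMono (ih (i + 1) hxy)

theorem le_W (h : ℕ → (Ω ≃o Ω)) (hpos : ∀ j x, x ≤ h j x) (l : List Bool) :
    ∀ i x, x ≤ W h i l x := by
  induction l with
  | nil => intro i x; exact le_rfl
  | cons b l ih =>
    intro i x
    cases b with
    | false => exact ih (i + 1) x
    | true => exact (ih (i + 1) x).trans (hpos i _)

theorem W_append (h : ℕ → (Ω ≃o Ω)) (l l' : List Bool) :
    ∀ i x, W h i (l ++ l') x = W h i l (W h (i + l.length) l' x) := by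
  induction l with
  | nil => intro i x; rfl
  | cons b l ih =>
    intro i x
    have e : i + (b :: l).length = i + 1 + l.length := by
      rw [List.length_cons]
      omega
    rw [e]
    cases b with
    | false => exact ih (i + 1) x
    | true => exact congrArg (h i) (ih (i + 1) x)

theorem W_replicate (h : ℕ → (Ω ≃o Ω)) (n : ℕ) : ∀ i x, W h i (List.replicate n false) x = x := by
  induction n with
  | zero => intro i x; rfl
  | succ n ih => intro i x; exact ih (i + 1) x

theorem pad (h : ℕ → (Ω ≃o Ω)) (l : List Bool) (n : ℕ) (hn : l.length ≤ n) (x : Ω) :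
    ∃ l2 : List Bool, l2.length = n ∧ W h 0 l2 x = W h 0 l x := by
  refine ⟨l ++ List.replicate (n - l.length) false, ?_, ?_⟩
  · rw [List.length_append, List.length_replicate]
    omega
  · rw [W_append, W_replicate]

/-- claim (a) -/
theorem claim_a (h : ℕ → (Ω ≃o Ω)) (ω : Ω) (hpos : ∀ j x, x ≤ h j x)
    (hd : ∀ j, h (j + 1) (h (j + 1) ω) ≤ h j ω) (l : List Bool) :
    ∀ i, W h (i + 1) l (h (i + l.length) ω) ≤ h i ω := by
  induction l with
  | nil => intro i; exact le_rfl
  | cons b l ih =>
    intro i
    have e : i + (b :: l).length = i + 1 + l.length := by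
      rw [List.length_cons]
      omega
    rw [e]
    have h1 := ih (i + 1)
    cases b with
    | false => exact h1.trans ((hpos (i + 1) _).trans (hd i))
    | true => exact ((h (i + 1)).monotone h1).trans (hd i)

/-- claim (b) -/
theorem claim_b (h : ℕ → (Ω ≃o Ω)) (ω : Ω) (hpos : ∀ j x, x ≤ h j x)
    (hd : ∀ j, h (j + 1) (h (j + 1) ω) ≤ h j ω) (n : ℕ) :
    ∀ (l l' : List Bool) (i : ℕ), l.length = n → l'.length = n →
      l = l' ∨ ∃ m, n = m + 1 ∧ (W h i l (h (i + m) ω) ≤ W h i l' ω ∨
        W h i l' (h (i + m) ω) ≤ W h i l ω) := by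
  induction n with
  | zero =>
    intro l l' i h1 h2
    left
    rw [List.length_eq_zero_iff.1 h1, List.length_eq_zero_iff.1 h2]
  | succ n ih =>
    intro l l' i h1 h2
    have mixed : ∀ t t' : List Bool, t.length = n → 
        W h i (false :: t) (h (i + n) ω) ≤ W h i (true :: t') ω := by
      intro t t' h3
      have h4 := claim_a h ω hpos hd t i
      rw [h3] at h4
      exact h4.trans ((h i).monotone (le_W h hpos t' (i + 1) ω))
    cases l with
    | nil => exact absurd h1 (by simp)
    | cons b t =>
      cases l' with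
      | nil => exact absurd h2 (by simp)
      | cons b' t' =>
        rw [List.length_cons] at h1 h2
        have h3 : t.length = n := by omega
        have h4 : t'.length = n := by omega
        cases b with
        | false =>
          cases b' with
          | false =>
            rcases ih t t' (i + 1) h3 h4 with h5 | ⟨m, hm, h5⟩
            · left
              rw [h5]
            · right
              refine ⟨m + 1, by omega, ?_⟩
              rw [show i + 1 + m = i + (m + 1) by omega] at h5
              exact h5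
          | true => exact Or.inr ⟨n, rfl, Or.inl (mixed t t' h3)⟩
        | true =>
          cases b' with
          | false => exact Or.inr ⟨n, rfl, Or.inr (mixed t' t h4)⟩
          | true =>
            rcases ih t t' (i + 1) h3 h4 with h5 | ⟨m, hm, h5⟩
            · left
              rw [h5]
            · right
              refine ⟨m + 1, by omega, ?_⟩
              rw [show i + 1 + m = i + (m + 1) by omega] at h5
              exact h5.imp (fun h6 => (h i).monotone h6) (fun h6 => (h i).monotone h6)

theorem W_auto (h : ℕ → (Ω ≃o Ω)) (l : List Bool) : ∀ i, ∃ g : Ω ≃o Ω, ∀ x, g x = W h i l x := by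
  induction l with
  | nil => intro i; exact ⟨OrderIso.refl _, fun x => rfl⟩
  | cons b l ih =>
    intro i
    obtain ⟨g, hg⟩ := ih (i + 1)
    cases b with
    | false => exact ⟨g, fun x => hg x⟩
    | true => exact ⟨g.trans (h i), fun x => congrArg (h i) (hg x)⟩

end NoDescent

open NoDescent in
/-- In a chain with scattered orbits there is no sequence of positive automorphisms `h j` with
`ω < h j ω` and `h (j+1) (h (j+1) ω) ≤ h j ω`. -/
theorem no_descent (hΩ : OrbitScattered Ω) (h : ℕ → (Ω ≃o Ω)) (ω : Ω)
    (hpos : ∀ j x, x ≤ h j x) (hlt : ∀ j, ω < h j ω)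
    (hd : ∀ j, h (j + 1) (h (j + 1) ω) ≤ h j ω) : False := by
  refine hΩ ω {x | ∃ l : List Bool, W h 0 l ω = x} ?_ ?_ ⟨?_⟩
  · rintro x ⟨l, rfl⟩
    obtain ⟨g, hg⟩ := W_auto h l 0
    exact ⟨g, hg ω⟩
  · exact ⟨ω, ⟨[], rfl⟩, h 0 ω, ⟨[true], rfl⟩, (hlt 0).ne⟩
  · rintro ⟨x, l0, hx⟩ ⟨y, l0', hy⟩ hxy
    have hxy' : x < y := hxy
    obtain ⟨l, hl, hl2⟩ := pad h l0 (max l0.length l0'.length) (le_max_left _ _) ω
    obtain ⟨l', hl', hl2'⟩ := pad h l0' (max l0.length l0'.length) (le_max_right _ _) ω
    rw [hx] at hl2
    rw [hy] at hl2'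
    rcases claim_b h ω hpos hd _ l l' 0 hl hl' with h1 | ⟨m, hm, h1 | h1⟩
    · rw [h1, hl2'] at hl2
      exact absurd hl2.symm hxy'.ne
    · rw [zero_add, hl2'] at h1
      have hz : W h 0 (l ++ [true]) ω = W h 0 l (h (m + 1) ω) := by
        rw [W_append, zero_add, hl, hm]
        rfl
      refine ⟨⟨W h 0 l (h (m + 1) ω), l ++ [true], hz⟩, ?_, ?_⟩
      · change x < W h 0 l (h (m + 1) ω)
        rw [← hl2]
        exact W_strictMono h l 0 (hlt (m + 1))
      · change W h 0 l (h (m + 1) ω) < y
        refine lt_of_lt_of_le (W_strictMono h l 0 ?_) h1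
        exact ((h (m + 1)).strictMono (hlt (m + 1))).trans_le (hd m)
    · rw [zero_add, hl2] at h1
      have h2 : y < W h 0 l' (h m ω) := by
        rw [← hl2']
        exact W_strictMono h l' 0 (hlt m)
      exact absurd (h2.trans_le h1) (not_lt_of_gt hxy')

end Pool.Agent.H978.QV
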