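import Pool.Agent.H978.QV.Defs2

set_option autoImplicit false

namespace Pool.Agent.H978.QV

variable {Ω : Type} [LinearOrder Ω]

namespace Restr

theorem zs (f : Ω ≃o Ω) (n : ℤ) (x : Ω) : (f ^ (n + 1)) x = f ((f ^ n) x) := by
  rw [add_comm, zpow_add, zpow_one]
  rfl

theorem zs' (f : Ω ≃o Ω) (n : ℤ) (x : Ω) : (f ^ (n + 1)) x = (f ^ n) (f x) := by
  rw [zpow_add, zpow_one]
  rfl

theorem mono (f : Ω ≃o Ω) (ω : Ω) (hω : ω < f ω) : StrictMono fun n : ℤ => (f ^ n) ω := by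
  apply strictMono_int_of_lt_succ
  intro n
  show (f ^ n) ω < (f ^ (n + 1)) ω
  rw [zs']
  exact (f ^ n).strictMono hω

/-- the bump -/
def B (f : Ω ≃o Ω) (ω : Ω) : Set Ω := {x | ∃ n : ℤ, (f ^ (-n)) ω ≤ x ∧ x ≤ (f ^ n) ω}

theorem convex {f : Ω ≃o Ω} {ω : Ω} (hω : ω < f ω) {x y z : Ω} (hx : x ∈ B f ω) (hz : z ∈ B f ω)
    (hxy : x ≤ y) (hyz : y ≤ z) : y ∈ B f ω := by
  obtain ⟨n, hn, -⟩ := hx
  obtain ⟨m, -, hm⟩ := hz
  have hmo := (mono f ω hω).monotone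
  refine ⟨max n m, ?_, ?_⟩
  · refine le_trans ?_ (hn.trans hxy)
    exact hmo (show -(max n m) ≤ -n by have := le_max_left n m; omega)
  · refine (hyz.trans hm).trans ?_
    exact hmo (le_max_right n m)

theorem map_mem {f : Ω ≃o Ω} {ω : Ω} (hω : ω < f ω) {x : Ω} : f x ∈ B f ω ↔ x ∈ B f ω := by
  have hmo := (mono f ω hω).monotone
  constructor
  · rintro ⟨n, h1, h2⟩
    refine ⟨n + 1, ?_, ?_⟩
    · rw [← f.le_iff_le, ← zs]
      refine le_trans ?_ h1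
      exact hmo (show -(n + 1) + 1 ≤ -n by omega)
    · rw [← f.le_iff_le, ← zs]
      refine h2.trans ?_
      exact hmo (show n ≤ n + 1 + 1 by omega)
  · rintro ⟨n, h1, h2⟩
    refine ⟨n + 1, ?_, ?_⟩
    · have h3 : (f ^ (-n + 1)) ω ≤ f x := by
        rw [zs]
        exact f.monotone h1
      refine le_trans ?_ h3
      exact hmo (show -(n + 1) ≤ -n + 1 by omega)
    · rw [zs]
      exact f.monotone h2

theorem iter_le {f : Ω ≃o Ω} {x : Ω} (h : f x ≤ x) (n : ℕ) : (f ^ (n : ℤ)) x ≤ x := by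
  induction n with
  | zero =>
    rw [Nat.cast_zero, zpow_zero]
    exact le_rfl
  | succ n ih =>
    rw [Nat.cast_succ, zs]
    exact (f.monotone ih).trans h

theorem lt_map {f : Ω ≃o Ω} {ω : Ω} (hω : ω < f ω) {x : Ω} (hx : x ∈ B f ω) : x < f x := by
  obtain ⟨n, h1, h2⟩ := hx
  by_contra hcon
  have hle : f x ≤ x := not_lt.mp hcon
  have hst := mono f ω hω
  have h3 : -n ≤ n := by
    by_contra hc
    have h4 : (f ^ n) ω < (f ^ (-n)) ω := hst (not_le.mp hc)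
    exact absurd (h1.trans h2) (not_le_of_gt h4)
  have hn : 0 ≤ n := by omega
  obtain ⟨m, rfl⟩ := Int.eq_ofNat_of_zero_le hn
  have h5 := iter_le hle (2 * m + 1)
  have h6 : (f ^ ((2 * m + 1 : ℕ) : ℤ)) ((f ^ (-(m : ℤ))) ω) ≤ (f ^ ((2 * m + 1 : ℕ) : ℤ)) x :=
    (f ^ ((2 * m + 1 : ℕ) : ℤ)).monotone h1
  have h7 : (f ^ ((2 * m + 1 : ℕ) : ℤ)) ((f ^ (-(m : ℤ))) ω) = (f ^ ((m : ℤ) + 1)) ω := by
    have h8 : (m : ℤ) + 1 = ((2 * m + 1 : ℕ) : ℤ) + -(m : ℤ) := by push_cast; ring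
    rw [h8, zpow_add]
    rfl
  rw [h7] at h6
  have h9 : (f ^ (m : ℤ)) ω < (f ^ ((m : ℤ) + 1)) ω := hst (show (m : ℤ) < m + 1 by omega)
  exact absurd ((h6.trans h5).trans h2) (not_le_of_gt h9)

open Classical in
/-- the restriction -/
noncomputable def hf (f : Ω ≃o Ω) (ω x : Ω) : Ω := if x ∈ B f ω then f x else x

theorem hf_pos {f : Ω ≃o Ω} {ω x : Ω} (hx : x ∈ B f ω) : hf f ω x = f x := if_pos hx

theorem hf_neg {f : Ω ≃o Ω} {ω x : Ω} (hx : x ∉ B f ω) : hf f ω x = x := if_neg hx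

theorem hf_mono {f : Ω ≃o Ω} {ω : Ω} (hω : ω < f ω) : StrictMono (hf f ω) := by
  intro x y hxy
  by_cases hx : x ∈ B f ω
  · by_cases hy : y ∈ B f ω
    · rw [hf_pos hx, hf_pos hy]
      exact f.strictMono hxy
    · rw [hf_pos hx, hf_neg hy]
      by_contra hc
      exact hy (convex hω hx ((map_mem hω).mpr hx) hxy.le (not_lt.mp hc))
  · by_cases hy : y ∈ B f ω
    · rw [hf_neg hx, hf_pos hy]
      exact hxy.trans (lt_map hω hy)
    · rw [hf_neg hx, hf_neg hy]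
      exact hxy

theorem hf_surj {f : Ω ≃o Ω} {ω : Ω} (hω : ω < f ω) : Function.Surjective (hf f ω) := by
  intro y
  by_cases hy : y ∈ B f ω
  · refine ⟨f.symm y, ?_⟩
    have h1 : f.symm y ∈ B f ω := by
      rw [← map_mem hω, OrderIso.apply_symm_apply]
      exact hy
    rw [hf_pos h1, OrderIso.apply_symm_apply]
  · exact ⟨y, hf_neg hy⟩

end Restr

open Restr in
/-- RESTR.  Restriction of an automorphism to one of its bumps. -/
theorem restr (f : Ω ≃o Ω) (ω : Ω) (hω : ω < f ω) :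
    ∃ h : Ω ≃o Ω, (∀ x, x ≤ h x) ∧
      (∀ x, h x ≠ x ↔ ∃ n : ℤ, (f ^ (-n)) ω ≤ x ∧ x ≤ (f ^ n) ω) ∧
      (∀ x, h x ≠ x → h x = f x) := by
  have hh : ∀ x, (StrictMono.orderIsoOfSurjective (hf f ω) (hf_mono hω) (hf_surj hω)) x =
    hf f ω x := fun _ => rfl
  refine ⟨StrictMono.orderIsoOfSurjective (hf f ω) (hf_mono hω) (hf_surj hω), ?_, ?_, ?_⟩
  · intro x
    rw [hh]
    by_cases hx : x ∈ B f ω
    · rw [hf_pos hx]
      exact (lt_map hω hx).le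
    · rw [hf_neg hx]
  · intro x
    rw [hh]
    show hf f ω x ≠ x ↔ x ∈ B f ω
    constructor
    · intro h
      by_contra hx
      exact h (hf_neg hx)
    · intro hx
      rw [hf_pos hx]
      exact (lt_map hω hx).ne'
  · intro x
    rw [hh]
    intro h
    by_cases hx : x ∈ B f ω
    · exact hf_pos hx
    · exact absurd (hf_neg hx) h

end Pool.Agent.H978.QV
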