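import Pool.Agent.H978.QV.Defs3
import Pool.Agent.H978.QV.NoDescent
import Pool.Agent.H978.QV.Restr

/-!
# A chain with scattered orbits all of whose bumps are invariant has a commutative automorphism group
-/

set_option autoImplicit false

namespace Pool.Agent.H978.QV

variable {Ω : Type} [LinearOrder Ω]

namespace CommInv

theorem mul_app (f g : Ω ≃o Ω) (x : Ω) : (f * g) x = f (g x) := rfl

theorem one_app (x : Ω) : (1 : Ω ≃o Ω) x = x := rfl

theorem inv_app (f : Ω ≃o Ω) (x : Ω) : f⁻¹ (f x) = x := f.symm_apply_apply x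

theorem app_inv (f : Ω ≃o Ω) (x : Ω) : f (f⁻¹ x) = x := f.apply_symm_apply x

theorem lt_inv {f : Ω ≃o Ω} {x : Ω} (h : f x < x) : x < f⁻¹ x := by
  have h1 := f⁻¹.strictMono h
  rw [inv_app] at h1
  exact h1

/-- powers of an automorphism which fixes a point -/
theorem pow_fix {h : Ω ≃o Ω} {x : Ω} (hx : h x = x) (n : ℕ) : (h ^ n) x = x := by
  induction n with
  | zero => rfl
  | succ n ih => rw [pow_succ, mul_app, hx, ih]

theorem pow_move {h : Ω ≃o Ω} {x : Ω} (hx : h x ≠ x) (n : ℕ) : h ((h ^ n) x) ≠ (h ^ n) x := by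
  intro h1
  apply hx
  rw [← mul_app, ← pow_succ', pow_succ, mul_app] at h1
  exact (h ^ n).injective h1

theorem le_pow {u : Ω ≃o Ω} {ω : Ω} (h : ω < u ω) (n : ℕ) : ω ≤ (u ^ n) ω := by
  induction n with
  | zero => exact le_rfl
  | succ n ih =>
    rw [pow_succ, mul_app]
    exact ih.trans ((u ^ n).monotone h.le)

theorem lt_pow {u : Ω ≃o Ω} {ω : Ω} (h : ω < u ω) (n : ℕ) : ω < (u ^ (n + 1)) ω := by
  rw [pow_succ, mul_app]
  exact (le_pow h n).trans_lt ((u ^ n).strictMono h)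

theorem zpow_lt {u : Ω ≃o Ω} {ω : Ω} (h : ω < u ω) {i j : ℤ} (hij : i < j) :
    (u ^ i) ω < (u ^ j) ω := by
  obtain ⟨n, hn⟩ : ∃ n : ℕ, j = i + ((n + 1 : ℕ) : ℤ) := by
    refine ⟨(j - i - 1).toNat, ?_⟩
    omega
  rw [hn, zpow_add, mul_app, zpow_natCast]
  exact (u ^ i).strictMono (lt_pow h n)

/-- the support of a bump is convex -/
theorem convex {h : Ω ≃o Ω} (hh : OneBump h) {a b c : Ω} (ha : h a ≠ a) (hc : h c ≠ c)
    (hab : a ≤ b) (hbc : b ≤ c) : h b ≠ b := by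
  intro hb
  obtain ⟨n, hn⟩ := hh.2.2 a c ha hc
  have h1 : (h ^ n) a ≤ (h ^ n) b := (h ^ n).monotone hab
  rw [pow_fix hb] at h1
  exact absurd (hn.trans_le (h1.trans hbc)) (lt_irrefl _)

/-- the restriction to a bump -/
theorem restr1 (u : Ω ≃o Ω) (ω : Ω) (hω : ω < u ω) :
    ∃ h : Ω ≃o Ω, OneBump h ∧ h ω ≠ ω ∧ ∀ x, h x ≠ x → h x = u x := by
  obtain ⟨h, hpos, hsupp, heq⟩ := restr u ω hω
  have h0 : h ω ≠ ω := by
    rw [hsupp]
    refine ⟨0, ?_, ?_⟩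
    · rw [neg_zero, zpow_zero, one_app]
    · rw [zpow_zero, one_app]
  refine ⟨h, ⟨hpos, ⟨ω, h0⟩, fun x y hx hy => ?_⟩, h0, heq⟩
  have hpow : ∀ n : ℕ, (h ^ n) x = (u ^ n) x := by
    intro n
    induction n with
    | zero => rfl
    | succ n ih =>
      rw [pow_succ', pow_succ', mul_app, mul_app, heq _ (pow_move hx n), ih]
  obtain ⟨m, hm, -⟩ := (hsupp x).1 hx
  obtain ⟨k, -, hk⟩ := (hsupp y).1 hy
  refine ⟨(m + k + 1).toNat, ?_⟩
  rw [hpow]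
  refine hk.trans_lt ?_
  have h1 := (u ^ (m + k + 1).toNat).monotone hm
  refine lt_of_lt_of_le ?_ h1
  rw [← mul_app, ← zpow_natCast, ← zpow_add]
  exact zpow_lt hω (by omega)

section

variable (hinv : ∀ h : Ω ≃o Ω, OneBump h → ∀ (g : Ω ≃o Ω) (x : Ω), h x ≠ x → h (g x) ≠ g x)

include hinv

/-- two bumps which meet are equal -/
theorem sub_bump {h h' : Ω ≃o Ω} (hh : OneBump h) (hh' : OneBump h') {x : Ω} (hx : h x ≠ x)
    (hx' : h' x ≠ x) {y : Ω} (hy : h' y ≠ y) : h y ≠ y := by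
  obtain ⟨n, hn⟩ := hh'.2.2 x y hx' hy
  obtain ⟨m, hm⟩ := hh'.2.2 y x hy hx'
  have h1 := hinv h hh (h' ^ n) x hx
  have h2 := hinv h hh (h' ^ m)⁻¹ x hx
  refine convex hh h2 h1 ?_ hn.le
  have h3 := (h' ^ m)⁻¹.monotone hm.le
  rw [inv_app] at h3
  exact h3

/-- an automorphism which moves a point of a bump upwards -/
theorem bump_of {h : Ω ≃o Ω} (hh : OneBump h) (v : Ω ≃o Ω) {x : Ω} (hx : h x ≠ x)
    (hv : x < v x) : ∃ h' : Ω ≃o Ω, OneBump h' ∧ (∀ y, h y ≠ y → h' y ≠ y) ∧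
      ∀ y, h y ≠ y → h' y = v y := by
  obtain ⟨h', hh', hx', heq⟩ := restr1 v x hv
  have h1 : ∀ y, h y ≠ y → h' y ≠ y := fun y hy => sub_bump hinv hh' hh hx' hx hy
  exact ⟨h', hh', h1, fun y hy => heq y (h1 y hy)⟩

theorem up_all {h : Ω ≃o Ω} (hh : OneBump h) (v : Ω ≃o Ω) {x : Ω} (hx : h x ≠ x)
    (hv : x < v x) {y : Ω} (hy : h y ≠ y) : y < v y := by
  obtain ⟨h', hh', h1, h2⟩ := bump_of hinv hh v hx hv
  rw [← h2 y hy]
  exact lt_of_le_of_ne (hh'.1 y) (Ne.symm (h1 y hy))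

/-- an automorphism fixes all points of a bump or none -/
theorem fix_all {h : Ω ≃o Ω} (hh : OneBump h) (v : Ω ≃o Ω) {x : Ω} (hx : h x ≠ x)
    (hv : v x = x) {y : Ω} (hy : h y ≠ y) : v y = y := by
  rcases lt_trichotomy (v y) y with h1 | h1 | h1
  · have h2 := up_all hinv hh v⁻¹ hy (lt_inv h1) hx
    have h3 : v⁻¹ x = x := by
      have := inv_app v x
      rwa [hv] at this
    rw [h3] at h2
    exact absurd h2 (lt_irrefl _)
  · exact h1
  · have h2 := up_all hinv hh v hy h1 hx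
    rw [hv] at h2
    exact absurd h2 (lt_irrefl _)

/-- halving -/
theorem halve {ω : Ω} (hno : ∀ u : Ω ≃o Ω, ω < u ω → ∃ v : Ω ≃o Ω, ω < v ω ∧ v ω < u ω)
    {h : Ω ≃o Ω} (hh : OneBump h) (hω : h ω ≠ ω) :
    ∃ h' : Ω ≃o Ω, (OneBump h' ∧ h' ω ≠ ω) ∧ h' (h' ω) ≤ h ω := by
  have hlt : ω < h ω := lt_of_le_of_ne (hh.1 ω) (Ne.symm hω)
  obtain ⟨v, hv1, hv2⟩ : ∃ v : Ω ≃o Ω, ω < v ω ∧ v (v ω) ≤ h ω := by
    obtain ⟨w, hw1, hw2⟩ := hno h hlt
    by_cases h1 : w (w ω) ≤ h ω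
    · exact ⟨w, hw1, h1⟩
    · rw [not_le] at h1
      have h2 : ω < (w⁻¹ * h) ω := by
        have := w⁻¹.strictMono hw2
        rw [inv_app] at this
        exact this
      have h3 : (w⁻¹ * h) ω < w ω := by
        have := w⁻¹.strictMono h1
        rw [inv_app] at this
        exact this
      refine ⟨w⁻¹ * h, h2, ?_⟩
      -- `w` is above `w⁻¹ h` on the bump
      have h4 : ω < ((w⁻¹ * h)⁻¹ * w) ω := by
        have := (w⁻¹ * h)⁻¹.strictMono h3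
        rw [inv_app] at this
        exact this
      have h5 := up_all hinv hh ((w⁻¹ * h)⁻¹ * w) hω h4 (hinv h hh (w⁻¹ * h) ω hω)
      have h6 := (w⁻¹ * h).strictMono h5
      rw [mul_app ((w⁻¹ * h)⁻¹) w, app_inv] at h6
      refine h6.le.trans (le_of_eq ?_)
      rw [mul_app, app_inv]
  obtain ⟨h', hh', h1, h2⟩ := bump_of hinv hh v hω hv1
  refine ⟨h', ⟨hh', h1 ω hω⟩, ?_⟩
  rw [h2 ω hω, h2 (v ω) (hinv h hh v ω hω)]
  exact hv2

/-- on the bump every automorphism is a power of the smallest one -/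
theorem is_pow {ω : Ω} {h : Ω ≃o Ω} (hh : OneBump h) (hω : h ω ≠ ω)
    (hmin : ∀ v : Ω ≃o Ω, ω < v ω → h ω ≤ v ω) (v : Ω ≃o Ω) :
    ∃ n : ℤ, ∀ y, h y ≠ y → v y = (h ^ n) y := by
  have hlt : ω < h ω := lt_of_le_of_ne (hh.1 ω) (Ne.symm hω)
  have hvω : h (v ω) ≠ v ω := hinv h hh v ω hω
  obtain ⟨N, hN⟩ := hh.2.2 ω (v ω) hω hvω
  obtain ⟨M, hM⟩ := hh.2.2 (v ω) ω hvω hω
  obtain ⟨n, hn1, hn2⟩ := Int.exists_greatest_of_bdd (P := fun n : ℤ => (h ^ n) ω ≤ v ω)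
    ⟨N, fun z hz => by
      by_contra hlt'
      rw [not_le] at hlt'
      have h1 := zpow_lt hlt hlt'
      rw [zpow_natCast] at h1
      exact absurd (hN.trans (h1.trans_le hz)) (lt_irrefl _)⟩
    ⟨-M, by
      have h1 := (h ^ M)⁻¹.monotone hM.le
      rw [inv_app] at h1
      rw [zpow_neg, zpow_natCast]
      exact h1⟩
  refine ⟨n, ?_⟩
  have hw : ((h ^ n)⁻¹ * v) ω = ω := by
    have h1 : ω ≤ ((h ^ n)⁻¹ * v) ω := by
      have := (h ^ n)⁻¹.monotone hn1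
      rw [inv_app] at this
      exact this
    rcases h1.lt_or_eq with h2 | h2
    · exfalso
      have h3 := (h ^ n).monotone (hmin _ h2)
      rw [mul_app, app_inv, ← mul_app, ← zpow_add_one] at h3
      have := hn2 (n + 1) h3
      omega
    · exact h2.symm
  intro y hy
  have h1 := fix_all hinv hh _ hω hw hy
  have h2 := congrArg (h ^ n) h1
  rw [mul_app, app_inv] at h2
  exact h2

end

end CommInv

open CommInv in
/-- COMM.  If every bump is invariant, the group is commutative. -/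
theorem comm_of_invariant (hΩ : OrbitScattered Ω)
    (hinv : ∀ h : Ω ≃o Ω, OneBump h → ∀ (g : Ω ≃o Ω) (x : Ω), h x ≠ x → h (g x) ≠ g x) :
    ∀ f g : Ω ≃o Ω, f * g = g * f := by
  intro f g
  by_contra hne
  obtain ⟨ω, hω⟩ : ∃ ω, f (g ω) ≠ g (f ω) := by
    by_contra hall
    push Not at hall
    exact hne (RelIso.ext hall)
  have hmove : ∃ u : Ω ≃o Ω, ω < u ω := by
    by_contra hall
    push Not at hall
    have hfix : ∀ u : Ω ≃o Ω, u ω = ω := by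
      intro u
      refine le_antisymm (hall u) ?_
      have := u.monotone (hall u⁻¹)
      rw [app_inv] at this
      exact this
    exact hω (by rw [hfix f, hfix g, hfix f])
  obtain ⟨u, hu⟩ := hmove
  obtain ⟨h₁, hh₁, hω₁, -⟩ := restr1 u ω hu
  by_cases hmin : ∃ u₀ : Ω ≃o Ω, ω < u₀ ω ∧ ∀ v : Ω ≃o Ω, ω < v ω → u₀ ω ≤ v ω
  · obtain ⟨u₀, hu₀, hmin⟩ := hmin
    obtain ⟨h, hh, hωh, heq⟩ := restr1 u₀ ω hu₀
    rw [← heq ω hωh] at hmin
    obtain ⟨n, hn⟩ := is_pow hinv hh hωh hmin f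
    obtain ⟨m, hm⟩ := is_pow hinv hh hωh hmin g
    apply hω
    rw [hn _ (hinv h hh g ω hωh), hm _ (hinv h hh f ω hωh), hm ω hωh, hn ω hωh, ← mul_app,
      ← mul_app, ← zpow_add, ← zpow_add, add_comm]
  · push Not at hmin
    have hstep : ∀ t : {h : Ω ≃o Ω // OneBump h ∧ h ω ≠ ω},
        ∃ t' : {h : Ω ≃o Ω // OneBump h ∧ h ω ≠ ω}, t'.1 (t'.1 ω) ≤ t.1 ω := by
      rintro ⟨h, hh, hωh⟩
      obtain ⟨h', h1, h2⟩ := halve hinv hmin hh hωh
      exact ⟨⟨h', h1⟩, h2⟩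
    choose F hF using hstep
    refine no_descent hΩ (fun j => (F^[j] ⟨h₁, hh₁, hω₁⟩).1) ω (fun j => ?_) (fun j => ?_)
      (fun j => ?_)
    · exact (F^[j] ⟨h₁, hh₁, hω₁⟩).2.1.1
    · exact lt_of_le_of_ne ((F^[j] ⟨h₁, hh₁, hω₁⟩).2.1.1 ω) (Ne.symm (F^[j] ⟨h₁, hh₁, hω₁⟩).2.2)
    · rw [Function.iterate_succ_apply']
      exact hF _

end Pool.Agent.H978.QV
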