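import Pool.Agent.H978.QV.Up

/-!
# DOWN: the dual of UP
-/

set_option autoImplicit false

namespace Pool.Agent.H978.QV

namespace Down

variable {Ω : Type} [LinearOrder Ω]

/-- the automorphism of the dual chain given by an automorphism -/
def du (u : Ω ≃o Ω) : Ωᵒᵈ ≃o Ωᵒᵈ where
  toFun x := OrderDual.toDual (u (OrderDual.ofDual x))
  invFun x := OrderDual.toDual (u.symm (OrderDual.ofDual x))
  left_inv x := by
    show OrderDual.toDual (u.symm (u (OrderDual.ofDual x))) = x
    rw [u.symm_apply_apply, OrderDual.toDual_ofDual]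
  right_inv x := by
    show OrderDual.toDual (u (u.symm (OrderDual.ofDual x))) = x
    rw [u.apply_symm_apply, OrderDual.toDual_ofDual]
  map_rel_iff' {a b} := by
    show u (OrderDual.ofDual b) ≤ u (OrderDual.ofDual a) ↔ OrderDual.ofDual b ≤ OrderDual.ofDual a
    exact u.le_iff_le

/-- the automorphism given by an automorphism of the dual chain -/
def un (u : Ωᵒᵈ ≃o Ωᵒᵈ) : Ω ≃o Ω where
  toFun x := OrderDual.ofDual (u (OrderDual.toDual x))
  invFun x := OrderDual.ofDual (u.symm (OrderDual.toDual x))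
  left_inv x := by
    show OrderDual.ofDual (u.symm (u (OrderDual.toDual x))) = x
    rw [u.symm_apply_apply, OrderDual.ofDual_toDual]
  right_inv x := by
    show OrderDual.ofDual (u (u.symm (OrderDual.toDual x))) = x
    rw [u.apply_symm_apply, OrderDual.ofDual_toDual]
  map_rel_iff' {a b} := by
    show u (OrderDual.toDual b) ≤ u (OrderDual.toDual a) ↔ OrderDual.toDual b ≤ OrderDual.toDual a
    exact u.le_iff_le

theorem orbitScattered_dual (hΩ : OrbitScattered Ω) : OrbitScattered Ωᵒᵈ := by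
  intro ω s ho hs hd
  have ht : (OrderDual.toDual ⁻¹' s : Set Ω).Nontrivial := by
    obtain ⟨x, hx, y, hy, hxy⟩ := hs
    exact ⟨OrderDual.ofDual x, hx, OrderDual.ofDual y, hy, fun h => hxy h⟩
  refine hΩ (OrderDual.ofDual ω) _ ?_ ht ⟨?_⟩
  · intro x hx
    obtain ⟨g, hg⟩ := ho (OrderDual.toDual x) hx
    refine ⟨un g, ?_⟩
    show OrderDual.ofDual (g (OrderDual.toDual (OrderDual.ofDual ω))) = x
    rw [OrderDual.toDual_ofDual, hg, OrderDual.ofDual_toDual]
  rintro ⟨a, ha⟩ ⟨b, hb⟩ hab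
  have hab' : (⟨OrderDual.toDual b, hb⟩ : s) < ⟨OrderDual.toDual a, ha⟩ := hab
  obtain ⟨⟨c, hc⟩, h1, h2⟩ := hd.dense _ _ hab'
  exact ⟨⟨OrderDual.ofDual c, hc⟩, h2, h1⟩

theorem config_dual (h : Config Ωᵒᵈ) : Config Ω := by
  obtain ⟨b, h, h1, ⟨x₀, h2⟩, h3⟩ := h
  refine ⟨(un b).symm, (un h).symm, ?_, ?_, ?_⟩
  · intro x
    rw [OrderIso.le_symm_apply]
    exact h1 (OrderDual.toDual x)
  · refine ⟨OrderDual.ofDual x₀, fun h4 => h2 ?_⟩
    have h5 : OrderDual.ofDual x₀ = un h (OrderDual.ofDual x₀) :=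
      (OrderIso.symm_apply_eq (un h)).1 h4
    exact h5.symm
  · intro x y hx hy
    rw [OrderIso.lt_symm_apply]
    have hx' : h (OrderDual.toDual x) ≠ OrderDual.toDual x := by
      intro h4
      apply hx
      rw [OrderIso.symm_apply_eq]
      exact h4.symm
    have hy' : h (OrderDual.toDual y) ≠ OrderDual.toDual y := by
      intro h4
      apply hy
      rw [OrderIso.symm_apply_eq]
      exact h4.symm
    exact h3 _ _ hy' hx'

theorem symm_ne {h : Ω ≃o Ω} {x : Ω} : h.symm x ≠ x ↔ h x ≠ x := by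
  rw [Ne, Ne, OrderIso.symm_apply_eq]
  exact not_congr ⟨fun e => e.symm, fun e => e.symm⟩

theorem du_pow (h : Ω ≃o Ω) (n : ℕ) (x : Ωᵒᵈ) :
    (du h.symm ^ n) x = OrderDual.toDual ((h ^ n).symm (OrderDual.ofDual x)) := by
  induction n generalizing x with
  | zero => rfl
  | succ n ih =>
    rw [pow_succ, RelIso.mul_apply, ih]
    show OrderDual.toDual ((h ^ n).symm (h.symm (OrderDual.ofDual x))) = _
    have h1 : (h ^ (n + 1)).symm (OrderDual.ofDual x) =
        (h ^ n).symm (h.symm (OrderDual.ofDual x)) := by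
      rw [OrderIso.symm_apply_eq, pow_succ', RelIso.mul_apply, OrderIso.apply_symm_apply,
        OrderIso.apply_symm_apply]
    rw [h1]

theorem oneBump_dual {h : Ω ≃o Ω} (hh : OneBump h) : OneBump (du h.symm) := by
  obtain ⟨h1, ⟨x₀, h2⟩, h3⟩ := hh
  refine ⟨fun x => ?_, ⟨OrderDual.toDual x₀, fun h4 => ?_⟩, fun x y hx hy => ?_⟩
  · show h.symm (OrderDual.ofDual x) ≤ OrderDual.ofDual x
    rw [OrderIso.symm_apply_le]
    exact h1 _
  · exact symm_ne.2 h2 h4
  · have hx' : h (OrderDual.ofDual x) ≠ OrderDual.ofDual x :=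
      symm_ne.1 fun h4 => hx (congrArg OrderDual.toDual h4)
    have hy' : h (OrderDual.ofDual y) ≠ OrderDual.ofDual y :=
      symm_ne.1 fun h4 => hy (congrArg OrderDual.toDual h4)
    obtain ⟨n, hn⟩ := h3 _ _ hy' hx'
    refine ⟨n, ?_⟩
    rw [du_pow]
    show (h ^ n).symm (OrderDual.ofDual x) < OrderDual.ofDual y
    rw [OrderIso.symm_apply_lt]
    exact hn

end Down

variable {Ω : Type} [LinearOrder Ω]

/-- DOWN.  The dual statement of `no_up`. -/
theorem no_down (hΩ : OrbitScattered Ω) (hc : ¬ Config Ω) (h : Ω ≃o Ω) (hh : OneBump h) (g : Ω ≃o Ω)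
    (y : Ω) (hy : h (g.symm y) ≠ g.symm y) (hdown : ∀ x, h x ≠ x → y < x) : False := by
  refine no_up (Down.orbitScattered_dual hΩ) (fun h4 => hc (Down.config_dual h4)) (Down.du h.symm)
    (Down.oneBump_dual hh) (Down.du g) (OrderDual.toDual y) ?_ ?_
  · intro h4
    exact Down.symm_ne.2 hy h4
  · intro x hx
    show y < OrderDual.ofDual x
    exact hdown _ (Down.symm_ne.1 fun h4 => hx (congrArg OrderDual.toDual h4))

end Pool.Agent.H978.QV
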