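import Pool.Agent.H978.QV.Up
import Pool.Agent.H978.QV.Down
import Pool.Agent.H978.QV.CommInv

/-!
# Chains with scattered orbits and a non-abelian automorphism group have a configuration
-/

set_option autoImplicit false

namespace Pool.Agent.H978.QV

variable {Ω : Type} [LinearOrder Ω]

namespace Cfg

/-- The powers of an automorphism fix its fixed points. -/
theorem pow_fix {h : Ω ≃o Ω} {z : Ω} (hz : h z = z) : ∀ n : ℕ, (h ^ n) z = z
  | 0 => by rw [pow_zero]; rfl
  | n + 1 => by
    rw [pow_succ]
    change (h ^ n) (h z) = z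
    rw [hz]
    exact pow_fix hz n

/-- A fixed point of `h` is above or below all of the support. -/
theorem sep {h : Ω ≃o Ω} (hh : OneBump h) {z : Ω} (hz : h z = z) :
    (∀ p, h p ≠ p → p < z) ∨ (∀ p, h p ≠ p → z < p) := by
  by_cases H : ∀ p, h p ≠ p → p < z
  · exact Or.inl H
  · refine Or.inr fun q hq => ?_
    by_contra hlt
    apply H
    intro p hp
    by_contra hlt'
    have h1 : q ≤ z := le_of_not_gt hlt
    have h2 : z ≤ p := le_of_not_gt hlt'
    obtain ⟨n, hn⟩ := hh.2.2 q p hq hp
    have h3 : (h ^ n) q ≤ (h ^ n) z := (h ^ n).monotone h1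
    rw [pow_fix hz n] at h3
    exact absurd (lt_of_lt_of_le hn (h3.trans h2)) (lt_irrefl _)

end Cfg

/-- CFG.  A chain with scattered orbits and a non-abelian automorphism group has a configuration. -/
theorem config_of_noncomm (hΩ : OrbitScattered Ω) (hna : ∃ f g : Ω ≃o Ω, f * g ≠ g * f) : Config Ω := by
  by_contra hc
  obtain ⟨f, g, hfg⟩ := hna
  refine hfg (comm_of_invariant hΩ ?_ f g)
  intro h hh v x hx hvx
  have hy : h (v.symm (v x)) ≠ v.symm (v x) := by
    rw [OrderIso.symm_apply_apply]
    exact hx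
  rcases Cfg.sep hh hvx with H | H
  · exact no_up hΩ hc h hh v (v x) hy H
  · exact no_down hΩ hc h hh v (v x) hy H

end Pool.Agent.H978.QV
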