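import Pool.Agent.H978.QV.CommInv
import Mathlib

/-!
# A chain all of whose bumps are invariant has a commutative automorphism group
-/

set_option autoImplicit false

namespace Pool.Agent.H978.QV

variable {Ω : Type} [LinearOrder Ω]

namespace CommAll

open CommInv

variable (hinv : ∀ h : Ω ≃o Ω, OneBump h → ∀ (g : Ω ≃o Ω) (x : Ω), h x ≠ x → h (g x) ≠ g x)

include hinv

/-- every automorphism is between two consecutive powers of `v` on the bump of `v` -/
theorem between {ω : Ω} {v : Ω ≃o Ω} (hv : OneBump v) (hω : v ω ≠ ω) (f : Ω ≃o Ω) :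
    ∃ m : ℤ, ∀ y, v y ≠ y → (v ^ m) y ≤ f y ∧ f y < (v ^ (m + 1)) y := by
  have hlt : ω < v ω := lt_of_le_of_ne (hv.1 ω) (Ne.symm hω)
  have hfω : v (f ω) ≠ f ω := hinv v hv f ω hω
  obtain ⟨N, hN⟩ := hv.2.2 ω (f ω) hω hfω
  obtain ⟨M, hM⟩ := hv.2.2 (f ω) ω hfω hω
  obtain ⟨m, hm1, hm2⟩ := Int.exists_greatest_of_bdd (P := fun n : ℤ => (v ^ n) ω ≤ f ω)
    ⟨N, fun z hz => by
      by_contra hlt'
      rw [not_le] at hlt'
      have h1 := zpow_lt hlt hlt'
      rw [zpow_natCast] at h1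
      exact absurd (hN.trans (h1.trans_le hz)) (lt_irrefl _)⟩
    ⟨-M, by
      have h1 := (v ^ M)⁻¹.monotone hM.le
      rw [inv_app] at h1
      rw [zpow_neg, zpow_natCast]
      exact h1⟩
  have hm3 : f ω < (v ^ (m + 1)) ω := by
    by_contra hc
    rw [not_lt] at hc
    have := hm2 (m + 1) hc
    omega
  refine ⟨m, fun y hy => ⟨?_, ?_⟩⟩
  · have h1 : ω ≤ ((v ^ m)⁻¹ * f) ω := by
      have := (v ^ m)⁻¹.monotone hm1
      rw [inv_app] at this
      exact this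
    have h2 : y ≤ ((v ^ m)⁻¹ * f) y := by
      rcases h1.lt_or_eq with h2 | h2
      · exact (up_all hinv hv _ hω h2 hy).le
      · exact (fix_all hinv hv _ hω h2.symm hy).ge
    have h3 := (v ^ m).monotone h2
    rw [mul_app, app_inv] at h3
    exact h3
  · have h1 : ω < (f⁻¹ * v ^ (m + 1)) ω := by
      have := f⁻¹.strictMono hm3
      rw [inv_app] at this
      exact this
    have h2 := up_all hinv hv _ hω h1 hy
    have h3 := f.strictMono h2
    rw [mul_app, app_inv] at h3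
    exact h3

theorem key {ω : Ω} (hno : ∀ u : Ω ≃o Ω, ω < u ω → ∃ v : Ω ≃o Ω, ω < v ω ∧ v ω < u ω)
    (f g : Ω ≃o Ω) : ¬ g (f ω) < f (g ω) := by
  intro hlt
  have hc : ω < ((g * f)⁻¹ * (f * g)) ω := by
    have := (g * f)⁻¹.strictMono hlt
    rw [← mul_app g f, inv_app] at this
    exact this
  obtain ⟨c, hcb, hcω, hceq⟩ := restr1 _ ω hc
  obtain ⟨v, ⟨hv, hω⟩, hvv⟩ := halve hinv hno hcb hcω
  rw [hceq ω hcω] at hvv
  have h1 := (g * f).monotone hvv
  rw [mul_app ((g * f)⁻¹), app_inv, mul_app, mul_app] at h1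
  obtain ⟨m, hm⟩ := between hinv hv hω f
  obtain ⟨n, hn⟩ := between hinv hv hω g
  have hvω : v (v ω) ≠ v ω := hinv v hv v ω hω
  have hvvω : v (v (v ω)) ≠ v (v ω) := hinv v hv v _ hvω
  have h2 : (v ^ (n + m + 2)) ω ≤ g (f (v (v ω))) := by
    have e1 : (v ^ (n + m + 2)) ω = (v ^ n) ((v ^ m) (v (v ω))) := by
      rw [← mul_app v v, ← mul_app, ← mul_app, ← pow_two, ← zpow_add, ← zpow_natCast, ← zpow_add]
      rfl
    rw [e1]
    refine ((v ^ n).monotone (hm _ hvvω).1).trans ?_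
    exact (hn _ (hinv v hv f _ hvvω)).1
  have h3 : f (g ω) < (v ^ (n + m + 2)) ω := by
    have e1 : (v ^ (n + m + 2)) ω = (v ^ (m + 1)) ((v ^ (n + 1)) ω) := by
      rw [← mul_app, ← zpow_add]
      congr 2
      omega
    rw [e1]
    refine (hm _ (hinv v hv g _ hω)).2.trans ?_
    exact (v ^ (m + 1)).strictMono (hn _ hω).2
  exact absurd (h3.trans_le (h2.trans h1)) (lt_irrefl _)

end CommAll

open CommInv in
/-- COMM.  If every bump is invariant, the group is commutative. -/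
theorem comm_of_invariant_all
    (hinv : ∀ h : Ω ≃o Ω, OneBump h → ∀ (g : Ω ≃o Ω) (x : Ω), h x ≠ x → h (g x) ≠ g x) :
    ∀ f g : Ω ≃o Ω, f * g = g * f := by
  intro f g
  by_contra hne
  obtain ⟨ω, hω⟩ : ∃ ω, f (g ω) ≠ g (f ω) := by
    by_contra hall
    push Not at hall
    exact hne (RelIso.ext hall)
  by_cases hmin : ∃ u₀ : Ω ≃o Ω, ω < u₀ ω ∧ ∀ v : Ω ≃o Ω, ω < v ω → u₀ ω ≤ v ω
  · obtain ⟨u₀, hu₀, hmin⟩ := hmin
    obtain ⟨h, hh, hωh, heq⟩ := restr1 u₀ ω hu₀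
    rw [← heq ω hωh] at hmin
    obtain ⟨n, hn⟩ := is_pow hinv hh hωh hmin f
    obtain ⟨m, hm⟩ := is_pow hinv hh hωh hmin g
    apply hω
    rw [hn _ (hinv h hh g ω hωh), hm _ (hinv h hh f ω hωh), hm ω hωh, hn ω hωh, ← mul_app,
      ← mul_app, ← zpow_add, ← zpow_add, add_comm]
  · push Not at hmin
    rcases lt_or_gt_of_ne hω with h1 | h1
    · exact CommAll.key hinv hmin g f h1
    · exact CommAll.key hinv hmin f g h1

end Pool.Agent.H978.QV
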