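import Pool.Agent.H978.QV.Defs6
import Pool.Agent.H978.QV.CommInv

/-!
# Overlapping bumps give a configuration
-/

set_option autoImplicit false

namespace Pool.Agent.H978.QV

variable {Ω : Type} [LinearOrder Ω]

namespace Ov

theorem fix_inv (f : Ω ≃o Ω) {x : Ω} (hx : f x = x) : f⁻¹ x = x := by
  have := CommInv.inv_app f x
  rwa [hx] at this

/-- a bump inside the support of an automorphism which is not the identity -/
theorem bump_in (u : Ω ≃o Ω) (hne : ∃ z, u z ≠ z) :
    ∃ v : Ω ≃o Ω, OneBump v ∧ ∀ x, v x ≠ x → u x ≠ x := by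
  obtain ⟨z, hz⟩ := hne
  rcases lt_or_gt_of_ne hz with h1 | h1
  · obtain ⟨v, hv, -, hvs⟩ := CommInv.restr1 u⁻¹ z (CommInv.lt_inv h1)
    refine ⟨v, hv, fun x hx hux => hx ?_⟩
    rw [hvs x hx, fix_inv u hux]
  · obtain ⟨v, hv, -, hvs⟩ := CommInv.restr1 u z h1
    exact ⟨v, hv, fun x hx hux => hx (by rw [hvs x hx, hux])⟩

end Ov

open CommInv Ov in
theorem overlap (hc : ¬ Config Ω) (h k : Ω ≃o Ω) (hh : OneBump h) (hk : OneBump k) (p d y : Ω)
    (hp : h p ≠ p) (kp : k p ≠ p) (hd : h d ≠ d) (kd : ∀ x, k x ≠ x → d < x)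
    (ky : k y ≠ y) (hy : ∀ x, h x ≠ x → x < y) : False := by
  -- the commutator
  obtain ⟨u, e⟩ : ∃ u : Ω ≃o Ω, ∀ x, u x = h (k (h⁻¹ (k⁻¹ x))) :=
    ⟨h * k * h⁻¹ * k⁻¹, fun x => rfl⟩
  have hkx : ∀ x, x ≤ d → k x = x := by
    intro x hx
    by_contra hne
    exact absurd (kd x hne) (not_lt.2 hx)
  have hhx : ∀ x, y ≤ x → h x = x := by
    intro x hx
    by_contra hne
    exact absurd (hy x hne) (not_lt.2 hx)
  have hinvle : ∀ x, h⁻¹ x ≤ x := by
    intro x
    have := hh.1 (h⁻¹ x)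
    rwa [app_inv] at this
  have hsupp : ∀ x, u x ≠ x → d < x ∧ x < k y := by
    intro x hx
    constructor
    · by_contra hlt
      rw [not_lt] at hlt
      apply hx
      rw [e, fix_inv k (hkx x hlt), hkx _ ((hinvle x).trans hlt), app_inv]
    · by_contra hlt
      rw [not_lt] at hlt
      apply hx
      have h1 : y ≤ k⁻¹ x := by
        have := k⁻¹.monotone hlt
        rwa [inv_app] at this
      rw [e, fix_inv h (hhx _ h1), app_inv, hhx x ((hk.1 y).trans hlt)]
  have hne : ∃ z, u z ≠ z := by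
    by_contra hall
    push Not at hall
    have hcomm : ∀ x, h (k x) = k (h x) := by
      intro x
      have := hall (k (h x))
      rw [e, inv_app, inv_app] at this
      exact this
    obtain ⟨n, hn⟩ := hk.2.2 p y kp ky
    have h1 : ∀ n : ℕ, h ((k ^ n) p) = (k ^ n) (h p) := by
      intro n
      induction n with
      | zero => rfl
      | succ n ih => rw [pow_succ', mul_app, mul_app, hcomm, ih]
    have h2 : h ((k ^ n) p) ≠ (k ^ n) p := by
      rw [h1]
      exact fun h3 => hp ((k ^ n).injective h3)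
    exact absurd (hy _ h2) (not_lt.2 hn.le)
  obtain ⟨v, hv, hvs⟩ := bump_in u hne
  obtain ⟨n, hn⟩ := hh.2.2 d p hd hp
  have hky : k (k y) ≠ k y := fun h1 => ky (k.injective h1)
  obtain ⟨m, hm⟩ := hk.2.2 p (k y) kp hky
  have hb : k y < (k ^ m * h ^ n) d := hm.trans ((k ^ m).strictMono hn)
  exact hc ⟨k ^ m * h ^ n, v, hv.1, hv.2.1, fun x x' hx hx' =>
    ((hsupp x (hvs x hx)).2.trans hb).trans
      ((k ^ m * h ^ n).strictMono (hsupp x' (hvs x' hx')).1)⟩

end Pool.Agent.H978.QV
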