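import Pool.Agent.H978.QV.Up
import Pool.Agent.H978.QV.CommInv

/-!
# No bump has an image reaching above it, for all chains without configurations
-/

set_option autoImplicit false

namespace Pool.Agent.H978.QV

variable {Ω : Type} [LinearOrder Ω]

namespace UpAll

open CommInv

theorem le_of_fix_inv {h : Ω ≃o Ω} {x : Ω} (hx : h x = x) : h⁻¹ x = x := by
  have h1 := CommInv.inv_app h x
  rwa [hx] at h1

/-- powers of a bump are bumps with the same support -/
theorem pow_oneBump {h : Ω ≃o Ω} (hh : OneBump h) (n : ℕ) (hn : 1 ≤ n) :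
    OneBump (h ^ n) ∧ ∀ x, (h ^ n) x ≠ x ↔ h x ≠ x := by
  have hle : ∀ x, x ≤ (h ^ n) x := fun x => by
    rcases (hh.1 x).lt_or_eq with h1 | h1
    · exact le_pow h1 n
    · exact (CommInv.pow_fix h1.symm n).ge
  have hsupp : ∀ x, (h ^ n) x ≠ x ↔ h x ≠ x := by
    intro x
    constructor
    · intro h1 h2
      exact h1 (CommInv.pow_fix h2 n)
    · intro h1
      have h2 : x < h x := lt_of_le_of_ne (hh.1 x) (Ne.symm h1)
      obtain ⟨m, rfl⟩ : ∃ m, n = m + 1 := ⟨n - 1, by omega⟩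
      exact (lt_pow h2 m).ne'
  refine ⟨⟨hle, ?_, fun x y hx hy => ?_⟩, hsupp⟩
  · obtain ⟨x, hx⟩ := hh.2.1
    exact ⟨x, (hsupp x).2 hx⟩
  · rw [hsupp] at hx hy
    obtain ⟨N, hN⟩ := hh.2.2 x y hx hy
    refine ⟨N, hN.trans_le ?_⟩
    rw [← pow_mul]
    have h2 : x < h x := lt_of_le_of_ne (hh.1 x) (Ne.symm hx)
    have h3 : N ≤ n * N := Nat.le_mul_of_pos_left N hn
    obtain ⟨e, he⟩ := Nat.exists_eq_add_of_le h3
    rw [he, pow_add, CommInv.mul_app]
    exact (h ^ N).monotone (le_pow h2 e)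

/-- NOUP, with the statement `overlap` as a hypothesis -/
theorem no_up_of_overlap
    (hov : ∀ (h k : Ω ≃o Ω), OneBump h → OneBump k → ∀ p d y : Ω, h p ≠ p → k p ≠ p → h d ≠ d →
      (∀ x, k x ≠ x → d < x) → k y ≠ y → (∀ x, h x ≠ x → x < y) → False)
    (hc : ¬ Config Ω) (h : Ω ≃o Ω) (hh : OneBump h) (g : Ω ≃o Ω)
    (y : Ω) (hy : h (g.symm y) ≠ g.symm y) (hup : ∀ x, h x ≠ x → x < y) : False := by
  obtain ⟨k, hkd⟩ : ∃ k : Ω ≃o Ω, k = g * h * g⁻¹ := ⟨_, rfl⟩
  have hk : OneBump k := hkd ▸ Up.conj_oneBump hh g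
  have hke : ∀ x, k x = g (h (g.symm x)) := fun x => by rw [hkd]; rfl
  have hks : ∀ x, h (g.symm x) ≠ g.symm x → k x ≠ x := by
    intro x hx h1
    apply hx
    rw [hke] at h1
    rw [OrderIso.eq_symm_apply]
    exact h1
  have ky : k y ≠ y := hks y hy
  obtain ⟨p, hp, hp'⟩ := Up.meet hc hh g⁻¹
  have kp : k p ≠ p := hks p hp'
  -- (i)
  have h1 : ∀ a, k a ≠ a → ∃ x, h x ≠ x ∧ x ≤ a := by
    intro a ha
    by_contra hno
    push Not at hno
    obtain ⟨m, hm⟩ := hk.2.2 a y ha ky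
    refine hc ⟨k ^ m, h, hh.1, hh.2.1, fun x x' hx hx' => ?_⟩
    exact (hup x hx).trans (hm.trans ((k ^ m).strictMono (hno x' hx')))
  -- (ii)
  have h2 : ∀ d, h d ≠ d → ∃ b, k b ≠ b ∧ b ≤ d := by
    intro d hd
    by_contra hno
    push Not at hno
    exact hov h k hh hk p d y hp kp hd hno ky hup
  -- (iii)
  have hAB : ∀ x, h x ≠ x → k x ≠ x := by
    intro x hx
    obtain ⟨b, hb, hbx⟩ := h2 x hx
    exact CommInv.convex hk hb ky hbx (hup x hx).le
  have klt : ∀ x, k x ≠ x → x < k x := fun x hx => lt_of_le_of_ne (hk.1 x) (Ne.symm hx)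
  -- the last iterate of `p` in `A`
  obtain ⟨z, hz, hkz⟩ : ∃ z, h z ≠ z ∧ ∀ a, h a ≠ a → a < k z := by
    obtain ⟨N, hN⟩ := hk.2.2 p y kp ky
    have hex : ∃ n : ℕ, h ((k ^ n) p) = (k ^ n) p := by
      refine ⟨N, ?_⟩
      by_contra h3
      exact absurd (hup _ h3) (not_lt.2 hN.le)
    classical
    obtain ⟨n, hn1, hn2⟩ : ∃ n : ℕ, h ((k ^ n) p) = (k ^ n) p ∧
        ∀ m < n, h ((k ^ m) p) ≠ (k ^ m) p := ⟨Nat.find hex, Nat.find_spec hex,
      fun m hm => Nat.find_min hex hm⟩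
    have hn0 : n ≠ 0 := by
      rintro rfl
      exact hp hn1
    obtain ⟨m, rfl⟩ := Nat.exists_eq_succ_of_ne_zero hn0
    refine ⟨(k ^ m) p, hn2 m (Nat.lt_succ_self m), fun a ha => ?_⟩
    have e : k ((k ^ m) p) = (k ^ (m + 1)) p := by rw [pow_succ', CommInv.mul_app]
    rw [e]
    by_contra h3
    rw [not_lt] at h3
    refine CommInv.convex hh (hn2 m (Nat.lt_succ_self m)) ha ?_ h3 hn1
    rw [← e]
    exact hk.1 _
  have kz : k z ≠ z := hAB z hz
  -- the claim
  have claim : ∀ h' : Ω ≃o Ω, OneBump h' → (∀ x, h' x ≠ x ↔ h x ≠ x) → ∀ x, k x ≠ x →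
      h' x < k x := by
    intro h' hh' hs x hx
    by_contra hle
    rw [not_lt] at hle
    have hx' : h' x ≠ x := ((klt x hx).trans_le hle).ne'
    have hnA : ∀ w, (∀ a, h a ≠ a → a < w) → h'⁻¹ w = w := by
      intro w hw
      apply le_of_fix_inv
      by_contra h3
      exact lt_irrefl _ (hw w ((hs w).1 h3))
    obtain ⟨f, hf⟩ : ∃ f : Ω ≃o Ω, f = h'⁻¹ * k := ⟨_, rfl⟩
    have hfe : ∀ w, f w = h'⁻¹ (k w) := fun w => by rw [hf]; rfl
    have hfz : f z = k z := by rw [hfe, hnA _ hkz]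
    obtain ⟨v, hv, hvz, hve⟩ := restr1 f z (by rw [hfz]; exact klt z kz)
    have hpow : ∀ n : ℕ, (v ^ n) z = (k ^ n) z := by
      intro n
      induction n with
      | zero => rfl
      | succ n ih =>
        rw [pow_succ', pow_succ', CommInv.mul_app, CommInv.mul_app, hve _ (pow_move hvz n), ih,
          hfe]
        apply hnA
        intro a ha
        refine (hkz a ha).trans_le ?_
        exact k.monotone (le_pow (klt z kz) n)
    have hvy : v y ≠ y := by
      obtain ⟨n, hn⟩ := hk.2.2 z y kz ky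
      refine CommInv.convex hv hvz (pow_move hvz n) (hup z hz).le ?_
      rw [hpow]
      exact hn.le
    have hfx : f x ≤ x := by
      rw [hfe]
      have h3 := h'⁻¹.monotone hle
      rwa [CommInv.inv_app] at h3
    have hvx : v x = x := by
      by_contra h3
      have h4 := hve x h3
      exact h3 (le_antisymm (h4.le.trans hfx) (hv.1 x))
    refine hov h' v hh' hv z x y ((hs z).2 hz) hvz hx' (fun w hw => ?_) hvy
      (fun w hw => hup w ((hs w).1 hw))
    by_contra h3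
    rw [not_lt] at h3
    exact CommInv.convex hv hw hvy h3 (hup x ((hs x).1 hx')).le hvx
  -- the end
  have hkx : k (k⁻¹ p) = p := CommInv.app_inv k p
  have hxB : k (k⁻¹ p) ≠ k⁻¹ p := by
    intro h3
    rw [hkx] at h3
    apply kp
    calc k p = k (k⁻¹ p) := by rw [← h3]
      _ = p := hkx
  have hxlt : k⁻¹ p < p := by
    have := klt _ hxB
    rwa [hkx] at this
  have hxA : h (k⁻¹ p) ≠ k⁻¹ p := by
    obtain ⟨a, ha, hax⟩ := h1 _ hxB
    exact CommInv.convex hh ha hp hax hxlt.le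
  obtain ⟨n, hn⟩ := hh.2.2 _ p hxA hp
  rcases Nat.eq_zero_or_pos n with rfl | hn0
  · rw [pow_zero, CommInv.one_app] at hn
    exact absurd hn (not_lt.2 hxlt.le)
  · obtain ⟨h3, h4⟩ := pow_oneBump hh n hn0
    have h5 := claim (h ^ n) h3 h4 _ hxB
    rw [hkx] at h5
    exact absurd hn (not_lt.2 h5.le)

end UpAll

end Pool.Agent.H978.QV
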