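import Pool.Agent.H978.QV.Down
import Pool.Agent.H978.QV.CommInv
import Pool.Agent.H978.QV.Cfg
import Pool.Agent.H978.QV.UpAll
import Pool.Agent.H978.QV.Ov
import Pool.Agent.H978.QV.CommAll

/-!
# Chains with a non-abelian automorphism group have a configuration
-/

set_option autoImplicit false

namespace Pool.Agent.H978.QV

variable {Ω : Type} [LinearOrder Ω]

/-- No configuration: no point of `g (supp h)` is above all of `supp h`. -/
theorem no_up_all (hc : ¬ Config Ω) (h : Ω ≃o Ω) (hh : OneBump h) (g : Ω ≃o Ω)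
    (y : Ω) (hy : h (g.symm y) ≠ g.symm y) (hup : ∀ x, h x ≠ x → x < y) : False :=
  UpAll.no_up_of_overlap (fun h k hh hk p d y => overlap hc h k hh hk p d y) hc h hh g y hy hup

/-- The dual statement of `no_up_all`. -/
theorem no_down_all (hc : ¬ Config Ω) (h : Ω ≃o Ω) (hh : OneBump h) (g : Ω ≃o Ω)
    (y : Ω) (hy : h (g.symm y) ≠ g.symm y) (hdown : ∀ x, h x ≠ x → y < x) : False := by
  refine no_up_all (fun h4 => hc (Down.config_dual h4)) (Down.du h.symm)
    (Down.oneBump_dual hh) (Down.du g) (OrderDual.toDual y) ?_ ?_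
  · intro h4
    exact Down.symm_ne.2 hy h4
  · intro x hx
    show y < OrderDual.ofDual x
    exact hdown _ (Down.symm_ne.1 fun h4 => hx (congrArg OrderDual.toDual h4))

/-- Every chain with a non-abelian automorphism group has a configuration. -/
theorem config_of_noncomm_all (hna : ∃ f g : Ω ≃o Ω, f * g ≠ g * f) : Config Ω := by
  by_contra hc
  obtain ⟨f, g, hfg⟩ := hna
  refine hfg (comm_of_invariant_all ?_ f g)
  intro h hh v x hx hvx
  have hy : h (v.symm (v x)) ≠ v.symm (v x) := by
    rw [OrderIso.symm_apply_apply]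
    exact hx
  rcases Cfg.sep hh hvx with H | H
  · exact no_up_all hc h hh v (v x) hy H
  · exact no_down_all hc h hh v (v x) hy H

end Pool.Agent.H978.QV
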