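import Pool.Agent.H978.QV.Defs4

set_option autoImplicit false

namespace Pool.Agent.H978.QV

namespace Clos

open Encodable

/-- one step of the fair enumeration of the closure -/
noncomputable def step {J : Type} (r : ℕ → Option (List J × J)) (k : ℕ) (l : List J) : List J :=
  match r k.unpair.1 with
  | none => l
  | some x => haveI : Decidable (∀ p ∈ x.1, p ∈ l) := Classical.dec _
    if ∀ p ∈ x.1, p ∈ l then x.2 :: l else l

/-- the fair enumeration of the closure -/
noncomputable def T {J : Type} (r : ℕ → Option (List J × J)) (k : ℕ) : List J :=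
  Nat.rec [] (fun k l => step r k l) k

theorem T_succ {J : Type} (r : ℕ → Option (List J × J)) (k : ℕ) :
    T r (k + 1) = step r k (T r k) := rfl

theorem sub_step {J : Type} (r : ℕ → Option (List J × J)) (k : ℕ) (l : List J) :
    ∀ p ∈ l, p ∈ step r k l := by
  intro p hp
  unfold step
  cases h : r k.unpair.1 with
  | none => simpa using hp
  | some x =>
    simp only
    split
    · exact List.mem_cons_of_mem _ hp
    · exact hp

theorem T_mono {J : Type} (r : ℕ → Option (List J × J)) {k m : ℕ} (h : k ≤ m) :
    ∀ p ∈ T r k, p ∈ T r m := by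
  induction m, h using Nat.le_induction with
  | base => intro p hp; exact hp
  | succ m _ ih =>
    intro p hp
    rw [T_succ]
    exact sub_step r m _ p (ih p hp)

theorem T_sound {J : Type} (r : ℕ → Option (List J × J)) (k : ℕ) :
    ∀ c ∈ T r k, Cl r c := by
  induction k with
  | zero => intro c hc; simp [T] at hc
  | succ k ih =>
    intro c hc
    rw [T_succ] at hc
    unfold step at hc
    cases h : r k.unpair.1 with
    | none => rw [h] at hc; exact ih c (by simpa using hc)
    | some x =>
      rw [h] at hc
      simp only at hc
      split at hc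
      · rename_i hx
        rcases List.mem_cons.1 hc with rfl | hc
        · exact Cl.mk k.unpair.1 x.1 x.2 (by rw [h]) (fun p hp => ih p (hx p hp))
        · exact ih c hc
      · exact ih c hc

theorem T_complete {J : Type} (r : ℕ → Option (List J × J)) (c : J) (h : Cl r c) :
    ∃ k, c ∈ T r k := by
  induction h with
  | mk n ps c hr _ ih =>
    have : ∃ K, ∀ p ∈ ps, p ∈ T r K := by
      clear hr
      induction ps with
      | nil => exact ⟨0, by simp⟩
      | cons a ps ih2 =>
        obtain ⟨K, hK⟩ := ih2 (by
          intro p hp; exact (by assumption : ∀ p ∈ a :: ps, Cl r p) p (List.mem_cons_of_mem _ hp))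
          (fun p hp => ih p (List.mem_cons_of_mem _ hp))
        obtain ⟨k, hk⟩ := ih a List.mem_cons_self
        refine ⟨max k K, ?_⟩
        intro p hp
        rcases List.mem_cons.1 hp with rfl | hp
        · exact T_mono r (le_max_left _ _) _ hk
        · exact T_mono r (le_max_right _ _) _ (hK p hp)
    obtain ⟨K, hK⟩ := this
    refine ⟨Nat.pair n K + 1, ?_⟩
    rw [T_succ]
    unfold step
    rw [Nat.unpair_pair, hr]
    simp only
    rw [if_pos]
    · exact List.mem_cons_self
    · intro p hp
      exact T_mono r (Nat.right_le_pair n K) p (hK p hp)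

theorem mem_primrec {J : Type} [Primcodable J] :
    PrimrecRel fun (l : List J) (p : J) => p ∈ l := by
  classical
  have h : PrimrecRel fun (l : List J) (b : J) => ∃ a ∈ l, a = b :=
    PrimrecRel.exists_mem_list (R := fun (a b : J) => a = b) Primrec.eq
  exact h.of_eq (fun l b => by simp)

theorem sub_primrec {J : Type} [Primcodable J] :
    PrimrecRel fun (ps l : List J) => ∀ p ∈ ps, p ∈ l := by
  have h : PrimrecRel fun (a : J) (l : List J) => a ∈ l :=
    mem_primrec.comp Primrec.snd Primrec.fst
  exact PrimrecRel.forall_mem_list (R := fun (a : J) (l : List J) => a ∈ l) h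

theorem T_computable {J : Type} [Primcodable J] (r : ℕ → Option (List J × J))
    (hr : Computable r) : Computable (T r) := by
  classical
  have hstep : Computable₂ fun (_ : ℕ) (y : ℕ × List J) => step r y.1 y.2 := by
    have ho : Computable fun z : ℕ × (ℕ × List J) => r z.2.1.unpair.1 :=
      hr.comp ((Computable.fst.comp Computable.unpair).comp (Computable.fst.comp Computable.snd))
    have hf : Computable fun z : ℕ × (ℕ × List J) => z.2.2 := Computable.snd.comp Computable.snd
    have hg : Computable₂ fun (z : ℕ × (ℕ × List J)) (x : List J × J) =>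
        if ∀ p ∈ x.1, p ∈ z.2.2 then x.2 :: z.2.2 else z.2.2 := by
      have hp : Primrec fun w : (ℕ × (ℕ × List J)) × (List J × J) =>
          if ∀ p ∈ w.2.1, p ∈ w.1.2.2 then w.2.2 :: w.1.2.2 else w.1.2.2 := by
        refine Primrec.ite ?_ ?_ ?_
        · exact sub_primrec.comp (Primrec.fst.comp Primrec.snd)
            (Primrec.snd.comp (Primrec.snd.comp Primrec.fst))
        · exact Primrec.list_cons.comp (Primrec.snd.comp Primrec.snd)
            (Primrec.snd.comp (Primrec.snd.comp Primrec.fst))
        · exact Primrec.snd.comp (Primrec.snd.comp Primrec.fst)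
      exact hp.to_comp
    refine (Computable.option_casesOn ho hf hg).of_eq ?_
    intro z
    unfold step
    cases h : r z.2.1.unpair.1 with
    | none => simp [h]
    | some x => simp [h]
  exact (Computable.nat_rec (f := fun k : ℕ => k) (g := fun _ : ℕ => ([] : List J))
    (h := fun (_ : ℕ) (y : ℕ × List J) => step r y.1 y.2) Computable.id
    (Computable.const _) hstep).of_eq (fun k => rfl)

end Clos

/-- CLOS.  The closure under computably enumerated rules is recursively enumerable. -/
theorem cl_re {J : Type} [Primcodable J] (r : ℕ → Option (List J × J)) (hr : Computable r) :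
    REPred (Cl r) := by
  classical
  have hT := Clos.T_computable r hr
  have hd : Computable₂ fun (c : J) (k : ℕ) => decide (c ∈ Clos.T r k) := by
    have hm : Computable₂ fun (l : List J) (c : J) => decide (c ∈ l) :=
      (Clos.mem_primrec (J := J)).decide.to_comp
    exact hm.comp (hT.comp Computable.snd) Computable.fst
  have hp : Partrec fun c : J => Nat.rfind fun k => (Part.some (decide (c ∈ Clos.T r k)) : Part Bool) :=
    Partrec.rfind hd.partrec₂
  refine hp.dom_re.of_eq ?_
  intro c
  refine Nat.rfind_dom.trans ?_
  constructor
  · rintro ⟨k, hk, _⟩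
    have : c ∈ Clos.T r k := by simpa using hk
    exact Clos.T_sound r k c this
  · intro h
    obtain ⟨k, hk⟩ := Clos.T_complete r c h
    exact ⟨k, by simpa using hk, fun _ => trivial⟩

end Pool.Agent.H978.QV
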