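import Pool.Agent.H978.QV.Defs

set_option autoImplicit false

namespace Pool.Agent.H978.QV

namespace Code

/-- One step of the decoder of the reverse Polish notation, with a stack of terms. -/
def step (st : List Tm) (k : ℕ) : List Tm :=
  match k, st with
  | 0, st => .one :: st
  | 1, t :: s :: r => .mul s t :: r
  | 2, t :: r => .inv t :: r
  | 3, t :: s :: r => .sup s t :: r
  | 4, t :: s :: r => .inf s t :: r
  | (k + 5), st => .var k :: st
  | _, st => st

theorem run_code (t : Tm) : ∀ st : List Tm, t.code.foldl step st = t :: st := by
  induction t with
  | one => intro st; simp [Tm.code, step]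
  | var i => intro st; simp [Tm.code, step]
  | mul s t hs ht => intro st; simp [Tm.code, List.foldl_append, hs, ht, step]
  | inv t ht => intro st; simp [Tm.code, List.foldl_append, ht, step]
  | sup s t hs ht => intro st; simp [Tm.code, List.foldl_append, hs, ht, step]
  | inf s t hs ht => intro st; simp [Tm.code, List.foldl_append, hs, ht, step]

theorem tm_code_injective : Function.Injective Tm.code := by
  intro s t h
  have h1 := run_code s []
  rw [h, run_code t []] at h1
  exact (List.cons.inj h1).1.symm

end Code

/-- The code of a quasi-identity determines it. -/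
theorem code_injective : Function.Injective QId.code := by
  intro p q h
  obtain ⟨pp, pc1, pc2⟩ := p
  obtain ⟨qp, qc1, qc2⟩ := q
  simp only [QId.code, Prod.mk.injEq] at h
  obtain ⟨h1, h2, h3⟩ := h
  have hinj : Function.Injective fun p : Tm × Tm => (p.1.code, p.2.code) := by
    intro a b hab
    simp only [Prod.mk.injEq] at hab
    exact Prod.ext (Code.tm_code_injective hab.1) (Code.tm_code_injective hab.2)
  have e1 : pp = qp := List.map_injective_iff.2 hinj h1
  have e2 : pc1 = qc1 := Code.tm_code_injective h2
  have e3 : pc2 = qc2 := Code.tm_code_injective h3
  subst e1 e2 e3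
  rfl

end Pool.Agent.H978.QV
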