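import Pool.Agent.H978.QV.Defs

/-!
# The code of the quasi-identity of an instance is primitive recursive
-/

set_option autoImplicit false

namespace Pool.Agent.H978.QV

namespace Comp

section comb

variable {α β σ : Type} [Primcodable α] [Primcodable β] [Primcodable σ]

theorem add' {f g : α → ℕ} (hf : Primrec f) (hg : Primrec g) : Primrec fun a => f a + g a :=
  Primrec.nat_add.comp hf hg

theorem mul' {f g : α → ℕ} (hf : Primrec f) (hg : Primrec g) : Primrec fun a => f a * g a :=
  Primrec.nat_mul.comp hf hg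

theorem natPow : Primrec₂ ((· ^ ·) : ℕ → ℕ → ℕ) := Primrec₂.unpaired'.1 Nat.Primrec.pow

theorem pow' {f g : α → ℕ} (hf : Primrec f) (hg : Primrec g) : Primrec fun a => f a ^ g a :=
  natPow.comp hf hg

theorem cons' {f : α → β} {g : α → List β} (hf : Primrec f) (hg : Primrec g) :
    Primrec fun a => f a :: g a := Primrec.list_cons.comp hf hg

theorem sing' {f : α → β} (hf : Primrec f) : Primrec fun a => [f a] :=
  cons' hf (Primrec.const [])

theorem append' {f g : α → List β} (hf : Primrec f) (hg : Primrec g) :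
    Primrec fun a => f a ++ g a := Primrec.list_append.comp hf hg

theorem map' {f : α → List β} {g : α × β → σ} (hf : Primrec f) (hg : Primrec g) :
    Primrec fun a => (f a).map fun b => g (a, b) := Primrec.list_map hf (show Primrec₂ _ from hg)

theorem flatMap' {f : α → List β} {g : α × β → List σ} (hf : Primrec f) (hg : Primrec g) :
    Primrec fun a => (f a).flatMap fun b => g (a, b) :=
  Primrec.list_flatMap hf (show Primrec₂ _ from hg)

theorem pair' {f : α → β} {g : α → σ} (hf : Primrec f) (hg : Primrec g) :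
    Primrec fun a => (f a, g a) := Primrec.pair hf hg

theorem repl' {n : α → ℕ} {f : α → β} (hn : Primrec n) (hf : Primrec f) :
    Primrec fun a => List.replicate (n a) (f a) := by
  have h := map' (g := fun p : α × ℕ => f p.1) (Primrec.list_range.comp hn)
    (hf.comp Primrec.fst)
  exact h.of_eq fun a => by simp

theorem sum' : Primrec (List.sum : List ℕ → ℕ) := by
  have h := Primrec.list_foldr (α := List ℕ) (β := ℕ) (σ := ℕ) (f := fun l => l)
    (g := fun _ => 0) (h := fun _ p => p.1 + p.2) Primrec.id (Primrec.const 0)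
    (show Primrec₂ _ from
      add' (Primrec.fst.comp Primrec.snd) (Primrec.snd.comp Primrec.snd))
  exact h.of_eq fun l => by
    induction l with
    | nil => rfl
    | cons a l ih =>
      rw [List.sum_cons, List.foldr_cons, ih]

theorem num' {K : α → ℕ} {w : α → List ℕ} (hK : Primrec K) (hw : Primrec w) :
    Primrec fun a => num (K a) (w a) := by
  have h := Primrec.list_foldl (f := w) (g := fun _ => 0)
    (h := fun a p => p.1 * K a + (p.2 + 1)) hw (Primrec.const 0)
    (show Primrec₂ _ from
      add' (mul' (Primrec.fst.comp Primrec.snd) (hK.comp Primrec.fst))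
        (add' (Primrec.snd.comp Primrec.snd) (Primrec.const 1)))
  exact h

theorem rlist' {K N : α → ℕ} {H : α → List (List ℕ)} (o : ℕ) (hK : Primrec K) (hH : Primrec H)
    (hN : Primrec N) : Primrec fun a => Rlist (K a) o (H a) (N a) := by
  have hi : Primrec fun p : α × ℕ => p.2 := Primrec.snd
  have hKp : Primrec fun p : α × ℕ => K p.1 := hK.comp Primrec.fst
  have hg : Primrec fun p : α × ℕ => (H p.1).getD p.2 [] :=
    (Primrec.list_getD []).comp (hH.comp Primrec.fst) Primrec.snd
  have h3 : Primrec fun p : α × ℕ => 3 * p.2 := mul' (Primrec.const 3) hi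
  have h1 : Primrec fun p : α × ℕ =>
      List.replicate (K p.1 ^ ((H p.1).getD p.2 []).length) (o + 3 * p.2) :=
    repl' (pow' hKp (Primrec.list_length.comp hg)) (add' (Primrec.const o) h3)
  have h2 : Primrec fun p : α × ℕ =>
      List.replicate (num (K p.1) ((H p.1).getD p.2 [])) (3 + 3 * p.2) :=
    repl' (num' hKp hg) (add' (Primrec.const 3) h3)
  exact flatMap' (Primrec.list_range.comp hN) (append' h1 h2)

end comb

theorem aff (c : ℕ) : Primrec fun i : ℕ => c + 3 * i :=
  add' (Primrec.const c) (mul' (Primrec.const 3) Primrec.id)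

theorem alist : Primrec Alist :=
  append' (Primrec.const [1, 2]) (flatMap' Primrec.list_range
    (g := fun p : ℕ × ℕ => [3 + 3 * p.2, 4 + 3 * p.2, 5 + 3 * p.2])
    (cons' ((aff 3).comp Primrec.snd) (cons' ((aff 4).comp Primrec.snd)
      (sing' ((aff 5).comp Primrec.snd)))))

theorem blist : Primrec Blist := by
  have h1 : Primrec fun N : ℕ => (List.range N).flatMap fun i =>
      [(3 + 3 * i, 1), (2, 3 + 3 * i), (4 + 3 * i, 1), (5 + 3 * i, 1)] :=
    flatMap' Primrec.list_range
      (g := fun p : ℕ × ℕ => [(3 + 3 * p.2, 1), (2, 3 + 3 * p.2), (4 + 3 * p.2, 1),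
        (5 + 3 * p.2, 1)])
      (cons' (pair' ((aff 3).comp Primrec.snd) (Primrec.const 1))
        (cons' (pair' (Primrec.const 2) ((aff 3).comp Primrec.snd))
          (cons' (pair' ((aff 4).comp Primrec.snd) (Primrec.const 1))
            (sing' (pair' ((aff 5).comp Primrec.snd) (Primrec.const 1))))))
  have ha : ∀ c : ℕ, Primrec fun p : (ℕ × ℕ) × ℕ => c + 3 * p.1.2 := fun c =>
    (aff c).comp (Primrec.snd.comp Primrec.fst)
  have hb : ∀ c : ℕ, Primrec fun p : (ℕ × ℕ) × ℕ => c + 3 * p.2 := fun c =>
    (aff c).comp Primrec.snd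
  have h2 : Primrec fun N : ℕ => (List.range N).flatMap fun i => (List.range i).flatMap fun j =>
      [(3 + 3 * i, 3 + 3 * j), (4 + 3 * i, 3 + 3 * j), (5 + 3 * i, 3 + 3 * j),
        (4 + 3 * j, 3 + 3 * i), (5 + 3 * j, 3 + 3 * i)] :=
    flatMap' Primrec.list_range
      (g := fun q : ℕ × ℕ => (List.range q.2).flatMap fun j =>
        [(3 + 3 * q.2, 3 + 3 * j), (4 + 3 * q.2, 3 + 3 * j), (5 + 3 * q.2, 3 + 3 * j),
          (4 + 3 * j, 3 + 3 * q.2), (5 + 3 * j, 3 + 3 * q.2)])
      (flatMap' (Primrec.list_range.comp Primrec.snd)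
        (g := fun p : (ℕ × ℕ) × ℕ =>
          [(3 + 3 * p.1.2, 3 + 3 * p.2), (4 + 3 * p.1.2, 3 + 3 * p.2),
            (5 + 3 * p.1.2, 3 + 3 * p.2), (4 + 3 * p.2, 3 + 3 * p.1.2),
            (5 + 3 * p.2, 3 + 3 * p.1.2)])
        (cons' (pair' (ha 3) (hb 3)) (cons' (pair' (ha 4) (hb 3)) (cons' (pair' (ha 5) (hb 3))
          (cons' (pair' (hb 4) (ha 3)) (sing' (pair' (hb 5) (ha 3))))))))
  exact append' h1 h2

theorem slist : Primrec Slist :=
  append' (Primrec.const [1]) (map' Primrec.list_range (g := fun p : ℕ × ℕ => 3 + 3 * p.2)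
    ((aff 3).comp Primrec.snd))

theorem ulist (o : ℕ) : Primrec (Ulist o) :=
  append' (Primrec.const [2]) (map' Primrec.list_range (g := fun p : ℕ × ℕ => o + 3 * p.2)
    ((aff o).comp Primrec.snd))

theorem base' : Primrec fun p : List (List ℕ) × List (List ℕ) => base p.1 p.2 :=
  add' (add' (Primrec.const 2) (sum'.comp (Primrec.list_flatten.comp Primrec.fst)))
    (sum'.comp (Primrec.list_flatten.comp Primrec.snd))

/-- The code of a product of variables. -/
def pc (l : List ℕ) : List ℕ := 0 :: l.flatMap fun v => [v + 5, 1]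

theorem code_foldl (l : List ℕ) (t : Tm) :
    (l.foldl (fun t v => .mul t (.var v)) t).code = t.code ++ l.flatMap fun v => [v + 5, 1] := by
  induction l generalizing t with
  | nil => simp
  | cons a l ih =>
    rw [List.foldl_cons, ih, List.flatMap_cons]
    simp [Tm.code]

theorem code_prodV (l : List ℕ) : (prodV l).code = pc l := by
  rw [prodV, code_foldl]
  rfl

theorem pc' : Primrec pc :=
  cons' (Primrec.const 0) (flatMap' Primrec.id (g := fun p : List ℕ × ℕ => [p.2 + 5, 1])
    (cons' (add' Primrec.snd (Primrec.const 5)) (Primrec.const [1])))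

/-- The code of the quasi-identity. -/
def cd (A : List ℕ) (B : List (ℕ × ℕ)) (C : List (List ℕ × List ℕ)) :
    List (List ℕ × List ℕ) × (List ℕ × List ℕ) :=
  ((A.map fun x => ([x + 5, 0, 4], [0])) ++ (B.map fun p => ([p.1 + 5, p.2 + 5, 4], [0])) ++
    (C.map fun p => (pc p.1 ++ [5, 1], [5] ++ pc p.2 ++ [1])), ([7, 6, 4], [0]))

theorem code_mkQ (A : List ℕ) (B : List (ℕ × ℕ)) (C : List (List ℕ × List ℕ)) :
    (mkQ A B C (2, 1)).code = cd A B C := by
  unfold mkQ QId.code cd
  simp only [List.map_append, List.map_map]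
  refine Prod.ext ?_ rfl
  show _ ++ _ ++ _ = _ ++ _ ++ _
  refine congrArg₂ _ (congrArg₂ _ ?_ ?_) ?_
  · exact List.map_congr_left fun x _ => rfl
  · exact List.map_congr_left fun x _ => rfl
  · refine List.map_congr_left fun x _ => ?_
    show ((prodV x.1).code ++ [0 + 5] ++ [1], [0 + 5] ++ (prodV x.2).code ++ [1]) = _
    rw [code_prodV, code_prodV, List.append_assoc]
    rfl

theorem cd' {α : Type} [Primcodable α] {A : α → List ℕ} {B : α → List (ℕ × ℕ)}
    {C : α → List (List ℕ × List ℕ)} (hA : Primrec A) (hB : Primrec B) (hC : Primrec C) :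
    Primrec fun a => cd (A a) (B a) (C a) := by
  have h1 : Primrec fun a => (A a).map fun x => (([x + 5, 0, 4], [0]) : List ℕ × List ℕ) :=
    map' hA (g := fun p : α × ℕ => (([p.2 + 5, 0, 4], [0]) : List ℕ × List ℕ))
      (pair' (cons' (add' Primrec.snd (Primrec.const 5)) (Primrec.const [0, 4]))
        (Primrec.const [0]))
  have h2 : Primrec fun a => (B a).map fun p =>
      (([p.1 + 5, p.2 + 5, 4], [0]) : List ℕ × List ℕ) :=
    map' hB (g := fun p : α × (ℕ × ℕ) => (([p.2.1 + 5, p.2.2 + 5, 4], [0]) : List ℕ × List ℕ))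
      (pair' (cons' (add' (Primrec.fst.comp Primrec.snd) (Primrec.const 5))
        (cons' (add' (Primrec.snd.comp Primrec.snd) (Primrec.const 5)) (Primrec.const [4])))
        (Primrec.const [0]))
  have h3 : Primrec fun a => (C a).map fun p => (pc p.1 ++ [5, 1], [5] ++ pc p.2 ++ [1]) :=
    map' hC (g := fun p : α × (List ℕ × List ℕ) =>
        (pc p.2.1 ++ [5, 1], [5] ++ pc p.2.2 ++ [1]))
      (pair' (append' (pc'.comp (Primrec.fst.comp Primrec.snd)) (Primrec.const [5, 1]))
        (append' (append' (Primrec.const [5]) (pc'.comp (Primrec.snd.comp Primrec.snd)))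
          (Primrec.const [1])))
  exact pair' (append' (append' h1 h2) h3) (Primrec.const ([7, 6, 4], [0]))

end Comp

open Pool.Agent.H978.QV.Comp

/-- The code of the quasi-identity is a primitive recursive function of the instance. -/
theorem primrec_code :
    Primrec fun p : List (List ℕ) × List (List ℕ) => (qPCP p.1 p.2).code := by
  have hN : Primrec fun p : List (List ℕ) × List (List ℕ) => p.1.length :=
    Primrec.list_length.comp Primrec.fst
  have hr1 : Primrec fun p : List (List ℕ) × List (List ℕ) =>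
      Rlist (base p.1 p.2) 4 p.1 p.1.length := rlist' 4 base' Primrec.fst hN
  have hr2 : Primrec fun p : List (List ℕ) × List (List ℕ) =>
      Rlist (base p.1 p.2) 5 p.2 p.1.length := rlist' 5 base' Primrec.snd hN
  have hC : Primrec fun p : List (List ℕ) × List (List ℕ) =>
      [(Slist p.1.length, Slist p.1.length),
      (Ulist 4 p.1.length, Rlist (base p.1 p.2) 4 p.1 p.1.length),
      (Ulist 5 p.1.length, Rlist (base p.1 p.2) 5 p.2 p.1.length)] :=
    cons' (pair' (slist.comp hN) (slist.comp hN))
      (cons' (pair' ((ulist 4).comp hN) hr1) (sing' (pair' ((ulist 5).comp hN) hr2)))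
  have h := cd' (alist.comp hN) (blist.comp hN) hC
  exact h.of_eq fun p => (code_mkQ _ _ _).symm

end Pool.Agent.H978.QV
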