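import Pool.Agent.H978.QV.Defs2
import Pool.Agent.H978.QV.Comp

/-!
# The code of the second quasi-identity of an instance is primitive recursive
-/

set_option autoImplicit false

namespace Pool.Agent.H978.QV

namespace Comp2

open Pool.Agent.H978.QV.Comp

theorem dlist : Primrec Dlist := by
  have h : Primrec fun N : ℕ => (Alist N).flatMap fun x => (Alist N).map fun y => (x, y) :=
    flatMap' alist (g := fun p : ℕ × ℕ => (Alist p.1).map fun y => (p.2, y))
      (map' (alist.comp Primrec.fst) (g := fun q : (ℕ × ℕ) × ℕ => (q.1.2, q.2))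
        (pair' (Primrec.snd.comp Primrec.fst) Primrec.snd))
  exact h

/-- The code of the quasi-identity. -/
def cd2 (A : List ℕ) (B D : List (ℕ × ℕ)) (C : List (List ℕ × List ℕ)) :
    List (List ℕ × List ℕ) × (List ℕ × List ℕ) :=
  ((A.map fun x => ([x + 5, 0, 4], [0])) ++ (B.map fun p => ([p.1 + 5, p.2 + 5, 4], [0])) ++
    (D.map fun p => ([p.1 + 5, p.2 + 5, 1], [p.2 + 5, p.1 + 5, 1])) ++
    (C.map fun p => (pc p.1 ++ [5, 1], [5] ++ pc p.2 ++ [1])), ([7, 6, 4], [0]))

theorem code_mkQ2 (A : List ℕ) (B D : List (ℕ × ℕ)) (C : List (List ℕ × List ℕ)) :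
    (mkQ2 A B D C (2, 1)).code = cd2 A B D C := by
  unfold mkQ2 QId.code cd2
  simp only [List.map_append, List.map_map]
  refine Prod.ext ?_ rfl
  show _ ++ _ ++ _ ++ _ = _ ++ _ ++ _ ++ _
  refine congrArg₂ _ (congrArg₂ _ (congrArg₂ _ ?_ ?_) ?_) ?_
  · exact List.map_congr_left fun x _ => rfl
  · exact List.map_congr_left fun x _ => rfl
  · exact List.map_congr_left fun x _ => rfl
  · refine List.map_congr_left fun x _ => ?_
    show ((prodV x.1).code ++ [0 + 5] ++ [1], [0 + 5] ++ (prodV x.2).code ++ [1]) = _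
    rw [code_prodV, code_prodV, List.append_assoc]
    rfl

theorem cd2' {α : Type} [Primcodable α] {A : α → List ℕ} {B D : α → List (ℕ × ℕ)}
    {C : α → List (List ℕ × List ℕ)} (hA : Primrec A) (hB : Primrec B) (hD : Primrec D)
    (hC : Primrec C) : Primrec fun a => cd2 (A a) (B a) (D a) (C a) := by
  have h1 : Primrec fun a => (A a).map fun x => (([x + 5, 0, 4], [0]) : List ℕ × List ℕ) :=
    map' hA (g := fun p : α × ℕ => (([p.2 + 5, 0, 4], [0]) : List ℕ × List ℕ))
      (pair' (cons' (add' Primrec.snd (Primrec.const 5)) (Primrec.const [0, 4]))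
        (Primrec.const [0]))
  have h2 : Primrec fun a => (B a).map fun p =>
      (([p.1 + 5, p.2 + 5, 4], [0]) : List ℕ × List ℕ) :=
    map' hB (g := fun p : α × (ℕ × ℕ) => (([p.2.1 + 5, p.2.2 + 5, 4], [0]) : List ℕ × List ℕ))
      (pair' (cons' (add' (Primrec.fst.comp Primrec.snd) (Primrec.const 5))
        (cons' (add' (Primrec.snd.comp Primrec.snd) (Primrec.const 5)) (Primrec.const [4])))
        (Primrec.const [0]))
  have h4 : Primrec fun a => (D a).map fun p =>
      (([p.1 + 5, p.2 + 5, 1], [p.2 + 5, p.1 + 5, 1]) : List ℕ × List ℕ) :=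
    map' hD (g := fun p : α × (ℕ × ℕ) =>
        (([p.2.1 + 5, p.2.2 + 5, 1], [p.2.2 + 5, p.2.1 + 5, 1]) : List ℕ × List ℕ))
      (pair' (cons' (add' (Primrec.fst.comp Primrec.snd) (Primrec.const 5))
        (cons' (add' (Primrec.snd.comp Primrec.snd) (Primrec.const 5)) (Primrec.const [1])))
        (cons' (add' (Primrec.snd.comp Primrec.snd) (Primrec.const 5))
        (cons' (add' (Primrec.fst.comp Primrec.snd) (Primrec.const 5)) (Primrec.const [1]))))
  have h3 : Primrec fun a => (C a).map fun p => (pc p.1 ++ [5, 1], [5] ++ pc p.2 ++ [1]) :=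
    map' hC (g := fun p : α × (List ℕ × List ℕ) =>
        (pc p.2.1 ++ [5, 1], [5] ++ pc p.2.2 ++ [1]))
      (pair' (append' (pc'.comp (Primrec.fst.comp Primrec.snd)) (Primrec.const [5, 1]))
        (append' (append' (Primrec.const [5]) (pc'.comp (Primrec.snd.comp Primrec.snd)))
          (Primrec.const [1])))
  exact pair' (append' (append' (append' h1 h2) h4) h3) (Primrec.const ([7, 6, 4], [0]))

end Comp2

open Pool.Agent.H978.QV.Comp Pool.Agent.H978.QV.Comp2

/-- The code of the quasi-identity is a primitive recursive function of the instance. -/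
theorem primrec_codeF : Primrec codeF := by
  have hN : Primrec fun p : List (List ℕ) × List (List ℕ) => p.1.length :=
    Primrec.list_length.comp Primrec.fst
  have hr1 : Primrec fun p : List (List ℕ) × List (List ℕ) =>
      Rlist (base p.1 p.2) 4 p.1 p.1.length := rlist' 4 base' Primrec.fst hN
  have hr2 : Primrec fun p : List (List ℕ) × List (List ℕ) =>
      Rlist (base p.1 p.2) 5 p.2 p.1.length := rlist' 5 base' Primrec.snd hN
  have hC : Primrec fun p : List (List ℕ) × List (List ℕ) =>
      [(Slist p.1.length, Slist p.1.length),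
      (Ulist 4 p.1.length, Rlist (base p.1 p.2) 4 p.1 p.1.length),
      (Ulist 5 p.1.length, Rlist (base p.1 p.2) 5 p.2 p.1.length)] :=
    cons' (pair' (slist.comp hN) (slist.comp hN))
      (cons' (pair' ((ulist 4).comp hN) hr1) (sing' (pair' ((ulist 5).comp hN) hr2)))
  have h := cd2' (alist.comp hN) (blist.comp hN) (dlist.comp hN) hC
  exact h.of_eq fun p => (code_mkQ2 _ _ _ _).symm

end Pool.Agent.H978.QV
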