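import Pool.Agent.H978.QV.Defs4

set_option autoImplicit false

/-!
# The term algebra modulo derivable equality (helper928)
-/

namespace Pool.Agent.H978.QV

namespace Compl

/-- The substitution `0 ↦ a, 1 ↦ b, 2 ↦ c`. -/
def s3 (a b c : Tm) : ℕ → Tm
  | 0 => a
  | 1 => b
  | _ => c

variable (S : Set QId) (P : List (Tm × Tm))

theorem ax0 (l r : Tm) (h : (⟨[], (l, r)⟩ : QId) ∈ lgAx) (σ : ℕ → Tm) :
    Der S P (l.subst σ) (r.subst σ) :=
  Der.ax ⟨[], (l, r)⟩ σ (Or.inr h) (by intro p hp; cases hp)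

theorem a_assoc (a b c : Tm) : Der S P (.mul (.mul a b) c) (.mul a (.mul b c)) :=
  ax0 S P (.mul (.mul (.var 0) (.var 1)) (.var 2)) (.mul (.var 0) (.mul (.var 1) (.var 2)))
    (by simp [lgAx]) (s3 a b c)

theorem a_one_mul (a : Tm) : Der S P (.mul .one a) a :=
  ax0 S P (.mul .one (.var 0)) (.var 0) (by simp [lgAx]) (s3 a a a)

theorem a_inv_mul (a : Tm) : Der S P (.mul (.inv a) a) .one :=
  ax0 S P (.mul (.inv (.var 0)) (.var 0)) .one (by simp [lgAx]) (s3 a a a)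

theorem a_sup_comm (a b : Tm) : Der S P (.sup a b) (.sup b a) :=
  ax0 S P (.sup (.var 0) (.var 1)) (.sup (.var 1) (.var 0)) (by simp [lgAx]) (s3 a b b)

theorem a_sup_assoc (a b c : Tm) : Der S P (.sup (.sup a b) c) (.sup a (.sup b c)) :=
  ax0 S P (.sup (.sup (.var 0) (.var 1)) (.var 2)) (.sup (.var 0) (.sup (.var 1) (.var 2)))
    (by simp [lgAx]) (s3 a b c)

theorem a_inf_comm (a b : Tm) : Der S P (.inf a b) (.inf b a) :=
  ax0 S P (.inf (.var 0) (.var 1)) (.inf (.var 1) (.var 0)) (by simp [lgAx]) (s3 a b b)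

theorem a_inf_assoc (a b c : Tm) : Der S P (.inf (.inf a b) c) (.inf a (.inf b c)) :=
  ax0 S P (.inf (.inf (.var 0) (.var 1)) (.var 2)) (.inf (.var 0) (.inf (.var 1) (.var 2)))
    (by simp [lgAx]) (s3 a b c)

theorem a_sup_inf (a b : Tm) : Der S P (.sup a (.inf a b)) a :=
  ax0 S P (.sup (.var 0) (.inf (.var 0) (.var 1))) (.var 0) (by simp [lgAx]) (s3 a b b)

theorem a_inf_sup (a b : Tm) : Der S P (.inf a (.sup a b)) a :=
  ax0 S P (.inf (.var 0) (.sup (.var 0) (.var 1))) (.var 0) (by simp [lgAx]) (s3 a b b)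

theorem a_mul_sup (a b c : Tm) : Der S P (.mul a (.sup b c)) (.sup (.mul a b) (.mul a c)) :=
  ax0 S P (.mul (.var 0) (.sup (.var 1) (.var 2)))
    (.sup (.mul (.var 0) (.var 1)) (.mul (.var 0) (.var 2))) (by simp [lgAx]) (s3 a b c)

theorem a_sup_mul (a b c : Tm) : Der S P (.mul (.sup a b) c) (.sup (.mul a c) (.mul b c)) :=
  ax0 S P (.mul (.sup (.var 0) (.var 1)) (.var 2))
    (.sup (.mul (.var 0) (.var 2)) (.mul (.var 1) (.var 2))) (by simp [lgAx]) (s3 a b c)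

/-- Derivable equality. -/
def st : Setoid Tm where
  r := Der S P
  iseqv := ⟨fun s => Der.refl s, fun h => Der.symm _ _ h, fun h h' => Der.trans _ _ _ h h'⟩

/-- The term algebra modulo derivable equality. -/
def TQ : Type := Quotient (st S P)

/-- The class of a term. -/
def cl (t : Tm) : TQ S P := Quotient.mk (st S P) t

variable {S P}

theorem cl_eq {s t : Tm} : cl S P s = cl S P t ↔ Der S P s t := by
  constructor
  · intro h
    exact Quotient.exact (s := st S P) h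
  · intro h
    exact Quotient.sound (s := st S P) h

theorem cl_surj (x : TQ S P) : ∃ t, cl S P t = x := by
  obtain ⟨t, ht⟩ := Quotient.exists_rep x
  exact ⟨t, ht⟩

instance : Mul (TQ S P) :=
  ⟨Quotient.map₂ (sa := st S P) (sb := st S P) (sc := st S P) Tm.mul
    fun _ _ h _ _ h' => Der.mul _ _ _ _ h h'⟩

instance : Inv (TQ S P) :=
  ⟨Quotient.map (sa := st S P) (sb := st S P) Tm.inv fun _ _ h => Der.inv _ _ h⟩

instance : One (TQ S P) := ⟨cl S P .one⟩

instance mx : Max (TQ S P) :=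
  ⟨Quotient.map₂ (sa := st S P) (sb := st S P) (sc := st S P) Tm.sup
    fun _ _ h _ _ h' => Der.sup _ _ _ _ h h'⟩

instance mn : Min (TQ S P) :=
  ⟨Quotient.map₂ (sa := st S P) (sb := st S P) (sc := st S P) Tm.inf
    fun _ _ h _ _ h' => Der.inf _ _ _ _ h h'⟩

theorem cl_mul (s t : Tm) : cl S P (.mul s t) = cl S P s * cl S P t := rfl
theorem cl_inv (s : Tm) : cl S P (.inv s) = (cl S P s)⁻¹ := rfl
theorem cl_one : cl S P .one = 1 := rfl
theorem cl_sup (s t : Tm) : cl S P (.sup s t) = cl S P s ⊔ cl S P t := rfl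
theorem cl_inf (s t : Tm) : cl S P (.inf s t) = cl S P s ⊓ cl S P t := rfl

instance grp : Group (TQ S P) := Group.ofLeftAxioms
  (by
    intro x y z
    obtain ⟨a, rfl⟩ := cl_surj x
    obtain ⟨b, rfl⟩ := cl_surj y
    obtain ⟨c, rfl⟩ := cl_surj z
    exact cl_eq.2 (a_assoc S P a b c))
  (by
    intro x
    obtain ⟨a, rfl⟩ := cl_surj x
    exact cl_eq.2 (a_one_mul S P a))
  (by
    intro x
    obtain ⟨a, rfl⟩ := cl_surj x
    exact cl_eq.2 (a_inv_mul S P a))

instance lat : Lattice (TQ S P) := Lattice.mk'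
  (by
    intro x y
    obtain ⟨a, rfl⟩ := cl_surj x
    obtain ⟨b, rfl⟩ := cl_surj y
    exact cl_eq.2 (a_sup_comm S P a b))
  (by
    intro x y z
    obtain ⟨a, rfl⟩ := cl_surj x
    obtain ⟨b, rfl⟩ := cl_surj y
    obtain ⟨c, rfl⟩ := cl_surj z
    exact cl_eq.2 (a_sup_assoc S P a b c))
  (by
    intro x y
    obtain ⟨a, rfl⟩ := cl_surj x
    obtain ⟨b, rfl⟩ := cl_surj y
    exact cl_eq.2 (a_inf_comm S P a b))
  (by
    intro x y z
    obtain ⟨a, rfl⟩ := cl_surj x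
    obtain ⟨b, rfl⟩ := cl_surj y
    obtain ⟨c, rfl⟩ := cl_surj z
    exact cl_eq.2 (a_inf_assoc S P a b c))
  (by
    intro x y
    obtain ⟨a, rfl⟩ := cl_surj x
    obtain ⟨b, rfl⟩ := cl_surj y
    exact cl_eq.2 (a_sup_inf S P a b))
  (by
    intro x y
    obtain ⟨a, rfl⟩ := cl_surj x
    obtain ⟨b, rfl⟩ := cl_surj y
    exact cl_eq.2 (a_inf_sup S P a b))

attribute [-instance] mx mn

theorem m_sup (x y z : TQ S P) : x * (y ⊔ z) = x * y ⊔ x * z := by
  obtain ⟨a, rfl⟩ := cl_surj x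
  obtain ⟨b, rfl⟩ := cl_surj y
  obtain ⟨c, rfl⟩ := cl_surj z
  exact cl_eq.2 (a_mul_sup S P a b c)

theorem sup_m (x y z : TQ S P) : (x ⊔ y) * z = x * z ⊔ y * z := by
  obtain ⟨a, rfl⟩ := cl_surj x
  obtain ⟨b, rfl⟩ := cl_surj y
  obtain ⟨c, rfl⟩ := cl_surj z
  exact cl_eq.2 (a_sup_mul S P a b c)

instance lmono : MulLeftMono (TQ S P) := ⟨by
  intro m x y h
  show m * x ≤ m * y
  rw [← sup_eq_right] at h ⊢
  rw [← m_sup, h]⟩

instance rmono : MulRightMono (TQ S P) := ⟨by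
  intro m x y h
  show x * m ≤ y * m
  rw [← sup_eq_right] at h ⊢
  rw [← sup_m, h]⟩

theorem eval_cl (ρ : ℕ → TQ S P) (σ : ℕ → Tm) (h : ∀ i, cl S P (σ i) = ρ i) (t : Tm) :
    t.evalG ρ = cl S P (t.subst σ) := by
  induction t with
  | one => rfl
  | var i => exact (h i).symm
  | mul s t hs ht =>
    show s.evalG ρ * t.evalG ρ = cl S P (.mul (s.subst σ) (t.subst σ))
    rw [hs, ht, cl_mul]
  | inv t ht =>
    show (t.evalG ρ)⁻¹ = cl S P (.inv (t.subst σ))
    rw [ht, cl_inv]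
  | sup s t hs ht =>
    show s.evalG ρ ⊔ t.evalG ρ = cl S P (.sup (s.subst σ) (t.subst σ))
    rw [hs, ht]
    rfl
  | inf s t hs ht =>
    show s.evalG ρ ⊓ t.evalG ρ = cl S P (.inf (s.subst σ) (t.subst σ))
    rw [hs, ht]
    rfl

theorem subst_var (t : Tm) : t.subst Tm.var = t := by
  induction t with
  | one => rfl
  | var i => rfl
  | mul s t hs ht =>
    show Tm.mul (s.subst Tm.var) (t.subst Tm.var) = _
    rw [hs, ht]
  | inv t ht =>
    show Tm.inv (t.subst Tm.var) = _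
    rw [ht]
  | sup s t hs ht =>
    show Tm.sup (s.subst Tm.var) (t.subst Tm.var) = _
    rw [hs, ht]
  | inf s t hs ht =>
    show Tm.inf (s.subst Tm.var) (t.subst Tm.var) = _
    rw [hs, ht]

end Compl

open Pool.Agent.H978.QV.Compl in
/-- COMPL.  The term algebra modulo derivable equality. -/
theorem der_complete (S : Set QId) (P : List (Tm × Tm)) :
    ∃ (G : Type) (_ : Group G) (_ : Lattice G) (_ : MulLeftMono G) (_ : MulRightMono G)
      (ρ : ℕ → G), (∀ q ∈ S, q.HoldsIn G) ∧ (∀ p ∈ P, p.1.evalG ρ = p.2.evalG ρ) ∧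
      ∀ s t : Tm, s.evalG ρ = t.evalG ρ → Der S P s t := by
  refine ⟨TQ S P, grp, lat, lmono, rmono, fun i => cl S P (.var i), ?_, ?_, ?_⟩
  · intro q hq ρ hρ
    choose σ hσ using fun i => cl_surj (ρ i)
    rw [eval_cl ρ σ hσ, eval_cl ρ σ hσ, cl_eq]
    refine Der.ax q σ (Or.inl hq) ?_
    intro p hp
    have h := hρ p hp
    rw [eval_cl ρ σ hσ, eval_cl ρ σ hσ, cl_eq] at h
    exact h
  · intro p hp
    rw [eval_cl _ Tm.var (fun _ => rfl), eval_cl _ Tm.var (fun _ => rfl), subst_var, subst_var,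
      cl_eq]
    exact Der.hyp p.1 p.2 hp
  · intro s t h
    rw [eval_cl _ Tm.var (fun _ => rfl), eval_cl _ Tm.var (fun _ => rfl), subst_var, subst_var,
      cl_eq] at h
    exact h

end Pool.Agent.H978.QV
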