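import Pool.Agent.H978.QV.Defs4

set_option autoImplicit false

/-!
# Soundness of the quasi-equational logic of `ℓ`-groups (task QV4-SOUND, helper591)
-/

namespace Pool.Agent.H978.QV

namespace Sound

theorem subst_eval {G : Type} [Group G] [Lattice G] (ρ : ℕ → G) (σ : ℕ → Tm) (t : Tm) :
    (t.subst σ).evalG ρ = t.evalG (fun i => (σ i).evalG ρ) := by
  induction t with
  | one => rfl
  | var i => rfl
  | mul s t hs ht => simp only [Tm.subst, Tm.evalG, hs, ht]
  | inv t ht => simp only [Tm.subst, Tm.evalG, ht]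
  | sup s t hs ht => simp only [Tm.subst, Tm.evalG, hs, ht]
  | inf s t hs ht => simp only [Tm.subst, Tm.evalG, hs, ht]

theorem lgAx_holds (G : Type) [Group G] [Lattice G] [MulLeftMono G] [MulRightMono G] (q : QId)
    (hq : q ∈ lgAx) : q.HoldsIn G := by
  intro ρ _
  simp only [lgAx, List.mem_cons, List.not_mem_nil, or_false] at hq
  rcases hq with h | h | h | h | h | h | h | h | h | h | h | h <;> subst h <;>
    simp only [Tm.evalG]
  · exact mul_assoc _ _ _
  · exact one_mul _
  · exact mul_one _
  · exact inv_mul_cancel _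
  · exact sup_comm _ _
  · exact sup_assoc _ _ _
  · exact inf_comm _ _
  · exact inf_assoc _ _ _
  · exact sup_inf_self
  · exact inf_sup_self
  · exact mul_sup _ _ _
  · exact sup_mul _ _ _

end Sound

open Sound in
/-- SOUND. -/
theorem der_sound (S : Set QId) (G : Type) [Group G] [Lattice G] [MulLeftMono G] [MulRightMono G]
    (hG : ∀ q ∈ S, q.HoldsIn G) (P : List (Tm × Tm)) (s t : Tm) (h : Der S P s t) (ρ : ℕ → G)
    (hP : ∀ p ∈ P, p.1.evalG ρ = p.2.evalG ρ) : s.evalG ρ = t.evalG ρ := by
  induction h with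
  | hyp s t h => exact hP _ h
  | refl s => rfl
  | symm s t _ ih => exact ih.symm
  | trans s t u _ _ ih1 ih2 => exact ih1.trans ih2
  | mul s t s' t' _ _ ih1 ih2 => simp only [Tm.evalG, ih1, ih2]
  | inv s s' _ ih => simp only [Tm.evalG, ih]
  | sup s t s' t' _ _ ih1 ih2 => simp only [Tm.evalG, ih1, ih2]
  | inf s t s' t' _ _ ih1 ih2 => simp only [Tm.evalG, ih1, ih2]
  | ax q σ hq _ ih =>
    have h1 : q.HoldsIn G := by
      rcases hq with hq | hq
      · exact hG q hq
      · exact lgAx_holds G q hq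
    rw [subst_eval, subst_eval]
    refine h1 _ ?_
    intro p hp
    have h2 := ih p hp
    rw [subst_eval, subst_eval] at h2
    exact h2

end Pool.Agent.H978.QV
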