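import Pool.Agent.H978.QV.Compl
import Pool.Agent.H978.QV.Sound
import Pool.Agent.H978.QV.Code

/-!
# A quasi-identity which fails in an `ℓ`-group fails in a countable one
-/

set_option autoImplicit false

namespace Pool.Agent.H978.QV

instance : Countable Tm := Code.tm_code_injective.countable

open Pool.Agent.H978.QV.Compl in
theorem fails_countable {G : Type} [Group G] [Lattice G] [MulLeftMono G] [MulRightMono G]
    (q : QId) (hq : ¬ q.HoldsIn G) :
    ∃ (M : Type) (_ : Group M) (_ : Lattice M) (_ : MulLeftMono M) (_ : MulRightMono M)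
      (_ : Countable M), ¬ q.HoldsIn M := by
  have hd : ¬ Der ∅ q.prem q.concl.1 q.concl.2 := fun hd =>
    hq fun ρ hρ => der_sound ∅ G (fun _ h => absurd h (Set.notMem_empty _)) q.prem _ _ hd ρ hρ
  refine ⟨TQ ∅ q.prem, grp, lat, lmono, rmono, ?_, fun h => hd ?_⟩
  · unfold TQ
    infer_instance
  · have h1 := h (fun i => cl ∅ q.prem (.var i)) ?_
    · rw [eval_cl _ Tm.var (fun _ => rfl), eval_cl _ Tm.var (fun _ => rfl), subst_var, subst_var,
        cl_eq] at h1
      exact h1
    · intro p hp
      rw [eval_cl _ Tm.var (fun _ => rfl), eval_cl _ Tm.var (fun _ => rfl), subst_var, subst_var,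
        cl_eq]
      exact Der.hyp p.1 p.2 hp

end Pool.Agent.H978.QV
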