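import Pool.Agent.H978.QV.Defs6
import Mathlib

/-!
# Extension by the identity and composition of embeddings (helper972 for helper978)
-/

set_option autoImplicit false

namespace Pool.Agent.H978.QV

variable {Ω : Type} [LinearOrder Ω]

namespace ConvexEmb

open Classical in
/-- extension by the identity -/
noncomputable def ext (J : Set Ω) (f : J ≃o J) (x : Ω) : Ω :=
  if h : x ∈ J then (f ⟨x, h⟩ : Ω) else x

theorem ext_mem {J : Set Ω} (f : J ≃o J) {x : Ω} (h : x ∈ J) : ext J f x = (f ⟨x, h⟩ : Ω) := by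
  unfold ext
  rw [dif_pos h]

theorem ext_not {J : Set Ω} (f : J ≃o J) {x : Ω} (h : x ∉ J) : ext J f x = x := by
  unfold ext
  rw [dif_neg h]

theorem ext_ext {J : Set Ω} (f g : J ≃o J) (x : Ω) :
    ext J f (ext J g x) = ext J (f * g) x := by
  by_cases h : x ∈ J
  · rw [ext_mem g h, ext_mem (f * g) h, ext_mem f (g ⟨x, h⟩).2]
    rfl
  · rw [ext_not g h, ext_not f h, ext_not (f * g) h]

theorem ext_one {J : Set Ω} (x : Ω) : ext J (1 : J ≃o J) x = x := by
  by_cases h : x ∈ J
  · rw [ext_mem _ h]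
    rfl
  · rw [ext_not _ h]

theorem ext_mono {J : Set Ω} (hJ : J.OrdConnected) (f : J ≃o J) : StrictMono (ext J f) := by
  intro x y hxy
  by_cases hx : x ∈ J
  · by_cases hy : y ∈ J
    · rw [ext_mem f hx, ext_mem f hy]
      exact f.strictMono (show (⟨x, hx⟩ : J) < ⟨y, hy⟩ from hxy)
    · rw [ext_mem f hx, ext_not f hy]
      by_contra hc
      exact hy (hJ.out hx (f ⟨x, hx⟩).2 ⟨hxy.le, not_lt.1 hc⟩)
  · by_cases hy : y ∈ J
    · rw [ext_not f hx, ext_mem f hy]
      by_contra hc
      exact hx (hJ.out (f ⟨y, hy⟩).2 hy ⟨not_lt.1 hc, hxy.le⟩)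
    · rw [ext_not f hx, ext_not f hy]
      exact hxy

/-- the extension as an automorphism -/
noncomputable def extIso (J : Set Ω) (hJ : J.OrdConnected) (f : J ≃o J) : Ω ≃o Ω :=
  StrictMono.orderIsoOfRightInverse (ext J f) (ext_mono hJ f) (ext J f⁻¹) fun x => by
    rw [ext_ext, mul_inv_cancel, ext_one]

theorem extIso_apply (J : Set Ω) (hJ : J.OrdConnected) (f : J ≃o J) (x : Ω) :
    extIso J hJ f x = ext J f x := rfl

/-- transport -/
def conj {X : Type} [LinearOrder X] {J : Set Ω} (i : J ≃o X) (f : X ≃o X) : J ≃o J :=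
  (i.trans f).trans i.symm

theorem conj_apply {X : Type} [LinearOrder X] {J : Set Ω} (i : J ≃o X) (f : X ≃o X) (x : J) :
    conj i f x = i.symm (f (i x)) := rfl

end ConvexEmb

open ConvexEmb in
/-- CONVEX.  Extend an automorphism of `J` by the identity. -/
theorem lemb_convex {X : Type} [LinearOrder X] (J : Set Ω) (hJ : J.OrdConnected) (i : J ≃o X) :
    LEmb X Ω := by
  refine ⟨fun f => extIso J hJ (conj i f), ?_, ?_, ?_⟩
  · intro f g hfg
    apply OrderIso.ext
    funext x
    have h1 := congrArg (fun e : Ω ≃o Ω => e (i.symm x : Ω)) hfg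
    simp only [extIso_apply] at h1
    rw [ext_mem _ (i.symm x).2, ext_mem _ (i.symm x).2, Subtype.coe_inj, conj_apply, conj_apply,
      i.symm.injective.eq_iff] at h1
    have h2 : i (⟨(i.symm x : Ω), (i.symm x).2⟩ : J) = x := i.apply_symm_apply x
    rw [h2] at h1
    exact h1
  · intro f g
    apply OrderIso.ext
    funext x
    show ext J (conj i (f * g)) x = ext J (conj i f) (ext J (conj i g) x)
    rw [ext_ext]
    congr 1
    apply OrderIso.ext
    funext y
    show i.symm (f (g (i y))) = i.symm (f (i (i.symm (g (i y)))))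
    rw [i.apply_symm_apply]
  · intro f g x
    show ext J (conj i (supIso f g)) x = max (ext J (conj i f) x) (ext J (conj i g) x)
    by_cases h : x ∈ J
    · rw [ext_mem _ h, ext_mem _ h, ext_mem _ h, conj_apply, conj_apply, conj_apply]
      have h1 : supIso f g (i ⟨x, h⟩) = max (f (i ⟨x, h⟩)) (g (i ⟨x, h⟩)) := rfl
      rw [h1, i.symm.monotone.map_max]
      exact (Subtype.mono_coe J).map_max
    · rw [ext_not _ h, ext_not _ h, ext_not _ h, max_self]

theorem lemb_trans {A B C : Type} [LinearOrder A] [LinearOrder B] [LinearOrder C] (h1 : LEmb A B)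
    (h2 : LEmb B C) : LEmb A C := by
  obtain ⟨Φ, a1, a2, a3⟩ := h1
  obtain ⟨Ψ, b1, b2, b3⟩ := h2
  refine ⟨fun f => Ψ (Φ f), b1.comp a1, fun f g => ?_, fun f g x => ?_⟩
  · show Ψ (Φ (f * g)) = Ψ (Φ f) * Ψ (Φ g)
    rw [a2, b2]
  · show Ψ (Φ (supIso f g)) x = max (Ψ (Φ f) x) (Ψ (Φ g) x)
    have h : Φ (supIso f g) = supIso (Φ f) (Φ g) := by
      apply OrderIso.ext
      funext y
      exact a3 f g y
    rw [h, b3]

end Pool.Agent.H978.QV
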