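import Pool.Agent.H978.QV.Defs6
import Mathlib

set_option autoImplicit false

namespace Pool.Agent.H978.QV

variable {Ω : Type} [LinearOrder Ω]

namespace Decomp

/-- Two points are equivalent if neither is far from the other. -/
def R (Far : Ω → Ω → Prop) (u v : Ω) : Prop := ¬ Far u v ∧ ¬ Far v u

/-- The hypotheses on the relation. -/
structure Hyp (Far : Ω → Ω → Prop) : Prop where
  h1 : ∀ w w', Far w w' → w < w'
  h2 : ∀ w w' v v', v ≤ w → Far w w' → w' ≤ v' → Far v v'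
  h3 : ∀ (g : Ω ≃o Ω) w w', Far w w' → Far (g w) (g w')
  h4 : ∀ w w', Far w w' → ∃ v, Far w v ∧ Far v w'

variable {Far : Ω → Ω → Prop}

lemma refl (H : Hyp Far) (u : Ω) : R Far u u :=
  ⟨fun h => lt_irrefl _ (H.h1 _ _ h), fun h => lt_irrefl _ (H.h1 _ _ h)⟩

omit [LinearOrder Ω] in
lemma symm {u v : Ω} (h : R Far u v) : R Far v u := ⟨h.2, h.1⟩

lemma far_left (H : Hyp Far) {u u' v : Ω} (h : R Far u u') (hf : Far u v) : Far u' v := by
  obtain ⟨w, w1, w2⟩ := H.h4 _ _ hf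
  rcases le_or_gt u' w with h' | h'
  · exact H.h2 _ _ _ _ h' w2 le_rfl
  · exact absurd (H.h2 _ _ _ _ le_rfl w1 h'.le) h.1

lemma far_right (H : Hyp Far) {u v v' : Ω} (h : R Far v v') (hf : Far u v) : Far u v' := by
  obtain ⟨w, w1, w2⟩ := H.h4 _ _ hf
  rcases le_or_gt w v' with h' | h'
  · exact H.h2 _ _ _ _ le_rfl w1 h'
  · exact absurd (H.h2 _ _ _ _ h'.le w2 le_rfl) h.2

lemma trans (H : Hyp Far) {u v w : Ω} (h : R Far u v) (h' : R Far v w) : R Far u w :=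
  ⟨fun hf => h'.1 (far_left H h hf), fun hf => h'.2 (far_right H h hf)⟩

lemma far_iso (H : Hyp Far) (g : Ω ≃o Ω) (u v : Ω) : Far (g u) (g v) ↔ Far u v := by
  constructor
  · intro h
    have h' := H.h3 g.symm _ _ h
    rwa [OrderIso.symm_apply_apply, OrderIso.symm_apply_apply] at h'
  · exact H.h3 g u v

lemma R_iso (H : Hyp Far) (g : Ω ≃o Ω) (u v : Ω) : R Far (g u) (g v) ↔ R Far u v := by
  unfold R
  rw [far_iso H, far_iso H]

lemma exists_rep {α : Type} (S : Setoid α) :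
    ∃ f : α → α, (∀ u, S.r (f u) u) ∧ ∀ u v, S.r u v → f u = f v := by
  refine ⟨fun u => (Quotient.mk S u).out, fun u => ?_, fun u v h => ?_⟩
  · exact Quotient.mk_out (s := S) u
  · have h' : Quotient.mk S u = Quotient.mk S v := Quotient.sound h
    show (Quotient.mk S u).out = (Quotient.mk S v).out
    rw [h']

/-- the equivalence relation -/
def S1 (H : Hyp Far) : Setoid Ω where
  r := R Far
  iseqv := ⟨refl H, symm, trans H⟩

/-- the colours -/
def S2 (H : Hyp Far) : Setoid Ω where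
  r := fun u v => ∃ g : Ω ≃o Ω, R Far (g u) v
  iseqv := by
    refine ⟨fun u => ⟨OrderIso.refl Ω, refl H u⟩, ?_, ?_⟩
    · rintro u v ⟨g, hg⟩
      refine ⟨g.symm, ?_⟩
      rw [← R_iso H g, OrderIso.apply_symm_apply]
      exact symm hg
    · rintro u v w ⟨g, hg⟩ ⟨g', hg'⟩
      refine ⟨g.trans g', ?_⟩
      rw [OrderIso.trans_apply]
      exact trans H ((R_iso H g' _ _).2 hg) hg'

end Decomp

open Decomp in
/-- a countable chain with a dense homogeneous splitting is a blow-up of a coloured chain -/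
theorem decompose [Countable Ω] (Far : Ω → Ω → Prop) (a b : Ω) (hab : Far a b)
    (h1 : ∀ w w', Far w w' → w < w')
    (h2 : ∀ w w' v v', v ≤ w → Far w w' → w' ≤ v' → Far v v')
    (h3 : ∀ (g : Ω ≃o Ω) w w', Far w w' → Far (g w) (g w'))
    (h4 : ∀ w w', Far w w' → ∃ v, Far w v ∧ Far v w')
    (h5 : ∀ u, a ≤ u → u < b → ∀ w w', Far w w' → ∃ g : Ω ≃o Ω, Far w (g u) ∧ Far (g u) w') :
    ∃ (J : Set Ω) (_ : J.OrdConnected) (D C : Type) (_ : LinearOrder D) (_ : Countable D)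
      (c : D → C) (F : C → Set Ω), (∀ d, (F (c d)).Nonempty) ∧ Dn c (Set.range c) ∧
        Nonempty (J ≃o Blow c F) := by
  have H : Hyp Far := ⟨h1, h2, h3, h4⟩
  obtain ⟨rep, hrep, hrep'⟩ := exists_rep (S1 H)
  obtain ⟨col, hcol, hcol'⟩ := exists_rep (S2 H)
  replace hrep : ∀ u, R Far (rep u) u := hrep
  replace hrep' : ∀ u v, R Far u v → rep u = rep v := hrep'
  replace hcol : ∀ u, ∃ g : Ω ≃o Ω, R Far (g (col u)) u := hcol
  replace hcol' : ∀ u v, (∃ g : Ω ≃o Ω, R Far (g u) v) → col u = col v := hcol'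
  have hJR : ∀ u v, R Far u v → (Far a u ∧ Far u b) → (Far a v ∧ Far v b) := fun u v h hu =>
    ⟨far_right H h hu.1, far_left H h hu.2⟩
  have hreprep : ∀ u, rep (rep u) = rep u := fun u => hrep' _ _ (hrep u)
  -- the representatives are far
  have hfar : ∀ d d', rep d = d → rep d' = d' → d < d' → Far d d' := by
    intro d d' e e' hlt
    by_contra hcon
    have h6 : R Far d d' := ⟨hcon, fun h => lt_asymm hlt (h1 _ _ h)⟩
    have h7 := hrep' _ _ h6
    rw [e, e'] at h7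
    exact hlt.ne h7
  have hmono : ∀ u v, u ≤ v → rep u ≤ rep v := by
    intro u v huv
    by_contra hcon
    push Not at hcon
    have h6 := hfar _ _ (hreprep v) (hreprep u) hcon
    have h7 : Far v u := far_right H (hrep u) (far_left H (hrep v) h6)
    exact absurd (h1 _ _ h7) (not_lt.2 huv)
  choose g hg using hcol
  obtain ⟨v0, hv0, hv0'⟩ := h4 _ _ hab
  refine ⟨{u | Far a u ∧ Far u b}, ⟨?_⟩, {d : Ω // (Far a d ∧ Far d b) ∧ rep d = d}, Ω,
    inferInstance, inferInstance, fun d => col d.1, fun s => {x | R Far x s}, ?_, ?_, ?_⟩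
  · rintro u ⟨hu, -⟩ w ⟨-, hw⟩ v ⟨huv, hvw⟩
    exact ⟨h2 _ _ _ _ le_rfl hu huv, h2 _ _ _ _ hvw hw le_rfl⟩
  · exact fun d => ⟨col d.1, refl H _⟩
  · -- density
    have key : ∀ d₀ : {d : Ω // (Far a d ∧ Far d b) ∧ rep d = d}, ∀ w w', a ≤ w → w' ≤ b → Far w w' →
        ∃ x : {d : Ω // (Far a d ∧ Far d b) ∧ rep d = d}, Far w x.1 ∧ Far x.1 w' ∧
          col x.1 = col d₀.1 := by
      intro d₀ w w' haw hwb hf
      obtain ⟨k, k1, k2⟩ := h5 d₀.1 (h1 _ _ d₀.2.1.1).le (h1 _ _ d₀.2.1.2) w w' hf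
      have h6 := symm (hrep (k d₀.1))
      refine ⟨⟨rep (k d₀.1), hJR _ _ h6 ⟨h2 _ _ _ _ haw k1 le_rfl, h2 _ _ _ _ le_rfl k2 hwb⟩,
        hreprep _⟩, far_right H h6 k1, far_left H h6 k2, (hcol' _ _ ⟨k, h6⟩).symm⟩
    refine ⟨⟨⟨rep v0, hJR _ _ (symm (hrep v0)) ⟨hv0, hv0'⟩, hreprep _⟩⟩, fun d => ⟨d, rfl⟩, ?_⟩
    rintro _ ⟨d₀, rfl⟩
    refine ⟨fun d d' hdd => ?_, fun d => ?_, fun d => ?_⟩
    · obtain ⟨x, x1, x2, x3⟩ := key d₀ d.1 d'.1 (h1 _ _ d.2.1.1).le (h1 _ _ d'.2.1.2).le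
        (hfar _ _ d.2.2 d'.2.2 hdd)
      exact ⟨x, h1 _ _ x1, h1 _ _ x2, x3⟩
    · obtain ⟨x, x1, x2, x3⟩ := key d₀ a d.1 le_rfl (h1 _ _ d.2.1.2).le d.2.1.1
      exact ⟨x, h1 _ _ x2, x3⟩
    · obtain ⟨x, x1, x2, x3⟩ := key d₀ d.1 b (h1 _ _ d.2.1.1).le le_rfl d.2.1.2
      exact ⟨x, h1 _ _ x1, x3⟩
  · -- the isomorphism
    have hmem : ∀ u, R Far ((g (rep u)).symm u) (col (rep u)) := by
      intro u
      rw [← R_iso H (g (rep u)), OrderIso.apply_symm_apply]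
      exact trans H (symm (hrep u)) (symm (hg (rep u)))
    let f : ({u | Far a u ∧ Far u b} : Set Ω) →
        Blow (fun d : {d : Ω // (Far a d ∧ Far d b) ∧ rep d = d} => col d.1)
          (fun s => {x | R Far x s}) := fun u =>
      ⟨toLex (⟨rep u.1, hJR _ _ (symm (hrep u.1)) u.2, hreprep _⟩, (g (rep u.1)).symm u.1), hmem u.1⟩
    have hf : StrictMono f := by
      intro u v huv
      have huv' : u.1 < v.1 := huv
      have h8 : (toLex ((⟨rep u.1, hJR _ _ (symm (hrep u.1)) u.2, hreprep _⟩ :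
          {d : Ω // (Far a d ∧ Far d b) ∧ rep d = d}), (g (rep u.1)).symm u.1) :
            {d : Ω // (Far a d ∧ Far d b) ∧ rep d = d} ×ₗ Ω) <
          toLex ((⟨rep v.1, hJR _ _ (symm (hrep v.1)) v.2, hreprep _⟩ :
          {d : Ω // (Far a d ∧ Far d b) ∧ rep d = d}), (g (rep v.1)).symm v.1) := by
        rw [Prod.Lex.toLex_lt_toLex]
        rcases (hmono _ _ huv'.le).lt_or_eq with h | h
        · exact Or.inl h
        · right
          refine ⟨Subtype.ext h, ?_⟩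
          show (g (rep u.1)).symm u.1 < (g (rep v.1)).symm v.1
          rw [h]
          exact (g (rep v.1)).symm.strictMono huv'
      exact h8
    have hs : Function.Surjective f := by
      rintro ⟨p, hp⟩
      obtain ⟨d, x, rfl⟩ : ∃ d x, p = toLex (d, x) := ⟨(ofLex p).1, (ofLex p).2, rfl⟩
      have hp' : R Far x (col d.1) := hp
      have h6 : R Far (g d.1 x) d.1 := trans H ((R_iso H (g d.1) _ _).2 hp') (hg d.1)
      have h7 : rep (g d.1 x) = d.1 := by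
        rw [hrep' _ _ h6, d.2.2]
      refine ⟨⟨g d.1 x, hJR _ _ (symm h6) d.2.1⟩, ?_⟩
      have h9 : (g (rep (g d.1 x))).symm (g d.1 x) = x := by
        rw [h7, OrderIso.symm_apply_apply]
      exact Subtype.ext (congrArg toLex (Prod.ext (Subtype.ext h7) h9))
    exact ⟨StrictMono.orderIsoOfSurjective f hf hs⟩

end Pool.Agent.H978.QV
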