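import Pool.Agent.H978.QV.Defs

set_option autoImplicit false

namespace Pool.Agent.H978.QV

/-- A chain is scattered when no suborder with at least two points is densely ordered
(equivalently, when it contains no copy of the rationals). -/
def Scattered (Ω : Type) [LinearOrder Ω] : Prop :=
  ∀ s : Set Ω, s.Nontrivial → ¬ DenselyOrdered s

/-- Premises `x ∧ 1 = 1` (`x ∈ A`), `x ∧ y = 1` (`(x,y) ∈ B`), `x y = y x` (`(x, y) ∈ D`) and
`(∏ l) b = b (∏ l')` (`(l, l') ∈ C`, `b` the variable `0`), conclusion `c₁ ∧ c₂ = 1`. -/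
def mkQ2 (A : List ℕ) (B D : List (ℕ × ℕ)) (C : List (List ℕ × List ℕ)) (c : ℕ × ℕ) : QId where
  prem := (A.map fun x => (Tm.inf (.var x) .one, Tm.one)) ++
    (B.map fun p => (Tm.inf (.var p.1) (.var p.2), Tm.one)) ++
    (D.map fun p => (Tm.mul (.var p.1) (.var p.2), Tm.mul (.var p.2) (.var p.1))) ++
    (C.map fun p => (Tm.mul (prodV p.1) (.var 0), Tm.mul (.var 0) (prodV p.2)))
  concl := (Tm.inf (.var c.1) (.var c.2), .one)

/-- all pairs of variables other than `0` -/
def Dlist (N : ℕ) : List (ℕ × ℕ) := (Alist N).flatMap fun x => (Alist N).map fun y => (x, y)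

/-- The quasi-identity of the instance `(H, G)`. -/
def qPCP2 (H G : List (List ℕ)) : QId :=
  mkQ2 (Alist H.length) (Blist H.length) (Dlist H.length)
    [(Slist H.length, Slist H.length),
      (Ulist 4 H.length, Rlist (base H G) 4 H H.length),
      (Ulist 5 H.length, Rlist (base H G) 5 G H.length)] (2, 1)

/-- code of the quasi-identity as a function of the instance -/
def codeF (p : List (List ℕ) × List (List ℕ)) :
    List (List ℕ × List ℕ) × (List ℕ × List ℕ) := (qPCP2 p.1 p.2).code

end Pool.Agent.H978.QV
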