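import Pool.Agent.H978.QV.Defs2

set_option autoImplicit false

namespace Pool.Agent.H978.QV

/-- A configuration: a positive automorphism `h ≠ 1` whose support lies entirely below its image
under `b`. -/
def Config (Ω : Type) [LinearOrder Ω] : Prop :=
  ∃ b h : Ω ≃o Ω, (∀ x, x ≤ h x) ∧ (∃ x, h x ≠ x) ∧ ∀ x y, h x ≠ x → h y ≠ y → x < b y

/-- `h` is positive, not the identity, and for all points `x, y` moved by `h` some power of `h` maps
`x` above `y` (so that the support of `h` is one bump). -/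
def OneBump {Ω : Type} [LinearOrder Ω] (h : Ω ≃o Ω) : Prop :=
  (∀ x, x ≤ h x) ∧ (∃ x, h x ≠ x) ∧ ∀ x y, h x ≠ x → h y ≠ y → ∃ n : ℕ, y < (h ^ n) x

end Pool.Agent.H978.QV
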