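import Pool.Agent.H978.QV.Defs3

set_option autoImplicit false

namespace Pool.Agent.H978.QV

/-! ### `ℓ`-groups, quasi-varieties, derivations -/

/-- The value of a term in an arbitrary `ℓ`-group. -/
def Tm.evalG {G : Type} [Group G] [Lattice G] (ρ : ℕ → G) : Tm → G
  | .one => 1
  | .var i => ρ i
  | .mul s t => s.evalG ρ * t.evalG ρ
  | .inv t => (t.evalG ρ)⁻¹
  | .sup s t => s.evalG ρ ⊔ t.evalG ρ
  | .inf s t => s.evalG ρ ⊓ t.evalG ρ

/-- `q` holds in `G`. -/
def QId.HoldsIn (q : QId) (G : Type) [Group G] [Lattice G] : Prop :=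
  ∀ ρ : ℕ → G, (∀ p ∈ q.prem, p.1.evalG ρ = p.2.evalG ρ) → q.concl.1.evalG ρ = q.concl.2.evalG ρ

/-- Substitution of terms for variables. -/
def Tm.subst (σ : ℕ → Tm) : Tm → Tm
  | .one => .one
  | .var i => σ i
  | .mul s t => .mul (s.subst σ) (t.subst σ)
  | .inv t => .inv (t.subst σ)
  | .sup s t => .sup (s.subst σ) (t.subst σ)
  | .inf s t => .inf (s.subst σ) (t.subst σ)

/-- The equational axioms of `ℓ`-groups, as quasi-identities without premises. -/
def lgAx : List QId :=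
  let x : Tm := .var 0
  let y : Tm := .var 1
  let z : Tm := .var 2
  [⟨[], (.mul (.mul x y) z, .mul x (.mul y z))⟩,
   ⟨[], (.mul .one x, x)⟩,
   ⟨[], (.mul x .one, x)⟩,
   ⟨[], (.mul (.inv x) x, .one)⟩,
   ⟨[], (.sup x y, .sup y x)⟩,
   ⟨[], (.sup (.sup x y) z, .sup x (.sup y z))⟩,
   ⟨[], (.inf x y, .inf y x)⟩,
   ⟨[], (.inf (.inf x y) z, .inf x (.inf y z))⟩,
   ⟨[], (.sup x (.inf x y), x)⟩,
   ⟨[], (.inf x (.sup x y), x)⟩,
   ⟨[], (.mul x (.sup y z), .sup (.mul x y) (.mul x z))⟩,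
   ⟨[], (.mul (.sup x y) z, .sup (.mul x z) (.mul y z))⟩]

/-- Derivability of equations from the equations `P` and the quasi-identities `S`. -/
inductive Der (S : Set QId) (P : List (Tm × Tm)) : Tm → Tm → Prop
  | hyp (s t : Tm) : (s, t) ∈ P → Der S P s t
  | refl (s : Tm) : Der S P s s
  | symm (s t : Tm) : Der S P s t → Der S P t s
  | trans (s t u : Tm) : Der S P s t → Der S P t u → Der S P s u
  | mul (s t s' t' : Tm) : Der S P s s' → Der S P t t' → Der S P (.mul s t) (.mul s' t')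
  | inv (s s' : Tm) : Der S P s s' → Der S P (.inv s) (.inv s')
  | sup (s t s' t' : Tm) : Der S P s s' → Der S P t t' → Der S P (.sup s t) (.sup s' t')
  | inf (s t s' t' : Tm) : Der S P s s' → Der S P t t' → Der S P (.inf s t) (.inf s' t')
  | ax (q : QId) (σ : ℕ → Tm) : (q ∈ S ∨ q ∈ lgAx) →
      (∀ p ∈ q.prem, Der S P (p.1.subst σ) (p.2.subst σ)) →
      Der S P (q.concl.1.subst σ) (q.concl.2.subst σ)

/-! ### closure under computable rules -/

/-- The closure of the rules `r n = some (premises, conclusion)`. -/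
inductive Cl {J : Type} (r : ℕ → Option (List J × J)) : J → Prop
  | mk (n : ℕ) (ps : List J) (c : J) : r n = some (ps, c) → (∀ p ∈ ps, Cl r p) → Cl r c

abbrev Str : Type := List ℕ

/-- Judgements on strings: tag, substitution, hypotheses, pair of strings. -/
abbrev Jd : Type := ℕ × List Str × List (Str × Str) × (Str × Str)

/-- the string is the code of a term -/
def isT (s : Str) : Jd := (0, [], [], (s, []))
/-- `s'` is the code of the substitution instance of `s` under `σ` (`var i ↦ σ.getD i [0]`) -/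
def sbJ (σ : List Str) (s s' : Str) : Jd := (1, σ, [], (s, s'))
/-- `s = t` is derivable from the hypotheses `P` -/
def eqJ (P : List (Str × Str)) (s t : Str) : Jd := (2, [], P, (s, t))

/-- code of a quasi-identity -/
abbrev QC : Type := List (Str × Str) × (Str × Str)

/-- The rules, for a set `S` of codes of quasi-identities. -/
inductive Rule (S : Set QC) : List Jd → Jd → Prop
  | tOne : Rule S [] (isT [0])
  | tVar (i : ℕ) : Rule S [] (isT [i + 5])
  | tInv (s : Str) : Rule S [isT s] (isT (s ++ [2]))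
  | tBin (k : ℕ) (s t : Str) : (k = 1 ∨ k = 3 ∨ k = 4) → Rule S [isT s, isT t] (isT (s ++ t ++ [k]))
  | sOne (σ : List Str) : Rule S [] (sbJ σ [0] [0])
  | sVar (σ : List Str) (i : ℕ) : Rule S [] (sbJ σ [i + 5] (σ.getD i [0]))
  | sInv (σ : List Str) (s s' : Str) : Rule S [sbJ σ s s'] (sbJ σ (s ++ [2]) (s' ++ [2]))
  | sBin (σ : List Str) (k : ℕ) (s t s' t' : Str) : (k = 1 ∨ k = 3 ∨ k = 4) →
      Rule S [sbJ σ s s', sbJ σ t t'] (sbJ σ (s ++ t ++ [k]) (s' ++ t' ++ [k]))
  | hyp (P : List (Str × Str)) (s t : Str) : (s, t) ∈ P → Rule S [] (eqJ P s t)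
  | refl (P : List (Str × Str)) (s : Str) : Rule S [isT s] (eqJ P s s)
  | symm (P : List (Str × Str)) (s t : Str) : Rule S [eqJ P s t] (eqJ P t s)
  | trans (P : List (Str × Str)) (s t u : Str) : Rule S [eqJ P s t, eqJ P t u] (eqJ P s u)
  | inv (P : List (Str × Str)) (s s' : Str) : Rule S [eqJ P s s'] (eqJ P (s ++ [2]) (s' ++ [2]))
  | bin (P : List (Str × Str)) (k : ℕ) (s t s' t' : Str) : (k = 1 ∨ k = 3 ∨ k = 4) →
      Rule S [eqJ P s s', eqJ P t t'] (eqJ P (s ++ t ++ [k]) (s' ++ t' ++ [k]))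
  /-- `L` lists the premises `(s, t)` of a member of `S` together with their instances `(s', t')` -/
  | ax (P : List (Str × Str)) (σ : List Str) (L : List ((Str × Str) × (Str × Str)))
      (u v u' v' : Str) : (L.map Prod.fst, (u, v)) ∈ S →
      Rule S (σ.map isT ++ L.flatMap (fun p => [sbJ σ p.1.1 p.2.1, sbJ σ p.1.2 p.2.2, eqJ P p.2.1 p.2.2])
        ++ [sbJ σ u u', sbJ σ v v']) (eqJ P u' v')

/-- The closure of `Rule S`. -/
inductive ClR (S : Set QC) : Jd → Prop
  | mk (ps : List Jd) (c : Jd) : Rule S ps c → (∀ p ∈ ps, ClR S p) → ClR S c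

end Pool.Agent.H978.QV
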