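import Pool.Agent.H978.QV.Defs2

set_option autoImplicit false

namespace Pool.Agent.H978.QV

/-- Every orbit of the automorphism group of the chain `Ω` is a scattered chain: no subset with at
least two points of an orbit is densely ordered. -/
def OrbitScattered (Ω : Type) [LinearOrder Ω] : Prop :=
  ∀ (ω : Ω) (s : Set Ω), (∀ x ∈ s, ∃ g : Ω ≃o Ω, g ω = x) → s.Nontrivial → ¬ DenselyOrdered s

theorem Scattered.orbitScattered {Ω : Type} [LinearOrder Ω] (h : Scattered Ω) :
    OrbitScattered Ω := fun _ s _ hs => h s hs

end Pool.Agent.H978.QV
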