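import Pool.Agent.H978.QV.Defs3
import Pool.Agent.H978.QV.Defs4

set_option autoImplicit false

namespace Pool.Agent.H978.QV

/-- no descending sequence inside one Archimedean class: there is no sequence of positive
automorphisms `h j` with `ω < h j ω` and `h (j+1) (h (j+1) ω) ≤ h j ω ≤ (h (j+1)) ^ m ω`. -/
def NoArchDesc (Ω : Type) [LinearOrder Ω] : Prop :=
  ∀ (h : ℕ → (Ω ≃o Ω)) (ω : Ω), (∀ j x, x ≤ h j x) → (∀ j, ω < h j ω) →
    (∀ j, h (j + 1) (h (j + 1) ω) ≤ h j ω) → (∀ j, ∃ m : ℕ, h j ω ≤ (h (j + 1))^[m] ω) → False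

/-- `Aut(A)` embeds in `Aut(B)` as an `ℓ`-group. -/
def LEmb (A B : Type) [LinearOrder A] [LinearOrder B] : Prop :=
  ∃ Φ : (A ≃o A) → (B ≃o B), Function.Injective Φ ∧ (∀ f g, Φ (f * g) = Φ f * Φ g) ∧
    ∀ f g x, Φ (supIso f g) x = max (Φ f x) (Φ g x)

/-- the colouring `c` of the chain `A` uses exactly the colours of `S`, every colour densely, and
there are no end points -/
def Dn {A C : Type} [LinearOrder A] (c : A → C) (S : Set C) : Prop :=
  Nonempty A ∧ (∀ a, c a ∈ S) ∧ ∀ s ∈ S, (∀ a a', a < a' → ∃ x, a < x ∧ x < a' ∧ c x = s) ∧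
    (∀ a, ∃ x, x < a ∧ c x = s) ∧ ∀ a, ∃ x, a < x ∧ c x = s

/-- The chain `D` in which every point `d` is replaced by the chain `F (c d)`. -/
def Blow {D C E : Type} [LinearOrder D] [LinearOrder E] (c : D → C) (F : C → Set E) : Type :=
  {p : D ×ₗ E // (ofLex p).2 ∈ F (c (ofLex p).1)}

noncomputable instance {D C E : Type} [LinearOrder D] [LinearOrder E] (c : D → C) (F : C → Set E) :
    LinearOrder (Blow c F) :=
  inferInstanceAs (LinearOrder {p : D ×ₗ E // (ofLex p).2 ∈ F (c (ofLex p).1)})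

end Pool.Agent.H978.QV
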