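import Pool.Agent.H978.QV.Defs4

set_option autoImplicit false

namespace Pool.Agent.H978.QV

namespace Enum

open Nat.Partrec (Code)

/-- the enumeration given by the code `c` -/
def gg {α : Type} [Primcodable α] (c : Code) (n : ℕ) : Option α :=
  (Encodable.decode n.unpair.2 : Option α).bind fun a =>
    bif (Code.evaln n.unpair.1 c n.unpair.2).isSome then some a else none

theorem gg_comp {α : Type} [Primcodable α] (c : Code) : Computable (gg c : ℕ → Option α) := by
  apply Primrec.to_comp
  unfold gg
  have h1 : Primrec (fun n : ℕ => Code.evaln n.unpair.1 c n.unpair.2) :=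
    Code.primrec_evaln.comp (Primrec.pair (Primrec.pair (Primrec.fst.comp Primrec.unpair)
      (Primrec.const c)) (Primrec.snd.comp Primrec.unpair))
  have h2 : Primrec (fun n : ℕ => (Code.evaln n.unpair.1 c n.unpair.2).isSome) :=
    Primrec.option_isSome.comp h1
  have h3 : Primrec (fun n : ℕ => (Encodable.decode n.unpair.2 : Option α)) :=
    Primrec.decode.comp (Primrec.snd.comp Primrec.unpair)
  exact Primrec.option_bind h3 (Primrec.cond (h2.comp Primrec.fst)
    (Primrec.option_some.comp Primrec.snd) (Primrec.const none)).to₂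

end Enum

/-- ENUM.  An r.e. set is enumerated by a computable function. -/
theorem enum_of_re {α : Type} [Primcodable α] (p : α → Prop) (h : REPred p) :
    ∃ g : ℕ → Option α, Computable g ∧ ∀ a, p a ↔ ∃ n, g n = some a := by
  obtain ⟨c, hc⟩ := Nat.Partrec.Code.exists_code.1 h
  refine ⟨Enum.gg c, Enum.gg_comp c, fun a => ⟨fun ha => ?_, ?_⟩⟩
  · have h1 : Encodable.encode () ∈ c.eval (Encodable.encode a) := by
      rw [hc]
      simp only [Encodable.encodek, Part.coe_some, Part.bind_some]
      exact Part.mem_map _ (Part.mem_assert ha (Part.mem_some _))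
    rw [Nat.Partrec.Code.evaln_complete] at h1
    obtain ⟨k, hk⟩ := h1
    refine ⟨Nat.pair k (Encodable.encode a), ?_⟩
    unfold Enum.gg
    rw [Nat.unpair_pair, Encodable.encodek]
    rw [Option.mem_def] at hk
    simp only [Option.bind_some, hk, Option.isSome_some, cond_true]
  · rintro ⟨n, hn⟩
    unfold Enum.gg at hn
    rw [Option.bind_eq_some_iff] at hn
    obtain ⟨a', ha', h2⟩ := hn
    cases h3 : Nat.Partrec.Code.evaln n.unpair.1 c n.unpair.2 with
    | none =>
      rw [h3] at h2
      simp at h2
    | some v =>
      rw [h3] at h2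
      simp only [Option.isSome_some, cond_true, Option.some.injEq] at h2
      subst h2
      have h4 : v ∈ c.eval n.unpair.2 := Nat.Partrec.Code.evaln_sound (Option.mem_def.2 h3)
      rw [hc] at h4
      simp only [ha', Part.coe_some, Part.bind_some, Part.mem_map_iff, Part.mem_assert_iff] at h4
      obtain ⟨_, ⟨hp, _⟩, _⟩ := h4
      exact hp

end Pool.Agent.H978.QV
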