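import Pool.Agent.H978.QV.Defs4
import Pool.Agent.H978.QV.Code

set_option autoImplicit false

namespace Pool.Agent.H978.QV

namespace Equiv

/-- the codes of the quasi-identities used -/
abbrev SS (S : Set QId) : Set QC := {c | ∃ q : QId, (q ∈ S ∨ q ∈ lgAx) ∧ q.code = c}

/-- codes of a pair -/
def pc (p : Tm × Tm) : Str × Str := (p.1.code, p.2.code)

/-- the meaning of a judgement -/
def Mean (S : Set QId) (j : Jd) : Prop :=
  (j.1 = 0 → ∃ t : Tm, t.code = j.2.2.2.1) ∧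
  (j.1 = 1 → (∃ t : Tm, t.code = j.2.2.2.1) ∧ ∀ τ : List Tm, j.2.1 = τ.map Tm.code →
    ∀ t : Tm, t.code = j.2.2.2.1 → j.2.2.2.2 = (t.subst fun i => τ.getD i .one).code) ∧
  (j.1 = 2 → ∀ P₀ : List (Tm × Tm), j.2.2.1 = P₀.map pc → ∃ s₀ t₀ : Tm,
    s₀.code = j.2.2.2.1 ∧ t₀.code = j.2.2.2.2 ∧ Der S P₀ s₀ t₀)

theorem mean_isT {S : Set QId} {s : Str} : Mean S (isT s) ↔ ∃ t : Tm, t.code = s :=
  ⟨fun h => h.1 rfl, fun h => ⟨fun _ => h, fun h0 => absurd (show (0 : ℕ) = 1 from h0) (by decide),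
    fun h0 => absurd (show (0 : ℕ) = 2 from h0) (by decide)⟩⟩

theorem mean_sbJ {S : Set QId} {σ : List Str} {s s' : Str} : Mean S (sbJ σ s s') ↔
    (∃ t : Tm, t.code = s) ∧ ∀ τ : List Tm, σ = τ.map Tm.code →
    ∀ t : Tm, t.code = s → s' = (t.subst fun i => τ.getD i .one).code :=
  ⟨fun h => h.2.1 rfl, fun h => ⟨fun h0 => absurd (show (1 : ℕ) = 0 from h0) (by decide),
    fun _ => h, fun h0 => absurd (show (1 : ℕ) = 2 from h0) (by decide)⟩⟩

theorem mean_eqJ {S : Set QId} {P : List (Str × Str)} {s t : Str} : Mean S (eqJ P s t) ↔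
    ∀ P₀ : List (Tm × Tm), P = P₀.map pc → ∃ s₀ t₀ : Tm,
    s₀.code = s ∧ t₀.code = t ∧ Der S P₀ s₀ t₀ :=
  ⟨fun h => h.2.2 rfl, fun h => ⟨fun h0 => absurd (show (2 : ℕ) = 0 from h0) (by decide),
    fun h0 => absurd (show (2 : ℕ) = 1 from h0) (by decide), fun _ => h⟩⟩

theorem lift_list {σ : List Str} (h : ∀ s ∈ σ, ∃ t : Tm, t.code = s) :
    ∃ τ : List Tm, σ = τ.map Tm.code := by
  induction σ with
  | nil => exact ⟨[], rfl⟩
  | cons s σ ih =>
    obtain ⟨t, ht⟩ := h s (by simp)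
    obtain ⟨τ, hτ⟩ := ih fun s' hs' => h s' (by simp [hs'])
    exact ⟨t :: τ, by rw [List.map_cons, ht, ← hτ]⟩

theorem rule_mean (S : Set QId) {ps : List Jd} {c : Jd} (h : Rule (SS S) ps c)
    (hp : ∀ p ∈ ps, Mean S p) : Mean S c := by
  cases h with
  | tOne => exact mean_isT.2 ⟨.one, rfl⟩
  | tVar i => exact mean_isT.2 ⟨.var i, rfl⟩
  | tInv s =>
    obtain ⟨t, ht⟩ := mean_isT.1 (hp (isT s) (by simp))
    exact mean_isT.2 ⟨.inv t, by rw [Tm.code, ht]⟩
  | tBin k s t hk =>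
    obtain ⟨a, ha⟩ := mean_isT.1 (hp (isT s) (by simp))
    obtain ⟨b, hb⟩ := mean_isT.1 (hp (isT t) (by simp))
    rcases hk with rfl | rfl | rfl
    · exact mean_isT.2 ⟨.mul a b, by rw [Tm.code, ha, hb]⟩
    · exact mean_isT.2 ⟨.sup a b, by rw [Tm.code, ha, hb]⟩
    · exact mean_isT.2 ⟨.inf a b, by rw [Tm.code, ha, hb]⟩
  | sOne σ =>
    refine mean_sbJ.2 ⟨⟨.one, rfl⟩, fun τ _ t ht => ?_⟩
    have h1 : t = .one := Code.tm_code_injective ht
    subst h1
    rfl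
  | sVar σ i =>
    refine mean_sbJ.2 ⟨⟨.var i, rfl⟩, fun τ hτ t ht => ?_⟩
    have h1 : t = .var i := Code.tm_code_injective ht
    subst h1
    subst hτ
    exact List.getD_map (f := Tm.code) (l := τ) (n := i) (d := Tm.one)
  | sInv σ s s' =>
    obtain ⟨⟨a, ha⟩, h1⟩ := mean_sbJ.1 (hp (sbJ σ s s') (by simp))
    refine mean_sbJ.2 ⟨⟨.inv a, by rw [Tm.code, ha]⟩, fun τ hτ t ht => ?_⟩
    have h2 : t = .inv a := Code.tm_code_injective (by rw [ht, Tm.code, ha])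
    subst h2
    rw [h1 τ hτ a ha]
    rfl
  | sBin σ k s t s' t' hk =>
    obtain ⟨⟨a, ha⟩, h1⟩ := mean_sbJ.1 (hp (sbJ σ s s') (by simp))
    obtain ⟨⟨b, hb⟩, h2⟩ := mean_sbJ.1 (hp (sbJ σ t t') (by simp))
    rcases hk with rfl | rfl | rfl
    · refine mean_sbJ.2 ⟨⟨.mul a b, by rw [Tm.code, ha, hb]⟩, fun τ hτ r hr => ?_⟩
      have h3 : r = .mul a b := Code.tm_code_injective (by rw [hr, Tm.code, ha, hb])
      subst h3
      rw [h1 τ hτ a ha, h2 τ hτ b hb]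
      rfl
    · refine mean_sbJ.2 ⟨⟨.sup a b, by rw [Tm.code, ha, hb]⟩, fun τ hτ r hr => ?_⟩
      have h3 : r = .sup a b := Code.tm_code_injective (by rw [hr, Tm.code, ha, hb])
      subst h3
      rw [h1 τ hτ a ha, h2 τ hτ b hb]
      rfl
    · refine mean_sbJ.2 ⟨⟨.inf a b, by rw [Tm.code, ha, hb]⟩, fun τ hτ r hr => ?_⟩
      have h3 : r = .inf a b := Code.tm_code_injective (by rw [hr, Tm.code, ha, hb])
      subst h3
      rw [h1 τ hτ a ha, h2 τ hτ b hb]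
      rfl
  | hyp P s t h =>
    refine mean_eqJ.2 fun P₀ hP => ?_
    rw [hP, List.mem_map] at h
    obtain ⟨p, hp1, hp2⟩ := h
    exact ⟨p.1, p.2, congrArg Prod.fst hp2, congrArg Prod.snd hp2, Der.hyp _ _ hp1⟩
  | refl P s =>
    obtain ⟨t, ht⟩ := mean_isT.1 (hp (isT s) (by simp))
    exact mean_eqJ.2 fun P₀ _ => ⟨t, t, ht, ht, Der.refl t⟩
  | symm P s t =>
    refine mean_eqJ.2 fun P₀ hP => ?_
    obtain ⟨a, b, ha, hb, hd⟩ := mean_eqJ.1 (hp (eqJ P s t) (by simp)) P₀ hP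
    exact ⟨b, a, hb, ha, Der.symm _ _ hd⟩
  | trans P s t u =>
    refine mean_eqJ.2 fun P₀ hP => ?_
    obtain ⟨a, b, ha, hb, hd⟩ := mean_eqJ.1 (hp (eqJ P s t) (by simp)) P₀ hP
    obtain ⟨b', e, hb', he, hd'⟩ := mean_eqJ.1 (hp (eqJ P t u) (by simp)) P₀ hP
    have h1 : b = b' := Code.tm_code_injective (hb.trans hb'.symm)
    subst h1
    exact ⟨a, e, ha, he, Der.trans _ _ _ hd hd'⟩
  | inv P s s' =>
    refine mean_eqJ.2 fun P₀ hP => ?_
    obtain ⟨a, b, ha, hb, hd⟩ := mean_eqJ.1 (hp (eqJ P s s') (by simp)) P₀ hP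
    exact ⟨.inv a, .inv b, by rw [Tm.code, ha], by rw [Tm.code, hb], Der.inv _ _ hd⟩
  | bin P k s t s' t' hk =>
    refine mean_eqJ.2 fun P₀ hP => ?_
    obtain ⟨a, b, ha, hb, hd⟩ := mean_eqJ.1 (hp (eqJ P s s') (by simp)) P₀ hP
    obtain ⟨e, f, he, hf, hd'⟩ := mean_eqJ.1 (hp (eqJ P t t') (by simp)) P₀ hP
    rcases hk with rfl | rfl | rfl
    · exact ⟨.mul a e, .mul b f, by rw [Tm.code, ha, he], by rw [Tm.code, hb, hf],
        Der.mul _ _ _ _ hd hd'⟩
    · exact ⟨.sup a e, .sup b f, by rw [Tm.code, ha, he], by rw [Tm.code, hb, hf],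
        Der.sup _ _ _ _ hd hd'⟩
    · exact ⟨.inf a e, .inf b f, by rw [Tm.code, ha, he], by rw [Tm.code, hb, hf],
        Der.inf _ _ _ _ hd hd'⟩
  | ax P σ L u v u' v' h =>
    refine mean_eqJ.2 fun P₀ hP => ?_
    obtain ⟨q, hq, hqc⟩ := h
    obtain ⟨τ, hτ⟩ : ∃ τ : List Tm, σ = τ.map Tm.code := by
      refine lift_list fun s hs => mean_isT.1 (hp (isT s) ?_)
      simp only [List.mem_append, List.mem_map]
      exact Or.inl (Or.inl ⟨s, hs, rfl⟩)
    simp only [QId.code, Prod.mk.injEq] at hqc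
    obtain ⟨h1, h2, h3⟩ := hqc
    have hu := (mean_sbJ.1 (hp (sbJ σ u u') (by simp))).2 τ hτ _ h2
    have hv := (mean_sbJ.1 (hp (sbJ σ v v') (by simp))).2 τ hτ _ h3
    refine ⟨_, _, hu.symm, hv.symm, Der.ax q _ hq fun p hpq => ?_⟩
    have h4 : (p.1.code, p.2.code) ∈ L.map Prod.fst := by
      rw [← h1]
      exact List.mem_map.2 ⟨p, hpq, rfl⟩
    obtain ⟨l, hl, hlp⟩ := List.mem_map.1 h4
    have m1 : ∀ j ∈ [sbJ σ l.1.1 l.2.1, sbJ σ l.1.2 l.2.2, eqJ P l.2.1 l.2.2], Mean S j := by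
      intro j hj
      refine hp j ?_
      simp only [List.mem_append, List.mem_flatMap]
      exact Or.inl (Or.inr ⟨l, hl, hj⟩)
    have a1 := (mean_sbJ.1 (m1 (sbJ σ l.1.1 l.2.1) (by simp))).2 τ hτ p.1
      (congrArg Prod.fst hlp).symm
    have a2 := (mean_sbJ.1 (m1 (sbJ σ l.1.2 l.2.2) (by simp))).2 τ hτ p.2
      (congrArg Prod.snd hlp).symm
    obtain ⟨a, b, ha, hb, hd⟩ := mean_eqJ.1 (m1 (eqJ P l.2.1 l.2.2) (by simp)) P₀ hP
    have e1 : a = _ := Code.tm_code_injective (ha.trans a1)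
    have e2 : b = _ := Code.tm_code_injective (hb.trans a2)
    rw [e1, e2] at hd
    exact hd

theorem clR_mean (S : Set QId) {j : Jd} (h : ClR (SS S) j) : Mean S j := by
  induction h with
  | mk ps c h _ ih => exact rule_mean S h ih

/-! ### from terms to strings -/

theorem mk0 {S : Set QC} {c : Jd} (h : Rule S [] c) : ClR S c :=
  ClR.mk [] c h (by simp)

theorem mk1 {S : Set QC} {p c : Jd} (h : Rule S [p] c) (h1 : ClR S p) : ClR S c :=
  ClR.mk [p] c h (by simpa using h1)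

theorem mk2 {S : Set QC} {p p' c : Jd} (h : Rule S [p, p'] c) (h1 : ClR S p) (h2 : ClR S p') :
    ClR S c :=
  ClR.mk [p, p'] c h (by simpa using ⟨h1, h2⟩)

theorem clT (S : Set QC) (t : Tm) : ClR S (isT t.code) := by
  induction t with
  | one => exact mk0 Rule.tOne
  | var i => exact mk0 (Rule.tVar i)
  | mul s t hs ht => exact mk2 (Rule.tBin 1 _ _ (by simp)) hs ht
  | inv t ht => exact mk1 (Rule.tInv _) ht
  | sup s t hs ht => exact mk2 (Rule.tBin 3 _ _ (by simp)) hs ht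
  | inf s t hs ht => exact mk2 (Rule.tBin 4 _ _ (by simp)) hs ht

/-- all variables are smaller than `m` -/
def VB (m : ℕ) : Tm → Prop
  | .one => True
  | .var i => i < m
  | .mul s t => VB m s ∧ VB m t
  | .inv t => VB m t
  | .sup s t => VB m s ∧ VB m t
  | .inf s t => VB m s ∧ VB m t

theorem VB_mono {m m' : ℕ} (h : m ≤ m') (t : Tm) (ht : VB m t) : VB m' t := by
  induction t with
  | one => trivial
  | var i => exact lt_of_lt_of_le ht h
  | mul s t hs ht' => exact ⟨hs ht.1, ht' ht.2⟩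
  | inv t ht' => exact ht' ht
  | sup s t hs ht' => exact ⟨hs ht.1, ht' ht.2⟩
  | inf s t hs ht' => exact ⟨hs ht.1, ht' ht.2⟩

theorem exists_VB (t : Tm) : ∃ m, VB m t := by
  induction t with
  | one => exact ⟨0, trivial⟩
  | var i => exact ⟨i + 1, Nat.lt_succ_self i⟩
  | mul s t hs ht =>
    obtain ⟨a, ha⟩ := hs
    obtain ⟨b, hb⟩ := ht
    exact ⟨max a b, VB_mono (le_max_left _ _) s ha, VB_mono (le_max_right _ _) t hb⟩
  | inv t ht =>
    obtain ⟨a, ha⟩ := ht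
    exact ⟨a, ha⟩
  | sup s t hs ht =>
    obtain ⟨a, ha⟩ := hs
    obtain ⟨b, hb⟩ := ht
    exact ⟨max a b, VB_mono (le_max_left _ _) s ha, VB_mono (le_max_right _ _) t hb⟩
  | inf s t hs ht =>
    obtain ⟨a, ha⟩ := hs
    obtain ⟨b, hb⟩ := ht
    exact ⟨max a b, VB_mono (le_max_left _ _) s ha, VB_mono (le_max_right _ _) t hb⟩

theorem exists_VB_list (l : List (Tm × Tm)) : ∃ m, ∀ p ∈ l, VB m p.1 ∧ VB m p.2 := by
  induction l with
  | nil => exact ⟨0, by simp⟩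
  | cons p l ih =>
    obtain ⟨m, hm⟩ := ih
    obtain ⟨a, ha⟩ := exists_VB p.1
    obtain ⟨b, hb⟩ := exists_VB p.2
    refine ⟨max m (max a b), fun p' hp' => ?_⟩
    rcases List.mem_cons.1 hp' with rfl | hp'
    · exact ⟨VB_mono (by omega) _ ha, VB_mono (by omega) _ hb⟩
    · exact ⟨VB_mono (by omega) _ (hm p' hp').1, VB_mono (by omega) _ (hm p' hp').2⟩

theorem clS (S : Set QC) (σ : ℕ → Tm) (m : ℕ) (t : Tm) (ht : VB m t) :
    ClR S (sbJ ((List.range m).map fun i => (σ i).code) t.code (t.subst σ).code) := by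
  induction t with
  | one => exact mk0 (Rule.sOne _)
  | var i =>
    have h1 := Rule.sVar (S := S) ((List.range m).map fun i => (σ i).code) i
    have h2 : ((List.range m).map fun i => (σ i).code).getD i [0] = (σ i).code := by
      have hi : i < m := ht
      simp [List.getD, hi]
    rw [h2] at h1
    exact mk0 h1
  | mul s t hs ht' => exact mk2 (Rule.sBin _ 1 _ _ _ _ (by simp)) (hs ht.1) (ht' ht.2)
  | inv t ht' => exact mk1 (Rule.sInv _ _ _) (ht' ht)
  | sup s t hs ht' => exact mk2 (Rule.sBin _ 3 _ _ _ _ (by simp)) (hs ht.1) (ht' ht.2)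
  | inf s t hs ht' => exact mk2 (Rule.sBin _ 4 _ _ _ _ (by simp)) (hs ht.1) (ht' ht.2)

theorem der_clR (S : Set QId) (P : List (Tm × Tm)) {s t : Tm} (h : Der S P s t) :
    ClR (SS S) (eqJ (P.map pc) s.code t.code) := by
  induction h with
  | hyp s t h => exact mk0 (Rule.hyp _ _ _ (List.mem_map.2 ⟨(s, t), h, rfl⟩))
  | refl s => exact mk1 (Rule.refl _ _) (clT _ s)
  | symm s t _ ih => exact mk1 (Rule.symm _ _ _) ih
  | trans s t u _ _ ih1 ih2 => exact mk2 (Rule.trans _ _ _ _) ih1 ih2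
  | mul s t s' t' _ _ ih1 ih2 => exact mk2 (Rule.bin _ 1 _ _ _ _ (by simp)) ih1 ih2
  | inv s s' _ ih => exact mk1 (Rule.inv _ _ _) ih
  | sup s t s' t' _ _ ih1 ih2 => exact mk2 (Rule.bin _ 3 _ _ _ _ (by simp)) ih1 ih2
  | inf s t s' t' _ _ ih1 ih2 => exact mk2 (Rule.bin _ 4 _ _ _ _ (by simp)) ih1 ih2
  | ax q σ hq _ ih =>
    obtain ⟨m0, hm0⟩ := exists_VB_list (q.concl :: q.prem)
    have hc := hm0 q.concl (by simp)
    have hpr : ∀ p ∈ q.prem, VB m0 p.1 ∧ VB m0 p.2 := fun p hp => hm0 p (by simp [hp])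
    have hR := Rule.ax (S := SS S) (P.map pc) ((List.range m0).map fun i => (σ i).code)
      (q.prem.map fun p => ((p.1.code, p.2.code), ((p.1.subst σ).code, (p.2.subst σ).code)))
      q.concl.1.code q.concl.2.code (q.concl.1.subst σ).code (q.concl.2.subst σ).code ?_
    · refine ClR.mk _ _ hR fun j hj => ?_
      rw [List.mem_append, List.mem_append] at hj
      rcases hj with (hj | hj) | hj
      · obtain ⟨x, hx, rfl⟩ := List.mem_map.1 hj
        obtain ⟨i, _, rfl⟩ := List.mem_map.1 hx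
        exact clT _ _
      · obtain ⟨l, hl, hj⟩ := List.mem_flatMap.1 hj
        obtain ⟨p, hp, rfl⟩ := List.mem_map.1 hl
        simp only [List.mem_cons, List.not_mem_nil, or_false] at hj
        rcases hj with rfl | rfl | rfl
        · exact clS _ σ m0 p.1 (hpr p hp).1
        · exact clS _ σ m0 p.2 (hpr p hp).2
        · exact ih p hp
      · simp only [List.mem_cons, List.not_mem_nil, or_false] at hj
        rcases hj with rfl | rfl
        · exact clS _ σ m0 _ hc.1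
        · exact clS _ σ m0 _ hc.2
    · refine ⟨q, hq, ?_⟩
      rw [QId.code, List.map_map]
      rfl

end Equiv

open _root_.Pool.Agent.H978.QV.Equiv in
/-- EQUIV.  Derivations on strings and on terms agree. -/
theorem clR_iff_der (S : Set QId) (P : List (Tm × Tm)) (s t : Tm) :
    ClR {c | ∃ q : QId, (q ∈ S ∨ q ∈ lgAx) ∧ q.code = c}
      (eqJ (P.map fun p => (p.1.code, p.2.code)) s.code t.code) ↔ Der S P s t := by
  constructor
  · intro h
    obtain ⟨a, b, ha, hb, hd⟩ := mean_eqJ.1 (clR_mean S h) P rfl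
    rw [Code.tm_code_injective ha, Code.tm_code_injective hb] at hd
    exact hd
  · exact fun h => der_clR S P h

end Pool.Agent.H978.QV
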