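import Pool.Agent.H978.QV.Defs6

set_option autoImplicit false

namespace Pool.Agent.H978.QV

namespace Far

variable {Ω : Type} [LinearOrder Ω]

/-- a point below an iterate of `ω` can be moved between `ω` and `k ω` -/
theorem move (k : Ω ≃o Ω) (ω : Ω) : ∀ (n : ℕ) (x : Ω), ω ≤ x → x < k^[n] ω →
    ∃ g : Ω ≃o Ω, ω ≤ g x ∧ g x < k ω := by
  intro n
  induction n with
  | zero =>
    intro x hx hx'
    exact absurd hx (not_le_of_gt hx')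
  | succ n ih =>
    intro x hx hx'
    rcases lt_or_ge x (k ω) with h | h
    · exact ⟨OrderIso.refl Ω, hx, h⟩
    · have h1 : ω ≤ k.symm x := (k.le_symm_apply).2 h
      have h2 : k.symm x < k^[n] ω := by
        rw [Function.iterate_succ_apply'] at hx'
        exact (k.symm_apply_lt).2 hx'
      obtain ⟨g, hg1, hg2⟩ := ih (k.symm x) h1 h2
      exact ⟨k.symm.trans g, hg1, hg2⟩

/-- a point between `ω` and `h 0 ω` can be moved between `ω` and `h j ω` -/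
theorem move_all (h : ℕ → (Ω ≃o Ω)) (ω : Ω)
    (h3 : ∀ j, ∃ m : ℕ, h j ω ≤ (h (j + 1))^[m] ω) (u : Ω) (hu : ω ≤ u) (hu' : u < h 0 ω) :
    ∀ j, ∃ g : Ω ≃o Ω, ω ≤ g u ∧ g u < h j ω := by
  intro j
  induction j with
  | zero => exact ⟨OrderIso.refl Ω, hu, hu'⟩
  | succ j ih =>
    obtain ⟨g, hg1, hg2⟩ := ih
    obtain ⟨m, hm⟩ := h3 j
    obtain ⟨g', hg1', hg2'⟩ := move (h (j + 1)) ω m (g u) hg1 (hg2.trans_le hm)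
    exact ⟨g.trans g', hg1', hg2'⟩

end Far

variable {Ω : Type} [LinearOrder Ω]

theorem far_data (hd : ¬ NoArchDesc Ω) :
    ∃ (Far : Ω → Ω → Prop) (a b : Ω), Far a b ∧ (∀ w w', Far w w' → w < w') ∧
      (∀ w w' v v', v ≤ w → Far w w' → w' ≤ v' → Far v v') ∧
      (∀ (g : Ω ≃o Ω) w w', Far w w' → Far (g w) (g w')) ∧
      (∀ w w', Far w w' → ∃ v, Far w v ∧ Far v w') ∧
      ∀ u, a ≤ u → u < b → ∀ w w', Far w w' → ∃ g : Ω ≃o Ω, Far w (g u) ∧ Far (g u) w' := by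
  unfold NoArchDesc at hd
  push Not at hd
  obtain ⟨h, ω, -, h1, h2, h3, -⟩ := hd
  have mono : ∀ w w' v v', v ≤ w →
      (∃ (g : Ω ≃o Ω) (j : ℕ), w ≤ g ω ∧ g (h j ω) ≤ w') → w' ≤ v' →
      ∃ (g : Ω ≃o Ω) (j : ℕ), v ≤ g ω ∧ g (h j ω) ≤ v' := by
    rintro w w' v v' hv ⟨g, j, hg, hg'⟩ hv'
    exact ⟨g, j, hv.trans hg, hg'.trans hv'⟩
  have split : ∀ w w', (∃ (g : Ω ≃o Ω) (j : ℕ), w ≤ g ω ∧ g (h j ω) ≤ w') →
      ∃ v, (∃ (g : Ω ≃o Ω) (j : ℕ), w ≤ g ω ∧ g (h j ω) ≤ v) ∧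
        ∃ (g : Ω ≃o Ω) (j : ℕ), v ≤ g ω ∧ g (h j ω) ≤ w' := by
    rintro w w' ⟨g, j, hg, hg'⟩
    refine ⟨g (h (j + 1) ω), ⟨g, j + 1, hg, le_rfl⟩, (h (j + 1)).trans g, j + 1, le_rfl, ?_⟩
    have h4 : g (h (j + 1) (h (j + 1) ω)) ≤ g (h j ω) := g.le_iff_le.2 (h2 j)
    exact h4.trans hg'
  refine ⟨fun w w' => ∃ (g : Ω ≃o Ω) (j : ℕ), w ≤ g ω ∧ g (h j ω) ≤ w', ω, h 0 ω,
    ⟨OrderIso.refl Ω, 0, le_rfl, le_rfl⟩, ?_, mono, ?_, split, ?_⟩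
  · rintro w w' ⟨g, j, hg, hg'⟩
    have h4 : g ω < g (h j ω) := g.lt_iff_lt.2 (h1 j)
    exact (hg.trans_lt h4).trans_le hg'
  · rintro g w w' ⟨g₀, j, hg, hg'⟩
    exact ⟨g₀.trans g, j, g.le_iff_le.2 hg, g.le_iff_le.2 hg'⟩
  · intro u hu hu' w w' hw
    obtain ⟨v₁, hv₁, hv₁'⟩ := split w w' hw
    obtain ⟨v₂, ⟨g₀, j₀, hg₀, hg₀'⟩, hv₂⟩ := split v₁ w' hv₁'
    obtain ⟨g, hg1, hg2⟩ := Far.move_all h ω h3 u hu hu' j₀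
    have h4 : v₁ ≤ g₀ (g u) := hg₀.trans (g₀.le_iff_le.2 hg1)
    have h5 : g₀ (g u) ≤ v₂ := (g₀.le_iff_le.2 hg2.le).trans hg₀'
    exact ⟨g.trans g₀, mono w v₁ w (g₀ (g u)) le_rfl hv₁ h4, mono v₂ w' (g₀ (g u)) w' h5 hv₂ le_rfl⟩

end Pool.Agent.H978.QV
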