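import Pool.Agent.H978.QV.Alg

set_option autoImplicit false

namespace Pool.Agent.H978.QV

theorem sum_map_range (f : ℕ → ℤ) (n : ℕ) :
    ((List.range n).map f).sum = ∑ i ∈ Finset.range n, f i := by
  induction n with
  | zero => simp
  | succ n ih => rw [List.range_succ, List.map_append, List.sum_append, ih, Finset.sum_range_succ]; simp

theorem sum_Slist (g : ℕ → ℤ) (N : ℕ) :
    ((Slist N).map g).sum = g 1 + ∑ i ∈ Finset.range N, g (3 + 3 * i) := by
  rw [Slist, List.map_append, List.sum_append, List.map_map, sum_map_range]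
  simp

theorem sum_Ulist (g : ℕ → ℤ) (o N : ℕ) :
    ((Ulist o N).map g).sum = g 2 + ∑ i ∈ Finset.range N, g (o + 3 * i) := by
  rw [Ulist, List.map_append, List.sum_append, List.map_map, sum_map_range]
  simp

theorem sum_Rlist (g : ℕ → ℤ) (K o : ℕ) (H : List (List ℕ)) (N : ℕ) :
    ((Rlist K o H N).map g).sum = ∑ i ∈ Finset.range N,
      (((K ^ (H.getD i []).length : ℕ) : ℤ) * g (o + 3 * i) +
        ((num K (H.getD i []) : ℕ) : ℤ) * g (3 + 3 * i)) := by
  induction N with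
  | zero => simp [Rlist]
  | succ n ih =>
    rw [Finset.sum_range_succ, ← ih, Rlist, Rlist, List.range_succ, List.flatMap_append,
      List.map_append, List.sum_append]
    simp

theorem mem_Slist {N v : ℕ} (h : v ∈ Slist N) : v = 1 ∨ ∃ i < N, v = 3 + 3 * i := by
  simp only [Slist, List.mem_append, List.mem_map, List.mem_range, List.mem_singleton] at h
  rcases h with h | ⟨i, hi, rfl⟩
  · exact Or.inl h
  · exact Or.inr ⟨i, hi, rfl⟩

theorem mem_Ulist {o N v : ℕ} (h : v ∈ Ulist o N) : v = 2 ∨ ∃ i < N, v = o + 3 * i := by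
  simp only [Ulist, List.mem_append, List.mem_map, List.mem_range, List.mem_singleton] at h
  rcases h with h | ⟨i, hi, rfl⟩
  · exact Or.inl h
  · exact Or.inr ⟨i, hi, rfl⟩

theorem mem_Rlist {K o : ℕ} {H : List (List ℕ)} {N v : ℕ} (h : v ∈ Rlist K o H N) :
    ∃ i < N, v = o + 3 * i ∨ v = 3 + 3 * i := by
  simp only [Rlist, List.mem_flatMap, List.mem_range, List.mem_append, List.mem_replicate] at h
  obtain ⟨i, hi, (⟨_, h⟩ | ⟨_, h⟩)⟩ := h
  · exact ⟨i, hi, Or.inl h⟩
  · exact ⟨i, hi, Or.inr h⟩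

theorem mem_A1 (N : ℕ) : 1 ∈ Alist N := by simp [Alist]
theorem mem_A2 (N : ℕ) : 2 ∈ Alist N := by simp [Alist]
theorem mem_A3 {N i : ℕ} (h : i < N) : 3 + 3 * i ∈ Alist N := by
  simp only [Alist, List.mem_append, List.mem_flatMap, List.mem_range]
  exact Or.inr ⟨i, h, by simp⟩
theorem mem_A4 {N i : ℕ} (h : i < N) : 4 + 3 * i ∈ Alist N := by
  simp only [Alist, List.mem_append, List.mem_flatMap, List.mem_range]
  exact Or.inr ⟨i, h, by simp⟩
theorem mem_A5 {N i : ℕ} (h : i < N) : 5 + 3 * i ∈ Alist N := by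
  simp only [Alist, List.mem_append, List.mem_flatMap, List.mem_range]
  exact Or.inr ⟨i, h, by simp⟩

theorem mem_B1 {N i : ℕ} (h : i < N) {p : ℕ × ℕ}
    (hp : p ∈ [(3 + 3 * i, 1), (2, 3 + 3 * i), (4 + 3 * i, 1), (5 + 3 * i, 1)]) : p ∈ Blist N := by
  simp only [Blist, List.mem_append, List.mem_flatMap, List.mem_range]
  exact Or.inl ⟨i, h, hp⟩

theorem mem_B2 {N i j : ℕ} (h : i < N) (hj : j < i) {p : ℕ × ℕ}
    (hp : p ∈ [(3 + 3 * i, 3 + 3 * j), (4 + 3 * i, 3 + 3 * j), (5 + 3 * i, 3 + 3 * j),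
      (4 + 3 * j, 3 + 3 * i), (5 + 3 * j, 3 + 3 * i)]) : p ∈ Blist N := by
  simp only [Blist, List.mem_append, List.mem_flatMap, List.mem_range]
  exact Or.inr ⟨i, h, j, hj, hp⟩

theorem min_zero {x y : ℤ} (h : min x y = 0) (hy : 0 < y) : x = 0 := by
  rcases min_choice x y with h1 | h1 <;> omega

theorem min_zero' {x y : ℤ} (h : min x y = 0) (hx : 0 < x) : y = 0 := by
  rcases min_choice x y with h1 | h1 <;> omega

theorem num_pos {K : ℕ} {w : List ℕ} (h : w ≠ []) : 1 ≤ num K w := by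
  obtain ⟨w', l, rfl⟩ := List.eq_nil_or_concat' w |>.resolve_left h
  simp only [num, List.foldl_append, List.foldl_cons, List.foldl_nil]
  omega

/-- The combinatorial core: sequences of integers satisfying the rules. -/
structure Core (N K : ℕ) (H G : List (List ℕ)) (κ : ℤ) (S E : ℤ → ℤ) (s U V : ℕ → ℤ → ℤ) : Prop where
  hS : ∀ β, 0 ≤ S β
  hE : ∀ β, 0 ≤ E β
  hs : ∀ i < N, ∀ β, 0 ≤ s i β
  hU : ∀ i < N, ∀ β, 0 ≤ U i β
  hV : ∀ i < N, ∀ β, 0 ≤ V i β
  sS : ∀ i < N, ∀ β, min (s i β) (S β) = 0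
  Es : ∀ i < N, ∀ β, min (E β) (s i β) = 0
  US : ∀ i < N, ∀ β, min (U i β) (S β) = 0
  VS : ∀ i < N, ∀ β, min (V i β) (S β) = 0
  ss : ∀ i < N, ∀ j < N, i ≠ j → ∀ β, min (s i β) (s j β) = 0
  Us : ∀ i < N, ∀ j < N, i ≠ j → ∀ β, min (U i β) (s j β) = 0
  Vs : ∀ i < N, ∀ j < N, i ≠ j → ∀ β, min (V i β) (s j β) = 0
  ha : ∀ β, S (β + κ) + ∑ i ∈ Finset.range N, s i (β + κ) = S β + ∑ i ∈ Finset.range N, s i β
  hu : ∀ β, E (β + κ) + ∑ i ∈ Finset.range N, U i (β + κ) = ∑ i ∈ Finset.range N,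
      (((K ^ (H.getD i []).length : ℕ) : ℤ) * U i β + ((num K (H.getD i []) : ℕ) : ℤ) * s i β)
  hv : ∀ β, E (β + κ) + ∑ i ∈ Finset.range N, V i (β + κ) = ∑ i ∈ Finset.range N,
      (((K ^ (G.getD i []).length : ℕ) : ℤ) * V i β + ((num K (G.getD i []) : ℕ) : ℤ) * s i β)

theorem core_step {N K : ℕ} {H G : List (List ℕ)} {κ : ℤ} {S E : ℤ → ℤ} {s U V : ℕ → ℤ → ℤ}
    (C : Core N K H G κ S E s U V) (hK : 1 ≤ K)
    (hH : ∀ i < N, H.getD i [] ≠ []) (hG : ∀ i < N, G.getD i [] ≠ []) {α : ℤ} (hα : 0 < α) :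
    ∀ n : ℕ, ∀ β : ℤ, S β + ∑ i ∈ Finset.range N, s i β = α →
      ((E β + ∑ i ∈ Finset.range N, U i β) + (E β + ∑ i ∈ Finset.range N, V i β)).toNat ≤ n →
      ∃ x : List ℕ, (∀ i ∈ x, i < N) ∧
        E β + ∑ i ∈ Finset.range N, U i β = α * (num K (x.flatMap fun i => H.getD i []) : ℕ) ∧
        E β + ∑ i ∈ Finset.range N, V i β = α * (num K (x.flatMap fun i => G.getD i []) : ℕ) := by
  intro n
  induction n using Nat.strong_induction_on with
  | _ n ih =>
    intro β hβ hn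
    set β' := β - κ with hβ'
    have e1 : β = β' + κ := by rw [hβ']; ring
    have ha := C.ha β'
    rw [← e1, hβ] at ha
    have hu := C.hu β'
    rw [← e1] at hu
    have hv := C.hv β'
    rw [← e1] at hv
    by_cases hs : ∃ i < N, s i β' ≠ 0
    · obtain ⟨i0, hi0, hs0⟩ := hs
      have hp : 0 < s i0 β' := lt_of_le_of_ne (C.hs i0 hi0 β') (Ne.symm hs0)
      have hS0 : S β' = 0 := min_zero' (C.sS i0 hi0 β') hp
      have hE0 : E β' = 0 := min_zero (C.Es i0 hi0 β') hp
      have hs' : ∀ j ∈ Finset.range N, j ≠ i0 → s j β' = 0 := fun j hj hne =>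
        min_zero (C.ss j (Finset.mem_range.1 hj) i0 hi0 hne β') hp
      have hU' : ∀ j ∈ Finset.range N, j ≠ i0 → U j β' = 0 := fun j hj hne =>
        min_zero (C.Us j (Finset.mem_range.1 hj) i0 hi0 hne β') hp
      have hV' : ∀ j ∈ Finset.range N, j ≠ i0 → V j β' = 0 := fun j hj hne =>
        min_zero (C.Vs j (Finset.mem_range.1 hj) i0 hi0 hne β') hp
      have hmem : i0 ∈ Finset.range N := Finset.mem_range.2 hi0
      have sumS : ∑ i ∈ Finset.range N, s i β' = s i0 β' :=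
        Finset.sum_eq_single i0 hs' (fun h => absurd hmem h)
      have sumU : ∑ i ∈ Finset.range N, U i β' = U i0 β' :=
        Finset.sum_eq_single i0 hU' (fun h => absurd hmem h)
      have sumV : ∑ i ∈ Finset.range N, V i β' = V i0 β' :=
        Finset.sum_eq_single i0 hV' (fun h => absurd hmem h)
      have hsα : s i0 β' = α := by rw [sumS, hS0] at ha; linarith
      have hu' := Finset.sum_eq_single (s := Finset.range N) (f := fun i =>
        ((K ^ (H.getD i []).length : ℕ) : ℤ) * U i β' + ((num K (H.getD i []) : ℕ) : ℤ) * s i β') i0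
        (fun j hj hne => by rw [hU' j hj hne, hs' j hj hne]; ring) (fun h => absurd hmem h)
      have hv' := Finset.sum_eq_single (s := Finset.range N) (f := fun i =>
        ((K ^ (G.getD i []).length : ℕ) : ℤ) * V i β' + ((num K (G.getD i []) : ℕ) : ℤ) * s i β') i0
        (fun j hj hne => by rw [hV' j hj hne, hs' j hj hne]; ring) (fun h => absurd hmem h)
      rw [hu', hsα] at hu
      rw [hv', hsα] at hv
      have hH1 := num_pos (K := K) (hH i0 hi0)
      have hG1 := num_pos (K := K) (hG i0 hi0)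
      have hU0 := C.hU i0 hi0 β'
      have hV0 := C.hV i0 hi0 β'
      have hK1 : 1 ≤ K ^ (H.getD i0 []).length := Nat.one_le_pow _ _ hK
      have hK2 : 1 ≤ K ^ (G.getD i0 []).length := Nat.one_le_pow _ _ hK
      have hK1' : (1 : ℤ) ≤ ((K ^ (H.getD i0 []).length : ℕ) : ℤ) := by exact_mod_cast hK1
      have hK2' : (1 : ℤ) ≤ ((K ^ (G.getD i0 []).length : ℕ) : ℤ) := by exact_mod_cast hK2
      have hH2 : (1 : ℤ) ≤ ((num K (H.getD i0 []) : ℕ) : ℤ) := by exact_mod_cast hH1
      have hG2 : (1 : ℤ) ≤ ((num K (G.getD i0 []) : ℕ) : ℤ) := by exact_mod_cast hG1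
      have hlt1 : U i0 β' < E β + ∑ i ∈ Finset.range N, U i β := by
        rw [hu]; nlinarith
      have hlt2 : V i0 β' < E β + ∑ i ∈ Finset.range N, V i β := by
        rw [hv]; nlinarith
      have hlt : ((E β' + ∑ i ∈ Finset.range N, U i β') +
          (E β' + ∑ i ∈ Finset.range N, V i β')).toNat < n := by
        rw [sumU, sumV, hE0]
        omega
      obtain ⟨x, hx, h1, h2⟩ := ih _ hlt β' ha.symm le_rfl
      refine ⟨x ++ [i0], ?_, ?_, ?_⟩
      · intro i hi
        rw [List.mem_append, List.mem_singleton] at hi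
        rcases hi with hi | hi
        · exact hx i hi
        · rw [hi]; exact hi0
      · rw [hu, List.flatMap_append, List.flatMap_singleton, num_append]
        rw [sumU, hE0, zero_add] at h1
        rw [h1]; push_cast; ring
      · rw [hv, List.flatMap_append, List.flatMap_singleton, num_append]
        rw [sumV, hE0, zero_add] at h2
        rw [h2]; push_cast; ring
    · push Not at hs
      have sumS : ∑ i ∈ Finset.range N, s i β' = 0 :=
        Finset.sum_eq_zero fun i hi => hs i (Finset.mem_range.1 hi)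
      have hSα : S β' = α := by rw [sumS] at ha; linarith
      have hU' : ∀ j ∈ Finset.range N, U j β' = 0 := fun j hj =>
        min_zero (C.US j (Finset.mem_range.1 hj) β') (by rw [hSα]; exact hα)
      have hV' : ∀ j ∈ Finset.range N, V j β' = 0 := fun j hj =>
        min_zero (C.VS j (Finset.mem_range.1 hj) β') (by rw [hSα]; exact hα)
      refine ⟨[], by simp, ?_, ?_⟩
      · rw [hu, Finset.sum_eq_zero fun i hi => by rw [hU' i hi, hs i (Finset.mem_range.1 hi)]; ring]
        simp [num]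
      · rw [hv, Finset.sum_eq_zero fun i hi => by rw [hV' i hi, hs i (Finset.mem_range.1 hi)]; ring]
        simp [num]

theorem core_solv {N K : ℕ} {H G : List (List ℕ)} {κ : ℤ} {S E : ℤ → ℤ} {s U V : ℕ → ℤ → ℤ}
    (C : Core N K H G κ S E s U V) (hK : 1 ≤ K) (hN : N = H.length)
    (hH : ∀ i < N, H.getD i [] ≠ []) (hG : ∀ i < N, G.getD i [] ≠ [])
    (bH : ∀ i < N, ∀ l ∈ H.getD i [], l + 1 < K) (bG : ∀ i < N, ∀ l ∈ G.getD i [], l + 1 < K)
    {β : ℤ} (hE : 0 < E β) (hS : 0 < S β) : Solv H G := by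
  have hs : ∀ i ∈ Finset.range N, s i β = 0 := fun i hi =>
    min_zero (C.sS i (Finset.mem_range.1 hi) β) hS
  have hU : ∀ i ∈ Finset.range N, U i β = 0 := fun i hi =>
    min_zero (C.US i (Finset.mem_range.1 hi) β) hS
  have hV : ∀ i ∈ Finset.range N, V i β = 0 := fun i hi =>
    min_zero (C.VS i (Finset.mem_range.1 hi) β) hS
  obtain ⟨x, hx, h1, h2⟩ := core_step C hK hH hG (α := S β) hS _ β
    (by rw [Finset.sum_eq_zero hs, add_zero]) le_rfl
  rw [Finset.sum_eq_zero hU, add_zero] at h1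
  rw [Finset.sum_eq_zero hV, add_zero] at h2
  refine ⟨x, ?_, ?_, ?_⟩
  · rintro rfl
    simp [num] at h1
    omega
  · intro i hi; rw [← hN]; exact hx i hi
  · refine num_injective K _ _ ?_ ?_ ?_
    · intro l hl
      rw [List.mem_flatMap] at hl
      obtain ⟨i, hi, hl⟩ := hl
      exact bH i (hx i hi) l hl
    · intro l hl
      rw [List.mem_flatMap] at hl
      obtain ⟨i, hi, hl⟩ := hl
      exact bG i (hx i hi) l hl
    · have h3 := h1.symm.trans h2
      have h4 := mul_left_cancel₀ (ne_of_gt hS) h3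
      exact_mod_cast h4

end Pool.Agent.H978.QV
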