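import Pool.Agent.H978.QV.Forward

set_option autoImplicit false

namespace Pool.Agent.H978.QV

theorem getD_ne {H : List (List ℕ)} (h : ∀ w ∈ H, w ≠ []) {i : ℕ} (hi : i < H.length) :
    H.getD i [] ≠ [] := by
  rw [List.getD_eq_getElem?_getD, List.getElem?_eq_getElem hi]
  exact h _ (List.getElem_mem hi)

theorem letter_lt {H : List (List ℕ)} {i : ℕ} {l : ℕ} (hl : l ∈ H.getD i []) :
    l ≤ H.flatten.sum := by
  by_cases hi : i < H.length
  · rw [List.getD_eq_getElem?_getD, List.getElem?_eq_getElem hi] at hl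
    have : l ∈ H.flatten := List.mem_flatten.2 ⟨_, List.getElem_mem hi, hl⟩
    exact List.single_le_sum (by simp) _ this
  · rw [List.getD_eq_getElem?_getD, List.getElem?_eq_none (by omega)] at hl
    simp at hl

theorem solv_of_not_valid {H G : List (List ℕ)} (hlen : H.length = G.length)
    (hH : ∀ w ∈ H, w ≠ []) (hG : ∀ w ∈ G, w ≠ [])
    (hn : ¬ (qPCP H G).Valid (ℤ ×ₗ ℤ)) : Solv H G := by
  unfold QId.Valid at hn
  push Not at hn
  obtain ⟨ρ, hp, hc⟩ := hn
  set N := H.length with hN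
  set K := base H G with hK
  have hA : ∀ x ∈ Alist N, infIso (ρ x) (OrderIso.refl _) = OrderIso.refl _ := by
    intro x hx
    exact hp (Tm.inf (.var x) .one, Tm.one) (by
      simp only [qPCP, mkQ, List.mem_append, List.mem_map]
      exact Or.inl (Or.inl ⟨x, hx, rfl⟩))
  have hB : ∀ p ∈ Blist N, infIso (ρ p.1) (ρ p.2) = OrderIso.refl _ := by
    intro p hx
    exact hp (Tm.inf (.var p.1) (.var p.2), Tm.one) (by
      simp only [qPCP, mkQ, List.mem_append, List.mem_map]
      exact Or.inl (Or.inr ⟨p, hx, rfl⟩))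
  have hC : ∀ p ∈ [(Slist N, Slist N), (Ulist 4 N, Rlist K 4 H N), (Ulist 5 N, Rlist K 5 G N)],
      (ρ 0).trans ((prodV p.1).eval ρ) = ((prodV p.2).eval ρ).trans (ρ 0) := by
    intro p hx
    exact hp (Tm.mul (prodV p.1) (.var 0), Tm.mul (.var 0) (prodV p.2)) (by
      simp only [qPCP, mkQ, List.mem_append, List.mem_map]
      exact Or.inr ⟨p, hx, rfl⟩)
  have hc' : infIso (ρ 2) (ρ 1) ≠ OrderIso.refl _ := hc
  have C1 := hC (Slist N, Slist N) (by simp)
  have C2 := hC (Ulist 4 N, Rlist K 4 H N) (by simp)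
  have C3 := hC (Ulist 5 N, Rlist K 5 G N) (by simp)
  simp only at C1 C2 C3
  have hS1 : ρ 1 ≠ OrderIso.refl _ := by
    intro h
    apply hc'
    rw [h]; exact hA 2 (mem_A2 N)
  have mB1 : ∀ i < N, infIso (ρ (3 + 3 * i)) (ρ 1) = OrderIso.refl _ := fun i hi =>
    hB (3 + 3 * i, 1) (mem_B1 hi (by simp))
  have mB2 : ∀ i < N, infIso (ρ 2) (ρ (3 + 3 * i)) = OrderIso.refl _ := fun i hi =>
    hB (2, 3 + 3 * i) (mem_B1 hi (by simp))
  have mB3 : ∀ i < N, infIso (ρ (4 + 3 * i)) (ρ 1) = OrderIso.refl _ := fun i hi =>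
    hB (4 + 3 * i, 1) (mem_B1 hi (by simp))
  have mB4 : ∀ i < N, infIso (ρ (5 + 3 * i)) (ρ 1) = OrderIso.refl _ := fun i hi =>
    hB (5 + 3 * i, 1) (mem_B1 hi (by simp))
  -- step 1
  have kS : kk (ρ 1) = 0 := by
    by_contra hne
    have h1 : ∀ x, infIso (ρ x) (ρ 1) = OrderIso.refl _ → ρ x = OrderIso.refl _ := by
      intro x hx
      rcases orth hx with ⟨_, h, _⟩ | h | h
      · exact absurd h hne
      · exact h
      · exact absurd h hS1
    have hkS : 0 < kk (ρ 1) := by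
      rcases pos_iff.1 (hA 1 (mem_A1 N)) with h | ⟨h, _⟩
      · exact h
      · exact absurd h hne
    have hR : (prodV (Rlist K 4 H N)).eval ρ = OrderIso.refl _ := by
      refine prodV_refl ρ _ fun v hv => ?_
      obtain ⟨i, hi, (rfl | rfl)⟩ := mem_Rlist hv
      · exact h1 _ (mB3 i hi)
      · exact h1 _ (mB1 i hi)
    have hkU : kk ((prodV (Ulist 4 N)).eval ρ) = kk (ρ 2) := by
      rw [kk_prodV, sum_Ulist, Finset.sum_eq_zero, add_zero]
      intro i hi
      rw [h1 _ (mB3 i (Finset.mem_range.1 hi))]; simp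
    rw [hR] at C2
    have e1 := congrArg kk C2
    simp only [kk_trans, kk_refl, hkU] at e1
    have hk2 : kk (ρ 2) = 0 := by linarith
    apply hc'
    rw [inf_lt (by rw [hk2]; exact hkS)]
    refine W_ext (by simpa using hk2) fun β => ?_
    have hz : ∀ v ∈ Ulist 4 N, kk (ρ v) = 0 := by
      intro v hv
      rcases mem_Ulist hv with rfl | ⟨i, hi, rfl⟩
      · exact hk2
      · rw [h1 _ (mB3 i hi)]; simp
    have e2 := congrArg (fun φ => ff φ (β - kk (ρ 0))) C2
    simp only [ff_trans, ff_refl, kk_refl, add_zero, zero_add] at e2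
    rw [ff_prodV ρ _ hz, sum_Ulist, Finset.sum_eq_zero, add_zero] at e2
    · simp only [sub_add_cancel] at e2
      simp only [ff_refl]; linarith
    · intro i hi
      rw [h1 _ (mB3 i (Finset.mem_range.1 hi))]; simp
  -- step 2
  have k0 : ∀ x, infIso (ρ x) (ρ 1) = OrderIso.refl _ → kk (ρ x) = 0 := by
    intro x hx
    rcases orth hx with ⟨h, _, _⟩ | h | h
    · exact h
    · rw [h]; simp
    · exact absurd h hS1
  have ks : ∀ i < N, kk (ρ (3 + 3 * i)) = 0 := fun i hi => k0 _ (mB1 i hi)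
  have kU : ∀ i < N, kk (ρ (4 + 3 * i)) = 0 := fun i hi => k0 _ (mB3 i hi)
  have kV : ∀ i < N, kk (ρ (5 + 3 * i)) = 0 := fun i hi => k0 _ (mB4 i hi)
  -- step 3
  have kR : ∀ v ∈ Rlist K 4 H N, kk (ρ v) = 0 := by
    intro v hv
    obtain ⟨i, hi, (rfl | rfl)⟩ := mem_Rlist hv
    · exact kU i hi
    · exact ks i hi
  have kR' : ∀ v ∈ Rlist K 5 G N, kk (ρ v) = 0 := by
    intro v hv
    obtain ⟨i, hi, (rfl | rfl)⟩ := mem_Rlist hv
    · exact kV i hi
    · exact ks i hi
  have kE : kk (ρ 2) = 0 := by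
    have e1 := congrArg kk C2
    simp only [kk_trans] at e1
    rw [kk_prodV, kk_prodV, sum_Ulist, sum_Rlist] at e1
    rw [Finset.sum_eq_zero (fun i hi => kU i (Finset.mem_range.1 hi)),
      Finset.sum_eq_zero (fun i hi => by
        rw [kU i (Finset.mem_range.1 hi), ks i (Finset.mem_range.1 hi)]; ring)] at e1
    linarith
  have kUl : ∀ v ∈ Ulist 4 N, kk (ρ v) = 0 := by
    intro v hv
    rcases mem_Ulist hv with rfl | ⟨i, hi, rfl⟩
    · exact kE
    · exact kU i hi
  have kVl : ∀ v ∈ Ulist 5 N, kk (ρ v) = 0 := by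
    intro v hv
    rcases mem_Ulist hv with rfl | ⟨i, hi, rfl⟩
    · exact kE
    · exact kV i hi
  have kSl : ∀ v ∈ Slist N, kk (ρ v) = 0 := by
    intro v hv
    rcases mem_Slist hv with rfl | ⟨i, hi, rfl⟩
    · exact kS
    · exact ks i hi
  have nn : ∀ x ∈ Alist N, kk (ρ x) = 0 → ∀ β, 0 ≤ ff (ρ x) β := by
    intro x hx hk
    rcases pos_iff.1 (hA x hx) with h | ⟨_, h⟩
    · omega
    · exact h
  have mz : ∀ x y, kk (ρ x) = 0 → kk (ρ y) = 0 → infIso (ρ x) (ρ y) = OrderIso.refl _ →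
      ∀ β, min (ff (ρ x) β) (ff (ρ y) β) = 0 := by
    intro x y hx hy h β
    rw [← ff_inf_eq (by rw [hx, hy]), h]; simp
  have cross : ∀ i < N, ∀ j < N, i ≠ j →
      infIso (ρ (3 + 3 * i)) (ρ (3 + 3 * j)) = OrderIso.refl _ ∧
      infIso (ρ (4 + 3 * i)) (ρ (3 + 3 * j)) = OrderIso.refl _ ∧
      infIso (ρ (5 + 3 * i)) (ρ (3 + 3 * j)) = OrderIso.refl _ := by
    intro i hi j hj hij
    rcases lt_or_gt_of_ne hij with h | h
    · refine ⟨?_, hB (4 + 3 * i, 3 + 3 * j) (mem_B2 hj h (by simp)),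
        hB (5 + 3 * i, 3 + 3 * j) (mem_B2 hj h (by simp))⟩
      have h1 := hB (3 + 3 * j, 3 + 3 * i) (mem_B2 hj h (by simp))
      simp only at h1
      apply DFunLike.ext
      intro x
      rw [infIso_apply, min_comm, ← infIso_apply, h1]
    · exact ⟨hB (3 + 3 * i, 3 + 3 * j) (mem_B2 hi h (by simp)),
        hB (4 + 3 * i, 3 + 3 * j) (mem_B2 hi h (by simp)),
        hB (5 + 3 * i, 3 + 3 * j) (mem_B2 hi h (by simp))⟩
  have core : Core N K H G (kk (ρ 0)) (ff (ρ 1)) (ff (ρ 2)) (fun i => ff (ρ (3 + 3 * i)))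
      (fun i => ff (ρ (4 + 3 * i))) (fun i => ff (ρ (5 + 3 * i))) := by
    refine ⟨nn 1 (mem_A1 N) kS, nn 2 (mem_A2 N) kE, fun i hi => nn _ (mem_A3 hi) (ks i hi),
      fun i hi => nn _ (mem_A4 hi) (kU i hi), fun i hi => nn _ (mem_A5 hi) (kV i hi),
      fun i hi => mz _ _ (ks i hi) kS (mB1 i hi), fun i hi => mz _ _ kE (ks i hi) (mB2 i hi),
      fun i hi => mz _ _ (kU i hi) kS (mB3 i hi), fun i hi => mz _ _ (kV i hi) kS (mB4 i hi),
      fun i hi j hj hij => mz _ _ (ks i hi) (ks j hj) (cross i hi j hj hij).1,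
      fun i hi j hj hij => mz _ _ (kU i hi) (ks j hj) (cross i hi j hj hij).2.1,
      fun i hi j hj hij => mz _ _ (kV i hi) (ks j hj) (cross i hi j hj hij).2.2, ?_, ?_, ?_⟩
    · intro β
      have e2 := congrArg (fun φ => ff φ β) C1
      simp only [ff_trans] at e2
      have hk : kk ((prodV (Slist N)).eval ρ) = 0 := by
        rw [kk_prodV]
        exact List.sum_eq_zero (by
          intro z hz
          rw [List.mem_map] at hz
          obtain ⟨v, hv, rfl⟩ := hz
          exact kSl v hv)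
      rw [hk, add_zero, ff_prodV ρ _ kSl, ff_prodV ρ _ kSl, sum_Slist, sum_Slist] at e2
      linarith
    · intro β
      have e2 := congrArg (fun φ => ff φ β) C2
      simp only [ff_trans] at e2
      have hk : kk ((prodV (Rlist K 4 H N)).eval ρ) = 0 := by
        rw [kk_prodV]
        exact List.sum_eq_zero (by
          intro z hz
          rw [List.mem_map] at hz
          obtain ⟨v, hv, rfl⟩ := hz
          exact kR v hv)
      rw [hk, add_zero, ff_prodV ρ _ kUl, ff_prodV ρ _ kR, sum_Ulist, sum_Rlist] at e2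
      linarith
    · intro β
      have e2 := congrArg (fun φ => ff φ β) C3
      simp only [ff_trans] at e2
      have hk : kk ((prodV (Rlist K 5 G N)).eval ρ) = 0 := by
        rw [kk_prodV]
        exact List.sum_eq_zero (by
          intro z hz
          rw [List.mem_map] at hz
          obtain ⟨v, hv, rfl⟩ := hz
          exact kR' v hv)
      rw [hk, add_zero, ff_prodV ρ _ kVl, ff_prodV ρ _ kR', sum_Ulist, sum_Rlist] at e2
      linarith
  obtain ⟨β, hβ⟩ : ∃ β, min (ff (ρ 2) β) (ff (ρ 1) β) ≠ 0 := by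
    by_contra h
    push Not at h
    exact hc' (orth_of kE kS h)
  have h1 := core.hE β
  have h2 := core.hS β
  have hE : 0 < ff (ρ 2) β := by
    rcases min_choice (ff (ρ 2) β) (ff (ρ 1) β) with h | h <;> rw [h] at hβ
    · omega
    · have := min_le_left (ff (ρ 2) β) (ff (ρ 1) β)
      omega
  have hS : 0 < ff (ρ 1) β := by
    rcases min_choice (ff (ρ 2) β) (ff (ρ 1) β) with h | h <;> rw [h] at hβ
    · have := min_le_right (ff (ρ 2) β) (ff (ρ 1) β)
      omega
    · omega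
  refine core_solv core ?_ hN ?_ ?_ ?_ ?_ hE hS
  · rw [hK]; simp only [base]; omega
  · intro i hi; exact getD_ne hH hi
  · intro i hi; exact getD_ne hG (by rw [← hlen]; exact hi)
  · intro i _ l hl
    have := letter_lt hl
    rw [hK]; simp only [base]; omega
  · intro i _ l hl
    have := letter_lt hl
    rw [hK]; simp only [base]; omega

end Pool.Agent.H978.QV
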