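import Pool.Agent.H978.QV.Forward2
import Pool.Agent.H978.QV.Defs3

set_option autoImplicit false

namespace Pool.Agent.H978.QV

/-- `no_descent`, as a property -/
def NoDesc (Ω : Type) [LinearOrder Ω] : Prop :=
  ∀ (h : ℕ → (Ω ≃o Ω)) (ω : Ω), (∀ j x, x ≤ h j x) → (∀ j, ω < h j ω) →
    (∀ j, h (j + 1) (h (j + 1) ω) ≤ h j ω) → False

section gen
variable {Ω : Type} [LinearOrder Ω] (ρ : ℕ → (Ω ≃o Ω))

def PP (l : List ℕ) (x : Ω) : Ω := ((prodV l).eval ρ) x

theorem PP_nil (x : Ω) : PP ρ [] x = x := rfl

theorem PP_snoc (l : List ℕ) (v : ℕ) (x : Ω) : PP ρ (l ++ [v]) x = PP ρ l (ρ v x) := by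
  unfold PP; rw [prodV_append]; rfl

theorem PP_mono (l : List ℕ) {x y : Ω} (h : x ≤ y) : PP ρ l x ≤ PP ρ l y :=
  ((prodV l).eval ρ).monotone h

theorem PP_fix {l : List ℕ} {x : Ω} (h : ∀ v ∈ l, ρ v x = x) : PP ρ l x = x := by
  induction l using List.reverseRecOn with
  | nil => rfl
  | append_singleton l v ih =>
    rw [PP_snoc, h v (by simp)]
    exact ih fun w hw => h w (by simp [hw])

theorem PP_iter {l : List ℕ} (w : ℕ) (hpos : ∀ v ∈ l, ∀ x, x ≤ ρ v x) (x : Ω) :
    (⇑(ρ w))^[l.count w] x ≤ PP ρ l x := by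
  induction l using List.reverseRecOn generalizing x with
  | nil => exact le_rfl
  | append_singleton l v ih =>
    rw [PP_snoc, List.count_append]
    have ih' := ih fun u hu => hpos u (by simp [hu])
    by_cases hvw : v = w
    · subst hvw
      have : List.count v [v] = 1 := by simp
      rw [this, Function.iterate_succ_apply]
      exact ih' _
    · have : List.count w [v] = 0 := by simp [hvw]
      rw [this, add_zero]
      exact (ih' x).trans (PP_mono ρ l (hpos v (by simp) x))

theorem PP_one {l : List ℕ} {w : ℕ} {x : Ω} (hc : l.count w = 1)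
    (hfix : ∀ v ∈ l, v ≠ w → ρ v x = x) (hcomm : ∀ v ∈ l, ∀ y, ρ v (ρ w y) = ρ w (ρ v y)) :
    PP ρ l x = ρ w x := by
  induction l using List.reverseRecOn with
  | nil => simp at hc
  | append_singleton l v ih =>
    rw [PP_snoc]
    rw [List.count_append] at hc
    by_cases hvw : v = w
    · subst hvw
      have h1 : List.count v [v] = 1 := by simp
      rw [h1] at hc
      have h0 : List.count v l = 0 := by omega
      refine PP_fix ρ fun u hu => ?_
      have hne : u ≠ v := by
        rintro rfl
        exact List.count_eq_zero.1 h0 hu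
      rw [hcomm u (by simp [hu]), hfix u (by simp [hu]) hne]
    · have h1 : List.count w [v] = 0 := by simp [hvw]
      rw [h1, add_zero] at hc
      rw [hfix v (by simp) hvw]
      exact ih hc (fun u hu => hfix u (by simp [hu])) (fun u hu => hcomm u (by simp [hu]))

theorem PP_pow {l : List ℕ} {a : Ω → Ω} {x : Ω} (e : ℕ → ℕ)
    (he : ∀ v ∈ l, ρ v x = a^[e v] x) (hcomm : ∀ v ∈ l, ∀ y, ρ v (a y) = a (ρ v y)) :
    PP ρ l x = a^[(l.map e).sum] x := by
  have hit : ∀ v ∈ l, ∀ n y, ρ v (a^[n] y) = a^[n] (ρ v y) := by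
    intro v hv n
    induction n with
    | zero => intro y; rfl
    | succ n ih => intro y; rw [Function.iterate_succ_apply, ih, hcomm v hv, Function.iterate_succ_apply]
  have key : ∀ l' : List ℕ, (∀ v ∈ l', v ∈ l) → ∀ n, PP ρ l' (a^[n] x) = a^[(l'.map e).sum + n] x := by
    intro l'
    induction l' using List.reverseRecOn with
    | nil => intro _ n; simp [PP_nil]
    | append_singleton l' v ih =>
      intro hl n
      rw [PP_snoc, hit v (hl v (by simp)), he v (hl v (by simp)), ← Function.iterate_add_apply,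
        ih (fun u hu => hl u (by simp [hu]))]
      congr 1
      simp
      omega
  have := key l (fun v hv => hv) 0
  simpa using this

theorem count_Ulist {o : ℕ} (ho : 3 ≤ o) {N v : ℕ} (hv : v ∈ Ulist o N) : (Ulist o N).count v = 1 := by
  refine List.count_eq_one_of_mem ?_ hv
  rw [Ulist, List.singleton_append, List.nodup_cons]
  constructor
  · rw [List.mem_map]
    rintro ⟨i, _, h⟩
    omega
  · exact List.Nodup.map (fun i j h => by simpa using h) List.nodup_range

theorem count_Slist {N v : ℕ} (hv : v ∈ Slist N) : (Slist N).count v = 1 := by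
  refine List.count_eq_one_of_mem ?_ hv
  rw [Slist, List.singleton_append, List.nodup_cons]
  constructor
  · rw [List.mem_map]
    rintro ⟨i, _, h⟩
    omega
  · exact List.Nodup.map (fun i j h => by simpa using h) List.nodup_range

theorem block_sublist (K o : ℕ) (H : List (List ℕ)) {N i : ℕ} (hi : i < N) :
    (List.replicate (K ^ (H.getD i []).length) (o + 3 * i) ++
      List.replicate (num K (H.getD i [])) (3 + 3 * i)).Sublist (Rlist K o H N) := by
  rw [Rlist, List.flatMap_def]
  exact List.sublist_flatten_of_mem (List.mem_map.2 ⟨i, List.mem_range.2 hi, rfl⟩)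

theorem count_Rlist1 (K o : ℕ) (H : List (List ℕ)) {N i : ℕ} (hi : i < N) :
    K ^ (H.getD i []).length ≤ (Rlist K o H N).count (o + 3 * i) := by
  have h := (block_sublist K o H hi).count_le (o + 3 * i)
  rw [List.count_append, List.count_replicate_self] at h
  omega

theorem count_Rlist2 (K o : ℕ) (H : List (List ℕ)) {N i : ℕ} (hi : i < N) :
    num K (H.getD i []) ≤ (Rlist K o H N).count (3 + 3 * i) := by
  have h := (block_sublist K o H hi).count_le (3 + 3 * i)
  rw [List.count_append, List.count_replicate_self] at h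
  omega

end gen

end Pool.Agent.H978.QV
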