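import Pool.Agent.H978.QV.Forward4

set_option autoImplicit false

namespace Pool.Agent.H978.QV

section
variable {Ω : Type} [LinearOrder Ω] {ρ : ℕ → (Ω ≃o Ω)} {N K : ℕ} {H G : List (List ℕ)}

/-- powers of the variable `b` -/
def bn (ρ : ℕ → (Ω ≃o Ω)) : ℕ → (Ω ≃o Ω)
  | 0 => OrderIso.refl Ω
  | n + 1 => (ρ 0).trans (bn ρ n)

theorem bn_succ (n : ℕ) (x : Ω) : bn ρ (n + 1) x = bn ρ n (ρ 0 x) := rfl

theorem bn_symm (n : ℕ) (x : Ω) : (bn ρ n).symm x = orb ρ x n := by
  induction n generalizing x with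
  | zero => rfl
  | succ n ih =>
    have : (bn ρ (n + 1)).symm x = (ρ 0).symm ((bn ρ n).symm x) := rfl
    rw [this, ih]
    unfold orb
    rw [Function.iterate_succ_apply']

theorem iter_ge {f : Ω → Ω} (hf : ∀ x, x ≤ f x) (m n : ℕ) (h : m ≤ n) (x : Ω) :
    f^[m] x ≤ f^[n] x := by
  induction n, h using Nat.le_induction with
  | base => exact le_rfl
  | succ n _ ih => rw [Function.iterate_succ_apply']; exact ih.trans (hf _)

theorem exists_S (hΩ : NoDesc Ω) (P : Prem ρ N K H G) (hK : 2 ≤ K)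
    (hH : ∀ i < N, H.getD i [] ≠ []) {x : Ω} (hM : PP ρ (Slist N) x ≠ x) :
    ∃ j, ρ 1 (orb ρ x (j + 1)) ≠ orb ρ x (j + 1) := by
  by_contra hcon
  push Not at hcon
  have hch : ∀ j, ∃ i, i < N ∧ ρ (3 + 3 * i) (orb ρ x (j + 1)) ≠ orb ρ x (j + 1) := by
    intro j
    rcases mover P (M_orb P hM (j + 1)) with h | ⟨i, hi, h⟩
    · exact absurd (hcon j) h
    · exact ⟨i, hi, h⟩
  choose c hcN hc using hch
  -- lower bounds for `R`
  have hR1 : ∀ j, orb ρ x (j + 1) < PP ρ (Rlist K 4 H N) (orb ρ x (j + 1)) := by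
    intro j
    have h1 : orb ρ x (j + 1) < ρ (3 + 3 * c j) (orb ρ x (j + 1)) :=
      lt_of_le_of_ne (P.pos _ (mem_A3 (hcN j)) _) (Ne.symm (hc j))
    have h2 := PP_iter ρ (l := Rlist K 4 H N) (3 + 3 * c j)
      (fun v hv => P.pos v (memA_R hv)) (orb ρ x (j + 1))
    have h3 : 1 ≤ (Rlist K 4 H N).count (3 + 3 * c j) :=
      (num_pos (hH _ (hcN j))).trans (count_Rlist2 K 4 H (hcN j))
    have h4 := iter_ge (P.pos _ (mem_A3 (hcN j))) 1 _ h3 (orb ρ x (j + 1))
    exact lt_of_lt_of_le h1 (h4.trans h2)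
  have hR2 : ∀ j, ρ (4 + 3 * c j) (ρ (4 + 3 * c j) (orb ρ x (j + 1))) ≤
      PP ρ (Rlist K 4 H N) (orb ρ x (j + 1)) := by
    intro j
    have h2 := PP_iter ρ (l := Rlist K 4 H N) (4 + 3 * c j)
      (fun v hv => P.pos v (memA_R hv)) (orb ρ x (j + 1))
    have hlen : 1 ≤ (H.getD (c j) []).length :=
      List.length_pos_iff.2 (hH _ (hcN j))
    have h5 : 2 ≤ K ^ (H.getD (c j) []).length := by
      calc 2 ≤ K := hK
        _ = K ^ 1 := (pow_one K).symm
        _ ≤ K ^ (H.getD (c j) []).length := Nat.pow_le_pow_right (by omega) hlen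
    have h3 : 2 ≤ (Rlist K 4 H N).count (4 + 3 * c j) := h5.trans (count_Rlist1 K 4 H (hcN j))
    have h4 := iter_ge (P.pos _ (mem_A4 (hcN j))) 2 _ h3 (orb ρ x (j + 1))
    exact h4.trans h2
  have hU : ∀ j, ρ (4 + 3 * c j) (orb ρ x (j + 1)) =
      ρ 0 (PP ρ (Rlist K 4 H N) (orb ρ x (j + 2))) := by
    intro j
    rw [← (U_of_s P (hcN j) (hc j)).1, ← P.ru, orb_succ]
  refine hΩ (fun j => ((bn ρ (j + 1)).symm.trans (ρ (4 + 3 * c j))).trans (bn ρ (j + 1))) x ?_ ?_ ?_
  · intro j y
    show y ≤ bn ρ (j + 1) (ρ (4 + 3 * c j) ((bn ρ (j + 1)).symm y))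
    calc y = bn ρ (j + 1) ((bn ρ (j + 1)).symm y) := by simp
      _ ≤ _ := (bn ρ (j + 1)).monotone (P.pos _ (mem_A4 (hcN j)) _)
  · intro j
    show x < bn ρ (j + 1) (ρ (4 + 3 * c j) ((bn ρ (j + 1)).symm x))
    rw [bn_symm, hU]
    have h1 := (ρ 0).strictMono (hR1 (j + 1))
    rw [orb_succ] at h1
    have h2 := (bn ρ (j + 1)).strictMono h1
    have h3 : bn ρ (j + 1) (orb ρ x (j + 1)) = x := by
      rw [← bn_symm, OrderIso.apply_symm_apply]
    rwa [h3] at h2
  · intro j
    show bn ρ (j + 1 + 1) (ρ (4 + 3 * c (j + 1)) ((bn ρ (j + 1 + 1)).symm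
        (bn ρ (j + 1 + 1) (ρ (4 + 3 * c (j + 1)) ((bn ρ (j + 1 + 1)).symm x))))) ≤
      bn ρ (j + 1) (ρ (4 + 3 * c j) ((bn ρ (j + 1)).symm x))
    rw [OrderIso.symm_apply_apply, bn_symm, bn_symm, hU j, ← bn_succ]
    exact (bn ρ (j + 1 + 1)).monotone (hR2 (j + 1))

end

/-- If the quasi-identity of `(H, G)` fails in `Aut(Ω)` (no descending sequences), then `(H, G)` is
solvable. -/
theorem solv_of_not_valid2 {Ω : Type} [LinearOrder Ω] (hΩ : NoDesc Ω) {H G : List (List ℕ)}
    (hlen : H.length = G.length) (hH : ∀ w ∈ H, w ≠ []) (hG : ∀ w ∈ G, w ≠ [])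
    (hn : ¬ (qPCP2 H G).Valid Ω) : Solv H G := by
  unfold QId.Valid at hn
  push Not at hn
  obtain ⟨ρ, hp, hc⟩ := hn
  have hK2 : 2 ≤ base H G := by simp only [base]; omega
  have P : Prem ρ H.length (base H G) H G := by
    refine ⟨?_, ?_, ?_, ?_, ?_, ?_⟩
    · intro v hv x
      have h := hp (Tm.inf (.var v) .one, Tm.one) (by
        simp only [qPCP2, mkQ2, List.mem_append, List.mem_map]
        exact Or.inl (Or.inl (Or.inl ⟨v, hv, rfl⟩)))
      have h1 : infIso (ρ v) (OrderIso.refl _) x = x := by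
        have h' : infIso (ρ v) (OrderIso.refl _) = OrderIso.refl _ := h
        rw [h']; rfl
      rw [infIso_apply] at h1
      have h2 : min (ρ v x) x ≤ ρ v x := min_le_left _ _
      exact (le_of_eq h1.symm).trans h2
    · intro p hpB x
      have h := hp (Tm.inf (.var p.1) (.var p.2), Tm.one) (by
        simp only [qPCP2, mkQ2, List.mem_append, List.mem_map]
        exact Or.inl (Or.inl (Or.inr ⟨p, hpB, rfl⟩)))
      have h' : infIso (ρ p.1) (ρ p.2) = OrderIso.refl _ := h
      rw [← infIso_apply, h']; rfl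
    · intro v hv w hw x
      have h := hp (Tm.mul (.var v) (.var w), Tm.mul (.var w) (.var v)) (by
        simp only [qPCP2, mkQ2, List.mem_append, List.mem_map]
        refine Or.inl (Or.inr ⟨(v, w), ?_, rfl⟩)
        simp only [Dlist, List.mem_flatMap, List.mem_map]
        exact ⟨v, hv, w, hw, rfl⟩)
      have h' : (ρ w).trans (ρ v) = (ρ v).trans (ρ w) := h
      exact DFunLike.congr_fun h' x
    · intro x
      have h := hp (Tm.mul (prodV (Slist H.length)) (.var 0), Tm.mul (.var 0) (prodV (Slist H.length)))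
        (by
          simp only [qPCP2, mkQ2, List.mem_append, List.mem_map]
          exact Or.inr ⟨(Slist H.length, Slist H.length), by simp, rfl⟩)
      exact DFunLike.congr_fun (show (ρ 0).trans ((prodV (Slist H.length)).eval ρ) =
        ((prodV (Slist H.length)).eval ρ).trans (ρ 0) from h) x
    · intro x
      have h := hp (Tm.mul (prodV (Ulist 4 H.length)) (.var 0),
        Tm.mul (.var 0) (prodV (Rlist (base H G) 4 H H.length)))
        (by
          simp only [qPCP2, mkQ2, List.mem_append, List.mem_map]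
          exact Or.inr ⟨(Ulist 4 H.length, Rlist (base H G) 4 H H.length), by simp, rfl⟩)
      exact DFunLike.congr_fun (show (ρ 0).trans ((prodV (Ulist 4 H.length)).eval ρ) =
        ((prodV (Rlist (base H G) 4 H H.length)).eval ρ).trans (ρ 0) from h) x
    · intro x
      have h := hp (Tm.mul (prodV (Ulist 5 H.length)) (.var 0),
        Tm.mul (.var 0) (prodV (Rlist (base H G) 5 G H.length)))
        (by
          simp only [qPCP2, mkQ2, List.mem_append, List.mem_map]
          exact Or.inr ⟨(Ulist 5 H.length, Rlist (base H G) 5 G H.length), by simp, rfl⟩)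
      exact DFunLike.congr_fun (show (ρ 0).trans ((prodV (Ulist 5 H.length)).eval ρ) =
        ((prodV (Rlist (base H G) 5 G H.length)).eval ρ).trans (ρ 0) from h) x
  have hc' : infIso (ρ 2) (ρ 1) ≠ OrderIso.refl _ := hc
  obtain ⟨x, hx⟩ : ∃ x, infIso (ρ 2) (ρ 1) x ≠ x := by
    by_contra h
    push Not at h
    exact hc' (DFunLike.ext _ _ h)
  rw [infIso_apply] at hx
  have p1 := P.pos 1 (mem_A1 _) x
  have p2 := P.pos 2 (mem_A2 _) x
  have hE : x < ρ 2 x := by
    rcases p2.lt_or_eq with h | h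
    · exact h
    · exfalso; apply hx; rw [← h]; exact min_eq_left p1
  have hS : x < ρ 1 x := by
    rcases p1.lt_or_eq with h | h
    · exact h
    · exfalso; apply hx; rw [← h]; exact min_eq_right p2
  have hS' : ρ 1 x ≠ x := ne_of_gt hS
  -- `a` moves `x`
  have haS : x < PP ρ (Slist H.length) x := by
    have h2 := PP_iter ρ (l := Slist H.length) 1 (fun v hv => P.pos v (memA_S hv)) x
    rw [count_Slist (by simp [Slist]), Function.iterate_one] at h2
    exact lt_of_lt_of_le hS h2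
  have hM : PP ρ (Slist H.length) x ≠ x := ne_of_gt haS
  obtain ⟨j, hj⟩ := exists_S hΩ P hK2 (fun i hi => getD_ne hH hi) hM
  obtain ⟨w, hw, h1, h2⟩ := QQ_of_S P hM j hj
  obtain ⟨e1, e2⟩ := U_of_S P hS'
  rw [e1] at h1
  rw [e2] at h2
  -- the iterates of `a` at `x` are strictly increasing
  have hmono : StrictMono fun n : ℕ => (PP ρ (Slist H.length))^[n] x := by
    refine strictMono_nat_of_lt_succ fun n => ?_
    have hsm : StrictMono (PP ρ (Slist H.length)) := ((prodV (Slist H.length)).eval ρ).strictMono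
    have := (hsm.iterate n) haS
    rwa [← Function.iterate_succ_apply] at this
  have hnum := hmono.injective (h1.symm.trans h2)
  refine ⟨w, ?_, hw, ?_⟩
  · rintro rfl
    simp only [List.flatMap_nil] at h1
    have h3 : ρ 2 x = x := by rw [h1]; simp [num]
    exact absurd h3 (ne_of_gt hE)
  · refine num_injective (base H G) _ _ ?_ ?_ hnum
    · intro l hl
      rw [List.mem_flatMap] at hl
      obtain ⟨i, _, hl⟩ := hl
      have := letter_lt hl
      simp only [base]; omega
    · intro l hl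
      rw [List.mem_flatMap] at hl
      obtain ⟨i, _, hl⟩ := hl
      have := letter_lt hl
      simp only [base]; omega

end Pool.Agent.H978.QV
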