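import Mathlib
import Pool.Agent.H978.QV.Defs6

/-!
# Prime subgroups of a lattice-ordered group which avoid an element (by helper86 for helper978)
-/

set_option autoImplicit false
set_option linter.unusedSectionVars false

namespace Pool.Agent.H978.QV

namespace HollP

variable {G : Type} [Group G] [Lattice G] [MulLeftMono G] [MulRightMono G]

/-- the absolute value -/
def ab (x : G) : G := x ⊔ x⁻¹

lemma one_le_ab (x : G) : 1 ≤ ab x := one_le_mabs x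

lemma ab_of (x : G) (h : 1 ≤ x) : ab x = x := by
  unfold ab
  exact sup_eq_left.2 ((inv_le_one'.2 h).trans h)

lemma ab_inv (x : G) : ab x⁻¹ = ab x := by
  unfold ab
  rw [inv_inv, sup_comm]

lemma ab_one : ab (1 : G) = 1 := ab_of 1 le_rfl

lemma ab_eq_one {x : G} (h : ab x = 1) : x = 1 := by
  have h1 : x ≤ 1 := h ▸ le_sup_left
  have h2 : x⁻¹ ≤ 1 := h ▸ le_sup_right
  exact le_antisymm h1 (inv_le_one'.1 h2)

lemma mul_disj {x y m : G} (hx : 1 ≤ x) (hy : 1 ≤ y) (hm : 1 ≤ m) (h1 : x ⊓ m = 1)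
    (h2 : y ⊓ m = 1) : x * y ⊓ m = 1 := by
  have h3 : 1 ≤ x * y := one_le_mul hx hy
  refine le_antisymm ?_ (le_inf h3 hm)
  have h4 : x * y ⊓ m ≤ x := by
    calc x * y ⊓ m ≤ x * y ⊓ x * m := inf_le_inf_left _ (le_mul_of_one_le_left' hx)
      _ = x * (y ⊓ m) := (mul_inf _ _ _).symm
      _ = x := by rw [h2, mul_one]
  calc x * y ⊓ m ≤ x ⊓ m := le_inf h4 inf_le_right
    _ = 1 := h1

lemma ab_mul_le (x y : G) : ab (x * y) ≤ ab x * ab y * ab x := by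
  have h1 := one_le_ab x
  have h2 : x * y ≤ ab x * ab y := mul_le_mul' le_sup_left le_sup_left
  have h3 : (x * y)⁻¹ ≤ ab y * ab x := by
    rw [mul_inv_rev]
    exact mul_le_mul' le_sup_right le_sup_right
  refine sup_le (h2.trans (le_mul_of_one_le_right' h1)) (h3.trans ?_)
  rw [mul_assoc]
  exact le_mul_of_one_le_left' h1

/-- the filters -/
structure Fl (b : G) (U : Set G) : Prop where
  mem : b ∈ U
  pos : ∀ x ∈ U, 1 ≤ x
  one : (1 : G) ∉ U
  inf : ∀ x ∈ U, ∀ y ∈ U, x ⊓ y ∈ U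
  up : ∀ x ∈ U, ∀ y, x ≤ y → y ∈ U

lemma exists_max (b : G) (h0 : 1 ≤ b) (h1 : b ≠ 1) : ∃ U : Set G, Fl b U ∧
    ∀ V : Set G, Fl b V → U ⊆ V → V ⊆ U := by
  obtain ⟨m, -, hm⟩ := zorn_subset_nonempty {U : Set G | Fl b U} (by
    intro c hc hchain hne
    obtain ⟨U0, hU0⟩ := hne
    refine ⟨⋃₀ c, ?_, fun s hs => Set.subset_sUnion_of_mem hs⟩
    refine ⟨⟨U0, hU0, (hc hU0).mem⟩, ?_, ?_, ?_, ?_⟩
    · rintro x ⟨U, hU, hx⟩
      exact (hc hU).pos x hx
    · rintro ⟨U, hU, hx⟩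
      exact (hc hU).one hx
    · rintro x ⟨U, hU, hx⟩ y ⟨V, hV, hy⟩
      rcases hchain.total hU hV with h | h
      · exact ⟨V, hV, (hc hV).inf x (h hx) y hy⟩
      · exact ⟨U, hU, (hc hU).inf x hx y (h hy)⟩
    · rintro x ⟨U, hU, hx⟩ y hxy
      exact ⟨U, hU, (hc hU).up x hx y hxy⟩) {z : G | b ≤ z} (by
    refine ⟨le_rfl, fun x hx => h0.trans hx, fun h => h1 (le_antisymm h h0), fun x hx y hy =>
      le_inf hx hy, fun x hx y hxy => le_trans hx hxy⟩)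
  exact ⟨m, hm.prop, fun V hV hmV => hm.le_of_ge hV hmV⟩

end HollP

open HollP in
theorem exists_prime {G : Type} [Group G] [Lattice G] [MulLeftMono G] [MulRightMono G] (a : G)
    (ha : a ≠ 1) : ∃ P : Subgroup G, (∀ x y, 1 ≤ x → x ≤ y → y ∈ P → x ∈ P) ∧
      (∀ x ∈ P, x ⊔ 1 ∈ P) ∧ (∀ x y : G, x ⊓ y = 1 → x ∈ P ∨ y ∈ P) ∧ a ∉ P := by
  obtain ⟨U, hU, hmax⟩ := exists_max (ab a) (one_le_ab a) fun h => ha (ab_eq_one h)
  obtain ⟨P, hP⟩ : ∃ P : Subgroup G, ∀ x, x ∈ P ↔ ∃ m ∈ U, ab x ⊓ m = 1 := by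
    refine ⟨{ carrier := {x | ∃ m ∈ U, ab x ⊓ m = 1}, mul_mem' := ?_, one_mem' := ?_,
              inv_mem' := ?_ }, fun x => Iff.rfl⟩
    · rintro x y ⟨m1, hm1, h1⟩ ⟨m2, hm2, h2⟩
      have hm := hU.inf m1 hm1 m2 hm2
      have hm0 := hU.pos _ hm
      have k1 : ab x ⊓ (m1 ⊓ m2) = 1 := by
        refine le_antisymm ?_ (le_inf (one_le_ab x) hm0)
        rw [← h1]
        exact inf_le_inf_left _ inf_le_left
      have k2 : ab y ⊓ (m1 ⊓ m2) = 1 := by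
        refine le_antisymm ?_ (le_inf (one_le_ab y) hm0)
        rw [← h2]
        exact inf_le_inf_left _ inf_le_right
      refine ⟨m1 ⊓ m2, hm, ?_⟩
      have k3 := mul_disj (one_le_ab x) (one_le_ab y) hm0 k1 k2
      have k4 := mul_disj (one_le_mul (one_le_ab x) (one_le_ab y)) (one_le_ab x) hm0 k3 k1
      refine le_antisymm ?_ (le_inf (one_le_ab _) hm0)
      rw [← k4]
      exact inf_le_inf_right _ (ab_mul_le x y)
    · refine ⟨ab a, hU.mem, ?_⟩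
      rw [ab_one]
      exact inf_eq_left.2 (one_le_ab a)
    · rintro x ⟨m, hm, h⟩
      exact ⟨m, hm, by rw [ab_inv]; exact h⟩
  refine ⟨P, ?_, ?_, ?_, ?_⟩
  · intro x y hx hxy hy
    rw [hP] at hy ⊢
    obtain ⟨m, hm, h⟩ := hy
    refine ⟨m, hm, le_antisymm ?_ (le_inf (one_le_ab x) (hU.pos m hm))⟩
    rw [← h, ab_of x hx, ab_of y (hx.trans hxy)]
    exact inf_le_inf_right _ hxy
  · intro x hx
    rw [hP] at hx ⊢
    obtain ⟨m, hm, h⟩ := hx
    refine ⟨m, hm, le_antisymm ?_ (le_inf (one_le_ab _) (hU.pos m hm))⟩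
    rw [ab_of (x ⊔ 1) le_sup_right]
    exact (inf_le_inf_right _ (sup_le le_sup_left (one_le_ab x))).trans h.le
  · intro x y hxy
    have hx : 1 ≤ x := hxy ▸ inf_le_left
    have hy : 1 ≤ y := hxy ▸ inf_le_right
    by_cases hxP : x ∈ P
    · exact Or.inl hxP
    right
    rw [hP] at hxP ⊢
    push Not at hxP
    have hV : Fl (ab a) {z : G | ∃ m ∈ U, x ⊓ m ≤ z} := by
      refine ⟨⟨ab a, hU.mem, inf_le_right⟩, ?_, ?_, ?_, ?_⟩
      · rintro z ⟨m, hm, h⟩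
        exact (le_inf hx (hU.pos m hm)).trans h
      · rintro ⟨m, hm, h⟩
        apply hxP m hm
        rw [ab_of x hx]
        exact le_antisymm h (le_inf hx (hU.pos m hm))
      · rintro z ⟨m, hm, h⟩ z' ⟨m', hm', h'⟩
        refine ⟨m ⊓ m', hU.inf m hm m' hm', le_inf ?_ ?_⟩
        · exact (inf_le_inf_left _ inf_le_left).trans h
        · exact (inf_le_inf_left _ inf_le_right).trans h'
      · rintro z ⟨m, hm, h⟩ z' hz
        exact ⟨m, hm, h.trans hz⟩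
    have hxU : x ∈ U := by
      refine hmax _ hV (fun z hz => ⟨z, hz, inf_le_right⟩) ?_
      exact ⟨ab a, hU.mem, inf_le_left⟩
    refine ⟨x, hxU, ?_⟩
    rw [ab_of y hy, inf_comm]
    exact hxy
  · intro haP
    rw [hP] at haP
    obtain ⟨m, hm, h⟩ := haP
    apply hU.one
    rw [← h]
    exact hU.inf _ hU.mem m hm

end Pool.Agent.H978.QV

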