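import Pool.Agent.H978.QV.Defs6
import Mathlib

/-!
# The chain of cosets of a prime subgroup
-/

set_option autoImplicit false

namespace Pool.Agent.H978.QV

namespace HollT

section

variable {G : Type} [Group G] [Lattice G]

/-- the preorder on `G` -/
def R (P : Subgroup G) (x y : G) : Prop := ∃ p ∈ P, x ≤ y * p

theorem R_refl (P : Subgroup G) (x : G) : R P x x := ⟨1, P.one_mem, by rw [mul_one]⟩

theorem R_trans [MulRightMono G] (P : Subgroup G) {x y z : G} (h : R P x y) (h' : R P y z) :
    R P x z := by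
  obtain ⟨p, hp, h⟩ := h
  obtain ⟨p', hp', h'⟩ := h'
  refine ⟨p' * p, P.mul_mem hp' hp, h.trans ?_⟩
  rw [← mul_assoc]
  exact mul_le_mul_left h' p

theorem R_mul [MulLeftMono G] (P : Subgroup G) (g : G) {x y : G} (h : R P x y) :
    R P (g * x) (g * y) := by
  obtain ⟨p, hp, h⟩ := h
  refine ⟨p, hp, ?_⟩
  rw [mul_assoc]
  exact mul_le_mul_right h g

theorem R_mul_iff [MulLeftMono G] (P : Subgroup G) (g : G) {x y : G} :
    R P (g * x) (g * y) ↔ R P x y := by
  refine ⟨fun h => ?_, R_mul P g⟩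
  have h2 := R_mul P g⁻¹ h
  rwa [inv_mul_cancel_left, inv_mul_cancel_left] at h2

theorem R_of_mem (P : Subgroup G) {x y : G} (h : x⁻¹ * y ∈ P) : R P y x :=
  ⟨x⁻¹ * y, h, by rw [mul_inv_cancel_left]⟩

theorem R_of_mem' (P : Subgroup G) {x y : G} (h : x⁻¹ * y ∈ P) : R P x y := by
  apply R_of_mem
  have h2 := P.inv_mem h
  rwa [mul_inv_rev, inv_inv] at h2

theorem R_total [MulLeftMono G] [MulRightMono G] (P : Subgroup G)
    (h3 : ∀ x y : G, x ⊓ y = 1 → x ∈ P ∨ y ∈ P) (x y : G) : R P x y ∨ R P y x := by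
  have h := oneLePart_inf_leOnePart_eq_one (x⁻¹ * y)
  rw [oneLePart_def, leOnePart_def] at h
  rcases h3 _ _ h with h4 | h4
  · right
    refine ⟨_, h4, ?_⟩
    rw [← inv_mul_le_iff_le_mul]
    exact le_sup_left
  · left
    refine ⟨_, h4, ?_⟩
    rw [← inv_mul_le_iff_le_mul, mul_inv_rev, inv_inv]
    exact le_sup_left

theorem mem_of_R [MulLeftMono G] [MulRightMono G] (P : Subgroup G)
    (h1 : ∀ x y, 1 ≤ x → x ≤ y → y ∈ P → x ∈ P) {x y : G} (h : R P x y) (h' : R P y x) :
    x⁻¹ * y ∈ P := by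
  obtain ⟨p, hp, h⟩ := h
  obtain ⟨p', hp', h'⟩ := h'
  have h5 : x⁻¹ * y * p ∈ P := by
    apply h1 (x⁻¹ * y * p) (p' * p) ?_ ?_ (P.mul_mem hp' hp)
    · have h6 := mul_le_mul_right h x⁻¹
      rwa [inv_mul_cancel, ← mul_assoc] at h6
    · apply mul_le_mul_left
      rw [inv_mul_le_iff_le_mul]
      exact h'
  have h6 := P.mul_mem h5 (P.inv_mem hp)
  rwa [mul_inv_cancel_right] at h6

theorem R_sup [MulLeftMono G] [MulRightMono G] (P : Subgroup G) (h2 : ∀ x ∈ P, x ⊔ 1 ∈ P)
    {x y : G} (h : R P x y) : R P (x ⊔ y) y := by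
  obtain ⟨p, hp, h⟩ := h
  refine ⟨p ⊔ 1, h2 p hp, sup_le (h.trans ?_) ?_⟩
  · exact mul_le_mul_right le_sup_left y
  · exact le_mul_of_one_le_right' le_sup_right

theorem R_le [MulLeftMono G] [MulRightMono G] (P : Subgroup G) {x y : G} (h : x ≤ y) : R P x y :=
  ⟨1, P.one_mem, by rwa [mul_one]⟩

/-- the relation on the cosets -/
def Q [MulRightMono G] (P : Subgroup G) (a b : G ⧸ P) : Prop :=
  Quotient.liftOn₂' a b (R P) fun x y x' y' hx hy => by
    rw [QuotientGroup.leftRel_apply] at hx hy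
    apply propext
    constructor
    · intro h
      exact R_trans P (R_of_mem P hx) (R_trans P h (R_of_mem' P hy))
    · intro h
      exact R_trans P (R_of_mem' P hx) (R_trans P h (R_of_mem P hy))

/-- the chain of the cosets -/
@[instance_reducible] noncomputable def lo [MulLeftMono G] [MulRightMono G] (P : Subgroup G)
    (h1 : ∀ x y, 1 ≤ x → x ≤ y → y ∈ P → x ∈ P)
    (h3 : ∀ x y : G, x ⊓ y = 1 → x ∈ P ∨ y ∈ P) : LinearOrder (G ⧸ P) where
  le := Q P
  le_refl a := by
    induction a using QuotientGroup.induction_on with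
    | H x => exact R_refl P x
  le_trans a b c := by
    induction a using QuotientGroup.induction_on with
    | H x =>
      induction b using QuotientGroup.induction_on with
      | H y =>
        induction c using QuotientGroup.induction_on with
        | H z => exact fun h h' => R_trans P h h'
  le_antisymm a b := by
    induction a using QuotientGroup.induction_on with
    | H x =>
      induction b using QuotientGroup.induction_on with
      | H y =>
        intro h h'
        exact QuotientGroup.eq.2 (mem_of_R P h1 h h')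
  le_total a b := by
    induction a using QuotientGroup.induction_on with
    | H x =>
      induction b using QuotientGroup.induction_on with
      | H y => exact R_total P h3 x y
  toDecidableLE := Classical.decRel _

end

end HollT

open HollT

theorem coset_chain {G : Type} [Group G] [Lattice G] [MulLeftMono G] [MulRightMono G]
    (P : Subgroup G) (h1 : ∀ x y, 1 ≤ x → x ≤ y → y ∈ P → x ∈ P) (h2 : ∀ x ∈ P, x ⊔ 1 ∈ P)
    (h3 : ∀ x y : G, x ⊓ y = 1 → x ∈ P ∨ y ∈ P) :
    ∃ (T : Type) (_ : LinearOrder T) (π : G → T) (Φ : G → (T ≃o T)), Function.Surjective π ∧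
      (∀ x y, Φ (x * y) = Φ x * Φ y) ∧ (∀ x y t, Φ (x ⊔ y) t = max (Φ x t) (Φ y t)) ∧
      (∀ x y, Φ x (π y) = π (x * y)) ∧ ∀ x y, π x = π y ↔ x⁻¹ * y ∈ P := by
  let _ : LinearOrder (G ⧸ P) := lo P h1 h3
  have hle : ∀ x y : G, ((x : G ⧸ P) ≤ (y : G ⧸ P)) ↔ R P x y := fun x y => Iff.rfl
  have hsm : ∀ (g : G) (a b : G ⧸ P), g • a ≤ g • b ↔ a ≤ b := by
    intro g a b
    induction a using QuotientGroup.induction_on with
    | H x =>
      induction b using QuotientGroup.induction_on with
      | H y => exact R_mul_iff P g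
  have hsup : ∀ x y : G, R P x y → (((x ⊔ y : G)) : G ⧸ P) = (y : G ⧸ P) := by
    intro x y h
    exact le_antisymm ((hle _ _).2 (R_sup P h2 h)) ((hle _ _).2 (R_le P le_sup_right))
  refine ⟨G ⧸ P, inferInstance, QuotientGroup.mk,
    fun g => { toEquiv := MulAction.toPerm g, map_rel_iff' := fun {a b} => hsm g a b },
    QuotientGroup.mk_surjective, ?_, ?_, fun x y => rfl, fun x y => QuotientGroup.eq⟩
  · intro x y
    ext t
    exact mul_smul x y t
  · intro x y t
    induction t using QuotientGroup.induction_on with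
    | H z =>
      change ((((x ⊔ y) * z : G)) : G ⧸ P) = max (((x * z : G)) : G ⧸ P) (((y * z : G)) : G ⧸ P)
      rw [sup_mul]
      rcases R_total P h3 (x * z) (y * z) with h | h
      · rw [hsup _ _ h, max_eq_right ((hle _ _).2 h)]
      · rw [sup_comm, hsup _ _ h, max_eq_left ((hle _ _).2 h)]

end Pool.Agent.H978.QV
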