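import Pool.Agent.H978.QV.HollP
import Pool.Agent.H978.QV.HollT
import Pool.Agent.H978.QV.Defs6
import Mathlib

set_option autoImplicit false
set_option linter.unusedSectionVars false

namespace Pool.Agent.H978.QV

namespace Holland

section

variable {G : Type} [Group G] [Lattice G] [MulLeftMono G] [MulRightMono G]
  {T : Type} [LinearOrder T] {Φ : G → (T ≃o T)}

theorem map_one' (hm : ∀ x y, Φ (x * y) = Φ x * Φ y) : Φ 1 = 1 := by
  have h := hm 1 1
  rw [mul_one] at h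
  exact (mul_eq_left.1 h.symm)

theorem map_inv' (hm : ∀ x y, Φ (x * y) = Φ x * Φ y) (x : G) : Φ x⁻¹ = (Φ x)⁻¹ := by
  rw [eq_inv_iff_mul_eq_one, ← hm, inv_mul_cancel, map_one' hm]

theorem map_sup' (hs : ∀ x y t, Φ (x ⊔ y) t = max (Φ x t) (Φ y t)) (x y : G) :
    Φ (x ⊔ y) = supIso (Φ x) (Φ y) := by
  ext t
  exact hs x y t

theorem map_inf' (hm : ∀ x y, Φ (x * y) = Φ x * Φ y)
    (hs : ∀ x y t, Φ (x ⊔ y) t = max (Φ x t) (Φ y t)) (x y : G) :
    Φ (x ⊓ y) = infIso (Φ x) (Φ y) := by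
  have h1 : x ⊓ y = (x⁻¹ ⊔ y⁻¹)⁻¹ := by rw [inv_sup, inv_inv, inv_inv]
  rw [h1, map_inv' hm, map_sup' hs, map_inv' hm, map_inv' hm]
  ext t
  rfl

theorem eval_eq (hm : ∀ x y, Φ (x * y) = Φ x * Φ y)
    (hs : ∀ x y t, Φ (x ⊔ y) t = max (Φ x t) (Φ y t)) (ρ : ℕ → G) (t : Tm) :
    t.eval (fun i => Φ (ρ i)) = Φ (t.evalG ρ) := by
  induction t with
  | one => exact (map_one' hm).symm
  | var i => rfl
  | mul s t ihs iht =>
    simp only [Tm.evalG, Tm.eval, ihs, iht, hm]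
    rfl
  | inv t ih =>
    simp only [Tm.evalG, Tm.eval, ih, map_inv' hm]
    rfl
  | sup s t ihs iht =>
    simp only [Tm.evalG, Tm.eval, ihs, iht, map_sup' hs]
  | inf s t ihs iht =>
    simp only [Tm.evalG, Tm.eval, ihs, iht, map_inf' hm hs]

end

end Holland

theorem holland {G : Type} [Group G] [Lattice G] [MulLeftMono G] [MulRightMono G] [Countable G]
    (q : QId) (hq : ¬ q.HoldsIn G) :
    ∃ (T : Type) (_ : LinearOrder T), Countable T ∧ Nonempty T ∧ ¬ q.Valid T := by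
  unfold QId.HoldsIn at hq
  push Not at hq
  obtain ⟨ρ, hp, hne⟩ := hq
  have ha : (q.concl.1.evalG ρ)⁻¹ * q.concl.2.evalG ρ ≠ 1 := by
    intro h
    exact hne (inv_mul_eq_one.1 h)
  obtain ⟨P, h1, h2, h3, h4⟩ := exists_prime _ ha
  obtain ⟨T, _, π, Φ, hπ, hm, hs, hact, hker⟩ := coset_chain P h1 h2 h3
  refine ⟨T, inferInstance, hπ.countable, ⟨π 1⟩, fun hv => ?_⟩
  have h5 := hv (fun i => Φ (ρ i)) (fun p hpq => by
    rw [Holland.eval_eq hm hs, Holland.eval_eq hm hs, hp p hpq])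
  rw [Holland.eval_eq hm hs, Holland.eval_eq hm hs] at h5
  have h6 : Φ (q.concl.1.evalG ρ) (π 1) = Φ (q.concl.2.evalG ρ) (π 1) := by rw [h5]
  rw [hact, hact, mul_one, mul_one] at h6
  exact h4 ((hker _ _).1 h6)

end Pool.Agent.H978.QV
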