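import Pool.Agent.H978.QV.Defs6

/-!
An `ℓ`-embedding of `Aut(A)` in `Aut(B)` transfers quasi-identities from `Aut(B)` to `Aut(A)`.
-/

set_option autoImplicit false

namespace Pool.Agent.H978.QV

namespace LVal

theorem infIso_eq {A : Type} [LinearOrder A] (f g : A ≃o A) :
    infIso f g = (supIso f⁻¹ g⁻¹)⁻¹ := by
  ext x
  rfl

section

variable {A B : Type} [LinearOrder A] [LinearOrder B] {Φ : (A ≃o A) → (B ≃o B)}

theorem map_one' (hmul : ∀ f g, Φ (f * g) = Φ f * Φ g) : Φ 1 = 1 := by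
  have h := hmul 1 1
  rw [mul_one] at h
  exact left_eq_mul.1 h

theorem map_inv' (hmul : ∀ f g, Φ (f * g) = Φ f * Φ g) (f : A ≃o A) : Φ f⁻¹ = (Φ f)⁻¹ := by
  refine eq_inv_of_mul_eq_one_left ?_
  rw [← hmul, inv_mul_cancel, map_one' hmul]

theorem map_sup' (hsup : ∀ f g x, Φ (supIso f g) x = max (Φ f x) (Φ g x)) (f g : A ≃o A) :
    Φ (supIso f g) = supIso (Φ f) (Φ g) := by
  ext x
  exact hsup f g x

theorem map_inf' (hmul : ∀ f g, Φ (f * g) = Φ f * Φ g)
    (hsup : ∀ f g x, Φ (supIso f g) x = max (Φ f x) (Φ g x)) (f g : A ≃o A) :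
    Φ (infIso f g) = infIso (Φ f) (Φ g) := by
  rw [infIso_eq, infIso_eq, map_inv' hmul, map_sup' hsup, map_inv' hmul, map_inv' hmul]

theorem map_eval (hmul : ∀ f g, Φ (f * g) = Φ f * Φ g)
    (hsup : ∀ f g x, Φ (supIso f g) x = max (Φ f x) (Φ g x)) (ρ : ℕ → (A ≃o A)) (t : Tm) :
    Φ (t.eval ρ) = t.eval fun i => Φ (ρ i) := by
  induction t with
  | one => exact map_one' hmul
  | var i => rfl
  | mul s t hs ht =>
    change Φ (s.eval ρ * t.eval ρ) = s.eval (fun i => Φ (ρ i)) * t.eval fun i => Φ (ρ i)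
    rw [hmul, hs, ht]
  | inv t ht =>
    change Φ (t.eval ρ)⁻¹ = (t.eval fun i => Φ (ρ i))⁻¹
    rw [map_inv' hmul, ht]
  | sup s t hs ht =>
    change Φ (supIso (s.eval ρ) (t.eval ρ)) =
      supIso (s.eval fun i => Φ (ρ i)) (t.eval fun i => Φ (ρ i))
    rw [map_sup' hsup, hs, ht]
  | inf s t hs ht =>
    change Φ (infIso (s.eval ρ) (t.eval ρ)) =
      infIso (s.eval fun i => Φ (ρ i)) (t.eval fun i => Φ (ρ i))
    rw [map_inf' hmul hsup, hs, ht]

end

end LVal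

/-- An `ℓ`-embedding of `Aut(A)` in `Aut(B)` transfers quasi-identities. -/
theorem valid_of_lemb {A B : Type} [LinearOrder A] [LinearOrder B] (h : LEmb A B) (q : QId)
    (hq : q.Valid B) : q.Valid A := by
  obtain ⟨Φ, hinj, hmul, hsup⟩ := h
  intro ρ hp
  apply hinj
  rw [LVal.map_eval hmul hsup, LVal.map_eval hmul hsup]
  refine hq _ fun p hp' => ?_
  rw [← LVal.map_eval hmul hsup, ← LVal.map_eval hmul hsup, hp p hp']

end Pool.Agent.H978.QV
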