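import Pool.Agent.H978.QV.Defs6

set_option autoImplicit false

namespace Pool.Agent.H978.QV

/-- LEXDN. -/
theorem dn_lex {T D C : Type} [LinearOrder T] [LinearOrder D] [Nonempty T] (c : D → C) (S : Set C)
    (h : Dn c S) : Dn (fun p : T ×ₗ D => c (ofLex p).2) S := by
  obtain ⟨hne, hS, hd⟩ := h
  refine ⟨?_, fun a => hS _, fun s hs => ?_⟩
  · obtain ⟨t⟩ := (inferInstance : Nonempty T)
    obtain ⟨d⟩ := hne
    exact ⟨toLex (t, d)⟩
  · obtain ⟨h1, h2, h3⟩ := hd s hs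
    refine ⟨fun a a' haa => ?_, fun a => ?_, fun a => ?_⟩
    · rw [Prod.Lex.lt_iff] at haa
      rcases haa with haa | ⟨he, haa⟩
      · obtain ⟨d, hd1, hd2⟩ := h3 (ofLex a).2
        refine ⟨toLex ((ofLex a).1, d), ?_, ?_, hd2⟩
        · rw [Prod.Lex.lt_iff]
          exact Or.inr ⟨rfl, hd1⟩
        · rw [Prod.Lex.lt_iff]
          exact Or.inl haa
      · obtain ⟨d, hd1, hd2, hd3⟩ := h1 (ofLex a).2 (ofLex a').2 haa
        refine ⟨toLex ((ofLex a).1, d), ?_, ?_, hd3⟩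
        · rw [Prod.Lex.lt_iff]
          exact Or.inr ⟨rfl, hd1⟩
        · rw [Prod.Lex.lt_iff]
          exact Or.inr ⟨he, hd2⟩
    · obtain ⟨d, hd1, hd2⟩ := h2 (ofLex a).2
      refine ⟨toLex ((ofLex a).1, d), ?_, hd2⟩
      rw [Prod.Lex.lt_iff]
      exact Or.inr ⟨rfl, hd1⟩
    · obtain ⟨d, hd1, hd2⟩ := h3 (ofLex a).2
      refine ⟨toLex ((ofLex a).1, d), ?_, hd2⟩
      rw [Prod.Lex.lt_iff]
      exact Or.inr ⟨rfl, hd1⟩

end Pool.Agent.H978.QV
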