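import Pool.Agent.H978.QV.Defs6
import Mathlib

set_option autoImplicit false

namespace Pool.Agent.H978.QV

namespace LexEmb

variable {T K : Type} [LinearOrder T] [LinearOrder K]

/-- `(t, k) ↦ (σ t, k)`. -/
def phi (σ : T ≃o T) : (T ×ₗ K) ≃o (T ×ₗ K) where
  toFun p := toLex (σ (ofLex p).1, (ofLex p).2)
  invFun p := toLex (σ.symm (ofLex p).1, (ofLex p).2)
  left_inv p := by simp
  right_inv p := by simp
  map_rel_iff' := by
    intro a b
    rw [Prod.Lex.le_iff, Prod.Lex.le_iff]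
    simp [OrderIso.lt_iff_lt]

theorem phi_apply (σ : T ≃o T) (p : T ×ₗ K) :
    phi σ p = toLex (σ (ofLex p).1, (ofLex p).2) := rfl

theorem phi_mono_le (f g : T ≃o T) (p : T ×ₗ K) (h : f (ofLex p).1 ≤ g (ofLex p).1) :
    phi f p ≤ phi (K := K) g p := by
  rw [phi_apply, phi_apply, Prod.Lex.le_iff]
  rcases lt_or_eq_of_le h with h | h
  · exact Or.inl h
  · exact Or.inr ⟨h, le_rfl⟩

end LexEmb

open LexEmb in
/-- LEX.  `Φ σ (t, k) = (σ t, k)`. -/
theorem lemb_lex {T K : Type} [LinearOrder T] [LinearOrder K] [Nonempty K] : LEmb T (T ×ₗ K) := by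
  refine ⟨phi, ?_, ?_, ?_⟩
  · intro σ τ h
    obtain ⟨k⟩ := (inferInstance : Nonempty K)
    ext t
    have h1 := congrArg (fun e : (T ×ₗ K) ≃o (T ×ₗ K) => (ofLex (e (toLex (t, k)))).1) h
    exact h1
  · intro f g
    ext p
    rfl
  · intro f g x
    have hs : supIso f g (ofLex x).1 = max (f (ofLex x).1) (g (ofLex x).1) := rfl
    rcases le_total (f (ofLex x).1) (g (ofLex x).1) with h | h
    · rw [max_eq_right (phi_mono_le f g x h), phi_apply, phi_apply, hs, max_eq_right h]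
    · rw [max_eq_left (phi_mono_le g f x h), phi_apply, phi_apply, hs, max_eq_left h]

end Pool.Agent.H978.QV
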