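import Pool.Agent.H978.QV.Defs

set_option autoImplicit false

namespace Pool.Agent.H978.QV

namespace Re

/-- `x` is a solution of the instance `(H, G)`. -/
def Sol (G H : List (List ℕ)) (x : List ℕ) : Prop :=
  x ≠ [] ∧ (∀ i ∈ x, i < H.length) ∧
    (x.flatMap fun i => H.getD i []) = x.flatMap fun i => G.getD i []

theorem primrec_sol (G : List (List ℕ)) :
    PrimrecPred fun p : List (List ℕ) × List ℕ => Sol G p.1 p.2 := by
  have h1 : PrimrecPred fun p : List (List ℕ) × List ℕ => p.2 ≠ [] :=
    (Primrec.eq.comp Primrec.snd (Primrec.const [])).not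
  have h2 : PrimrecPred fun p : List (List ℕ) × List ℕ => ∀ i ∈ p.2, i < p.1.length := by
    have h : PrimrecRel fun (L : List ℕ) (b : ℕ) => ∀ a ∈ L, a < b :=
      Primrec.nat_lt.forall_mem_list
    exact h.comp Primrec.snd (Primrec.list_length.comp Primrec.fst)
  have h3 : Primrec fun p : List (List ℕ) × List ℕ => p.2.flatMap fun i => p.1.getD i [] :=
    Primrec.list_flatMap Primrec.snd
      ((Primrec.list_getD []).comp (Primrec.fst.comp Primrec.fst) Primrec.snd)
  have h4 : Primrec fun p : List (List ℕ) × List ℕ => p.2.flatMap fun i => G.getD i [] :=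
    Primrec.list_flatMap Primrec.snd
      ((Primrec.list_getD []).comp (Primrec.const G) Primrec.snd)
  exact h1.and (h2.and (Primrec.eq.comp h3 h4))

end Re

theorem re_solv (G : List (List ℕ)) (H : ℕ → List (List ℕ)) (hH : Computable H) :
    REPred fun n => Solv (H n) G := by
  obtain ⟨hd, hc⟩ := Re.primrec_sol G
  let c : List (List ℕ) × List ℕ → Bool := fun p => @decide _ (hd p)
  have hc' : Computable c := hc.to_comp
  let f : ℕ → ℕ → Option Unit := fun n k =>
    (Encodable.decode (α := List ℕ) k).bind fun x =>
      cond (c (H n, x)) (some ()) none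
  have hf : Computable₂ f := by
    refine Computable.option_bind (Computable.decode.comp Computable.snd) ?_
    refine Computable.cond ?_ (Computable.const _) (Computable.const _)
    exact hc'.comp (Computable.pair (hH.comp (Computable.fst.comp Computable.fst)) Computable.snd)
  refine (Partrec.rfindOpt hf).dom_re.of_eq fun n => ?_
  rw [Nat.rfindOpt_dom]
  constructor
  · rintro ⟨k, u, hu⟩
    rw [Option.mem_def, Option.bind_eq_some_iff] at hu
    obtain ⟨x, -, hx⟩ := hu
    cases hcx : c (H n, x) with
    | false => rw [hcx] at hx; simp at hx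
    | true =>
      have hs : Re.Sol G (H n) x := @of_decide_eq_true _ (hd (H n, x)) hcx
      exact ⟨x, hs⟩
  · rintro ⟨x, hx⟩
    refine ⟨Encodable.encode x, (), ?_⟩
    have hcx : c (H n, x) = true := @decide_eq_true _ (hd (H n, x)) hx
    change ((Encodable.decode (α := List ℕ) (Encodable.encode x)).bind fun x =>
      cond (c (H n, x)) (some ()) none) = some ()
    rw [Encodable.encodek, Option.bind_some, hcx, cond_true]

theorem not_re (G : List (List ℕ)) (H : ℕ → List (List ℕ)) (hH : Computable H)
    (h : ¬ ComputablePred fun n => Solv (H n) G) : ¬ REPred fun n => ¬ Solv (H n) G :=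
  fun h' => h (ComputablePred.computable_iff_re_compl_re'.mpr ⟨re_solv G H hH, h'⟩)

end Pool.Agent.H978.QV
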