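import Pool.Agent.H978.QV.Defs4

set_option autoImplicit false

namespace Pool.Agent.H978.QV

namespace RuleEnum

/-- a relation between lists of judgements and judgements that is enumerated by a computable
function -/
def EnumR (R : List Jd → Jd → Prop) : Prop :=
  ∃ r : ℕ → Option (List Jd × Jd), Computable r ∧ ∀ ps c, R ps c ↔ ∃ n, r n = some (ps, c)

theorem enum_fun {β : Type} [Primcodable β] (f : β → Option (List Jd × Jd)) (hf : Computable f) :
    EnumR (fun ps c => ∃ b, f b = some (ps, c)) := by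
  refine ⟨fun n => (Encodable.decode (α := β) n).bind f, ?_, ?_⟩
  · exact Computable.option_bind Computable.decode (hf.comp Computable.snd).to₂
  · intro ps c
    constructor
    · rintro ⟨b, hb⟩
      refine ⟨Encodable.encode b, ?_⟩
      beta_reduce
      rw [Encodable.encodek]
      exact hb
    · rintro ⟨n, hn⟩
      obtain ⟨b, _, hb⟩ := Option.bind_eq_some_iff.1 hn
      exact ⟨b, hb⟩

theorem enum_prim {β : Type} [Primcodable β] (g : β → List Jd × Jd) (hg : Primrec g) :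
    EnumR (fun ps c => ∃ b, g b = (ps, c)) := by
  obtain ⟨r, hr, h⟩ := enum_fun (fun b => some (g b)) (Primrec.option_some.comp hg).to_comp
  refine ⟨r, hr, fun ps c => ?_⟩
  rw [← h ps c]
  constructor
  · rintro ⟨b, hb⟩; exact ⟨b, by rw [hb]⟩
  · rintro ⟨b, hb⟩; exact ⟨b, Option.some.inj hb⟩

theorem enum_or {R₁ R₂ : List Jd → Jd → Prop} (h₁ : EnumR R₁) (h₂ : EnumR R₂) :
    EnumR (fun ps c => R₁ ps c ∨ R₂ ps c) := by
  obtain ⟨r₁, hr₁, h₁⟩ := h₁
  obtain ⟨r₂, hr₂, h₂⟩ := h₂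
  refine ⟨fun n => bif n.bodd then r₁ n.div2 else r₂ n.div2, ?_, ?_⟩
  · exact Computable.cond Computable.nat_bodd (hr₁.comp Computable.nat_div2)
      (hr₂.comp Computable.nat_div2)
  · intro ps c
    beta_reduce
    rw [h₁, h₂]
    constructor
    · rintro (⟨n, hn⟩ | ⟨n, hn⟩)
      · refine ⟨2 * n + 1, ?_⟩
        have e1 : (2 * n + 1).bodd = true := by simp
        have e2 : (2 * n + 1).div2 = n := by rw [Nat.div2_val]; omega
        simp only [e1, e2, cond_true]
        exact hn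
      · refine ⟨2 * n, ?_⟩
        have e1 : (2 * n).bodd = false := by simp
        have e2 : (2 * n).div2 = n := by rw [Nat.div2_val]; omega
        simp only [e1, e2, cond_false]
        exact hn
    · rintro ⟨n, hn⟩
      cases hb : n.bodd
      · rw [hb, cond_false] at hn
        exact Or.inr ⟨_, hn⟩
      · rw [hb, cond_true] at hn
        exact Or.inl ⟨_, hn⟩

theorem enum_list {β : Type} [Primcodable β] (l : List (β → List Jd × Jd))
    (hl : ∀ g ∈ l, Primrec g) : EnumR (fun ps c => ∃ g ∈ l, ∃ b, g b = (ps, c)) := by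
  induction l with
  | nil =>
    refine ⟨fun _ => none, Computable.const _, fun ps c => ?_⟩
    simp
  | cons g l ih =>
    have h1 := enum_or (enum_prim g (hl g (by simp))) (ih fun g hg => hl g (by simp [hg]))
    obtain ⟨r, hr, h⟩ := h1
    refine ⟨r, hr, fun ps c => ?_⟩
    rw [← h ps c]
    simp

section prim

variable {β : Type} [Primcodable β]

theorem pr_isT {s : β → Str} (hs : Primrec s) : Primrec fun b => isT (s b) :=
  Primrec.pair (Primrec.const 0) (Primrec.pair (Primrec.const []) (Primrec.pair (Primrec.const [])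
    (Primrec.pair hs (Primrec.const []))))

theorem pr_sbJ {σ : β → List Str} {s s' : β → Str} (hσ : Primrec σ) (hs : Primrec s)
    (hs' : Primrec s') : Primrec fun b => sbJ (σ b) (s b) (s' b) :=
  Primrec.pair (Primrec.const 1) (Primrec.pair hσ (Primrec.pair (Primrec.const [])
    (Primrec.pair hs hs')))

theorem pr_eqJ {P : β → List (Str × Str)} {s t : β → Str} (hP : Primrec P) (hs : Primrec s)
    (ht : Primrec t) : Primrec fun b => eqJ (P b) (s b) (t b) :=
  Primrec.pair (Primrec.const 2) (Primrec.pair (Primrec.const []) (Primrec.pair hP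
    (Primrec.pair hs ht)))

theorem pr_l1 {γ : Type} [Primcodable γ] {f : β → γ} (hf : Primrec f) : Primrec fun b => [f b] :=
  Primrec.list_cons.comp hf (Primrec.const [])

theorem pr_l2 {γ : Type} [Primcodable γ] {f g : β → γ} (hf : Primrec f) (hg : Primrec g) :
    Primrec fun b => [f b, g b] :=
  Primrec.list_cons.comp hf (pr_l1 hg)

theorem pr_l3 {γ : Type} [Primcodable γ] {f g h : β → γ} (hf : Primrec f) (hg : Primrec g)
    (hh : Primrec h) : Primrec fun b => [f b, g b, h b] :=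
  Primrec.list_cons.comp hf (pr_l2 hg hh)

theorem pr_snoc {s : β → Str} {k : β → ℕ} (hs : Primrec s) (hk : Primrec k) :
    Primrec fun b => s b ++ [k b] :=
  Primrec.list_append.comp hs (pr_l1 hk)

theorem pr_bin {s t : β → Str} {k : β → ℕ} (hs : Primrec s) (ht : Primrec t) (hk : Primrec k) :
    Primrec fun b => s b ++ t b ++ [k b] :=
  Primrec.list_append.comp (Primrec.list_append.comp hs ht) (pr_l1 hk)

end prim

/-- the parameters of the schemas without side conditions -/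
abbrev B : Type :=
  ℕ × Str × Str × Str × Str × List Str × List (Str × Str) × List (Str × Str)

def bk (b : B) : ℕ := b.1
def bs (b : B) : Str := b.2.1
def bt (b : B) : Str := b.2.2.1
def bs' (b : B) : Str := b.2.2.2.1
def bt' (b : B) : Str := b.2.2.2.2.1
def bσ (b : B) : List Str := b.2.2.2.2.2.1
def bP (b : B) : List (Str × Str) := b.2.2.2.2.2.2.1
def bQ (b : B) : List (Str × Str) := b.2.2.2.2.2.2.2

/-- the codes of the three binary operations -/
def op (k : ℕ) : ℕ := if k = 0 then 1 else if k = 1 then 3 else 4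

theorem pk : Primrec bk := Primrec.fst
theorem ps : Primrec bs := Primrec.fst.comp Primrec.snd
theorem pt : Primrec bt := Primrec.fst.comp (Primrec.snd.comp Primrec.snd)
theorem ps' : Primrec bs' :=
  Primrec.fst.comp (Primrec.snd.comp (Primrec.snd.comp Primrec.snd))
theorem pt' : Primrec bt' :=
  Primrec.fst.comp (Primrec.snd.comp (Primrec.snd.comp (Primrec.snd.comp Primrec.snd)))
theorem pσ : Primrec bσ :=
  Primrec.fst.comp (Primrec.snd.comp (Primrec.snd.comp (Primrec.snd.comp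
    (Primrec.snd.comp Primrec.snd))))
theorem pP : Primrec bP :=
  Primrec.fst.comp (Primrec.snd.comp (Primrec.snd.comp (Primrec.snd.comp (Primrec.snd.comp
    (Primrec.snd.comp Primrec.snd)))))
theorem pQ : Primrec bQ :=
  Primrec.snd.comp (Primrec.snd.comp (Primrec.snd.comp (Primrec.snd.comp (Primrec.snd.comp
    (Primrec.snd.comp Primrec.snd)))))

theorem pop : Primrec fun b => op (bk b) := by
  have h : Primrec op :=
    Primrec.ite (Primrec.eq.comp Primrec.id (Primrec.const 0)) (Primrec.const 1)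
      (Primrec.ite (Primrec.eq.comp Primrec.id (Primrec.const 1)) (Primrec.const 3)
        (Primrec.const 4))
  exact h.comp pk

theorem op_spec (k : ℕ) : op k = 1 ∨ op k = 3 ∨ op k = 4 := by
  unfold op
  split_ifs <;> simp

theorem op_surj {k : ℕ} (h : k = 1 ∨ k = 3 ∨ k = 4) : ∃ n, op n = k := by
  rcases h with rfl | rfl | rfl
  · exact ⟨0, rfl⟩
  · exact ⟨1, rfl⟩
  · exact ⟨2, rfl⟩

def g0 : B → List Jd × Jd := fun _ => ([], isT [0])
def g1 : B → List Jd × Jd := fun b => ([], isT [bk b + 5])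
def g2 : B → List Jd × Jd := fun b => ([isT (bs b)], isT (bs b ++ [2]))
def g3 : B → List Jd × Jd := fun b => ([isT (bs b), isT (bt b)], isT (bs b ++ bt b ++ [op (bk b)]))
def g4 : B → List Jd × Jd := fun b => ([], sbJ (bσ b) [0] [0])
def g5 : B → List Jd × Jd := fun b => ([], sbJ (bσ b) [bk b + 5] ((bσ b).getD (bk b) [0]))
def g6 : B → List Jd × Jd := fun b =>
  ([sbJ (bσ b) (bs b) (bs' b)], sbJ (bσ b) (bs b ++ [2]) (bs' b ++ [2]))
def g7 : B → List Jd × Jd := fun b =>
  ([sbJ (bσ b) (bs b) (bs' b), sbJ (bσ b) (bt b) (bt' b)],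
    sbJ (bσ b) (bs b ++ bt b ++ [op (bk b)]) (bs' b ++ bt' b ++ [op (bk b)]))
def g8 : B → List Jd × Jd := fun b => ([], eqJ (bP b ++ (bs b, bt b) :: bQ b) (bs b) (bt b))
def g9 : B → List Jd × Jd := fun b => ([isT (bs b)], eqJ (bP b) (bs b) (bs b))
def g10 : B → List Jd × Jd := fun b => ([eqJ (bP b) (bs b) (bt b)], eqJ (bP b) (bt b) (bs b))
def g11 : B → List Jd × Jd := fun b =>
  ([eqJ (bP b) (bs b) (bt b), eqJ (bP b) (bt b) (bs' b)], eqJ (bP b) (bs b) (bs' b))
def g12 : B → List Jd × Jd := fun b =>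
  ([eqJ (bP b) (bs b) (bs' b)], eqJ (bP b) (bs b ++ [2]) (bs' b ++ [2]))
def g13 : B → List Jd × Jd := fun b =>
  ([eqJ (bP b) (bs b) (bs' b), eqJ (bP b) (bt b) (bt' b)],
    eqJ (bP b) (bs b ++ bt b ++ [op (bk b)]) (bs' b ++ bt' b ++ [op (bk b)]))

theorem pc {γ : Type} [Primcodable γ] (c : γ) : Primrec fun _ : B => c := Primrec.const c

theorem pg0 : Primrec g0 := Primrec.pair (pc _) (pc _)
theorem pg1 : Primrec g1 :=
  Primrec.pair (pc _) (pr_isT (pr_l1 (Primrec.nat_add.comp pk (pc 5))))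
theorem pg2 : Primrec g2 := Primrec.pair (pr_l1 (pr_isT ps)) (pr_isT (pr_snoc ps (pc 2)))
theorem pg3 : Primrec g3 :=
  Primrec.pair (pr_l2 (pr_isT ps) (pr_isT pt)) (pr_isT (pr_bin ps pt pop))
theorem pg4 : Primrec g4 := Primrec.pair (pc _) (pr_sbJ pσ (pc _) (pc _))
theorem pg5 : Primrec g5 :=
  Primrec.pair (pc _) (pr_sbJ pσ (pr_l1 (Primrec.nat_add.comp pk (pc 5)))
    ((Primrec.list_getD [0]).comp pσ pk))
theorem pg6 : Primrec g6 :=
  Primrec.pair (pr_l1 (pr_sbJ pσ ps ps')) (pr_sbJ pσ (pr_snoc ps (pc 2)) (pr_snoc ps' (pc 2)))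
theorem pg7 : Primrec g7 :=
  Primrec.pair (pr_l2 (pr_sbJ pσ ps ps') (pr_sbJ pσ pt pt'))
    (pr_sbJ pσ (pr_bin ps pt pop) (pr_bin ps' pt' pop))
theorem pg8 : Primrec g8 :=
  Primrec.pair (pc _) (pr_eqJ (Primrec.list_append.comp pP
    (Primrec.list_cons.comp (Primrec.pair ps pt) pQ)) ps pt)
theorem pg9 : Primrec g9 := Primrec.pair (pr_l1 (pr_isT ps)) (pr_eqJ pP ps ps)
theorem pg10 : Primrec g10 := Primrec.pair (pr_l1 (pr_eqJ pP ps pt)) (pr_eqJ pP pt ps)
theorem pg11 : Primrec g11 :=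
  Primrec.pair (pr_l2 (pr_eqJ pP ps pt) (pr_eqJ pP pt ps')) (pr_eqJ pP ps ps')
theorem pg12 : Primrec g12 :=
  Primrec.pair (pr_l1 (pr_eqJ pP ps ps')) (pr_eqJ pP (pr_snoc ps (pc 2)) (pr_snoc ps' (pc 2)))
theorem pg13 : Primrec g13 :=
  Primrec.pair (pr_l2 (pr_eqJ pP ps ps') (pr_eqJ pP pt pt'))
    (pr_eqJ pP (pr_bin ps pt pop) (pr_bin ps' pt' pop))

def gs : List (B → List Jd × Jd) := [g0, g1, g2, g3, g4, g5, g6, g7, g8, g9, g10, g11, g12, g13]

theorem pgs : ∀ g ∈ gs, Primrec g := by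
  intro g hg
  simp only [gs, List.mem_cons, List.not_mem_nil, or_false] at hg
  rcases hg with rfl | rfl | rfl | rfl | rfl | rfl | rfl | rfl | rfl | rfl | rfl | rfl | rfl | rfl
  exacts [pg0, pg1, pg2, pg3, pg4, pg5, pg6, pg7, pg8, pg9, pg10, pg11, pg12, pg13]

/-- the parameters of the schema `ax` -/
abbrev D : Type :=
  ℕ × List (Str × Str) × List Str × List ((Str × Str) × (Str × Str)) × Str × Str × Str × Str

def dn (b : D) : ℕ := b.1
def dP (b : D) : List (Str × Str) := b.2.1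
def dσ (b : D) : List Str := b.2.2.1
def dL (b : D) : List ((Str × Str) × (Str × Str)) := b.2.2.2.1
def du (b : D) : Str := b.2.2.2.2.1
def dv (b : D) : Str := b.2.2.2.2.2.1
def du' (b : D) : Str := b.2.2.2.2.2.2.1
def dv' (b : D) : Str := b.2.2.2.2.2.2.2

theorem qn : Primrec dn := Primrec.fst
theorem qP : Primrec dP := Primrec.fst.comp Primrec.snd
theorem qσ : Primrec dσ := Primrec.fst.comp (Primrec.snd.comp Primrec.snd)
theorem qL : Primrec dL :=
  Primrec.fst.comp (Primrec.snd.comp (Primrec.snd.comp Primrec.snd))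
theorem qu : Primrec du :=
  Primrec.fst.comp (Primrec.snd.comp (Primrec.snd.comp (Primrec.snd.comp Primrec.snd)))
theorem qv : Primrec dv :=
  Primrec.fst.comp (Primrec.snd.comp (Primrec.snd.comp (Primrec.snd.comp
    (Primrec.snd.comp Primrec.snd))))
theorem qu' : Primrec du' :=
  Primrec.fst.comp (Primrec.snd.comp (Primrec.snd.comp (Primrec.snd.comp (Primrec.snd.comp
    (Primrec.snd.comp Primrec.snd)))))
theorem qv' : Primrec dv' :=
  Primrec.snd.comp (Primrec.snd.comp (Primrec.snd.comp (Primrec.snd.comp (Primrec.snd.comp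
    (Primrec.snd.comp Primrec.snd)))))

def axc (b : D) : QC := ((dL b).map Prod.fst, (du b, dv b))

def axg (b : D) : List Jd × Jd :=
  ((dσ b).map isT ++ (dL b).flatMap
      (fun p => [sbJ (dσ b) p.1.1 p.2.1, sbJ (dσ b) p.1.2 p.2.2, eqJ (dP b) p.2.1 p.2.2])
    ++ [sbJ (dσ b) (du b) (du' b), sbJ (dσ b) (dv b) (dv' b)], eqJ (dP b) (du' b) (dv' b))

theorem paxc : Primrec axc :=
  Primrec.pair (Primrec.list_map qL (Primrec.fst.comp Primrec.snd).to₂) (Primrec.pair qu qv)

theorem paxg : Primrec axg := by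
  have h1 : Primrec fun b : D => (dσ b).map isT :=
    Primrec.list_map qσ (pr_isT (β := D × Str) (s := fun x => x.2) Primrec.snd).to₂
  have h2 : Primrec fun b : D => (dL b).flatMap
      (fun p => [sbJ (dσ b) p.1.1 p.2.1, sbJ (dσ b) p.1.2 p.2.2, eqJ (dP b) p.2.1 p.2.2]) := by
    refine Primrec.list_flatMap qL ?_
    have e0 : Primrec fun x : D × ((Str × Str) × (Str × Str)) => dσ x.1 := qσ.comp Primrec.fst
    have e1 : Primrec fun x : D × ((Str × Str) × (Str × Str)) => dP x.1 := qP.comp Primrec.fst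
    have a1 : Primrec fun x : D × ((Str × Str) × (Str × Str)) => x.2.1.1 :=
      Primrec.fst.comp (Primrec.fst.comp Primrec.snd)
    have a2 : Primrec fun x : D × ((Str × Str) × (Str × Str)) => x.2.1.2 :=
      Primrec.snd.comp (Primrec.fst.comp Primrec.snd)
    have a3 : Primrec fun x : D × ((Str × Str) × (Str × Str)) => x.2.2.1 :=
      Primrec.fst.comp (Primrec.snd.comp Primrec.snd)
    have a4 : Primrec fun x : D × ((Str × Str) × (Str × Str)) => x.2.2.2 :=
      Primrec.snd.comp (Primrec.snd.comp Primrec.snd)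
    exact (pr_l3 (pr_sbJ e0 a1 a3) (pr_sbJ e0 a2 a4) (pr_eqJ e1 a3 a4)).to₂
  exact Primrec.pair (Primrec.list_append.comp (Primrec.list_append.comp h1 h2)
    (pr_l2 (pr_sbJ qσ qu qu') (pr_sbJ qσ qv qv'))) (pr_eqJ qP qu' qv')

theorem enum_ax (g : ℕ → Option QC) (hg : Computable g) :
    EnumR (fun ps c => ∃ b : D, g (dn b) = some (axc b) ∧ axg b = (ps, c)) := by
  have hdec : Computable fun b : D => decide (g (dn b) = some (axc b)) := by
    have h1 : Primrec₂ fun (x y : Option QC) => decide (x = y) := Primrec.eq.decide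
    exact h1.to_comp.comp (hg.comp qn.to_comp) (Primrec.option_some.comp paxc).to_comp
  obtain ⟨r, hr, h⟩ := enum_fun (fun b : D => bif decide (g (dn b) = some (axc b)) then
      some (axg b) else none)
    (Computable.cond hdec (Primrec.option_some.comp paxg).to_comp (Computable.const none))
  refine ⟨r, hr, fun ps c => ?_⟩
  rw [← h ps c]
  refine exists_congr fun b => ?_
  by_cases hb : g (dn b) = some (axc b)
  · simp [hb]
  · simp [hb]

end RuleEnum

open RuleEnum in
/-- RULES. -/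
theorem rule_enum (S : Set QC) (g : ℕ → Option QC) (hg : Computable g)
    (hS : ∀ c, c ∈ S ↔ ∃ n, g n = some c) :
    ∃ r : ℕ → Option (List Jd × Jd), Computable r ∧ ∀ ps c, Rule S ps c ↔ ∃ n, r n = some (ps, c) := by
  obtain ⟨r, hr, h⟩ := enum_or (enum_list gs pgs) (enum_ax g hg)
  refine ⟨r, hr, fun ps c => ?_⟩
  rw [← h ps c]
  constructor
  · intro hR
    cases hR with
    | tOne => exact Or.inl ⟨g0, by simp [gs], (0, [], [], [], [], [], [], []), rfl⟩
    | tVar i => exact Or.inl ⟨g1, by simp [gs], (i, [], [], [], [], [], [], []), rfl⟩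
    | tInv s => exact Or.inl ⟨g2, by simp [gs], (0, s, [], [], [], [], [], []), rfl⟩
    | tBin k s t hk =>
      obtain ⟨n, rfl⟩ := op_surj hk
      exact Or.inl ⟨g3, by simp [gs], (n, s, t, [], [], [], [], []), rfl⟩
    | sOne σ => exact Or.inl ⟨g4, by simp [gs], (0, [], [], [], [], σ, [], []), rfl⟩
    | sVar σ i => exact Or.inl ⟨g5, by simp [gs], (i, [], [], [], [], σ, [], []), rfl⟩
    | sInv σ s s' => exact Or.inl ⟨g6, by simp [gs], (0, s, [], s', [], σ, [], []), rfl⟩
    | sBin σ k s t s' t' hk =>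
      obtain ⟨n, rfl⟩ := op_surj hk
      exact Or.inl ⟨g7, by simp [gs], (n, s, t, s', t', σ, [], []), rfl⟩
    | hyp P s t hm =>
      obtain ⟨P1, P2, rfl⟩ := List.append_of_mem hm
      exact Or.inl ⟨g8, by simp [gs], (0, s, t, [], [], [], P1, P2), rfl⟩
    | refl P s => exact Or.inl ⟨g9, by simp [gs], (0, s, [], [], [], [], P, []), rfl⟩
    | symm P s t => exact Or.inl ⟨g10, by simp [gs], (0, s, t, [], [], [], P, []), rfl⟩
    | trans P s t u => exact Or.inl ⟨g11, by simp [gs], (0, s, t, u, [], [], P, []), rfl⟩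
    | inv P s s' => exact Or.inl ⟨g12, by simp [gs], (0, s, [], s', [], [], P, []), rfl⟩
    | bin P k s t s' t' hk =>
      obtain ⟨n, rfl⟩ := op_surj hk
      exact Or.inl ⟨g13, by simp [gs], (n, s, t, s', t', [], P, []), rfl⟩
    | ax P σ L u v u' v' hm =>
      obtain ⟨n, hn⟩ := (hS _).1 hm
      exact Or.inr ⟨(n, P, σ, L, u, v, u', v'), hn, rfl⟩
  · rintro (⟨f, hf, b, hb⟩ | ⟨b, hb, hb'⟩)
    · simp only [gs, List.mem_cons, List.not_mem_nil, or_false] at hf
      rcases hf with rfl | rfl | rfl | rfl | rfl | rfl | rfl | rfl | rfl | rfl | rfl | rfl | rfl | rfl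
      · obtain ⟨rfl, rfl⟩ := Prod.mk.inj hb; exact Rule.tOne
      · obtain ⟨rfl, rfl⟩ := Prod.mk.inj hb; exact Rule.tVar _
      · obtain ⟨rfl, rfl⟩ := Prod.mk.inj hb; exact Rule.tInv _
      · obtain ⟨rfl, rfl⟩ := Prod.mk.inj hb; exact Rule.tBin _ _ _ (op_spec _)
      · obtain ⟨rfl, rfl⟩ := Prod.mk.inj hb; exact Rule.sOne _
      · obtain ⟨rfl, rfl⟩ := Prod.mk.inj hb; exact Rule.sVar _ _
      · obtain ⟨rfl, rfl⟩ := Prod.mk.inj hb; exact Rule.sInv _ _ _
      · obtain ⟨rfl, rfl⟩ := Prod.mk.inj hb; exact Rule.sBin _ _ _ _ _ _ (op_spec _)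
      · obtain ⟨rfl, rfl⟩ := Prod.mk.inj hb; exact Rule.hyp _ _ _ (by simp)
      · obtain ⟨rfl, rfl⟩ := Prod.mk.inj hb; exact Rule.refl _ _
      · obtain ⟨rfl, rfl⟩ := Prod.mk.inj hb; exact Rule.symm _ _ _
      · obtain ⟨rfl, rfl⟩ := Prod.mk.inj hb; exact Rule.trans _ _ _ _
      · obtain ⟨rfl, rfl⟩ := Prod.mk.inj hb; exact Rule.inv _ _ _
      · obtain ⟨rfl, rfl⟩ := Prod.mk.inj hb; exact Rule.bin _ _ _ _ _ _ (op_spec _)
    · obtain ⟨rfl, rfl⟩ := Prod.mk.inj hb'
      exact Rule.ax (dP b) (dσ b) (dL b) (du b) (dv b) (du' b) (dv' b) ((hS _).2 ⟨_, hb⟩)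

end Pool.Agent.H978.QV
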