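import Pool.Agent.H978.QV.Backward2
import Pool.Agent.H978.QV.Forward5
import Pool.Agent.H978.QV.Code
import Pool.Agent.H978.QV.Re
import Pool.Agent.H978.QV.Comp2
import Pool.Agent.H978.QV.Clos
import Pool.Agent.H978.QV.Enum
import Pool.Agent.H978.QV.RuleEnum
import Pool.Agent.H978.QV.Equiv
import Pool.Agent.H978.QV.Sound
import Pool.Agent.H978.QV.Compl
import Pool.Agent.H978.QV.Compl2
import Pool.Agent.H978.QV.AutLG
import Pool.Agent.H978.QV.Cfg2
import Pool.Agent.H978.QV.Forward6
import Pool.Agent.H978.QV.Far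
import Pool.Agent.H978.QV.Decomp
import Pool.Agent.H978.QV.CantorC
import Pool.Agent.H978.QV.LexDn
import Pool.Agent.H978.QV.BlowIso
import Pool.Agent.H978.QV.LexEmb
import Pool.Agent.H978.QV.ConvexEmb
import Pool.Agent.H978.QV.LVal
import Pool.Agent.H978.QV.Holland
import Pool.Graph.R_pool_sql_team_8f841797.H16.PCPN

set_option autoImplicit false

namespace Pool.Agent.H978.QV

/-- The members of `S` define the quasi-variety generated by `Aut(Ω)`: an `ℓ`-group satisfies all
members of `S` if and only if it satisfies all quasi-identities valid in `Aut(Ω)`. -/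
def Defines (S : Set QId) (Ω : Type) [LinearOrder Ω] : Prop :=
  ∀ (G : Type) [Group G] [Lattice G] [MulLeftMono G] [MulRightMono G],
    (∀ q ∈ S, q.HoldsIn G) ↔ ∀ q : QId, q.Valid Ω → q.HoldsIn G

/-- the set of codes of the members of `S` is recursively enumerable -/
def RE (S : Set QId) : Prop :=
  REPred fun c : List (List ℕ × List ℕ) × (List ℕ × List ℕ) => ∃ q : QId, q ∈ S ∧ q.code = c

namespace Fin1

/-- generic composition lemma -/
theorem re_comp {α β γ : Type} [Primcodable α] [Primcodable β] [Primcodable γ]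
    {p : γ → Prop} {F : β → γ} {f : α → β}
    (h : REPred p) (hF : Primrec F) (hf : Computable f) : REPred fun a => p (F (f a)) :=
  Partrec.comp h (hF.to_comp.comp hf)

/-- No r.e. set of codes agrees with validity in `Aut(Ω)`. -/
theorem theory_not_re (Ω : Type) [LinearOrder Ω] (hΩ : NoArchDesc Ω)
    (hna : ∃ f g : Ω ≃o Ω, f * g ≠ g * f) (p : QC → Prop)
    (hp : ∀ q : QId, p q.code ↔ q.Valid Ω) : ¬ REPred p := by
  intro hre
  obtain ⟨H, G, hH, hd, hn⟩ := Pool.Agent.H16.PCPU.main2
  have hn' : ¬ ComputablePred fun n => Solv (H n) G := hn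
  refine not_re G H hH hn' ?_
  have h1 := re_comp hre primrec_codeF (Computable.pair hH (Computable.const G))
  refine h1.of_eq fun n => ?_
  obtain ⟨hlen, -, hHn, hGn⟩ := hd n
  refine (hp (qPCP2 (H n) G)).trans ?_
  constructor
  · intro hv hs
    exact not_valid_of_solv2 (config_of_noncomm_all hna) hHn hs hv
  · intro hs
    by_contra hv
    exact hs (solv_of_not_valid3 hΩ hlen hHn hGn hv)

/-- validity is derivability -/
theorem valid_iff_der {Ω : Type} [LinearOrder Ω] {S : Set QId} (h : Defines S Ω) (q : QId) :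
    Der S q.prem q.concl.1 q.concl.2 ↔ q.Valid Ω := by
  constructor
  · intro hd
    obtain ⟨G, _, _, _, _, h1⟩ := aut_lgroup Ω
    rw [← h1]
    have hS : ∀ q ∈ S, q.HoldsIn G := (h G).mpr fun q hq => (h1 q).mpr hq
    intro ρ hρ
    exact der_sound S G hS q.prem _ _ hd ρ hρ
  · intro hv
    obtain ⟨G, _, _, _, _, ρ, h1, h2, h3⟩ := der_complete S q.prem
    exact h3 _ _ ((h G).mp h1 q hv ρ h2)

/-- the judgement of a code -/
def jOf (c : QC) : Jd := eqJ c.1 c.2.1 c.2.2

theorem primrec_jOf : Primrec jOf :=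
  (Primrec.pair (Primrec.const 2) (Primrec.pair (Primrec.const []) (Primrec.pair Primrec.fst
    (Primrec.pair (Primrec.fst.comp Primrec.snd) (Primrec.snd.comp Primrec.snd)))))

/-- the codes of the members of `S` and of the axioms of `ℓ`-groups -/
def codes (S : Set QId) : Set QC := {c | ∃ q : QId, (q ∈ S ∨ q ∈ lgAx) ∧ q.code = c}

theorem enum_codes (S : Set QId) (hS : RE S) :
    ∃ g : ℕ → Option QC, Computable g ∧ ∀ c, c ∈ codes S ↔ ∃ n, g n = some c := by
  obtain ⟨g, hg, h⟩ := enum_of_re _ hS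
  let L : List QC := lgAx.map QId.code
  refine ⟨fun n => Option.casesOn (motive := fun _ => Option QC) (L[n]?) (g (n - L.length)) some,
    ?_, fun c => ?_⟩
  · refine Computable.option_casesOn (Primrec.to_comp ?_) ?_ ?_
    · exact Primrec.list_getElem?.comp (Primrec.const L) Primrec.id
    · exact hg.comp (Primrec.nat_sub.comp Primrec.id (Primrec.const L.length)).to_comp
    · exact Computable.option_some.comp Computable.snd
  · constructor
    · rintro ⟨q, hq | hq, rfl⟩
      · obtain ⟨n, hn⟩ := (h q.code).mp ⟨q, hq, rfl⟩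
        refine ⟨n + L.length, ?_⟩
        have h1 : L[n + L.length]? = none := List.getElem?_eq_none (by omega)
        simp only [h1, Nat.add_sub_cancel, hn]
      · have h1 : q.code ∈ L := List.mem_map_of_mem hq
        obtain ⟨n, hn⟩ := List.mem_iff_getElem?.mp h1
        exact ⟨n, by simp only [hn]⟩
    · rintro ⟨n, hn⟩
      cases h1 : L[n]? with
      | none =>
        simp only [h1] at hn
        obtain ⟨q, hq, hc⟩ := (h c).mpr ⟨_, hn⟩
        exact ⟨q, Or.inl hq, hc⟩
      | some d =>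
        simp only [h1, Option.some.injEq] at hn
        obtain ⟨q, hq, hc⟩ := List.mem_map.mp (List.mem_of_getElem? h1)
        exact ⟨q, Or.inr hq, hc.trans hn⟩

/-- The set of judgements derivable from an r.e. set of codes is r.e. -/
theorem re_clR (S : Set QId) (hS : RE S) : REPred (ClR (codes S)) := by
  obtain ⟨g, hg, h⟩ := enum_codes S hS
  obtain ⟨r, hr, h2⟩ := rule_enum (codes S) g hg h
  refine (cl_re r hr).of_eq fun j => ⟨fun hj => ?_, fun hj => ?_⟩
  · induction hj with
    | mk n ps c hn _ ih => exact ClR.mk ps c ((h2 ps c).mpr ⟨n, hn⟩) ih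
  · induction hj with
    | mk ps c hn _ ih =>
      obtain ⟨n, hn⟩ := (h2 ps c).mp hn
      exact Cl.mk n ps c hn ih

end Fin1

open Fin1 in
/-- No r.e. axioms for chains without descending sequences in an Archimedean class. -/
theorem not_re_of_noArchDesc (Ω : Type) [LinearOrder Ω] (hΩ : NoArchDesc Ω)
    (hna : ∃ f g : Ω ≃o Ω, f * g ≠ g * f) (S : Set QId) (hS : Defines S Ω) : ¬ RE S := by
  intro hre
  refine theory_not_re Ω hΩ hna (fun c => ClR (codes S) (jOf c)) (fun q => ?_)
    (re_comp (re_clR S hre) primrec_jOf Computable.id)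
  exact (clR_iff_der S q.prem q.concl.1 q.concl.2).trans (valid_iff_der hS q)

/-- `Ω` has a nonempty convex subset which is isomorphic to a lexicographic sum of copies of a chain
`K` indexed by the rationals. -/
def RatInterval (Ω : Type) [LinearOrder Ω] : Prop :=
  ∃ (J : Set Ω) (K : Type) (_ : LinearOrder K), J.OrdConnected ∧ Nonempty K ∧
    Nonempty (J ≃o ℚ ×ₗ K)

/-- A countable chain with such a sequence has a convex subset isomorphic to `T ×ₗ K`, for every
countable chain `T`. -/
theorem interval_of_desc {Ω : Type} [LinearOrder Ω] [Countable Ω] (h : ¬ NoArchDesc Ω)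
    (T : Type) [LinearOrder T] [Countable T] [Nonempty T] :
    ∃ (J : Set Ω) (K : Type) (_ : LinearOrder K), J.OrdConnected ∧ Nonempty K ∧
      Nonempty (J ≃o T ×ₗ K) := by
  obtain ⟨Far, a, b, hab, h1, h2, h3, h4, h5⟩ := far_data h
  obtain ⟨J, hJ, D, C, _, _, c, F, hF, hD, ⟨i⟩⟩ := decompose Far a b hab h1 h2 h3 h4 h5
  have hne : Nonempty D := hD.1
  have hcount : Countable (T ×ₗ D) := inferInstanceAs (Countable (T × D))
  obtain ⟨e, he⟩ := cantor_colour c (fun p : T ×ₗ D => c (ofLex p).2) (Set.range c) hD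
    (dn_lex c _ hD)
  obtain ⟨j⟩ := blow_iso c F e he
  obtain ⟨d⟩ := hne
  obtain ⟨x, hx⟩ := hF d
  exact ⟨J, Blow c F, inferInstance, hJ, ⟨⟨toLex (d, x), hx⟩⟩, ⟨i.trans j⟩⟩

theorem lemb_of_interval {Ω T : Type} [LinearOrder Ω] [LinearOrder T]
    (h : ∃ (J : Set Ω) (K : Type) (_ : LinearOrder K), J.OrdConnected ∧ Nonempty K ∧
      Nonempty (J ≃o T ×ₗ K)) : LEmb T Ω := by
  obtain ⟨J, K, _, hJ, hK, ⟨i⟩⟩ := h
  exact lemb_trans lemb_lex (lemb_convex J hJ i)

/-- If `Aut(T)` embeds in `Aut(Ω)` for all countable `T`, all `ℓ`-groups satisfy the quasi-identities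
valid in `Aut(Ω)`. -/
theorem all_of_lemb {Ω : Type} [LinearOrder Ω]
    (h : ∀ (T : Type) [LinearOrder T] [Countable T] [Nonempty T], LEmb T Ω) :
    Defines ∅ Ω := by
  intro G _ _ _ _
  refine ⟨fun _ q hq => ?_, fun _ q hq => absurd hq (Set.notMem_empty _)⟩
  by_contra hf
  obtain ⟨M, _, _, _, _, _, hM⟩ := fails_countable q hf
  obtain ⟨T, _, hc, hn, hT⟩ := holland q hM
  exact hT (valid_of_lemb (h T) q hq)

theorem re_empty : RE ∅ := by
  have h : REPred fun _ : List (List ℕ × List ℕ) × (List ℕ × List ℕ) => False :=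
    (ComputablePred.computable_iff.2 ⟨fun _ => false, Computable.const false, by simp⟩).to_re
  refine h.of_eq fun c => ⟨fun h => h.elim, ?_⟩
  rintro ⟨q, hq, -⟩
  exact absurd hq (Set.notMem_empty _)

theorem not_noArchDesc_rat : ¬ NoArchDesc ℚ := by
  intro h
  refine h (fun j => OrderIso.addRight ((1 / 2 : ℚ) ^ j)) 0 (fun j x => ?_) (fun j => ?_)
    (fun j => ?_) (fun j => ⟨2, ?_⟩)
  · simp only [OrderIso.addRight_apply]
    have : (0 : ℚ) < (1 / 2) ^ j := by positivity
    linarith
  · simp only [OrderIso.addRight_apply]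
    have : (0 : ℚ) < (1 / 2) ^ j := by positivity
    linarith
  · simp only [OrderIso.addRight_apply]
    rw [pow_succ]
    linarith
  · show (0 : ℚ) + (1 / 2) ^ j ≤ (0 + (1 / 2) ^ (j + 1)) + (1 / 2) ^ (j + 1)
    rw [pow_succ]
    linarith

/-- If `Aut(ℚ)` embeds in `Aut(Ω)`, the quasi-variety consists of all `ℓ`-groups. -/
theorem all_of_lemb_rat {Ω : Type} [LinearOrder Ω] (h : LEmb ℚ Ω) : Defines ∅ Ω :=
  all_of_lemb fun T => lemb_trans (lemb_of_interval (interval_of_desc not_noArchDesc_rat T)) h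

theorem OrbitScattered.noArchDesc {Ω : Type} [LinearOrder Ω] (h : OrbitScattered Ω) :
    NoArchDesc Ω := fun k ω h1 h2 h3 _ => no_descent h k ω h1 h2 h3

end Pool.Agent.H978.QV
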