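import Pool.Agent.H978.QV.Defs3
import Pool.Agent.H978.QV.NoDescent

/-!
# Bumps of a chain with scattered orbits, without configurations: no bump has an image reaching above it
-/

set_option autoImplicit false

namespace Pool.Agent.H978.QV

variable {Ω : Type} [LinearOrder Ω]

namespace Up

theorem ap (f g : Ω ≃o Ω) (x : Ω) : (f * g) x = f (g x) := rfl

theorem inv_ap (f : Ω ≃o Ω) (x : Ω) : f⁻¹ x = f.symm x := rfl

theorem pow_fix {h : Ω ≃o Ω} {z : Ω} (hz : h z = z) (n : ℕ) : (h ^ n) z = z := by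
  induction n with
  | zero => rfl
  | succ n ih => rw [pow_succ, ap, hz, ih]

theorem zs (h : Ω ≃o Ω) (n : ℤ) (x : Ω) : (h ^ (n + 1)) x = h ((h ^ n) x) := by
  rw [add_comm, zpow_one_add, ap]

theorem zs' (h : Ω ≃o Ω) (n : ℤ) (x : Ω) : (h ^ n) (h x) = h ((h ^ n) x) := by
  rw [← zs, zpow_add_one, ap]

/-- the support of an automorphism with one bump is convex -/
theorem convex {h : Ω ≃o Ω} (hh : OneBump h) {x z y : Ω} (hx : h x ≠ x) (hy : h y ≠ y)
    (hxz : x ≤ z) (hzy : z ≤ y) : h z ≠ z := by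
  intro hz
  obtain ⟨n, hn⟩ := hh.2.2 x y hx hy
  have h1 : (h ^ n) x ≤ (h ^ n) z := (h ^ n).monotone hxz
  rw [pow_fix hz] at h1
  exact absurd (hn.trans_le h1) (not_lt.2 hzy)

/-- without configurations every automorphism maps some point of the support into the support -/
theorem meet (hc : ¬ Config Ω) {h : Ω ≃o Ω} (hh : OneBump h) (v : Ω ≃o Ω) :
    ∃ x, h x ≠ x ∧ h (v x) ≠ v x := by
  by_contra hno
  have hno' : ∀ x, h x ≠ x → h (v x) = v x := by
    intro x hx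
    by_contra hx'
    exact hno ⟨x, hx, hx'⟩
  have hno2 : ∀ x, h x ≠ x → h (v.symm x) = v.symm x := by
    intro x hx
    by_contra hx'
    have h1 := hno' _ hx'
    rw [v.apply_symm_apply] at h1
    exact hx h1
  obtain ⟨x0, hx0⟩ := hh.2.1
  rcases le_total x0 (v x0) with hle | hle
  · refine hc ⟨v, h, hh.1, hh.2.1, fun x y hx hy => ?_⟩
    by_contra hxy
    rw [not_lt] at hxy
    have h1 : x ≤ v x0 := by
      by_contra h2
      rw [not_le] at h2
      exact convex hh hx0 hx hle h2.le (hno' x0 hx0)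
    have h3 : y ≤ v.symm x := by
      rw [OrderIso.le_symm_apply]; exact hxy
    have h4 : v.symm x ≤ x0 := by
      rw [OrderIso.symm_apply_le]; exact h1
    exact convex hh hy hx0 h3 h4 (hno2 x hx)
  · refine hc ⟨v.symm, h, hh.1, hh.2.1, fun x y hx hy => ?_⟩
    by_contra hxy
    rw [not_lt] at hxy
    have h1 : v x0 ≤ y := by
      by_contra h2
      rw [not_le] at h2
      exact convex hh hy hx0 h2.le hle (hno' x0 hx0)
    have h3 : x0 ≤ v.symm y := by
      rw [OrderIso.le_symm_apply]; exact h1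
    exact convex hh hx0 hx h3 hxy (hno2 y hy)

/-- conjugates of an automorphism with one bump have one bump -/
theorem conj_oneBump {h : Ω ≃o Ω} (hh : OneBump h) (w : Ω ≃o Ω) : OneBump (w * h * w⁻¹) := by
  have e : ∀ x, (w * h * w⁻¹) x = w (h (w.symm x)) := fun x => rfl
  have em : ∀ x, (w * h * w⁻¹) x ≠ x → h (w.symm x) ≠ w.symm x := by
    intro x hx h1
    apply hx
    rw [e, h1, w.apply_symm_apply]
  refine ⟨fun x => ?_, ?_, fun x y hx hy => ?_⟩
  · rw [e, ← OrderIso.symm_apply_le]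
    exact hh.1 _
  · obtain ⟨x, hx⟩ := hh.2.1
    refine ⟨w x, fun h1 => hx ?_⟩
    rw [e, w.symm_apply_apply] at h1
    exact w.injective h1
  · obtain ⟨n, hn⟩ := hh.2.2 _ _ (em x hx) (em y hy)
    refine ⟨n, ?_⟩
    rw [conj_pow]
    have e2 : (w * h ^ n * w⁻¹) x = w ((h ^ n) (w.symm x)) := rfl
    rw [e2]
    have h1 := w.lt_iff_lt.2 hn
    rw [w.apply_symm_apply] at h1
    exact h1

/-- a statement on integers: a change of truth value -/
theorem jump (P : ℤ → Prop) (m : ℤ) (hm : P m) (M : ℤ) (hM : ¬ P M)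
    (hmono : ∀ n, P (n + 1) → P n) : ∃ n, P n ∧ ¬ P (n + 1) := by
  by_contra hno
  have hup : ∀ n, P n → P (n + 1) := by
    intro n hn
    by_contra hn'
    exact hno ⟨n, hn, hn'⟩
  have h1 : ∀ k : ℕ, P (m + k) := by
    intro k
    induction k with
    | zero => simpa using hm
    | succ k ih =>
      have := hup _ ih
      rw [add_assoc] at this
      exact_mod_cast this
  have h2 : ∀ k : ℕ, P (m - k) := by
    intro k
    induction k with
    | zero => simpa using hm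
    | succ k ih =>
      apply hmono
      have e : m - ((k + 1 : ℕ) : ℤ) + 1 = m - k := by push_cast; ring
      rw [e]
      exact ih
  rcases le_total m M with h3 | h3
  · apply hM
    have h4 := h1 (M - m).toNat
    rw [Int.toNat_of_nonneg (by omega)] at h4
    have e : m + (M - m) = M := by ring
    rwa [e] at h4
  · apply hM
    have h4 := h2 (m - M).toNat
    rw [Int.toNat_of_nonneg (by omega)] at h4
    have e : m - (m - M) = M := by ring
    rwa [e] at h4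

/-- one step of the descent -/
theorem step (hc : ¬ Config Ω) {h g : Ω ≃o Ω} {y ω : Ω} (hh : OneBump h)
    (hy : h (g.symm y) ≠ g.symm y) (hup : ∀ x, h x ≠ x → x < y) (hω : h ω ≠ ω) :
    ∃ w : Ω ≃o Ω, (w * h * w⁻¹) ω ≠ ω ∧ (w * h * w⁻¹) ((w * h * w⁻¹) ω) ≤ h ω := by
  have hinj : ∀ z, h z ≠ z → h (h z) ≠ h z := fun z hz h1 => hz (h.injective h1)
  have hJconv : ∀ a z b, h (g a) ≠ g a → h (g b) ≠ g b → a ≤ z → z ≤ b → h (g z) ≠ g z :=
    fun a z b ha hb h1 h2 => convex hh ha hb (g.monotone h1) (g.monotone h2)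
  have hJy : ∀ a, h (g a) ≠ g a → a < g.symm y := by
    intro a ha
    have h1 := hup _ ha
    rw [← g.lt_iff_lt, g.apply_symm_apply]
    exact h1
  have hP1 : ∃ m : ℤ, ∀ a, h (g a) ≠ g a → (h ^ m) a ≤ h ω := by
    obtain ⟨m, hm⟩ := hh.2.2 (h ω) (g.symm y) (hinj _ hω) hy
    refine ⟨-(m : ℤ), fun a ha => ?_⟩
    have h1 : a < (h ^ m) (h ω) := (hJy a ha).trans hm
    rw [zpow_neg, zpow_natCast, inv_ap, OrderIso.symm_apply_le]
    exact h1.le
  have hP2 : ∃ m : ℤ, ¬ ∀ a, h (g a) ≠ g a → (h ^ m) a ≤ h ω := by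
    obtain ⟨z, hz1, hz2⟩ := meet hc hh g
    obtain ⟨m, hm⟩ := hh.2.2 z (h ω) hz1 (hinj _ hω)
    refine ⟨(m : ℤ), fun hP => ?_⟩
    have h1 := hP z hz2
    rw [zpow_natCast] at h1
    exact absurd hm (not_lt.2 h1)
  obtain ⟨m, hm⟩ := hP1
  obtain ⟨M, hM⟩ := hP2
  obtain ⟨n, hn, hn'⟩ := jump (fun m : ℤ => ∀ a, h (g a) ≠ g a → (h ^ m) a ≤ h ω) m hm M hM
    (fun n hn a ha => by
      refine le_trans ?_ (hn a ha)
      rw [zs]
      exact hh.1 _)
  have hn' : ∃ a, h (g a) ≠ g a ∧ h ω < (h ^ (n + 1)) a := by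
    by_contra hno
    apply hn'
    intro a ha
    by_contra h1
    exact hno ⟨a, ha, not_le.1 h1⟩
  obtain ⟨a, ha, haω⟩ := hn'
  rw [zs, h.lt_iff_lt] at haω
  obtain ⟨c', hc1, hc2⟩ := meet hc hh (g * h * g⁻¹)
  have hc1' : h (g (g.symm c')) ≠ g (g.symm c') := by
    rw [g.apply_symm_apply]; exact hc1
  have hc2' : h (g (h (g.symm c'))) ≠ g (h (g.symm c')) := hc2
  have hcω : (h ^ n) (g.symm c') ≤ ω := by
    have h1 := hn _ hc2'
    rw [zs', h.le_iff_le] at h1
    exact h1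
  have hω' : h (g ((h ^ n).symm ω)) ≠ g ((h ^ n).symm ω) := by
    refine hJconv _ _ _ hc1' ha ?_ ?_
    · rw [OrderIso.le_symm_apply]; exact hcω
    · rw [OrderIso.symm_apply_le]; exact haω.le
  refine ⟨h ^ n * g⁻¹, ?_, ?_⟩
  · intro h1
    have e : (h ^ n * g⁻¹ * h * (h ^ n * g⁻¹)⁻¹) ω =
        (h ^ n) (g.symm (h (g ((h ^ n).symm ω)))) := rfl
    rw [e] at h1
    apply hω'
    have h2 : g.symm (h (g ((h ^ n).symm ω))) = (h ^ n).symm ω := by
      rw [OrderIso.eq_symm_apply]; exact h1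
    have h3 := congrArg g h2
    rwa [g.apply_symm_apply] at h3
  · have e : (h ^ n * g⁻¹ * h * (h ^ n * g⁻¹)⁻¹) ((h ^ n * g⁻¹ * h * (h ^ n * g⁻¹)⁻¹) ω) =
        (h ^ n) (g.symm (h (h (g ((h ^ n).symm ω))))) := by
      have e1 : ∀ x, (h ^ n * g⁻¹ * h * (h ^ n * g⁻¹)⁻¹) x =
          (h ^ n) (g.symm (h (g ((h ^ n).symm x)))) := fun x => rfl
      rw [e1, e1, OrderIso.symm_apply_apply, g.apply_symm_apply]
    rw [e]
    apply hn
    rw [g.apply_symm_apply]
    exact hinj _ (hinj _ hω')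

end Up

/-- UP.  Scattered orbits and no configuration: for `h` with one bump and any `g`, no point of `g (supp h)`
is above all of `supp h`. -/
theorem no_up (hΩ : OrbitScattered Ω) (hc : ¬ Config Ω) (h : Ω ≃o Ω) (hh : OneBump h) (g : Ω ≃o Ω)
    (y : Ω) (hy : h (g.symm y) ≠ g.symm y) (hup : ∀ x, h x ≠ x → x < y) : False := by
  obtain ⟨ω, hω⟩ := hh.2.1
  let P : (Ω ≃o Ω) × (Ω ≃o Ω) × Ω → Prop := fun t =>
    OneBump t.1 ∧ t.1 (t.2.1.symm t.2.2) ≠ t.2.1.symm t.2.2 ∧ (∀ x, t.1 x ≠ x → x < t.2.2) ∧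
      t.1 ω ≠ ω
  have hstep : ∀ t : {t // P t}, ∃ t' : {t // P t}, t'.1.1 (t'.1.1 ω) ≤ t.1.1 ω := by
    rintro ⟨⟨h, g, y⟩, hh, hy, hup, hω⟩
    obtain ⟨w, hw1, hw2⟩ := Up.step hc hh hy hup hω
    refine ⟨⟨(w * h * w⁻¹, w * g * w⁻¹, w y), Up.conj_oneBump hh w, ?_, ?_, hw1⟩, hw2⟩
    · have e1 : (w * g * w⁻¹).symm (w y) = w (g.symm (w.symm (w y))) := rfl
      have e2 : ∀ x, (w * h * w⁻¹) x = w (h (w.symm x)) := fun x => rfl
      show (w * h * w⁻¹) ((w * g * w⁻¹).symm (w y)) ≠ (w * g * w⁻¹).symm (w y)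
      rw [e1, e2, w.symm_apply_apply, w.symm_apply_apply]
      exact fun h1 => hy (w.injective h1)
    · intro x hx
      show x < w y
      have e2 : ∀ x, (w * h * w⁻¹) x = w (h (w.symm x)) := fun x => rfl
      have h1 : h (w.symm x) ≠ w.symm x := by
        intro h1
        apply hx
        show (w * h * w⁻¹) x = x
        rw [e2, h1, w.apply_symm_apply]
      have h2 := w.lt_iff_lt.2 (hup _ h1)
      rw [w.apply_symm_apply] at h2
      exact h2
  choose f hf using hstep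
  let s : ℕ → {t // P t} := fun j => f^[j] ⟨(h, g, y), hh, hy, hup, hω⟩
  refine no_descent hΩ (fun j => (s j).1.1) ω (fun j x => (s j).2.1.1 x)
    (fun j => lt_of_le_of_ne ((s j).2.1.1 ω) (s j).2.2.2.2.symm) fun j => ?_
  have e : s (j + 1) = f (s j) := Function.iterate_succ_apply' f j _
  show (s (j + 1)).1.1 ((s (j + 1)).1.1 ω) ≤ (s j).1.1 ω
  rw [e]
  exact hf (s j)

end Pool.Agent.H978.QV
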